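import Mathlib
import Pool.Agent.Helper20.HypBilin
import Pool.Agent.Helper20.SmallKernel

set_option autoImplicit false

namespace Pool.Agent.Helper20.H3

open Polynomial

/-- polynomials in two variables: the inner variable is `x`, the outer one is `y` -/
abbrev P2 (R : Type*) [CommRing R] := Polynomial (Polynomial R)

section
variable {R : Type*} [CommRing R]

/-- coefficient of `x^i y^j` -/
noncomputable def cf (f : P2 R) (i j : ℕ) : R := (f.coeff j).coeff i

/-- degree in `x` less than `n1`, degree in `y` less than `n2` -/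
def SB (n1 n2 : ℕ) (f : P2 R) : Prop := ∀ i j, cf f i j ≠ 0 → i < n1 ∧ j < n2

/-- the hyperbola `x y + α x + β y + γ` -/
noncomputable def FF (α β γ : R) : P2 R :=
  C X * X + C (C α * X) + C (C β) * X + C (C γ)

/-- the polynomial with given coefficients -/
noncomputable def toP (n1 n2 : ℕ) (u : Fin n1 × Fin n2 → R) : P2 R :=
  ∑ e, monomial (e.2 : ℕ) (monomial (e.1 : ℕ) (u e))

theorem cf_ext {f g : P2 R} (h : ∀ i j, cf f i j = cf g i j) : f = g := by
  ext j i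
  exact h i j

@[simp] theorem cf_zero (i j : ℕ) : cf (0 : P2 R) i j = 0 := by simp [cf]

@[simp] theorem cf_add (f g : P2 R) (i j : ℕ) : cf (f + g) i j = cf f i j + cf g i j := by
  simp [cf]

@[simp] theorem cf_sub (f g : P2 R) (i j : ℕ) : cf (f - g) i j = cf f i j - cf g i j := by
  simp [cf]

@[simp] theorem cf_neg (f : P2 R) (i j : ℕ) : cf (-f) i j = - cf f i j := by
  simp [cf]

@[simp] theorem cf_CC_mul (c : R) (f : P2 R) (i j : ℕ) : cf (C (C c) * f) i j = c * cf f i j := by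
  simp [cf]

theorem cf_sum {ι : Type*} (s : Finset ι) (f : ι → P2 R) (i j : ℕ) :
    cf (∑ a ∈ s, f a) i j = ∑ a ∈ s, cf (f a) i j := by
  simp [cf]

theorem cf_mul (f g : P2 R) (i j : ℕ) : cf (f * g) i j =
    ∑ a ∈ Finset.HasAntidiagonal.antidiagonal j,
      ∑ b ∈ Finset.HasAntidiagonal.antidiagonal i, cf f b.1 a.1 * cf g b.2 a.2 := by
  unfold cf
  rw [coeff_mul, finsetSum_coeff]
  apply Finset.sum_congr rfl
  intro a _
  rw [coeff_mul]

theorem SB.mono {n1 n2 m1 m2 : ℕ} {f : P2 R} (h : SB n1 n2 f) (h1 : n1 ≤ m1) (h2 : n2 ≤ m2) :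
    SB m1 m2 f := fun i j hc => ⟨(h i j hc).1.trans_le h1, (h i j hc).2.trans_le h2⟩

theorem SB.zero_of {n1 n2 : ℕ} {f : P2 R} (h : SB n1 n2 f) {i j : ℕ} (hij : ¬ (i < n1 ∧ j < n2)) :
    cf f i j = 0 := by
  by_contra hc
  exact hij (h i j hc)

theorem SB_zero (n1 n2 : ℕ) : SB n1 n2 (0 : P2 R) := fun i j h => absurd (cf_zero i j) h

theorem SB.add {n1 n2 : ℕ} {f g : P2 R} (hf : SB n1 n2 f) (hg : SB n1 n2 g) :
    SB n1 n2 (f + g) := by
  intro i j h
  by_contra hc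
  apply h
  rw [cf_add, hf.zero_of hc, hg.zero_of hc, add_zero]

theorem SB.sub {n1 n2 : ℕ} {f g : P2 R} (hf : SB n1 n2 f) (hg : SB n1 n2 g) :
    SB n1 n2 (f - g) := by
  intro i j h
  by_contra hc
  apply h
  rw [cf_sub, hf.zero_of hc, hg.zero_of hc, sub_zero]

theorem SB.CC_mul {n1 n2 : ℕ} {f : P2 R} (c : R) (hf : SB n1 n2 f) : SB n1 n2 (C (C c) * f) := by
  intro i j h
  by_contra hc
  apply h
  rw [cf_CC_mul, hf.zero_of hc, mul_zero]

theorem SB.mul {n1 n2 m1 m2 : ℕ} {f g : P2 R} (hf : SB n1 n2 f) (hg : SB m1 m2 g) :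
    SB (n1 + m1 - 1) (n2 + m2 - 1) (f * g) := by
  intro i j h
  rw [cf_mul] at h
  obtain ⟨a, ha, h1⟩ := Finset.exists_ne_zero_of_sum_ne_zero h
  obtain ⟨b, hb, h2⟩ := Finset.exists_ne_zero_of_sum_ne_zero h1
  have h3 := hf b.1 a.1 (left_ne_zero_of_mul h2)
  have h4 := hg b.2 a.2 (right_ne_zero_of_mul h2)
  rw [Finset.HasAntidiagonal.mem_antidiagonal] at ha hb
  omega

theorem cf_toP (n1 n2 : ℕ) (u : Fin n1 × Fin n2 → R) (i j : ℕ) :
    cf (toP n1 n2 u) i j = if h : i < n1 ∧ j < n2 then u (⟨i, h.1⟩, ⟨j, h.2⟩) else 0 := by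
  unfold toP
  rw [cf_sum]
  have : ∀ e : Fin n1 × Fin n2, cf (monomial (e.2 : ℕ) (monomial (e.1 : ℕ) (u e))) i j =
      if (e.1 : ℕ) = i ∧ (e.2 : ℕ) = j then u e else 0 := by
    intro e
    unfold cf
    rw [coeff_monomial]
    by_cases h2 : (e.2 : ℕ) = j
    · rw [if_pos h2, coeff_monomial]
      by_cases h1 : (e.1 : ℕ) = i
      · rw [if_pos h1, if_pos ⟨h1, h2⟩]
      · rw [if_neg h1, if_neg (fun h => h1 h.1)]
    · rw [if_neg h2, if_neg (fun h => h2 h.2), coeff_zero]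
  simp only [this]
  split_ifs with h
  · rw [Finset.sum_eq_single (⟨i, h.1⟩, ⟨j, h.2⟩)]
    · simp
    · intro e _ hne
      rw [if_neg]
      rintro ⟨h1, h2⟩
      apply hne
      ext <;> simp [h1, h2]
    · intro h'; exact absurd (Finset.mem_univ _) h'
  · apply Finset.sum_eq_zero
    intro e _
    rw [if_neg]
    rintro ⟨h1, h2⟩
    apply h
    rw [← h1, ← h2]
    exact ⟨e.1.2, e.2.2⟩

theorem SB_toP (n1 n2 : ℕ) (u : Fin n1 × Fin n2 → R) : SB n1 n2 (toP n1 n2 u) := by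
  intro i j h
  rw [cf_toP] at h
  by_contra hc
  rw [dif_neg hc] at h
  exact h rfl

theorem toP_cf {n1 n2 : ℕ} {f : P2 R} (hf : SB n1 n2 f) :
    toP n1 n2 (fun e => cf f e.1 e.2) = f := by
  apply cf_ext
  intro i j
  rw [cf_toP]
  split_ifs with h
  · rfl
  · exact (hf.zero_of h).symm

theorem toP_injective (n1 n2 : ℕ) : Function.Injective (toP (R := R) n1 n2) := by
  intro u v h
  ext e
  have := congrArg (fun f => cf f e.1 e.2) h
  simp only [cf_toP] at this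
  simpa using this

theorem toP_add (n1 n2 : ℕ) (u v : Fin n1 × Fin n2 → R) :
    toP n1 n2 (u + v) = toP n1 n2 u + toP n1 n2 v := by
  apply cf_ext
  intro i j
  rw [cf_add, cf_toP, cf_toP, cf_toP]
  split_ifs <;> simp

theorem toP_smul (n1 n2 : ℕ) (c : R) (u : Fin n1 × Fin n2 → R) :
    toP n1 n2 (c • u) = C (C c) * toP n1 n2 u := by
  apply cf_ext
  intro i j
  rw [cf_CC_mul, cf_toP, cf_toP]
  split_ifs <;> simp

theorem ev_toP (n1 n2 : ℕ) (u : Fin n1 × Fin n2 → R) (x y : R) :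
    evalEval x y (toP n1 n2 u) = ∑ e, u e * (x ^ (e.1 : ℕ) * y ^ (e.2 : ℕ)) := by
  unfold toP
  rw [evalEval_finsetSum]
  apply Finset.sum_congr rfl
  intro e _
  simp only [evalEval, eval_monomial, ← C_pow, eval_mul, eval_C]
  ring

@[simp] theorem ev_FF (α β γ x y : R) :
    evalEval x y (FF α β γ) = x * y + α * x + β * y + γ := by
  simp only [FF, evalEval, eval_add, eval_mul, eval_C, eval_X]

theorem cf_FF (α β γ : R) (i j : ℕ) : cf (FF α β γ) i j =
    (if i = 1 ∧ j = 1 then 1 else 0) + (if i = 1 ∧ j = 0 then α else 0)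
      + (if i = 0 ∧ j = 1 then β else 0) + (if i = 0 ∧ j = 0 then γ else 0) := by
  unfold FF cf
  rcases j with _ | _ | j
  · rcases i with _ | _ | i <;> simp [coeff_X, coeff_C]
  · rcases i with _ | _ | i <;> simp [coeff_X, coeff_C]
  · simp [coeff_X, coeff_C]

theorem SB_FF (α β γ : R) : SB 2 2 (FF α β γ) := by
  intro i j h
  rw [cf_FF] at h
  by_contra hc
  apply h
  rw [if_neg (by omega), if_neg (by omega), if_neg (by omega), if_neg (by omega)]
  ring

theorem SB_FF_pow (α β γ : R) (k : ℕ) : SB (k + 1) (k + 1) (FF α β γ ^ k) := by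
  induction k with
  | zero =>
    intro i j h
    by_contra hc
    apply h
    rw [pow_zero]
    unfold cf
    rw [coeff_one]
    split_ifs with h0
    · rw [coeff_one, if_neg (by omega)]
    · simp
  | succ k ih =>
    rw [pow_succ]
    have := ih.mul (SB_FF α β γ)
    exact this.mono (by omega) (by omega)

/-- swapping the variables -/
noncomputable def sw (f : P2 R) : P2 R := Bivariate.swap f

@[simp] theorem sw_sw (f : P2 R) : sw (sw f) = f := Bivariate.swap_swap_apply f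

@[simp] theorem sw_mul (f g : P2 R) : sw (f * g) = sw f * sw g := map_mul _ f g

@[simp] theorem sw_add (f g : P2 R) : sw (f + g) = sw f + sw g := map_add _ f g

@[simp] theorem sw_pow (f : P2 R) (n : ℕ) : sw (f ^ n) = sw f ^ n := map_pow _ f n

@[simp] theorem sw_zero : sw (0 : P2 R) = 0 := map_zero _

@[simp] theorem sw_CC (r : R) : sw (C (C r)) = C (C r) := Bivariate.swap_C_C r

theorem cf_sw (f : P2 R) (i j : ℕ) : cf (sw f) i j = cf f j i := by
  induction f using Polynomial.induction_on' with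
  | add p q hp hq => rw [sw_add, cf_add, cf_add, hp, hq]
  | monomial n p =>
    induction p using Polynomial.induction_on' with
    | add p q hp hq => rw [map_add, sw_add, cf_add, cf_add, hp, hq]
    | monomial m r =>
      unfold sw cf
      rw [Bivariate.swap_monomial_monomial, coeff_monomial, coeff_monomial]
      by_cases h1 : m = j
      · by_cases h2 : n = i
        · rw [if_pos h1, if_pos h2, coeff_monomial, coeff_monomial, if_pos h1, if_pos h2]
        · rw [if_pos h1, if_neg h2, coeff_monomial, if_neg h2, coeff_zero]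
      · by_cases h2 : n = i
        · rw [if_neg h1, if_pos h2, coeff_zero, coeff_monomial, if_neg h1]
        · rw [if_neg h1, if_neg h2, coeff_zero, coeff_zero]

theorem ev_sw (f : P2 R) (x y : R) : evalEval x y (sw f) = evalEval y x f := by
  have := Bivariate.aevalAeval_swap (R := R) (A := R) x y f
  rw [coe_aevalAeval_eq_evalEval, coe_aevalAeval_eq_evalEval] at this
  exact this

theorem SB.sw {n1 n2 : ℕ} {f : P2 R} (h : SB n1 n2 f) : SB n2 n1 (sw f) := by
  intro i j hc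
  rw [cf_sw] at hc
  exact (h j i hc).symm

theorem sw_FF (α β γ : R) : sw (FF α β γ) = FF β α γ := by
  apply cf_ext
  intro i j
  rw [cf_sw, cf_FF, cf_FF]
  rcases i with _ | _ | i <;> rcases j with _ | _ | j <;> simp

end

/-- reduction modulo `p` -/
noncomputable def red (p : ℕ) : P2 ℤ →+* P2 (ZMod p) :=
  mapRingHom (mapRingHom (Int.castRingHom (ZMod p)))

@[simp] theorem cf_red (p : ℕ) (f : P2 ℤ) (i j : ℕ) : cf (red p f) i j = ((cf f i j : ℤ) : ZMod p) := by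
  simp [red, cf]

theorem SB.red {n1 n2 : ℕ} {f : P2 ℤ} (p : ℕ) (h : SB n1 n2 f) : SB n1 n2 (red p f) := by
  intro i j hc
  rw [cf_red] at hc
  apply h
  intro h0
  rw [h0] at hc
  simp at hc

theorem red_FF (p : ℕ) (α β γ : ℤ) :
    red p (FF α β γ) = FF (α : ZMod p) (β : ZMod p) (γ : ZMod p) := by
  apply cf_ext
  intro i j
  rw [cf_red, cf_FF, cf_FF]
  split_ifs <;> simp

theorem red_CC (p : ℕ) (c : ℤ) : red p (C (C c)) = C (C (c : ZMod p)) := by
  simp [red]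

theorem red_sw (p : ℕ) (f : P2 ℤ) : red p (sw f) = sw (red p f) := by
  apply cf_ext
  intro i j
  rw [cf_red, cf_sw, cf_sw, cf_red]

theorem ev_red (p : ℕ) (f : P2 ℤ) (x y : ℤ) :
    evalEval (x : ZMod p) (y : ZMod p) (red p f) = ((evalEval x y f : ℤ) : ZMod p) := by
  have := map_mapRingHom_evalEval (p := f) (Int.castRingHom (ZMod p)) x y
  simpa [red] using this

theorem exists_lift (p : ℕ) [NeZero p] {n1 n2 : ℕ} {h : P2 (ZMod p)} (hh : SB n1 n2 h) :
    ∃ h0 : P2 ℤ, SB n1 n2 h0 ∧ red p h0 = h := by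
  refine ⟨toP n1 n2 (fun e => ((cf h e.1 e.2).val : ℤ)), SB_toP _ _ _, ?_⟩
  apply cf_ext
  intro i j
  rw [cf_red, cf_toP]
  split_ifs with hc
  · simp
  · rw [hh.zero_of hc]; simp

theorem red_eq_zero (p : ℕ) {n1 n2 : ℕ} {f : P2 ℤ} (hf : SB n1 n2 f) (h : red p f = 0) :
    ∃ w : P2 ℤ, SB n1 n2 w ∧ f = C (C (p : ℤ)) * w := by
  have hd : ∀ i j, (p : ℤ) ∣ cf f i j := by
    intro i j
    have := congrArg (fun g => cf g i j) h
    simp only [cf_red, cf_zero] at this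
    exact (ZMod.intCast_zmod_eq_zero_iff_dvd _ _).mp this
  choose q hq using hd
  refine ⟨toP n1 n2 (fun e => q e.1 e.2), SB_toP _ _ _, ?_⟩
  apply cf_ext
  intro i j
  rw [cf_CC_mul, cf_toP]
  split_ifs with hc
  · exact hq i j
  · rw [hf.zero_of hc, mul_zero]

/-- the size of a polynomial of bidegree at most `(3,3)` on the box of side `M` -/
noncomputable def tn (M : ℕ) (f : P2 ℤ) : ℕ :=
  (Finset.univ : Finset (Fin 4 × Fin 4)).sup
    (fun e => (cf f e.1 e.2).natAbs * M ^ ((e.1 : ℕ) + (e.2 : ℕ)))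

theorem le_tn (M : ℕ) (f : P2 ℤ) {i j : ℕ} (hi : i < 4) (hj : j < 4) :
    (cf f i j).natAbs * M ^ (i + j) ≤ tn M f :=
  Finset.le_sup (f := fun e : Fin 4 × Fin 4 =>
    (cf f e.1 e.2).natAbs * M ^ ((e.1 : ℕ) + (e.2 : ℕ))) (Finset.mem_univ (⟨i, hi⟩, ⟨j, hj⟩))

theorem exists_tn (M : ℕ) (f : P2 ℤ) : ∃ i j : ℕ, i < 4 ∧ j < 4 ∧
    tn M f = (cf f i j).natAbs * M ^ (i + j) := by
  obtain ⟨e, _, he⟩ := Finset.exists_mem_eq_sup (Finset.univ : Finset (Fin 4 × Fin 4))
    ⟨(0, 0), Finset.mem_univ _⟩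
    (fun e => (cf f e.1 e.2).natAbs * M ^ ((e.1 : ℕ) + (e.2 : ℕ)))
  exact ⟨e.1, e.2, e.1.2, e.2.2, he⟩

theorem tn_sw (M : ℕ) (f : P2 ℤ) : tn M (sw f) = tn M f := by
  have key : ∀ g : P2 ℤ, tn M g ≤ tn M (sw g) := by
    intro g
    obtain ⟨i, j, hi, hj, h⟩ := exists_tn M g
    rw [h, add_comm i j, ← cf_sw g j i]
    exact le_tn M (sw g) hj hi
  apply le_antisymm
  · have := key (sw f)
    rwa [sw_sw] at this
  · exact key f

/-- the size of a one variable polynomial of degree at most `3` -/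
noncomputable def n1 (M : ℕ) (L : Polynomial ℤ) : ℕ :=
  (Finset.univ : Finset (Fin 4)).sup (fun i => (L.coeff i).natAbs * M ^ (i : ℕ))

theorem le_n1 (M : ℕ) (L : Polynomial ℤ) {i : ℕ} (hi : i < 4) :
    (L.coeff i).natAbs * M ^ i ≤ n1 M L :=
  Finset.le_sup (f := fun e : Fin 4 => (L.coeff e).natAbs * M ^ (e : ℕ))
    (Finset.mem_univ (⟨i, hi⟩))

theorem exists_n1 (M : ℕ) (L : Polynomial ℤ) : ∃ i : ℕ, i < 4 ∧
    n1 M L = (L.coeff i).natAbs * M ^ i := by
  obtain ⟨e, _, he⟩ := Finset.exists_mem_eq_sup (Finset.univ : Finset (Fin 4))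
    ⟨0, Finset.mem_univ _⟩ (fun e => (L.coeff e).natAbs * M ^ (e : ℕ))
  exact ⟨e, e.2, he⟩

theorem n1_le_tn (M : ℕ) (f : P2 ℤ) {b : ℕ} (hb : b < 4) : M ^ b * n1 M (f.coeff b) ≤ tn M f := by
  obtain ⟨i, hi, h⟩ := exists_n1 M (f.coeff b)
  rw [h]
  have := le_tn M f hi hb
  unfold cf at this
  calc M ^ b * (((f.coeff b).coeff i).natAbs * M ^ i)
      = ((f.coeff b).coeff i).natAbs * M ^ (i + b) := by rw [pow_add]; ring
    _ ≤ _ := this

/-- vectors modulo `q` having an integral lift whose scalar products with all vectors of `V` are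
divisible by `q^k` -/
def LiftG (q : ℕ) {τ : Type*} [Fintype τ] (V : Set (τ → ℤ)) (k : ℕ) :
    Submodule (ZMod q) (τ → ZMod q) where
  carrier := {u | ∃ U : τ → ℤ, (∀ e, ((U e : ℤ) : ZMod q) = u e) ∧
    ∀ v ∈ V, (q : ℤ) ^ k ∣ ∑ e, U e * v e}
  add_mem' := by
    rintro a b ⟨U, hU, hU'⟩ ⟨W, hW, hW'⟩
    refine ⟨U + W, ?_, ?_⟩
    · intro e; simp [hU e, hW e]
    · intro v hv
      have : ∑ e, (U + W) e * v e = ∑ e, U e * v e + ∑ e, W e * v e := by
        rw [← Finset.sum_add_distrib]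
        apply Finset.sum_congr rfl
        intro e _
        simp only [Pi.add_apply]; ring
      rw [this]
      exact dvd_add (hU' v hv) (hW' v hv)
  zero_mem' := ⟨0, by simp, by simp⟩
  smul_mem' := by
    rintro c a ⟨U, hU, hU'⟩
    obtain ⟨c0, rfl⟩ := ZMod.intCast_surjective c
    refine ⟨fun e => c0 * U e, ?_, ?_⟩
    · intro e; simp [hU e]
    · intro v hv
      have : ∑ e, c0 * U e * v e = c0 * ∑ e, U e * v e := by
        rw [Finset.mul_sum]
        apply Finset.sum_congr rfl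
        intro e _
        ring
      rw [this]
      exact Dvd.dvd.mul_left (hU' v hv) _

theorem LiftG_anti (q : ℕ) {τ : Type*} [Fintype τ] {V W : Set (τ → ℤ)} (h : V ⊆ W) (k : ℕ) :
    LiftG q W k ≤ LiftG q V k := by
  rintro u ⟨U, hU, hU'⟩
  exact ⟨U, hU, fun v hv => hU' v (h hv)⟩

/-- the vector of all monomials of degree less than `n` in each variable -/
def mvec (n : ℕ) (P : ℤ × ℤ) : Fin n × Fin n → ℤ := fun e => P.1 ^ (e.1 : ℕ) * P.2 ^ (e.2 : ℕ)

theorem ev_eq_mvec {n : ℕ} {f : P2 ℤ} (hf : SB n n f) (P : ℤ × ℤ) :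
    evalEval P.1 P.2 f = ∑ e : Fin n × Fin n, cf f e.1 e.2 * mvec n P e := by
  conv_lhs => rw [← toP_cf hf]
  rw [ev_toP]
  rfl

/-- vectors modulo `q` having an integral lift whose value at the points of `S` is divisible by
`q^k` -/
def Lift (q : ℕ) (S : Finset (ℤ × ℤ)) (n k : ℕ) : Submodule (ZMod q) (Fin n × Fin n → ZMod q) :=
  LiftG q (mvec n '' (S : Set (ℤ × ℤ))) k

/-- criterion for membership in `Lift` by polynomials -/
theorem mem_Lift {q : ℕ} {S : Finset (ℤ × ℤ)} {n k : ℕ} {f : P2 ℤ} (hf : SB n n f)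
    (h : ∀ P ∈ S, (q : ℤ) ^ k ∣ evalEval P.1 P.2 f) :
    (fun e : Fin n × Fin n => cf (red q f) e.1 e.2) ∈ Lift q S n k := by
  refine ⟨fun e => cf f e.1 e.2, fun e => (cf_red q f e.1 e.2).symm, ?_⟩
  rintro _ ⟨P, hP, rfl⟩
  rw [← ev_eq_mvec hf]
  exact h P hP

/-- the linear polynomial `v x - u` -/
noncomputable def lin (v u : ℤ) : Polynomial ℤ := C v * X - C u

/-- divisibility of the Taylor coefficients at `-B` -/
def J (m p : ℕ) (B : ℤ) (L : Polynomial ℤ) : Prop :=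
  ∀ i < m, (p : ℤ) ^ (m - i) ∣ (taylor (-B) L).coeff i

/-- sum of the exponents `i + j` over the box minus the sum over the smaller box -/
def WW (n a b : ℕ) : ℕ :=
  (∑ i ∈ Finset.range n, ∑ j ∈ Finset.range n, (i + j)) -
    ∑ i ∈ Finset.range (n - a), ∑ j ∈ Finset.range (n - b), (i + j)

/-- gain at level `k` -/
def gk (n a b ν k : ℕ) : ℕ := (n - k) ^ 2 - (n - a - (k - ν)) * (n - b - (k - ν))

/-- total gain -/
def gv (n a b ν : ℕ) : ℕ := ∑ k ∈ Finset.Icc 1 n, gk n a b ν k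

theorem WW_val : WW 9 2 2 = 354 ∧ WW 9 2 3 = 417 ∧ WW 9 3 2 = 417 ∧ WW 9 3 3 = 468 ∧
    WW 4 3 3 = 48 := by decide +kernel

theorem gv_val : gv 9 2 2 1 = 64 ∧ gv 9 2 2 2 = 15 ∧ gv 9 2 3 1 = 92 ∧ gv 9 2 3 2 = 50 ∧
    gv 9 3 3 1 = 113 ∧ gv 9 3 3 2 = 77 ∧ gv 9 3 3 3 = 41 := by decide +kernel

/-- few points, or a bilinear relation -/
def Good (S : Finset (ℤ × ℤ)) : Prop :=
  S.card ≤ 200 ∨ ∃ a b c d : ℤ, ¬ (a = 0 ∧ b = 0 ∧ c = 0 ∧ d = 0) ∧
    ∀ P ∈ S, a * (P.1 * P.2) + b * P.1 + c * P.2 + d = 0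

end Pool.Agent.Helper20.H3
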