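import Mathlib
import Pool.Agent.Helper20.H3.Basic

set_option autoImplicit false

namespace Pool.Agent.Helper20.H3

open Polynomial

theorem Corner_gcd (v v' : ℤ) (hv : v ≠ 0) : ∃ d v1 v1' : ℤ, 0 < d ∧ v = d * v1 ∧
    v' = d * v1' ∧ IsCoprime v1 v1' := by
  have hd : (0 : ℤ) < (Int.gcd v v' : ℤ) := by
    have : 0 < Int.gcd v v' := Int.gcd_pos_of_ne_zero_left _ hv
    exact_mod_cast this
  obtain ⟨a, ha⟩ := Int.gcd_dvd_left (a := v) (b := v')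
  obtain ⟨b, hb⟩ := Int.gcd_dvd_right (a := v) (b := v')
  refine ⟨(Int.gcd v v' : ℤ), a, b, hd, ha, hb, ?_⟩
  refine ⟨Int.gcdA v v', Int.gcdB v v', ?_⟩
  have h := Int.gcd_eq_gcd_ab v v'
  have h2 : (Int.gcd v v' : ℤ) * (Int.gcdA v v' * a + Int.gcdB v v' * b) =
      (Int.gcd v v' : ℤ) * 1 := by
    calc (Int.gcd v v' : ℤ) * (Int.gcdA v v' * a + Int.gcdB v v' * b)
        = ((Int.gcd v v' : ℤ) * a) * Int.gcdA v v' + ((Int.gcd v v' : ℤ) * b) * Int.gcdB v v' := by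
          ring
      _ = v * Int.gcdA v v' + v' * Int.gcdB v v' := by rw [← ha, ← hb]
      _ = (Int.gcd v v' : ℤ) * 1 := by rw [mul_one]; exact h.symm
  exact mul_left_cancel₀ hd.ne' h2

theorem Corner_le {a b c e : ℤ} {k m : ℕ} (hc : c ≠ 0) (h : c * a ^ m = e * b ^ k)
    (hab : IsCoprime a b) : |b| ^ k ≤ |c| := by
  have h1 : b ^ k ∣ c := by
    have h2 : b ^ k ∣ c * a ^ m := by rw [h]; exact Dvd.intro_left _ rfl
    exact (IsCoprime.pow hab.symm).dvd_of_dvd_mul_right h2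
  rw [← abs_pow]
  exact Int.le_of_dvd (abs_pos.mpr hc) ((abs_dvd_abs _ _).mpr h1)

/-- corner relations -/
theorem corner22 (c v c' v' : ℤ) (hc : c ≠ 0) (hv : v ≠ 0) (hc' : c' ≠ 0) (hv' : v' ≠ 0)
    (h : c * v ^ 2 = c' * v' ^ 2) : ∃ d v1 v1' : ℤ, 0 < d ∧ v = d * v1 ∧ v' = d * v1' ∧
      |v1'| ^ 2 ≤ |c| ∧ |v1| ^ 2 ≤ |c'| := by
  obtain ⟨d, v1, v1', hd, h1, h2, hcop⟩ := Corner_gcd v v' hv
  have h3 : c * v1 ^ 2 = c' * v1' ^ 2 := by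
    have : d ^ 2 * (c * v1 ^ 2) = d ^ 2 * (c' * v1' ^ 2) := by
      rw [h1, h2] at h
      linear_combination h
    exact mul_left_cancel₀ (pow_ne_zero 2 hd.ne') this
  exact ⟨d, v1, v1', hd, h1, h2, Corner_le hc h3 hcop, Corner_le hc' h3.symm hcop.symm⟩

theorem corner33 (c v c' v' : ℤ) (hc : c ≠ 0) (hv : v ≠ 0) (hc' : c' ≠ 0) (hv' : v' ≠ 0)
    (h : c * v ^ 3 = c' * v' ^ 3) : ∃ d v1 v1' : ℤ, 0 < d ∧ v = d * v1 ∧ v' = d * v1' ∧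
      |v1'| ^ 3 ≤ |c| ∧ |v1| ^ 3 ≤ |c'| := by
  obtain ⟨d, v1, v1', hd, h1, h2, hcop⟩ := Corner_gcd v v' hv
  have h3 : c * v1 ^ 3 = c' * v1' ^ 3 := by
    have : d ^ 3 * (c * v1 ^ 3) = d ^ 3 * (c' * v1' ^ 3) := by
      rw [h1, h2] at h
      linear_combination h
    exact mul_left_cancel₀ (pow_ne_zero 3 hd.ne') this
  exact ⟨d, v1, v1', hd, h1, h2, Corner_le hc h3 hcop, Corner_le hc' h3.symm hcop.symm⟩

theorem corner23 (v w c' v' : ℤ) (hv : v ≠ 0) (hw : w ≠ 0) (hc' : c' ≠ 0) (hv' : v' ≠ 0)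
    (h : v ^ 2 * w = c' * v' ^ 3) : ∃ d v1 v1' : ℤ, 0 < d ∧ v = d * v1 ∧ v' = d * v1' ∧
      |v1'| ^ 3 ≤ |w| ∧ |v1| ^ 2 ≤ |c'| * d := by
  obtain ⟨d, v1, v1', hd, h1, h2, hcop⟩ := Corner_gcd v v' hv
  have h3 : w * v1 ^ 2 = (c' * d) * v1' ^ 3 := by
    have : d ^ 2 * (w * v1 ^ 2) = d ^ 2 * ((c' * d) * v1' ^ 3) := by
      rw [h1, h2] at h
      linear_combination h
    exact mul_left_cancel₀ (pow_ne_zero 2 hd.ne') this
  refine ⟨d, v1, v1', hd, h1, h2, Corner_le hw h3 hcop, ?_⟩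
  have h4 := Corner_le (mul_ne_zero hc' hd.ne') h3.symm hcop.symm
  rwa [abs_mul, abs_of_pos hd] at h4

end Pool.Agent.Helper20.H3
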