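import Mathlib
import Pool.Agent.Helper20.H3.Basic

set_option autoImplicit false

namespace Pool.Agent.Helper20.H3

open Polynomial

/-- points with different first coordinates which are roots of a nonzero polynomial -/
theorem Bez_roots {S : Finset (ℤ × ℤ)} (hS : ∀ P ∈ S, ∀ Q ∈ S, P.1 = Q.1 → P = Q)
    (r : Polynomial ℤ) (hr : r ≠ 0) (hz : ∀ P ∈ S, r.eval P.1 = 0) : S.card ≤ r.natDegree := by
  have h1 : S.card ≤ (r.roots.toFinset).card := by
    apply Finset.card_le_card_of_injOn (fun P => P.1)
    · intro P hP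
      simp only [Finset.mem_coe, Multiset.mem_toFinset]
      rw [mem_roots hr]
      exact hz P hP
    · intro P hP Q hQ hPQ
      exact hS P hP Q hQ hPQ
  exact (h1.trans (Multiset.toFinset_card_le _)).trans (card_roots' r)

theorem Bez_natDegree_coeff {n1 n2 : ℕ} {f : P2 ℤ} (hf : SB (n1 + 1) n2 f) (j : ℕ) :
    (f.coeff j).natDegree ≤ n1 := by
  rw [natDegree_le_iff_coeff_eq_zero]
  intro i hi
  exact hf.zero_of (i := i) (j := j) (by omega)

theorem Bez_natDegree {n1 n2 : ℕ} {f : P2 ℤ} (hf : SB n1 (n2 + 1) f) : f.natDegree ≤ n2 := by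
  rw [natDegree_le_iff_coeff_eq_zero]
  intro j hj
  ext i
  rw [coeff_zero]
  exact hf.zero_of (i := i) (j := j) (by omega)

/-- degree of a determinant -/
theorem Bez_natDegree_det {ι : Type*} [Fintype ι] [DecidableEq ι] (M : Matrix ι ι (Polynomial ℤ))
    (d : ℕ) (hM : ∀ i j, (M i j).natDegree ≤ d) : M.det.natDegree ≤ Fintype.card ι * d := by
  rw [Matrix.det_apply]
  apply natDegree_sum_le_of_forall_le
  intro σ _
  refine (natDegree_smul_le _ _).trans ?_
  refine (natDegree_prod_le _ _).trans ?_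
  refine (Finset.sum_le_sum (fun i _ => hM (σ i) i)).trans ?_
  simp

theorem Bez_natDegree_resultant {f g : P2 ℤ} (hf : SB 9 9 f) (hg : SB 9 9 g) (m n : ℕ)
    (hm : m ≤ 8) (hn : n ≤ 8) : (resultant f g m n).natDegree ≤ 128 := by
  unfold resultant
  refine (Bez_natDegree_det _ 8 ?_).trans ?_
  · intro i j
    unfold sylvester
    rw [Matrix.of_apply]
    refine Fin.addCases (fun j1 => ?_) (fun j1 => ?_) j
    · rw [Fin.addCases_left]
      split_ifs
      · exact Bez_natDegree_coeff hg _
      · simp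
    · rw [Fin.addCases_right]
      split_ifs
      · exact Bez_natDegree_coeff hf _
      · simp
  · rw [Fintype.card_fin]
    omega

theorem Bez_coprime {f g : P2 ℤ} (hg : Irreducible g) (hnd : ¬ g ∣ f) (h0 : g.natDegree ≠ 0) :
    IsCoprime (f.map (algebraMap (Polynomial ℤ) (FractionRing (Polynomial ℤ))))
      (g.map (algebraMap (Polynomial ℤ) (FractionRing (Polynomial ℤ)))) := by
  have hp := hg.isPrimitive h0
  have h1 := (hp.irreducible_iff_irreducible_map_fraction_map
    (K := FractionRing (Polynomial ℤ))).mp hg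
  have h2 : ¬ g.map (algebraMap (Polynomial ℤ) (FractionRing (Polynomial ℤ))) ∣
      f.map (algebraMap (Polynomial ℤ) (FractionRing (Polynomial ℤ))) :=
    fun h => hnd (hp.dvd_of_fraction_map_dvd_fraction_map h)
  exact ((h1.coprime_iff_not_dvd).mpr h2).symm

theorem Bez_resultant_ne_zero {f g : P2 ℤ} (hg : Irreducible g) (hnd : ¬ g ∣ f)
    (h0 : g.natDegree ≠ 0) : resultant f g ≠ 0 := by
  have hinj : Function.Injective (algebraMap (Polynomial ℤ) (FractionRing (Polynomial ℤ))) :=
    IsFractionRing.injective _ _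
  have h1 := resultant_ne_zero _ _ (Bez_coprime hg hnd h0)
  rw [natDegree_map_eq_of_injective hinj, natDegree_map_eq_of_injective hinj,
    resultant_map_map] at h1
  intro h
  rw [h, map_zero] at h1
  exact h1 rfl

/-- Bezout over the integers, on a modular hyperbola -/
theorem bez {p : ℕ} {A B C' : ℤ} {M : ℕ} {S : Finset (ℤ × ℤ)} (h : Conf p A B C' M S)
    (g f : P2 ℤ) (hg : Irreducible g) (hnd : ¬ g ∣ f) (hgb : SB 9 9 g) (hfb : SB 9 9 f)
    (hgz : ∀ P ∈ S, evalEval P.1 P.2 g = 0) (hfz : ∀ P ∈ S, evalEval P.1 P.2 f = 0) :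
    S.card ≤ 200 := by
  have hS : ∀ P ∈ S, ∀ Q ∈ S, P.1 = Q.1 → P = Q := fun P hP Q hQ => h.inj1 hP hQ
  by_cases h0 : g.natDegree = 0
  · obtain ⟨q, hq⟩ := natDegree_eq_zero.mp h0
    have hq0 : q ≠ 0 := by
      rintro rfl
      rw [map_zero] at hq
      exact hg.ne_zero hq.symm
    have h1 := Bez_roots hS q hq0 (by
      intro P hP
      have := hgz P hP
      rw [← hq] at this
      simpa [evalEval] using this)
    have h2 := Bez_natDegree_coeff hgb 0
    rw [← hq, coeff_C_zero] at h2
    omega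
  · have hr := Bez_resultant_ne_zero hg hnd h0
    have h1 := Bez_roots hS _ hr (by
      intro P hP
      obtain ⟨p, q, -, -, hpq⟩ := exists_mul_add_mul_eq_C_resultant (m := f.natDegree)
        (n := g.natDegree) f g le_rfl le_rfl (Or.inr h0)
      have h2 := congrArg (evalEval P.1 P.2) hpq
      rw [evalEval_add, evalEval_mul, evalEval_mul, hgz P hP, hfz P hP, zero_mul, zero_mul,
        add_zero] at h2
      rw [evalEval, eval_C] at h2
      exact h2.symm)
    have h2 := Bez_natDegree_resultant hfb hgb f.natDegree g.natDegree (Bez_natDegree hfb)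
      (Bez_natDegree hgb)
    omega

/-- an irreducible polynomial with a zero is primitive -/
theorem red_ne_zero {g : P2 ℤ} (hg : Irreducible g) (hz : ∃ P : ℤ × ℤ, evalEval P.1 P.2 g = 0)
    (q : ℕ) (hq : q.Prime) : red q g ≠ 0 := by
  intro h
  have hsb : ∃ n, SB n n g := by
    refine ⟨g.natDegree + 1 + ∑ j ∈ Finset.range (g.natDegree + 1), ((g.coeff j).natDegree + 1), ?_⟩
    intro i j hc
    have hj : j < g.natDegree + 1 := by
      by_contra hj
      apply hc
      unfold cf
      have hj0 : g.coeff j = 0 := coeff_eq_zero_of_natDegree_lt (by omega)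
      rw [hj0, coeff_zero]
    have hi : i < (g.coeff j).natDegree + 1 := by
      by_contra hi
      apply hc
      unfold cf
      rw [coeff_eq_zero_of_natDegree_lt (by omega)]
    have h3 : (g.coeff j).natDegree + 1 ≤
        ∑ j ∈ Finset.range (g.natDegree + 1), ((g.coeff j).natDegree + 1) :=
      Finset.single_le_sum (f := fun j => (g.coeff j).natDegree + 1) (fun _ _ => Nat.zero_le _)
        (Finset.mem_range.mpr hj)
    omega
  obtain ⟨n, hn⟩ := hsb
  obtain ⟨w, _, hw⟩ := red_eq_zero q hn h
  have hqi : Prime (q : ℤ) := Nat.prime_iff_prime_int.mp hq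
  rcases hg.isUnit_or_isUnit hw with h1 | h1
  · have h2 : IsUnit (q : ℤ) := by
      rwa [isUnit_C, isUnit_C] at h1
    exact hqi.not_isUnit h2
  · obtain ⟨P, hP⟩ := hz
    rw [hw, evalEval_mul, mul_eq_zero] at hP
    rcases hP with h2 | h2
    · simp [evalEval] at h2
      exact hq.ne_zero h2
    · have h3 : IsUnit (evalEval P.1 P.2 w) := by
        rw [← coe_evalEvalRingHom]
        exact h1.map _
      rw [h2] at h3
      exact not_isUnit_zero h3

end Pool.Agent.Helper20.H3
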