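import Mathlib
import Pool.Agent.Helper20.H3.Basic

set_option autoImplicit false

namespace Pool.Agent.Helper20.H3

open Polynomial

/-- one half of `SB_of_mul` -/
theorem Degree_y {R : Type*} [CommRing R] [IsDomain R] {g f : P2 R} {b m n2 : ℕ}
    (hb : ∃ i, cf g i b ≠ 0) (h : SB m (n2 + b) (g * f)) {i j : ℕ} (hf : cf f i j ≠ 0) :
    j < n2 := by
  obtain ⟨i0, hi0⟩ := hb
  have hgb : g.coeff b ≠ 0 := by
    intro h0; apply hi0; unfold cf; rw [h0, coeff_zero]
  have hfj : f.coeff j ≠ 0 := by
    intro h0; apply hf; unfold cf; rw [h0, coeff_zero]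
  have hg0 : g ≠ 0 := by rintro rfl; exact hgb (coeff_zero _)
  have hf0 : f ≠ 0 := by rintro rfl; exact hfj (coeff_zero _)
  have hgf : g * f ≠ 0 := mul_ne_zero hg0 hf0
  have hl : (g * f).coeff (g * f).natDegree ≠ 0 := by
    rw [coeff_natDegree]; exact leadingCoeff_ne_zero.mpr hgf
  have : ∃ i, ((g * f).coeff (g * f).natDegree).coeff i ≠ 0 := by
    by_contra hc
    push Not at hc
    apply hl
    ext i
    rw [hc i, coeff_zero]
  obtain ⟨i1, hi1⟩ := this
  have h1 : (g * f).natDegree < n2 + b := (h i1 _ hi1).2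
  rw [natDegree_mul hg0 hf0] at h1
  have h2 := le_natDegree_of_ne_zero hgb
  have h3 := le_natDegree_of_ne_zero hfj
  omega

/-- degrees add in a domain -/
theorem SB_of_mul {R : Type*} [CommRing R] [IsDomain R] {g f : P2 R} {a b n1 n2 : ℕ}
    (ha : ∃ j, cf g a j ≠ 0) (hb : ∃ i, cf g i b ≠ 0) (h : SB (n1 + a) (n2 + b) (g * f)) :
    SB n1 n2 f := by
  intro i j hf
  constructor
  · have h' : SB (n2 + b) (n1 + a) (sw g * sw f) := by
      rw [← sw_mul]; exact h.sw
    have ha' : ∃ i, cf (sw g) i a ≠ 0 := by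
      obtain ⟨j0, hj0⟩ := ha
      exact ⟨j0, by rwa [cf_sw]⟩
    have hf' : cf (sw f) j i ≠ 0 := by rwa [cf_sw]
    exact Degree_y ha' h' hf'
  · exact Degree_y hb h hf

theorem Degree_FF_eq {R : Type*} [CommRing R] (α β γ : R) :
    FF α β γ = C (X + C β) * X + C (C α * X + C γ) := by
  unfold FF
  simp only [C_add, C_mul]
  ring

/-- top coefficient in `y` of a multiple of a power of the hyperbola -/
theorem coeff_FF_pow_mul {R : Type*} [CommRing R] (α β γ : R) (u : P2 R) (m ν : ℕ)
    (hu : u.natDegree ≤ m) :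
    (FF α β γ ^ ν * u).coeff (m + ν) = (X + C β) ^ ν * u.coeff m := by
  have key : ∀ ν : ℕ, (FF α β γ ^ ν * u).natDegree ≤ m + ν ∧
      (FF α β γ ^ ν * u).coeff (m + ν) = (X + C β) ^ ν * u.coeff m := by
    intro ν
    induction ν with
    | zero => simp [hu]
    | succ ν ih =>
      obtain ⟨h1, h2⟩ := ih
      have hFd : (FF α β γ).natDegree ≤ 1 := by
        rw [Degree_FF_eq]
        compute_degree
      have e : FF α β γ ^ (ν + 1) * u = FF α β γ * (FF α β γ ^ ν * u) := by ring
      rw [e]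
      constructor
      · refine natDegree_mul_le.trans ?_
        omega
      · set w : P2 R := FF α β γ ^ ν * u with hw
        rw [Degree_FF_eq, add_mul, mul_assoc, coeff_add, coeff_C_mul, coeff_C_mul,
          show m + (ν + 1) = (m + ν) + 1 from rfl, X_mul, coeff_mul_X, h2,
          coeff_eq_zero_of_natDegree_lt (lt_of_le_of_lt h1 (Nat.lt_succ_self _)), mul_zero,
          add_zero]
        ring
  exact (key ν).2

/-- powers of the hyperbola -/
theorem SB_of_FF_pow_mul {R : Type*} [CommRing R] [IsDomain R] {α β γ : R} {f : P2 R}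
    {n1 n2 k : ℕ} (h : SB (n1 + k) (n2 + k) (FF α β γ ^ k * f)) : SB n1 n2 f := by
  have hc : cf (FF α β γ ^ k) k k ≠ 0 := by
    have h1 := coeff_FF_pow_mul α β γ (1 : P2 R) 0 k (by simp)
    rw [mul_one, zero_add, coeff_one_zero, mul_one] at h1
    unfold cf
    rw [h1]
    have h2 : ((X + C β : Polynomial R) ^ k).Monic := (monic_X_add_C β).pow k
    have h3 : ((X + C β : Polynomial R) ^ k).natDegree = k := by
      rw [natDegree_pow, natDegree_X_add_C, mul_one]
    have h4 := h2.coeff_natDegree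
    rw [h3] at h4
    rw [h4]
    exact one_ne_zero
  exact SB_of_mul ⟨k, hc⟩ ⟨k, hc⟩ h

/-- the hyperbola is a prime polynomial -/
theorem FF_prime {k : Type*} [Field k] {α β γ : k} (h : α * β - γ ≠ 0) :
    Prime (FF α β γ) := by
  have hirr : Irreducible (FF α β γ) := by
    rw [Degree_FF_eq]
    refine irreducible_C_mul_X_add_C (X_add_C_ne_zero β) ?_
    -- a common divisor divides the nonzero constant `γ - α β`
    intro d hd1 hd2
    have h1 : d ∣ (C α * X + C γ) - C α * (X + C β) := dvd_sub hd2 (hd1.mul_left _)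
    have h2 : (C α * X + C γ : Polynomial k) - C α * (X + C β) = C (γ - α * β) := by
      rw [C_sub, C_mul]; ring
    rw [h2] at h1
    have h3 : IsUnit (C (γ - α * β) : Polynomial k) := by
      rw [isUnit_C, isUnit_iff_ne_zero]
      intro h0
      apply h
      rw [← neg_eq_zero, neg_sub]
      exact h0
    exact isUnit_of_dvd_unit h1 h3
  exact hirr.prime

end Pool.Agent.Helper20.H3
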