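import Mathlib
import Pool.Agent.Helper20.H3.Basic

set_option autoImplicit false

namespace Pool.Agent.Helper20.H3

open Polynomial

/-- multisets of complex numbers in the half disc complement -/
private theorem DetDom_prod (s : Multiset ℂ) (h : ∀ m ∈ s, (1 : ℝ) / 2 ≤ ‖m‖) :
    (1 / 2 : ℝ) ^ Multiset.card s ≤ ‖s.prod‖ := by
  induction s using Multiset.induction_on with
  | empty => simp
  | cons a s ih =>
    rw [Multiset.card_cons, Multiset.prod_cons, norm_mul, pow_succ, mul_comm]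
    have h1 := ih (fun m hm => h m (Multiset.mem_cons_of_mem hm))
    have h2 := h a (Multiset.mem_cons_self a s)
    exact mul_le_mul h2 h1 (by positivity) (norm_nonneg _)

/-- the complex case, diagonal `1` -/
private theorem DetDom_one {κ : Type*} [Fintype κ] [DecidableEq κ] (B : Matrix κ κ ℂ)
    (h1 : ∀ j, B j j = 1) (h : ∀ j, ∑ j' ∈ Finset.univ.erase j, ‖B j j'‖ ≤ 1 / 2) :
    (1 / 2 : ℝ) ^ Fintype.card κ ≤ ‖B.det‖ := by
  rw [Matrix.det_eq_prod_roots_charpoly]
  have hc : Multiset.card B.charpoly.roots = Fintype.card κ := by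
    rw [Polynomial.splits_iff_card_roots.mp (IsAlgClosed.splits B.charpoly),
      Matrix.charpoly_natDegree_eq_dim]
  rw [← hc]
  apply DetDom_prod
  intro m hm
  have hr : B.charpoly.IsRoot m := (Polynomial.mem_roots'.mp hm).2
  rw [← Matrix.charpoly_toLin', ← Module.End.hasEigenvalue_iff_isRoot_charpoly] at hr
  obtain ⟨k, hk⟩ := eigenvalue_mem_ball hr
  rw [h1 k, mem_closedBall_iff_norm'] at hk
  have h2 := hk.trans (h k)
  have h3 : ‖(1 : ℂ)‖ ≤ ‖(1 : ℂ) - m‖ + ‖m‖ := by
    calc ‖(1 : ℂ)‖ = ‖(1 - m) + m‖ := by rw [sub_add_cancel]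
      _ ≤ _ := norm_add_le _ _
  rw [norm_one] at h3
  linarith

/-- lower bound for the determinant of a diagonally dominant matrix -/
theorem det_dominant {κ : Type*} [Fintype κ] [DecidableEq κ] (A : Matrix κ κ ℝ) (w : κ → ℝ)
    (hw : ∀ j, 0 < w j)
    (h : ∀ j, 2 * ∑ j' ∈ Finset.univ.erase j, |A j j'| * w j' ≤ |A j j| * w j) :
    ∏ j, |A j j| ≤ 2 ^ Fintype.card κ * |A.det| := by
  by_cases hz : ∃ j, A j j = 0
  · obtain ⟨j, hj⟩ := hz
    rw [Finset.prod_eq_zero (Finset.mem_univ j) (by rw [hj, abs_zero])]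
    positivity
  push Not at hz
  -- the normalised matrix
  set B : Matrix κ κ ℝ := Matrix.of fun j j' => (A j j * w j)⁻¹ * (A j j' * w j') with hB
  have hd : ∀ j, A j j * w j ≠ 0 := fun j => mul_ne_zero (hz j) (hw j).ne'
  have hBd : ∀ j, B j j = 1 := by
    intro j
    rw [hB, Matrix.of_apply, inv_mul_cancel₀ (hd j)]
  have hdet : B.det * ∏ j, A j j = A.det := by
    have e1 : B.det = (∏ j, (A j j * w j)⁻¹) * ((∏ j, w j) * A.det) := by
      rw [hB]
      have e2 := Matrix.det_mul_row (fun j => w j) A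
      have e3 := Matrix.det_mul_column (fun j => (A j j * w j)⁻¹)
        (Matrix.of fun i j => w j * A i j)
      rw [← e2, ← e3]
      congr 1
      ext i j
      simp only [Matrix.of_apply]
      ring
    rw [e1, Finset.prod_inv_distrib, Finset.prod_mul_distrib]
    have p1 : ∏ j, A j j ≠ 0 := Finset.prod_ne_zero_iff.mpr (fun j _ => hz j)
    have p2 : ∏ j, w j ≠ 0 := Finset.prod_ne_zero_iff.mpr (fun j _ => (hw j).ne')
    field_simp
  have hB2 : (1 / 2 : ℝ) ^ Fintype.card κ ≤ |B.det| := by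
    have h3 := DetDom_one (B.map (algebraMap ℝ ℂ)) ?_ ?_
    · have e4 : (B.map (algebraMap ℝ ℂ)).det = algebraMap ℝ ℂ B.det := by
        rw [RingHom.map_det, RingHom.mapMatrix_apply]
      rw [e4] at h3
      simpa using h3
    · intro j
      rw [Matrix.map_apply, hBd j, map_one]
    · intro j
      have e5 : ∀ j', ‖(B.map (algebraMap ℝ ℂ)) j j'‖ =
          (|A j j| * w j)⁻¹ * (|A j j'| * w j') := by
        intro j'
        rw [Matrix.map_apply, hB, Matrix.of_apply]
        simp only [Complex.coe_algebraMap, Complex.norm_real, Real.norm_eq_abs, abs_mul, abs_inv,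
          abs_of_pos (hw _)]
      simp only [e5]
      rw [← Finset.mul_sum]
      have h4 := h j
      have h5 : 0 < |A j j| * w j := mul_pos (abs_pos.mpr (hz j)) (hw j)
      rw [inv_mul_le_iff₀ h5]
      linarith
  rw [← hdet, abs_mul, Finset.abs_prod]
  have hp : 0 ≤ ∏ j, |A j j| := Finset.prod_nonneg (fun j _ => abs_nonneg _)
  have h6 : (1 : ℝ) ≤ 2 ^ Fintype.card κ * |B.det| := by
    calc (1 : ℝ) = 2 ^ Fintype.card κ * (1 / 2 : ℝ) ^ Fintype.card κ := by
          rw [← mul_pow]; norm_num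
      _ ≤ _ := mul_le_mul_of_nonneg_left hB2 (by positivity)
  calc ∏ j, |A j j| = 1 * ∏ j, |A j j| := (one_mul _).symm
    _ ≤ (2 ^ Fintype.card κ * |B.det|) * ∏ j, |A j j| := mul_le_mul_of_nonneg_right h6 hp
    _ = _ := by ring

end Pool.Agent.Helper20.H3
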