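import Mathlib
import Pool.Agent.Helper20.H3.Basic

set_option autoImplicit false

namespace Pool.Agent.Helper20.H3

open Polynomial

private theorem Domi_core (F G a b s1 s2 : ℕ) (hab : b < a) (hs : s1 + 2 ≤ s2)
    (h1 : G * 30 ^ (b * s1) < 30 * (F * 30 ^ (a * s1)))
    (h2 : F * 30 ^ (a * s2) < 30 * (G * 30 ^ (b * s2))) : False := by
  obtain ⟨u, rfl⟩ : ∃ u, a = b + 1 + u := ⟨a - (b + 1), by omega⟩
  obtain ⟨v, rfl⟩ : ∃ v, s2 = s1 + 2 + v := ⟨s2 - (s1 + 2), by omega⟩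
  have hm : (G * 30 ^ (b * s1)) * (F * 30 ^ ((b + 1 + u) * (s1 + 2 + v))) <
      (30 * (F * 30 ^ ((b + 1 + u) * s1))) * (30 * (G * 30 ^ (b * (s1 + 2 + v)))) :=
    Nat.mul_lt_mul'' h1 h2
  have e1 : (G * 30 ^ (b * s1)) * (F * 30 ^ ((b + 1 + u) * (s1 + 2 + v))) =
      (F * G) * (30 ^ ((b + 1 + u) * s1 + b * (s1 + 2 + v)) * 30 ^ ((1 + u) * (2 + v))) := by
    rw [← pow_add]
    have : (b + 1 + u) * s1 + b * (s1 + 2 + v) + (1 + u) * (2 + v) =
      b * s1 + (b + 1 + u) * (s1 + 2 + v) := by ring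
    rw [this, pow_add]
    ring
  have e2 : (30 * (F * 30 ^ ((b + 1 + u) * s1))) * (30 * (G * 30 ^ (b * (s1 + 2 + v)))) =
      (F * G) * (30 ^ ((b + 1 + u) * s1 + b * (s1 + 2 + v)) * 30 ^ 2) := by
    rw [pow_add 30 ((b + 1 + u) * s1)]
    ring
  rw [e1, e2] at hm
  have h3 : (30 : ℕ) ^ 2 ≤ 30 ^ ((1 + u) * (2 + v)) := by
    apply Nat.pow_le_pow_right (by norm_num)
    nlinarith [Nat.zero_le u, Nat.zero_le v, Nat.zero_le (u * v)]
  have h4 := Nat.mul_le_mul_left (F * G)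
    (Nat.mul_le_mul_left (30 ^ ((b + 1 + u) * s1 + b * (s1 + 2 + v))) h3)
  omega

/-- the values of `s` for which two monomials are comparable -/
private def DomiBad (N F G a b : ℕ) : Finset ℕ :=
  (Finset.range N).filter (fun s => F * 30 ^ (a * s) < 30 * (G * 30 ^ (b * s)) ∧
    G * 30 ^ (b * s) < 30 * (F * 30 ^ (a * s)))

private theorem Domi_bad_card (N F G a b : ℕ) (hab : a ≠ b) : (DomiBad N F G a b).card ≤ 2 := by
  rcases (DomiBad N F G a b).eq_empty_or_nonempty with h | h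
  · rw [h]; simp
  set m := (DomiBad N F G a b).min' h with hm
  have hsub : DomiBad N F G a b ⊆ Finset.Icc m (m + 1) := by
    intro s hs
    have h1 : m ≤ s := Finset.min'_le _ _ hs
    rw [Finset.mem_Icc]
    refine ⟨h1, ?_⟩
    by_contra hc
    have h2 : m + 2 ≤ s := by omega
    have hmm : m ∈ DomiBad N F G a b := Finset.min'_mem _ h
    unfold DomiBad at hs hmm
    rw [Finset.mem_filter] at hs hmm
    rcases lt_or_gt_of_ne hab with h3 | h3
    · exact Domi_core G F b a m s h3 h2 hmm.2.1 hs.2.2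
    · exact Domi_core F G a b m s h3 h2 hmm.2.2 hs.2.1
  refine (Finset.card_le_card hsub).trans ?_
  rw [Nat.card_Icc]
  omega

/-- after enlarging the box by bounded factors one monomial dominates -/
theorem exists_dominant : ∃ Λ : ℕ, 1 ≤ Λ ∧ ∀ c : Fin 4 × Fin 4 → ℤ, c ≠ 0 →
    ∀ M : ℕ, 1 ≤ M → ∃ Mx My : ℕ, M ≤ Mx ∧ Mx ≤ Λ * M ∧ M ≤ My ∧ My ≤ Λ * M ∧
      ∃ e0, c e0 ≠ 0 ∧
        2 * ∑ e ∈ Finset.univ.erase e0, |c e| * (Mx : ℤ) ^ (e.1 : ℕ) * (My : ℤ) ^ (e.2 : ℕ) ≤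
          |c e0| * (Mx : ℤ) ^ (e0.1 : ℕ) * (My : ℤ) ^ (e0.2 : ℕ) := by
  obtain ⟨Q, hQ⟩ : ∃ Q : ℕ, Q = 4 * 513 := ⟨_, rfl⟩
  refine ⟨30 ^ Q, Nat.one_le_pow _ _ (by norm_num), ?_⟩
  intro c hc M hM
  set F : Fin 4 × Fin 4 → ℕ := fun e => (c e).natAbs * M ^ ((e.1 : ℕ) + (e.2 : ℕ)) with hF
  set x : Fin 4 × Fin 4 → ℕ := fun e => (e.1 : ℕ) + 4 * (e.2 : ℕ) with hx
  have hxi : ∀ e e' : Fin 4 × Fin 4, e ≠ e' → x e ≠ x e' := by
    intro e e' hne h
    apply hne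
    have h1 := e.1.2
    have h2 := e.2.2
    have h3 := e'.1.2
    have h4 := e'.2.2
    simp only [hx] at h
    apply Prod.ext
    · apply Fin.ext; omega
    · apply Fin.ext; omega
  obtain ⟨N, hN⟩ : ∃ N : ℕ, N = 513 := ⟨_, rfl⟩
  -- a good value of s
  obtain ⟨s, hs, hgood⟩ : ∃ s ∈ Finset.range N, ∀ e e' : Fin 4 × Fin 4, e ≠ e' →
      s ∉ DomiBad N (F e) (F e') (x e) (x e') := by
    by_contra hcon
    have hsub : Finset.range N ⊆ (Finset.univ : Finset ((Fin 4 × Fin 4) × (Fin 4 × Fin 4))).biUnion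
        (fun q => if q.1 ≠ q.2 then DomiBad N (F q.1) (F q.2) (x q.1) (x q.2) else ∅) := by
      refine Finset.subset_iff.mpr (fun s hs => ?_)
      by_contra hns
      refine hcon ⟨s, hs, fun e e' hne hmem => hns ?_⟩
      rw [Finset.mem_biUnion]
      exact ⟨(e, e'), Finset.mem_univ _, by rw [if_pos hne]; exact hmem⟩
    have h1 := Finset.card_le_card hsub
    have h2 := Finset.card_biUnion_le (s := (Finset.univ : Finset ((Fin 4 × Fin 4) × (Fin 4 × Fin 4))))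
      (t := fun q => if q.1 ≠ q.2 then DomiBad N (F q.1) (F q.2) (x q.1) (x q.2) else ∅)
    have h3 : ∑ q : (Fin 4 × Fin 4) × (Fin 4 × Fin 4),
        (if q.1 ≠ q.2 then DomiBad N (F q.1) (F q.2) (x q.1) (x q.2) else ∅).card ≤
        ∑ _q : (Fin 4 × Fin 4) × (Fin 4 × Fin 4), 2 := by
      apply Finset.sum_le_sum
      intro q _
      split_ifs with hq
      · exact Domi_bad_card _ _ _ _ _ (hxi _ _ hq)
      · simp
    rw [Finset.sum_const, Finset.card_univ] at h3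
    have h4 : Fintype.card ((Fin 4 × Fin 4) × (Fin 4 × Fin 4)) = 256 := by simp
    rw [h4, smul_eq_mul] at h3
    rw [Finset.card_range] at h1
    omega
  rw [Finset.mem_range] at hs
  have hp1 : (1 : ℕ) ≤ 30 ^ s := Nat.one_le_pow _ _ (by norm_num)
  have hp2 : (1 : ℕ) ≤ 30 ^ (4 * s) := Nat.one_le_pow _ _ (by norm_num)
  have hp3 : (30 : ℕ) ^ s ≤ 30 ^ Q := Nat.pow_le_pow_right (by norm_num) (by omega)
  have hp4 : (30 : ℕ) ^ (4 * s) ≤ 30 ^ Q := Nat.pow_le_pow_right (by norm_num) (by omega)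
  refine ⟨30 ^ s * M, 30 ^ (4 * s) * M, Nat.le_mul_of_pos_left M hp1, Nat.mul_le_mul_right M hp3,
    Nat.le_mul_of_pos_left M hp2, Nat.mul_le_mul_right M hp4, ?_⟩
  set T : Fin 4 × Fin 4 → ℕ := fun e => F e * 30 ^ (x e * s) with hT
  have hTe : ∀ e : Fin 4 × Fin 4, |c e| * ((30 ^ s * M : ℕ) : ℤ) ^ (e.1 : ℕ) *
      ((30 ^ (4 * s) * M : ℕ) : ℤ) ^ (e.2 : ℕ) = ((T e : ℕ) : ℤ) := by
    intro e
    rw [← Int.natCast_natAbs (c e), ← Nat.cast_pow, ← Nat.cast_pow, ← Nat.cast_mul, ← Nat.cast_mul]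
    congr 1
    simp only [hT, hF, hx]
    rw [mul_pow, mul_pow, ← pow_mul, ← pow_mul, add_mul, pow_add, pow_add]
    have e1 : s * (e.1 : ℕ) = (e.1 : ℕ) * s := mul_comm _ _
    have e2 : 4 * s * (e.2 : ℕ) = 4 * (e.2 : ℕ) * s := by ring
    rw [e1, e2]
    ring
  obtain ⟨e0, -, he0⟩ := Finset.exists_max_image (Finset.univ : Finset (Fin 4 × Fin 4)) T
    ⟨(0, 0), Finset.mem_univ _⟩
  have hT0 : 0 < T e0 := by
    obtain ⟨e1, he1⟩ : ∃ e1, c e1 ≠ 0 := by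
      by_contra h
      push Not at h
      exact hc (funext h)
    refine lt_of_lt_of_le ?_ (he0 e1 (Finset.mem_univ _))
    simp only [hT, hF]
    have : 0 < (c e1).natAbs := Int.natAbs_pos.mpr he1
    positivity
  refine ⟨e0, ?_, ?_⟩
  · intro h
    simp only [hT, hF, h] at hT0
    simp at hT0
  have hdom : ∀ e ∈ Finset.univ.erase e0, 30 * T e ≤ T e0 := by
    intro e he
    have hne : e ≠ e0 := Finset.ne_of_mem_erase he
    by_contra hc1
    push Not at hc1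
    have h1 := he0 e (Finset.mem_univ _)
    apply hgood e e0 hne
    unfold DomiBad
    rw [Finset.mem_filter, Finset.mem_range]
    refine ⟨hs, ?_, ?_⟩
    · show T e < 30 * T e0
      omega
    · show T e0 < 30 * T e
      exact hc1
  have hsum : 30 * ∑ e ∈ Finset.univ.erase e0, T e ≤ 15 * T e0 := by
    rw [Finset.mul_sum]
    refine (Finset.sum_le_sum hdom).trans ?_
    rw [Finset.sum_const, smul_eq_mul, Finset.card_erase_of_mem (Finset.mem_univ _)]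
    have : (Finset.univ : Finset (Fin 4 × Fin 4)).card = 16 := by simp
    rw [this]
  simp only [hTe]
  rw [← Nat.cast_sum]
  exact_mod_cast (by omega : 2 * ∑ e ∈ Finset.univ.erase e0, T e ≤ T e0)

end Pool.Agent.Helper20.H3
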