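import Mathlib
import Pool.Agent.Helper20.H3.Basic

set_option autoImplicit false

namespace Pool.Agent.Helper20.H3

open Polynomial

/-- clearing denominators -/
theorem Rank_clear {ρ : Type*} [Fintype ρ] [DecidableEq ρ] (w : ρ → ℚ) :
    ∃ (W : ρ → ℤ) (D : ℚ), D ≠ 0 ∧ ∀ j, (W j : ℚ) = D * w j := by
  refine ⟨fun j => (w j).num * ∏ k ∈ Finset.univ.erase j, ((w k).den : ℤ),
    ∏ k, ((w k).den : ℚ), ?_, ?_⟩
  · rw [Finset.prod_ne_zero_iff]
    intro k _
    exact_mod_cast (w k).den_ne_zero
  · intro j
    rw [← Finset.mul_prod_erase Finset.univ _ (Finset.mem_univ j)]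
    push_cast
    have h : (w j).den * w j = ((w j).num : ℚ) := Rat.den_mul_eq_num (w j)
    rw [← h]
    ring

/-- if all maximal minors vanish there is a linear relation between the columns -/
theorem rank_rel {ρ ι : Type*} [Fintype ρ] [DecidableEq ρ] (S : Set ι) (v : ι → ρ → ℤ)
    (h : ∀ Q : ρ → ι, (∀ i, Q i ∈ S) → (Matrix.of fun i j => v (Q i) j).det = 0) :
    ∃ w : ρ → ℤ, w ≠ 0 ∧ ∀ P ∈ S, ∑ j, w j * v P j = 0 := by
  classical
  have hne : Submodule.span ℚ ((fun P => fun j => (v P j : ℚ)) '' S) ≠ (⊤ : Submodule ℚ (ρ → ℚ)) := by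
    intro htop
    obtain ⟨b, hb, hspan, hli⟩ :=
      exists_linearIndependent ℚ ((fun P => fun j => (v P j : ℚ)) '' S)
    have B : Module.Basis b ℚ (ρ → ℚ) := Module.Basis.mk hli (by
      rw [Subtype.range_coe, hspan, htop])
    have e : b ≃ ρ := B.indexEquiv (Pi.basisFun ℚ ρ)
    have hex : ∀ y : b, ∃ P ∈ S, (fun j => (v P j : ℚ)) = (y : ρ → ℚ) := fun y => hb y.2
    choose P hP hPy using hex
    have hdet := h (fun i => P (e.symm i)) (fun i => hP _)
    have hdetQ : (Matrix.of fun i j => (v (P (e.symm i)) j : ℚ)).det = 0 := by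
      have h1 : (Matrix.of fun i j => (v (P (e.symm i)) j : ℚ)) =
          (Matrix.of fun i j => v (P (e.symm i)) j).map (Int.castRingHom ℚ) := by
        ext i j
        simp
      rw [h1, ← RingHom.mapMatrix_apply, ← RingHom.map_det, hdet, map_zero]
    have hrow : LinearIndependent ℚ
        (Matrix.of fun i j => (v (P (e.symm i)) j : ℚ)).row := by
      have h2 : (Matrix.of fun i j => (v (P (e.symm i)) j : ℚ)).row =
          (fun y : b => (y : ρ → ℚ)) ∘ e.symm := by
        funext i
        exact hPy (e.symm i)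
      rw [h2]
      exact hli.comp _ e.symm.injective
    rw [Matrix.linearIndependent_rows_iff_isUnit, Matrix.isUnit_iff_isUnit_det, hdetQ] at hrow
    exact not_isUnit_zero hrow
  obtain ⟨f, hf, hle⟩ := Submodule.exists_le_ker_of_lt_top _ (lt_top_iff_ne_top.2 hne)
  have hfs : ∀ x : ρ → ℚ, f x = ∑ j, x j * f (Pi.single j 1) := by
    intro x
    conv_lhs => rw [← Finset.univ_sum_single x]
    rw [map_sum]
    apply Finset.sum_congr rfl
    intro j _
    have : Pi.single j (x j) = x j • (Pi.single j 1 : ρ → ℚ) := by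
      rw [← Pi.single_smul]
      simp
    rw [this, map_smul, smul_eq_mul]
  obtain ⟨W, D, hD, hW⟩ := Rank_clear (fun j => f (Pi.single j 1))
  refine ⟨W, ?_, ?_⟩
  · rintro rfl
    apply hf
    ext j
    have := hW j
    simp only [Pi.zero_apply, Int.cast_zero] at this
    have h3 : f (Pi.single j 1) = 0 := by
      rcases mul_eq_zero.1 this.symm with h | h
      · exact absurd h hD
      · exact h
    simpa using h3
  · intro P hP
    have h1 : f (fun j => (v P j : ℚ)) = 0 := by
      have : (fun j => (v P j : ℚ)) ∈ LinearMap.ker f :=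
        hle (Submodule.subset_span ⟨P, hP, rfl⟩)
      exact this
    have h2 : ((∑ j, W j * v P j : ℤ) : ℚ) = 0 := by
      push_cast
      calc ∑ j, (W j : ℚ) * (v P j : ℚ) = D * ∑ j, (v P j : ℚ) * f (Pi.single j 1) := by
            rw [Finset.mul_sum]
            apply Finset.sum_congr rfl
            intro j _
            rw [hW j]
            ring
        _ = 0 := by rw [← hfs, h1, mul_zero]
    exact_mod_cast h2

end Pool.Agent.Helper20.H3
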