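import Mathlib
import Pool.Agent.Helper20.H3.Basic

set_option autoImplicit false

namespace Pool.Agent.Helper20.H3

open Polynomial

/-- a linearly independent set adapted to the flag -/
theorem Flag_adapted {k E : Type*} [Field k] [AddCommGroup E] [Module k E]
    (N : Set E) (hN : LinearIndepOn k id N)
    (W : ℕ → Submodule k E) (hW : Antitone W) (hNW : ∀ m, N ⊆ W m) (r : ℕ) :
    ∀ j ≤ r, ∃ s : Set E, N ⊆ s ∧ s ⊆ W (r - j) ∧ LinearIndepOn k id s ∧
      ∀ m, r - j ≤ m → m ≤ r → (W m : Set E) ⊆ Submodule.span k (s ∩ W m) := by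
  intro j
  induction j with
  | zero =>
    intro _
    obtain ⟨b, hb1, hb2, hb3, hb4⟩ := exists_linearIndepOn_id_extension hN (hNW r)
    refine ⟨b, hb2, by simpa using hb1, hb4, fun m h1 h2 => ?_⟩
    have hm : m = r := by omega
    subst hm
    rwa [Set.inter_eq_self_of_subset_left hb1]
  | succ j ih =>
    intro hj
    obtain ⟨s, hs1, hs2, hs3, hs4⟩ := ih (by omega)
    have hle : (W (r - j) : Set E) ⊆ W (r - (j + 1)) := hW (by omega)
    obtain ⟨b, hb1, hb2, hb3, hb4⟩ := exists_linearIndepOn_id_extension hs3 (hs2.trans hle)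
    refine ⟨b, hs1.trans hb2, hb1, hb4, fun m h1 h2 => ?_⟩
    by_cases hm : r - j ≤ m
    · exact (hs4 m hm h2).trans (Submodule.span_mono (Set.inter_subset_inter_left _ hb2))
    · have hm' : m = r - (j + 1) := by omega
      subst hm'
      rwa [Set.inter_eq_self_of_subset_left hb1]

/-- the number of elements of the adapted set in a member of the flag -/
theorem Flag_ncard {k E : Type*} [Field k] [AddCommGroup E] [Module k E] [FiniteDimensional k E]
    (s : Set E) (hs : LinearIndepOn k id s) (V : Submodule k E)
    (h : (V : Set E) ⊆ Submodule.span k (s ∩ V)) : (s ∩ V).ncard = Module.finrank k V := by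
  have h1 : LinearIndepOn k id (s ∩ (V : Set E)) := hs.mono Set.inter_subset_left
  have h2 : Submodule.span k (s ∩ (V : Set E)) = V := by
    apply le_antisymm
    · exact Submodule.span_le.mpr Set.inter_subset_right
    · exact h
  have hfin : (s ∩ (V : Set E)).Finite := h1.setFinite
  have := hfin.fintype
  rw [Set.ncard_eq_toFinset_card' , ← finrank_span_set_eq_card h1, h2]

/-- basis adapted to a flag, containing a given independent family in every member -/
theorem flag {k E : Type*} [Field k] [AddCommGroup E] [Module k E] [FiniteDimensional k E]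
    {κ ρ : Type*} [Fintype κ] [Fintype ρ] (n : κ → E) (hn : LinearIndependent k n)
    (hcard : Fintype.card ρ + Fintype.card κ = Module.finrank k E)
    (W : ℕ → Submodule k E) (hW : Antitone W) (hW0 : W 0 = ⊤) (hN : ∀ m j, n j ∈ W m)
    (r : ℕ) (G : ℕ → ℕ)
    (hG : ∀ m, 1 ≤ m → m ≤ r → Fintype.card κ + G m ≤ Module.finrank k (W m)) :
    ∃ (b : ρ → E) (w : ρ → ℕ), (∀ i, b i ∈ W (w i)) ∧ LinearIndependent k (Sum.elim b n) ∧
      ∑ m ∈ Finset.Icc 1 r, G m ≤ ∑ i, w i := by
  classical
  have hinj : Function.Injective n := hn.injective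
  obtain ⟨s, hs1, hs2, hs3, hs4⟩ := Flag_adapted (Set.range n) hn.linearIndepOn_id W hW
    (fun m => by rintro _ ⟨j, rfl⟩; exact hN m j) r r le_rfl
  have hsfin : s.Finite := hs3.setFinite
  have hrn : (Set.range n).ncard = Fintype.card κ := by
    rw [← Set.image_univ, Set.ncard_image_of_injective _ hinj, Set.ncard_univ,
      Nat.card_eq_fintype_card]
  have hcount : ∀ m ≤ r, ((s \ Set.range n) ∩ W m).ncard + Fintype.card κ =
      Module.finrank k (W m) := by
    intro m hm
    rw [← Flag_ncard s hs3 (W m) (hs4 m (by omega) hm), ← hrn]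
    have : (s \ Set.range n) ∩ (W m : Set E) = (s ∩ W m) \ Set.range n := by
      ext x; simp only [Set.mem_inter_iff, Set.mem_sdiff]; tauto
    rw [this]
    apply Set.ncard_sdiff_add_ncard_of_subset
    · intro x hx
      refine ⟨hs1 hx, ?_⟩
      obtain ⟨j, rfl⟩ := hx
      exact hN m j
    · exact hsfin.inter_of_left _
  have hρ : (s \ Set.range n).ncard = Fintype.card ρ := by
    have := hcount 0 (Nat.zero_le _)
    rw [hW0, finrank_top, ← hcard] at this
    simpa using this
  have hfin : (s \ Set.range n).Finite := hsfin.sdiff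
  have : Fintype ↥(s \ Set.range n) := hfin.fintype
  have hc : Fintype.card ρ = Fintype.card ↥(s \ Set.range n) := by
    rw [← hρ, Set.ncard_eq_toFinset_card', Set.toFinset_card]
  let e : ρ ≃ ↥(s \ Set.range n) := Fintype.equivOfCardEq hc
  refine ⟨fun i => (e i : E), fun i => Nat.findGreatest (fun m => (e i : E) ∈ W m) r,
    ?_, ?_, ?_⟩
  · intro i
    have := Nat.findGreatest_spec (P := fun m => (e i : E) ∈ W m) (Nat.zero_le r)
      (by rw [hW0]; trivial)
    exact this
  · have hli : LinearIndependent k ((↑) : s → E) := hs3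
    have hf : Function.Injective (Sum.elim (fun i : ρ => (⟨(e i : E), (e i).2.1⟩ : s))
        (fun j : κ => (⟨n j, hs1 ⟨j, rfl⟩⟩ : s))) := by
      rintro (i | i) (j | j) h
      · have h' : (e i : E) = e j := congrArg (fun z : s => (z : E)) h
        rw [e.injective (Subtype.ext h')]
      · have h' : (e i : E) = n j := congrArg (fun z : s => (z : E)) h
        exact absurd ⟨j, h'.symm⟩ (e i).2.2
      · have h' : n i = (e j : E) := congrArg (fun z : s => (z : E)) h
        exact absurd ⟨i, h'⟩ (e j).2.2
      · have h' : n i = n j := congrArg (fun z : s => (z : E)) h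
        rw [hinj h']
    have := hli.comp _ hf
    convert this using 1
    ext (i | i) <;> rfl
  · have h1 : ∀ i : ρ, ((Finset.Icc 1 r).filter (fun m => (e i : E) ∈ W m)).card ≤
        Nat.findGreatest (fun m => (e i : E) ∈ W m) r := by
      intro i
      have : (Finset.Icc 1 r).filter (fun m => (e i : E) ∈ W m) ⊆
          Finset.Icc 1 (Nat.findGreatest (fun m => (e i : E) ∈ W m) r) := by
        intro m hm
        rw [Finset.mem_filter, Finset.mem_Icc] at hm
        rw [Finset.mem_Icc]
        exact ⟨hm.1.1, Nat.le_findGreatest hm.1.2 hm.2⟩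
      simpa using Finset.card_le_card this
    refine le_trans ?_ (Finset.sum_le_sum fun i _ => h1 i)
    simp only [Finset.card_filter]
    rw [Finset.sum_comm]
    apply Finset.sum_le_sum
    intro m hm
    rw [Finset.mem_Icc] at hm
    rw [← Finset.card_filter]
    have h2 := hcount m hm.2
    have h3 := hG m hm.1 hm.2
    have h4 : G m ≤ ((s \ Set.range n) ∩ W m).ncard := by omega
    refine h4.trans ?_
    have h5 : (s \ Set.range n) ∩ (W m : Set E) ⊆
        (((Finset.univ : Finset ρ).filter (fun i => (e i : E) ∈ W m)).image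
          (fun i => (e i : E)) : Finset E) := by
      intro x hx
      rw [Finset.coe_image]
      refine ⟨e.symm ⟨x, hx.1⟩, ?_, by simp⟩
      simp only [Finset.coe_filter, Finset.mem_univ, true_and, Set.mem_ofPred_eq,
        Equiv.apply_symm_apply]
      exact hx.2
    calc ((s \ Set.range n) ∩ (W m : Set E)).ncard ≤ _ :=
          Set.ncard_le_ncard h5 (Finset.finite_toSet _)
      _ = _ := Set.ncard_coe_finset _
      _ ≤ _ := Finset.card_image_le

end Pool.Agent.Helper20.H3
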