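import Mathlib
import Pool.Agent.Helper20.H3.Basic
import Pool.Agent.Helper20.H3.Flag
import Pool.Agent.Helper20.HypMinor

set_option autoImplicit false

namespace Pool.Agent.Helper20.H3

open Polynomial

theorem Val_anti (q : ℕ) {τ : Type*} [Fintype τ] (V : Set (τ → ℤ)) : Antitone (LiftG q V) := by
  intro m m' h
  rintro u ⟨U, hU, hU'⟩
  exact ⟨U, hU, fun v hv => (pow_dvd_pow _ h).trans (hU' v hv)⟩

theorem Val_zero (q : ℕ) {τ : Type*} [Fintype τ] (V : Set (τ → ℤ)) : LiftG q V 0 = ⊤ := by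
  rw [eq_top_iff]
  intro u _
  choose U hU using fun e => ZMod.intCast_surjective (u e)
  exact ⟨U, hU, fun v _ => by simp⟩

/-- local divisibility of a complementary minor -/
theorem val_dvd {ρ κ τ : Type*} [Fintype ρ] [DecidableEq ρ] [Fintype κ] [DecidableEq κ]
    [Fintype τ] [DecidableEq τ] (q : ℕ) [Fact q.Prime] (e : ρ ⊕ κ ≃ τ)
    (V : ρ → τ → ℤ) (K : κ → τ → ℤ) (hVK : ∀ i j, ∑ t, V i t * K j t = 0)
    (hK : LinearIndependent (ZMod q) (fun (j : κ) (t : τ) => ((K j t : ℤ) : ZMod q)))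
    (r : ℕ) (G : ℕ → ℕ)
    (hG : ∀ k, 1 ≤ k → k ≤ r → Fintype.card κ + G k ≤
      Module.finrank (ZMod q) (LiftG q (Set.range V) k)) :
    ∃ c : ℤ, ¬ (q : ℤ) ∣ c ∧
      (q : ℤ) ^ (∑ k ∈ Finset.Icc 1 r, G k) *
        (Matrix.of fun j j' : κ => K j (e (Sum.inr j'))).det ∣
      c * (Matrix.of fun i i' : ρ => V i (e (Sum.inl i'))).det := by
  obtain ⟨b, w, hb, hli, hsum⟩ := flag (k := ZMod q) (E := τ → ZMod q) (ρ := ρ)
    (fun (j : κ) (t : τ) => ((K j t : ℤ) : ZMod q)) hK
    (by rw [Module.finrank_fintype_fun_eq_card, ← Fintype.card_sum, Fintype.card_congr e])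
    (LiftG q (Set.range V)) (Val_anti q _) (Val_zero q _)
    (fun m j => ⟨K j, fun t => rfl, by
      rintro _ ⟨i, rfl⟩
      have : ∑ t, K j t * V i t = 0 := by
        rw [← hVK i j]
        exact Finset.sum_congr rfl fun t _ => mul_comm _ _
      rw [this]
      exact dvd_zero _⟩) r G hG
  choose B hB hB' using hb
  set N : Matrix (ρ ⊕ κ) (ρ ⊕ κ) ℤ := Matrix.of fun a c => (Sum.elim B K a) (e c) with hN
  set V1 : Matrix ρ ρ ℤ := Matrix.of fun i i' : ρ => V i (e (Sum.inl i')) with hV1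
  set V2 : Matrix ρ κ ℤ := Matrix.of fun i j => V i (e (Sum.inr j)) with hV2
  set K2 : Matrix κ κ ℤ := Matrix.of fun j j' : κ => K j (e (Sum.inr j')) with hK2
  set M1 : Matrix ρ ρ ℤ := Matrix.of fun i i' : ρ => ∑ t, V i t * B i' t with hM1
  have hprod : Matrix.fromBlocks V1 V2 0 (1 : Matrix κ κ ℤ) * N.transpose =
      Matrix.fromBlocks M1 0 (Matrix.of fun (j : κ) (i : ρ) => B i (e (Sum.inr j)))
        K2.transpose := by
    ext a c
    rw [Matrix.mul_apply]
    rcases a with i | j
    · have h1 : ∀ c : ρ ⊕ κ, ∑ x : ρ ⊕ κ, Matrix.fromBlocks V1 V2 0 (1 : Matrix κ κ ℤ)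
          (Sum.inl i) x * N.transpose x c = ∑ t, V i t * (Sum.elim B K c) t := by
        intro c
        rw [← Equiv.sum_comp e (fun t => V i t * (Sum.elim B K c) t)]
        refine Finset.sum_congr rfl fun x _ => ?_
        rcases x with x | x <;> simp [hN, hV1, hV2]
      rw [h1]
      rcases c with c | c
      · simp [hM1]
      · simp [hVK]
    · rw [Fintype.sum_sum_type]
      rcases c with c | c
      · simp [hN, Matrix.one_apply]
      · simp [hN, hK2, Matrix.one_apply]
  have hdet := congrArg Matrix.det hprod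
  rw [Matrix.det_mul, Matrix.det_fromBlocks_zero₂₁, Matrix.det_one, mul_one,
    Matrix.det_fromBlocks_zero₁₂, Matrix.det_transpose, Matrix.det_transpose] at hdet
  refine ⟨N.det, ?_, ?_⟩
  · -- the determinant is not divisible by `q`
    have hunit : IsUnit (N.map (Int.castRingHom (ZMod q))) := by
      rw [← Matrix.linearIndependent_rows_iff_isUnit]
      have hli2 := hli.map' (LinearEquiv.funCongrLeft (ZMod q) (ZMod q) e).toLinearMap
        (LinearEquiv.ker _)
      have e1 : (N.map (Int.castRingHom (ZMod q))).row =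
          (LinearEquiv.funCongrLeft (ZMod q) (ZMod q) e).toLinearMap ∘
            (Sum.elim b fun (j : κ) (t : τ) => ((K j t : ℤ) : ZMod q)) := by
        funext a c
        rcases a with i | j
        · simp [hN, LinearMap.funLeft, hB]
        · simp [hN, LinearMap.funLeft]
      rw [e1]
      exact hli2
    intro hdvd
    rw [Matrix.isUnit_iff_isUnit_det] at hunit
    have h0 : (N.map (Int.castRingHom (ZMod q))).det = 0 := by
      have h1 := RingHom.map_det (Int.castRingHom (ZMod q)) N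
      rw [RingHom.mapMatrix_apply] at h1
      rw [← h1]
      exact (ZMod.intCast_zmod_eq_zero_iff_dvd _ _).2 hdvd
    rw [h0] at hunit
    exact not_isUnit_zero hunit
  · rw [mul_comm N.det, hdet]
    refine mul_dvd_mul ?_ dvd_rfl
    have h1 : (∏ i' : ρ, (q : ℤ) ^ w i') ∣ M1.det := by
      refine prod_dvd_det_col M1 (fun i' => (q : ℤ) ^ w i') fun i i' => ?_
      have := hB' i' (V i) ⟨i, rfl⟩
      have e1 : M1 i i' = ∑ t, B i' t * V i t := by
        rw [hM1, Matrix.of_apply]
        exact Finset.sum_congr rfl fun t _ => mul_comm _ _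
      rw [e1]
      exact this
    refine dvd_trans ?_ h1
    rw [Finset.prod_pow_eq_pow_sum]
    exact pow_dvd_pow _ hsum

end Pool.Agent.Helper20.H3
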