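import Mathlib
import Pool.Agent.Helper20.H3.Val

set_option autoImplicit false

namespace Pool.Agent.Helper20.H3

open Polynomial

/-- if `a` divides a multiple of `b` prime to `q`, for every prime `q`, then `a` divides `b` -/
theorem ValAll_dvd {a b : ℤ} (hb : b ≠ 0)
    (h : ∀ q : ℕ, q.Prime → ∃ c : ℤ, ¬ (q : ℤ) ∣ c ∧ a ∣ c * b) : a ∣ b := by
  have ha : a ≠ 0 := by
    rintro rfl
    obtain ⟨c, hc, hd⟩ := h 2 Nat.prime_two
    rw [zero_dvd_iff] at hd
    rcases mul_eq_zero.1 hd with h0 | h0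
    · exact hc (h0 ▸ dvd_zero _)
    · exact hb h0
  obtain ⟨a', ha'⟩ := Int.gcd_dvd_left a b
  obtain ⟨b', hb'⟩ := Int.gcd_dvd_right a b
  have hg : ((Int.gcd a b : ℕ) : ℤ) ≠ 0 := by
    intro h0
    rw [h0, zero_mul] at ha'
    exact ha ha'
  have hcop : IsCoprime a' b' := by
    rw [Int.isCoprime_iff_gcd_eq_one]
    have h1 : Int.gcd a b = Int.gcd a b * Int.gcd a' b' := by
      have h3 := Int.gcd_mul_left ((Int.gcd a b : ℕ) : ℤ) a' b'
      rwa [← ha', ← hb', Int.natAbs_natCast] at h3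
    have h2 : Int.gcd a b ≠ 0 := by exact_mod_cast hg
    exact (Nat.mul_eq_left h2).1 h1.symm
  have hu : a'.natAbs = 1 := by
    by_contra hne
    obtain ⟨q, hq, hqa⟩ := Int.exists_prime_and_dvd hne
    obtain ⟨c, hc, hd⟩ := h q.natAbs (Int.prime_iff_natAbs_prime.1 hq)
    apply hc
    have h1 : a' ∣ c * b' := by
      obtain ⟨e, he⟩ := hd
      refine ⟨e, mul_left_cancel₀ hg ?_⟩
      calc ((Int.gcd a b : ℕ) : ℤ) * (c * b') = c * (((Int.gcd a b : ℕ) : ℤ) * b') := by ring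
        _ = c * b := by rw [← hb']
        _ = a * e := he
        _ = ((Int.gcd a b : ℕ) : ℤ) * a' * e := by rw [← ha']
        _ = _ := by ring
    have h2 : a' ∣ c := hcop.dvd_of_dvd_mul_right h1
    rw [Int.natCast_natAbs, abs_dvd]
    exact hqa.trans h2
  have hua : IsUnit a' := Int.isUnit_iff_natAbs_eq.2 hu
  rw [ha']
  exact (hua.mul_right_dvd).2 (Int.gcd_dvd_right a b)

/-- global lower bound for a complementary minor -/
theorem val_all {ρ κ τ : Type*} [Fintype ρ] [DecidableEq ρ] [Fintype κ] [DecidableEq κ]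
    [Fintype τ] [DecidableEq τ] (p : ℕ) (hp : p.Prime) (e : ρ ⊕ κ ≃ τ)
    (V : ρ → τ → ℤ) (K : κ → τ → ℤ) (hVK : ∀ i j, ∑ t, V i t * K j t = 0)
    (hK : ∀ q : ℕ, q.Prime →
      LinearIndependent (ZMod q) (fun (j : κ) (t : τ) => ((K j t : ℤ) : ZMod q)))
    (r : ℕ) (G : ℕ → ℕ)
    (hG : ∀ k, 1 ≤ k → k ≤ r → Fintype.card κ + G k ≤
      Module.finrank (ZMod p) (LiftG p (Set.range V) k))
    (hdet : (Matrix.of fun i i' : ρ => V i (e (Sum.inl i'))).det ≠ 0) :
    (p : ℤ) ^ (∑ k ∈ Finset.Icc 1 r, G k) *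
        |(Matrix.of fun j j' : κ => K j (e (Sum.inr j'))).det| ≤
      |(Matrix.of fun i i' : ρ => V i (e (Sum.inl i'))).det| := by
  have hdvd : (p : ℤ) ^ (∑ k ∈ Finset.Icc 1 r, G k) *
      (Matrix.of fun j j' : κ => K j (e (Sum.inr j'))).det ∣
      (Matrix.of fun i i' : ρ => V i (e (Sum.inl i'))).det := by
    refine ValAll_dvd hdet (fun q hq => ?_)
    have : Fact q.Prime := ⟨hq⟩
    by_cases hqp : q = p
    · subst hqp
      exact val_dvd q e V K hVK (hK q hq) r G hG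
    · obtain ⟨c, hc, hd⟩ := val_dvd q e V K hVK (hK q hq) 0 G (fun k h1 h2 => by omega)
      rw [show Finset.Icc 1 0 = (∅ : Finset ℕ) from rfl, Finset.sum_empty, pow_zero, one_mul] at hd
      refine ⟨c * (p : ℤ) ^ (∑ k ∈ Finset.Icc 1 r, G k), ?_, ?_⟩
      · intro h
        have hq' : Prime (q : ℤ) := Nat.prime_iff_prime_int.1 hq
        rcases hq'.dvd_or_dvd h with h1 | h1
        · exact hc h1
        · have h2 := hq'.dvd_of_dvd_pow h1
          have h3 : q ∣ p := by exact_mod_cast h2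
          exact hqp ((Nat.prime_dvd_prime_iff_eq hq hp).1 h3)
      · rw [mul_comm c, mul_assoc]
        exact mul_dvd_mul_left _ hd
  have habs := Int.le_of_dvd (abs_pos.2 hdet) ((abs_dvd_abs _ _).2 hdvd)
  rwa [abs_mul, abs_of_nonneg (by positivity : (0 : ℤ) ≤ (p : ℤ) ^ (∑ k ∈ Finset.Icc 1 r, G k))]
    at habs

end Pool.Agent.Helper20.H3
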