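import Mathlib
import Pool.Agent.Helper20.HypMinor
import Pool.Agent.Helper20.H3.ValAll
import Pool.Agent.Helper20.H3.DetDom
import Pool.Agent.Helper20.H3.Domi
import Pool.Agent.Helper20.H3.Rank
import Pool.Agent.Helper20.H3.Degree

/-!
# The determinant method on a curve
-/

set_option autoImplicit false

namespace Pool.Agent.Helper20.H3

open Polynomial

section
variable {R : Type*} [CommRing R]

/-- coefficients of a product with `toP` -/
theorem Curve_cf_mul_toP (g : P2 R) (n1 n2 : ℕ) (u : Fin n1 × Fin n2 → R) (i j : ℕ) :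
    cf (g * toP n1 n2 u) i j = ∑ e, u e * cf (g * toP n1 n2 (Pi.single e 1)) i j := by
  classical
  have h1 : toP n1 n2 u = ∑ e, C (C (u e)) * toP n1 n2 (Pi.single e 1) := by
    apply cf_ext
    intro i j
    rw [cf_sum]
    simp only [cf_CC_mul, cf_toP]
    split_ifs with h
    · rw [Finset.sum_eq_single (⟨i, h.1⟩, ⟨j, h.2⟩)]
      · simp
      · intro e _ hne
        rw [Pi.single_eq_of_ne (Ne.symm hne), mul_zero]
      · intro h'
        exact absurd (Finset.mem_univ _) h'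
    · simp
  conv_lhs => rw [h1, Finset.mul_sum, cf_sum]
  refine Finset.sum_congr rfl fun e _ => ?_
  rw [mul_left_comm, cf_CC_mul]

/-- the coefficients of `g x^i y^j` -/
theorem Curve_cf_single (g : P2 R) (n1 n2 : ℕ) (e : Fin n1 × Fin n2) (i j : ℕ) :
    cf (g * toP n1 n2 (Pi.single e 1)) i j =
      if (e.1 : ℕ) ≤ i ∧ (e.2 : ℕ) ≤ j then cf g (i - e.1) (j - e.2) else 0 := by
  classical
  have h1 : toP n1 n2 (Pi.single e (1 : R)) = C (X ^ (e.1 : ℕ)) * X ^ (e.2 : ℕ) := by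
    apply cf_ext
    intro i j
    rw [cf_toP]
    unfold cf
    rw [coeff_C_mul_X_pow]
    split_ifs with h h2 h2
    · rw [coeff_X_pow]
      by_cases h3 : i = e.1
      · rw [if_pos h3]
        have : (⟨i, h.1⟩, ⟨j, h.2⟩) = e := by
          ext
          · exact h3
          · exact h2
        rw [this, Pi.single_eq_same]
      · rw [if_neg h3, Pi.single_eq_of_ne]
        intro h4
        apply h3
        rw [← h4]
    · rw [Pi.single_eq_of_ne, coeff_zero]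
      intro h4
      apply h2
      rw [← h4]
    · rw [coeff_X_pow, if_neg]
      intro h3
      apply h
      rw [h2, h3]
      exact ⟨e.1.2, e.2.2⟩
    · rw [coeff_zero]
  rw [h1, ← mul_assoc]
  unfold cf
  rw [coeff_mul_X_pow']
  by_cases h2 : (e.2 : ℕ) ≤ j
  · rw [if_pos h2, coeff_mul_C, coeff_mul_X_pow']
    by_cases h3 : (e.1 : ℕ) ≤ i
    · rw [if_pos h3, if_pos ⟨h3, h2⟩]
    · rw [if_neg h3, if_neg fun h => h3 h.1]
  · rw [if_neg h2, if_neg fun h => h2 h.2, coeff_zero]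

end

theorem Curve_red_single (q n1 n2 : ℕ) (e : Fin n1 × Fin n2) :
    red q (toP n1 n2 (Pi.single e 1)) = toP n1 n2 (Pi.single e 1) := by
  classical
  apply cf_ext
  intro i j
  rw [cf_red, cf_toP, cf_toP]
  split_ifs with h
  · by_cases h2 : (⟨i, h.1⟩, ⟨j, h.2⟩) = e
    · rw [h2, Pi.single_eq_same, Pi.single_eq_same]
      simp
    · rw [Pi.single_eq_of_ne h2, Pi.single_eq_of_ne h2]
      simp
  · simp

/-- the rows `g x^i y^j` -/
noncomputable def CurveK (n a b : ℕ) (g : P2 ℤ) (e : Fin (n - a) × Fin (n - b))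
    (t : Fin n × Fin n) : ℤ :=
  cf (g * toP (n - a) (n - b) (Pi.single e 1)) t.1 t.2

theorem CurveK_eq {n a b : ℕ} (g : P2 ℤ) (e : Fin (n - a) × Fin (n - b)) (t : Fin n × Fin n) :
    CurveK n a b g e t = if (e.1 : ℕ) ≤ t.1 ∧ (e.2 : ℕ) ≤ t.2 then
      cf g (t.1 - e.1) (t.2 - e.2) else 0 := Curve_cf_single g _ _ e _ _

theorem CurveK_sum {n a b : ℕ} (g : P2 ℤ) (u : Fin (n - a) × Fin (n - b) → ℤ)
    (t : Fin n × Fin n) : ∑ e, u e * CurveK n a b g e t =
      cf (g * toP (n - a) (n - b) u) t.1 t.2 := (Curve_cf_mul_toP g _ _ u _ _).symm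

theorem Curve_SB {n a b : ℕ} (ha : a ≤ n) (hb : b ≤ n) {R : Type*} [CommRing R] {g : P2 R}
    (hg : SB (a + 1) (b + 1) g) (u : Fin (n - a) × Fin (n - b) → R) :
    SB n n (g * toP (n - a) (n - b) u) :=
  (hg.mul (SB_toP _ _ u)).mono (by omega) (by omega)

theorem CurveK_orth {n a b : ℕ} (ha : a ≤ n) (hb : b ≤ n) {g : P2 ℤ}
    (hg : SB (a + 1) (b + 1) g) (P : ℤ × ℤ) (hP : evalEval P.1 P.2 g = 0)
    (e : Fin (n - a) × Fin (n - b)) : ∑ t, mvec n P t * CurveK n a b g e t = 0 := by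
  have h := ev_eq_mvec (Curve_SB ha hb hg (Pi.single e 1)) P
  rw [evalEval_mul, hP, zero_mul] at h
  rw [h]
  refine Finset.sum_congr rfl fun t _ => ?_
  rw [mul_comm]
  rfl

theorem CurveK_indep {n a b : ℕ} (ha : a ≤ n) (hb : b ≤ n) {g : P2 ℤ}
    (hg : SB (a + 1) (b + 1) g) {q : ℕ} (hq : q.Prime) (hr : red q g ≠ 0) :
    LinearIndependent (ZMod q)
      (fun (e : Fin (n - a) × Fin (n - b)) (t : Fin n × Fin n) =>
        ((CurveK n a b g e t : ℤ) : ZMod q)) := by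
  have : Fact q.Prime := ⟨hq⟩
  rw [Fintype.linearIndependent_iff]
  intro c hc
  have h1 : red q g * toP (n - a) (n - b) c = 0 := by
    apply cf_ext
    intro i j
    rw [cf_zero]
    by_cases hij : i < n ∧ j < n
    · have h2 := congrFun hc (⟨i, hij.1⟩, ⟨j, hij.2⟩)
      rw [Finset.sum_apply] at h2
      simp only [Pi.smul_apply, smul_eq_mul, Pi.zero_apply] at h2
      rw [Curve_cf_mul_toP, ← h2]
      refine Finset.sum_congr rfl fun e _ => ?_
      rw [← Curve_red_single, ← map_mul, cf_red]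
      rfl
    · exact (Curve_SB ha hb (hg.red q) c).zero_of hij
  have h3 : toP (n - a) (n - b) c = 0 := (mul_eq_zero.1 h1).resolve_left hr
  have h4 : c = 0 := by
    apply toP_injective (n - a) (n - b)
    rw [h3]
    apply cf_ext
    intro i j
    rw [cf_toP]
    split_ifs <;> simp
  intro e
  rw [h4]
  rfl

/-- the embedding of the small box at the dominating exponent -/
def CurveI {n a b s t : ℕ} (hs : s ≤ a) (ht : t ≤ b) (e : Fin (n - a) × Fin (n - b)) :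
    Fin n × Fin n :=
  (⟨s + e.1, by have := e.1.2; omega⟩, ⟨t + e.2, by have := e.2.2; omega⟩)

theorem CurveI_inj {n a b s t : ℕ} (hs : s ≤ a) (ht : t ≤ b) :
    Function.Injective (CurveI (n := n) hs ht) := by
  intro e e' h
  have h1 := congrArg (fun x : Fin n × Fin n => (x.1 : ℕ)) h
  have h2 := congrArg (fun x : Fin n × Fin n => (x.2 : ℕ)) h
  simp only [CurveI] at h1 h2
  ext
  · omega
  · omega

/-- total size of the coefficients -/
noncomputable def CurveT (g : P2 ℤ) (Mx My : ℕ) : ℤ :=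
  ∑ x ∈ Finset.range 4 ×ˢ Finset.range 4, |cf g x.1 x.2| * (Mx : ℤ) ^ x.1 * (My : ℤ) ^ x.2

theorem Curve_row {n a b s t : ℕ} (ha : a ≤ 3) (hb : b ≤ 3) (hs : s ≤ a) (ht : t ≤ b)
    {g : P2 ℤ} (hg : SB (a + 1) (b + 1) g) (Mx My : ℕ) (e : Fin (n - a) × Fin (n - b)) :
    ∑ e' : Fin (n - a) × Fin (n - b), |CurveK n a b g e (CurveI hs ht e')| *
        ((Mx : ℤ) ^ (e'.1 : ℕ) * (My : ℤ) ^ (e'.2 : ℕ)) * ((Mx : ℤ) ^ s * (My : ℤ) ^ t) ≤
      ((Mx : ℤ) ^ (e.1 : ℕ) * (My : ℤ) ^ (e.2 : ℕ)) * CurveT g Mx My := by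
  classical
  set φ : Fin (n - a) × Fin (n - b) → ℕ × ℕ := fun e' => (s + e'.1 - e.1, t + e'.2 - e.2) with hφ
  set T := Finset.univ.filter fun e' : Fin (n - a) × Fin (n - b) =>
    CurveK n a b g e (CurveI hs ht e') ≠ 0 with hT
  have hK : ∀ e' ∈ T, (e.1 : ℕ) ≤ s + e'.1 ∧ (e.2 : ℕ) ≤ t + e'.2 ∧
      CurveK n a b g e (CurveI hs ht e') = cf g (φ e').1 (φ e').2 := by
    intro e' he'
    rw [hT, Finset.mem_filter] at he'
    have h1 := he'.2
    rw [CurveK_eq] at h1 ⊢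
    have h2 : (e.1 : ℕ) ≤ (CurveI (n := n) hs ht e').1 ∧
        (e.2 : ℕ) ≤ (CurveI (n := n) hs ht e').2 := by
      by_contra hc
      rw [if_neg hc] at h1
      exact h1 rfl
    rw [if_pos h2]
    exact ⟨h2.1, h2.2, rfl⟩
  have h1 : ∑ e' : Fin (n - a) × Fin (n - b), |CurveK n a b g e (CurveI hs ht e')| *
        ((Mx : ℤ) ^ (e'.1 : ℕ) * (My : ℤ) ^ (e'.2 : ℕ)) * ((Mx : ℤ) ^ s * (My : ℤ) ^ t) =
      ∑ e' ∈ T, |CurveK n a b g e (CurveI hs ht e')| *
        ((Mx : ℤ) ^ (e'.1 : ℕ) * (My : ℤ) ^ (e'.2 : ℕ)) * ((Mx : ℤ) ^ s * (My : ℤ) ^ t) := by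
    rw [hT]
    symm
    apply Finset.sum_filter_of_ne
    intro e' _ h h0
    apply h
    rw [h0, abs_zero, zero_mul, zero_mul]
  have h2 : ∀ e' ∈ T, |CurveK n a b g e (CurveI hs ht e')| *
        ((Mx : ℤ) ^ (e'.1 : ℕ) * (My : ℤ) ^ (e'.2 : ℕ)) * ((Mx : ℤ) ^ s * (My : ℤ) ^ t) =
      ((Mx : ℤ) ^ (e.1 : ℕ) * (My : ℤ) ^ (e.2 : ℕ)) *
        (|cf g (φ e').1 (φ e').2| * (Mx : ℤ) ^ (φ e').1 * (My : ℤ) ^ (φ e').2) := by
    intro e' he'
    obtain ⟨k1, k2, k3⟩ := hK e' he'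
    rw [k3]
    have p1 : (Mx : ℤ) ^ (e'.1 : ℕ) * (Mx : ℤ) ^ s = (Mx : ℤ) ^ (e.1 : ℕ) * (Mx : ℤ) ^ (φ e').1 := by
      rw [← pow_add, ← pow_add]
      congr 1
      simp only [hφ]
      omega
    have p2 : (My : ℤ) ^ (e'.2 : ℕ) * (My : ℤ) ^ t = (My : ℤ) ^ (e.2 : ℕ) * (My : ℤ) ^ (φ e').2 := by
      rw [← pow_add, ← pow_add]
      congr 1
      simp only [hφ]
      omega
    calc |cf g (φ e').1 (φ e').2| * ((Mx : ℤ) ^ (e'.1 : ℕ) * (My : ℤ) ^ (e'.2 : ℕ)) *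
          ((Mx : ℤ) ^ s * (My : ℤ) ^ t)
        = |cf g (φ e').1 (φ e').2| * ((Mx : ℤ) ^ (e'.1 : ℕ) * (Mx : ℤ) ^ s) *
          ((My : ℤ) ^ (e'.2 : ℕ) * (My : ℤ) ^ t) := by ring
      _ = _ := by rw [p1, p2]; ring
  rw [h1, Finset.sum_congr rfl h2, ← Finset.mul_sum]
  apply mul_le_mul_of_nonneg_left _ (by positivity)
  have h3 : Set.InjOn φ (T : Set (Fin (n - a) × Fin (n - b))) := by
    intro e' he' e'' he'' h
    obtain ⟨k1, k2, -⟩ := hK e' he'
    obtain ⟨l1, l2, -⟩ := hK e'' he''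
    have h4 := congrArg Prod.fst h
    have h5 := congrArg Prod.snd h
    simp only [hφ] at h4 h5
    ext
    · omega
    · omega
  rw [← Finset.sum_image (f := fun x : ℕ × ℕ =>
    |cf g x.1 x.2| * (Mx : ℤ) ^ x.1 * (My : ℤ) ^ x.2) h3]
  unfold CurveT
  apply Finset.sum_le_sum_of_subset_of_nonneg
  · intro x hx
    obtain ⟨e', he', rfl⟩ := Finset.mem_image.1 hx
    obtain ⟨-, -, k3⟩ := hK e' he'
    rw [hT, Finset.mem_filter] at he'
    have h6 := he'.2
    rw [k3] at h6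
    have h7 := hg _ _ h6
    rw [Finset.mem_product, Finset.mem_range, Finset.mem_range]
    omega
  · intro x _ _
    positivity

/-- the minor at the dominating exponent -/
noncomputable def CurveM {n a b s t : ℕ} (hs : s ≤ a) (ht : t ≤ b) (g : P2 ℤ) :
    Matrix (Fin (n - a) × Fin (n - b)) (Fin (n - a) × Fin (n - b)) ℤ :=
  Matrix.of fun e e' => CurveK n a b g e (CurveI hs ht e')

theorem Curve_det {n a b s t : ℕ} (ha : a ≤ 3) (hb : b ≤ 3) (hs : s ≤ a) (ht : t ≤ b)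
    {g : P2 ℤ} (hg : SB (a + 1) (b + 1) g) {Mx My : ℕ} (hMx : 1 ≤ Mx) (hMy : 1 ≤ My)
    (hdom : 2 * (CurveT g Mx My - |cf g s t| * (Mx : ℤ) ^ s * (My : ℤ) ^ t) ≤
      |cf g s t| * (Mx : ℤ) ^ s * (My : ℤ) ^ t) :
    |cf g s t| ^ ((n - a) * (n - b)) ≤
      2 ^ ((n - a) * (n - b)) * |(CurveM (n := n) hs ht g).det| := by
  have hx0 : (0 : ℝ) < Mx := by exact_mod_cast hMx
  have hy0 : (0 : ℝ) < My := by exact_mod_cast hMy
  have hdiag : ∀ e : Fin (n - a) × Fin (n - b),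
      CurveK n a b g e (CurveI hs ht e) = cf g s t := by
    intro e
    rw [CurveK_eq, if_pos]
    · simp only [CurveI]
      congr 1 <;> omega
    · simp only [CurveI]
      omega
  have h := det_dominant (κ := Fin (n - a) × Fin (n - b))
    (A := (CurveM (n := n) hs ht g).map (Int.cast : ℤ → ℝ))
    (w := fun e => (Mx : ℝ) ^ (e.1 : ℕ) * (My : ℝ) ^ (e.2 : ℕ)) (fun e => by positivity) (by
      intro e
      have h1 := Curve_row (n := n) ha hb hs ht hg Mx My e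
      have h2 := Finset.add_sum_erase Finset.univ (fun e' : Fin (n - a) × Fin (n - b) =>
        |CurveK n a b g e (CurveI hs ht e')| *
        ((Mx : ℤ) ^ (e'.1 : ℕ) * (My : ℤ) ^ (e'.2 : ℕ)) * ((Mx : ℤ) ^ s * (My : ℤ) ^ t))
        (Finset.mem_univ e)
      rw [← h2, hdiag] at h1
      have h3 : (2 * ∑ e' ∈ Finset.univ.erase e, |CurveK n a b g e (CurveI hs ht e')| *
          ((Mx : ℤ) ^ (e'.1 : ℕ) * (My : ℤ) ^ (e'.2 : ℕ))) * ((Mx : ℤ) ^ s * (My : ℤ) ^ t) ≤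
          (|cf g s t| * ((Mx : ℤ) ^ (e.1 : ℕ) * (My : ℤ) ^ (e.2 : ℕ))) *
            ((Mx : ℤ) ^ s * (My : ℤ) ^ t) := by
        have h4 : (0 : ℤ) ≤ (Mx : ℤ) ^ (e.1 : ℕ) * (My : ℤ) ^ (e.2 : ℕ) := by positivity
        have h5 := mul_le_mul_of_nonneg_left hdom h4
        rw [mul_assoc 2, Finset.sum_mul]
        nlinarith [h1, h5]
      have h6 : (0 : ℤ) < (Mx : ℤ) ^ s * (My : ℤ) ^ t := by
        have : (0 : ℤ) < Mx := by exact_mod_cast hMx
        have : (0 : ℤ) < My := by exact_mod_cast hMy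
        positivity
      have h7 := le_of_mul_le_mul_right h3 h6
      change 2 * ∑ e' ∈ Finset.univ.erase e,
        |((CurveK n a b g e (CurveI hs ht e') : ℤ) : ℝ)| *
          ((Mx : ℝ) ^ (e'.1 : ℕ) * (My : ℝ) ^ (e'.2 : ℕ)) ≤
        |((CurveK n a b g e (CurveI hs ht e) : ℤ) : ℝ)| *
          ((Mx : ℝ) ^ (e.1 : ℕ) * (My : ℝ) ^ (e.2 : ℕ))
      rw [hdiag]
      exact_mod_cast h7)
  have h1 : ((CurveM (n := n) hs ht g).map (Int.cast : ℤ → ℝ)).det =
      (((CurveM (n := n) hs ht g).det : ℤ) : ℝ) := (Int.cast_det _).symm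
  rw [h1] at h
  simp only [Matrix.map_apply, CurveM, Matrix.of_apply, hdiag] at h
  rw [Finset.prod_const, Finset.card_univ, Fintype.card_prod, Fintype.card_fin,
    Fintype.card_fin] at h
  unfold CurveM
  exact_mod_cast h

theorem Curve_box_prod (n m : ℕ) (f : ℕ → ℕ → ℕ) : ∏ t : Fin n × Fin m, f t.1 t.2 =
    ∏ x ∈ Finset.range n ×ˢ Finset.range m, f x.1 x.2 := by
  rw [Finset.prod_product, Fintype.prod_prod_type, Finset.prod_range]
  refine Finset.prod_congr rfl fun i _ => ?_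
  rw [Finset.prod_range]

theorem Curve_box_sum (n m : ℕ) (f : ℕ → ℕ → ℤ) : ∑ t : Fin n × Fin m, f t.1 t.2 =
    ∑ x ∈ Finset.range n ×ˢ Finset.range m, f x.1 x.2 := by
  rw [Finset.sum_product, Fintype.sum_prod_type, Finset.sum_range]
  refine Finset.sum_congr rfl fun i _ => ?_
  rw [Finset.sum_range]

theorem Curve_prod (n a b : ℕ) {L Mx My : ℕ} (hx : Mx ≤ L) (hy : My ≤ L) :
    ∏ t : Fin n × Fin n, Mx ^ (t.1 : ℕ) * My ^ (t.2 : ℕ) ≤
      (∏ e : Fin (n - a) × Fin (n - b), Mx ^ (e.1 : ℕ) * My ^ (e.2 : ℕ)) * L ^ WW n a b := by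
  rw [Curve_box_prod n n (fun i j => Mx ^ i * My ^ j),
    Curve_box_prod (n - a) (n - b) (fun i j => Mx ^ i * My ^ j)]
  have hsub : Finset.range (n - a) ×ˢ Finset.range (n - b) ⊆
      Finset.range n ×ˢ Finset.range n := by
    intro x hx
    rw [Finset.mem_product, Finset.mem_range, Finset.mem_range] at hx ⊢
    omega
  have hWW : WW n a b = ∑ x ∈ (Finset.range n ×ˢ Finset.range n) \
      (Finset.range (n - a) ×ˢ Finset.range (n - b)), (x.1 + x.2) := by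
    have h1 := Finset.sum_sdiff hsub (f := fun x : ℕ × ℕ => x.1 + x.2)
    rw [Finset.sum_product (Finset.range n), Finset.sum_product (Finset.range (n - a))] at h1
    simp only at h1
    unfold WW
    omega
  rw [← Finset.prod_sdiff hsub, mul_comm, hWW]
  apply Nat.mul_le_mul_left
  rw [← Finset.prod_pow_eq_pow_sum]
  apply Finset.prod_le_prod'
  intro x _
  rw [pow_add]
  exact Nat.mul_le_mul (Nat.pow_le_pow_left hx _) (Nat.pow_le_pow_left hy _)

/-- the dominating term bounds the size -/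
theorem Curve_tn {g : P2 ℤ} {M Mx My s t : ℕ} (hs : s < 4) (ht : t < 4) (hMx : M ≤ Mx)
    (hMy : M ≤ My)
    (hdom : 2 * (CurveT g Mx My - |cf g s t| * (Mx : ℤ) ^ s * (My : ℤ) ^ t) ≤
      |cf g s t| * (Mx : ℤ) ^ s * (My : ℤ) ^ t) :
    (tn M g : ℤ) ≤ |cf g s t| * (Mx : ℤ) ^ s * (My : ℤ) ^ t := by
  classical
  obtain ⟨i, j, hi, hj, h⟩ := exists_tn M g
  have h1 : (tn M g : ℤ) ≤ |cf g i j| * (Mx : ℤ) ^ i * (My : ℤ) ^ j := by
    rw [h]
    push_cast
    rw [pow_add, mul_assoc]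
    apply mul_le_mul_of_nonneg_left _ (abs_nonneg _)
    have h2 : (M : ℤ) ≤ Mx := by exact_mod_cast hMx
    have h3 : (M : ℤ) ≤ My := by exact_mod_cast hMy
    exact mul_le_mul (pow_le_pow_left₀ (by positivity) h2 _) (pow_le_pow_left₀ (by positivity) h3 _)
      (by positivity) (by positivity)
  refine h1.trans ?_
  have hD : 0 ≤ |cf g s t| * (Mx : ℤ) ^ s * (My : ℤ) ^ t := by positivity
  by_cases hij : (i, j) = (s, t)
  · obtain ⟨rfl, rfl⟩ := Prod.mk.inj hij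
    exact le_refl _
  · have h2 : |cf g i j| * (Mx : ℤ) ^ i * (My : ℤ) ^ j +
        |cf g s t| * (Mx : ℤ) ^ s * (My : ℤ) ^ t ≤ CurveT g Mx My := by
      unfold CurveT
      have h3 := Finset.sum_le_sum_of_subset_of_nonneg
        (s := {((i, j) : ℕ × ℕ), (s, t)}) (t := Finset.range 4 ×ˢ Finset.range 4)
        (f := fun x : ℕ × ℕ => |cf g x.1 x.2| * (Mx : ℤ) ^ x.1 * (My : ℤ) ^ x.2) (by
          intro x hx
          rw [Finset.mem_insert, Finset.mem_singleton] at hx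
          rw [Finset.mem_product, Finset.mem_range, Finset.mem_range]
          rcases hx with rfl | rfl
          · exact ⟨hi, hj⟩
          · exact ⟨hs, ht⟩) (by
          intro x _ _
          positivity)
      rwa [Finset.sum_pair hij] at h3
    linarith

/-- the final comparison -/
theorem Curve_final {K : ℕ} {c pv D V F F' A w B LW : ℤ} (hc : 0 ≤ c) (hpv : 0 ≤ pv)
    (hA : 0 ≤ A) (hw : 0 < w) (hB : 0 ≤ B) (hF' : 0 ≤ F') (h1 : c ^ K ≤ 2 ^ K * D)
    (h2 : pv * D ≤ V) (h3 : V ≤ F * A) (hFF : F ≤ F') (h4 : A * (w * B ^ K) ≤ w * LW) :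
    pv * (c * B) ^ K ≤ 2 ^ K * F' * LW := by
  have hBK : 0 ≤ B ^ K := pow_nonneg hB _
  have h2K : (0 : ℤ) ≤ 2 ^ K := by positivity
  refine le_of_mul_le_mul_left ?_ hw
  calc w * (pv * (c * B) ^ K) = (w * pv * B ^ K) * c ^ K := by rw [mul_pow]; ring
    _ ≤ (w * pv * B ^ K) * (2 ^ K * D) :=
        mul_le_mul_of_nonneg_left h1 (mul_nonneg (mul_nonneg hw.le hpv) hBK)
    _ = (w * B ^ K * 2 ^ K) * (pv * D) := by ring
    _ ≤ (w * B ^ K * 2 ^ K) * (F' * A) := by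
        apply mul_le_mul_of_nonneg_left _ (mul_nonneg (mul_nonneg hw.le hBK) h2K)
        exact h2.trans (h3.trans (mul_le_mul_of_nonneg_right hFF hA))
    _ = (2 ^ K * F') * (A * (w * B ^ K)) := by ring
    _ ≤ (2 ^ K * F') * (w * LW) := mul_le_mul_of_nonneg_left h4 (mul_nonneg h2K hF')
    _ = w * (2 ^ K * F' * LW) := by ring

/-- the determinant method on a curve -/
theorem curve_lemma (n a b : ℕ) (ha : a ≤ 3) (hb : b ≤ 3) (hn : 4 ≤ n) :
    ∃ C0 : ℕ, 1 ≤ C0 ∧ ∀ p : ℕ, p.Prime → ∀ M : ℕ, 1 ≤ M → ∀ S : Finset (ℤ × ℤ),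
      (∀ P ∈ S, |P.1| ≤ M ∧ |P.2| ≤ M) → ∀ g : P2 ℤ, SB (a + 1) (b + 1) g →
      (∃ j, cf g a j ≠ 0) → (∃ i, cf g i b ≠ 0) → (∀ q : ℕ, q.Prime → red q g ≠ 0) →
      (∀ P ∈ S, evalEval P.1 P.2 g = 0) → ∀ G : ℕ → ℕ,
      (∀ k, 1 ≤ k → k ≤ n →
        (n - a) * (n - b) + G k ≤ Module.finrank (ZMod p) (Lift p S n k)) →
      C0 * M ^ WW n a b < tn M g ^ ((n - a) * (n - b)) * p ^ (∑ k ∈ Finset.Icc 1 n, G k) →
      ∃ f : P2 ℤ, SB n n f ∧ (∀ P ∈ S, evalEval P.1 P.2 f = 0) ∧ ¬ g ∣ f := by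
  classical
  obtain ⟨Λ, hΛ, hD⟩ := exists_dominant
  refine ⟨2 ^ ((n - a) * (n - b)) * (n * n).factorial * Λ ^ (WW n a b), ?_, ?_⟩
  · have h1 : 0 < Λ := hΛ
    have h2 : 0 < 2 ^ ((n - a) * (n - b)) * (n * n).factorial * Λ ^ (WW n a b) := by positivity
    exact h2
  intro p hp M hM S hS g hg hga hgb hred hgS G hG hlt
  have : Fact p.Prime := ⟨hp⟩
  have hc : (fun e : Fin 4 × Fin 4 => cf g e.1 e.2) ≠ 0 := by
    obtain ⟨j, hj⟩ := hga
    have h1 := hg a j hj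
    intro h0
    exact hj (congrFun h0 (⟨a, by omega⟩, ⟨j, by omega⟩))
  obtain ⟨Mx, My, hx1, hx2, hy1, hy2, e0, he0, hdom⟩ := hD _ hc M hM
  have hc0 : cf g e0.1 e0.2 ≠ 0 := he0
  have hst := hg _ _ hc0
  have hs : (e0.1 : ℕ) ≤ a := by omega
  have ht : (e0.2 : ℕ) ≤ b := by omega
  have hMx : 1 ≤ Mx := hM.trans hx1
  have hMy : 1 ≤ My := hM.trans hy1
  have hx0 : (0 : ℤ) < Mx := by exact_mod_cast hMx
  have hy0 : (0 : ℤ) < My := by exact_mod_cast hMy
  have hdom' : 2 * (CurveT g Mx My - |cf g e0.1 e0.2| * (Mx : ℤ) ^ (e0.1 : ℕ) *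
      (My : ℤ) ^ (e0.2 : ℕ)) ≤
      |cf g e0.1 e0.2| * (Mx : ℤ) ^ (e0.1 : ℕ) * (My : ℤ) ^ (e0.2 : ℕ) := by
    have h1 := Finset.add_sum_erase Finset.univ (fun e : Fin 4 × Fin 4 =>
      |cf g e.1 e.2| * (Mx : ℤ) ^ (e.1 : ℕ) * (My : ℤ) ^ (e.2 : ℕ)) (Finset.mem_univ e0)
    have h2 := Curve_box_sum 4 4 (fun i j => |cf g i j| * (Mx : ℤ) ^ i * (My : ℤ) ^ j)
    unfold CurveT
    rw [← h2, ← h1]
    linarith [hdom]
  clear hdom
  generalize hgs : (e0.1 : ℕ) = s at *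
  generalize hgt : (e0.2 : ℕ) = t at *
  have hdet := Curve_det (n := n) ha hb hs ht hg hMx hMy hdom'
  have hdet0 : (CurveM (n := n) hs ht g).det ≠ 0 := by
    intro h0
    rw [h0, abs_zero, mul_zero] at hdet
    have : 0 < |cf g s t| ^ ((n - a) * (n - b)) := pow_pos (abs_pos.2 hc0) _
    omega
  -- the complement
  set inj := CurveI (n := n) hs ht with hinj
  have hinj' : Function.Injective inj := CurveI_inj hs ht
  let e : ((Set.range inj)ᶜ : Set (Fin n × Fin n)) ⊕ (Fin (n - a) × Fin (n - b)) ≃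
      Fin n × Fin n :=
    (Equiv.sumComm _ _).trans ((Equiv.sumCongr (Equiv.ofInjective inj hinj')
      (Equiv.refl _)).trans (Equiv.Set.sumCompl (Set.range inj)))
  have he1 : ∀ j, e (Sum.inr j) = inj j := fun j => rfl
  have hWW0 : ∀ x : Fin n × Fin n, 0 < (Mx : ℤ) ^ (x.1 : ℕ) * (My : ℤ) ^ (x.2 : ℕ) := fun x => by
    positivity
  by_cases hQ : ∀ Q : ((Set.range inj)ᶜ : Set (Fin n × Fin n)) → ℤ × ℤ,
      (∀ i, Q i ∈ (S : Set (ℤ × ℤ))) →
      (Matrix.of fun i j => mvec n (Q i) (e (Sum.inl j))).det = 0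
  · obtain ⟨w, hw0, hw⟩ := rank_rel (S : Set (ℤ × ℤ))
      (fun P (r : ((Set.range inj)ᶜ : Set (Fin n × Fin n))) => mvec n P (e (Sum.inl r))) hQ
    refine ⟨toP n n (fun x => Sum.elim w 0 (e.symm x)), SB_toP _ _ _, ?_, ?_⟩
    · intro P hP
      rw [ev_toP, ← Equiv.sum_comp e, Fintype.sum_sum_type]
      simp only [Equiv.symm_apply_apply, Sum.elim_inl, Sum.elim_inr, Pi.zero_apply, zero_mul,
        Finset.sum_const_zero, add_zero]
      exact hw P hP
    · rintro ⟨h, hh⟩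
      have h1 : SB (n - a + a) (n - b + b) (g * h) := by
        rw [← hh]
        exact (SB_toP n n _).mono (by omega) (by omega)
      have h2 := SB_of_mul hga hgb h1
      have h3 := toP_cf h2
      have h4 : Matrix.vecMul (fun x : Fin (n - a) × Fin (n - b) => cf h x.1 x.2)
          (CurveM (n := n) hs ht g) = 0 := by
        funext j'
        have h5 := CurveK_sum g (fun x : Fin (n - a) × Fin (n - b) => cf h x.1 x.2) (inj j')
        rw [h3, ← hh, cf_toP] at h5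
        have h6 : (∑ x, cf h x.1 x.2 * CurveK n a b g x (inj j')) = 0 := by
          rw [h5, dif_pos ⟨(inj j').1.2, (inj j').2.2⟩]
          have h7 : e.symm (⟨(inj j').1, (inj j').1.2⟩, ⟨(inj j').2, (inj j').2.2⟩) =
              Sum.inr j' := by
            rw [Equiv.symm_apply_eq, he1]
          rw [h7]
          rfl
        exact h6
      have h5 := Matrix.eq_zero_of_vecMul_eq_zero hdet0 h4
      have h6 : h = 0 := by
        rw [← h3, h5]
        apply cf_ext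
        intro i j
        rw [cf_toP]
        split_ifs <;> simp
      rw [h6, mul_zero] at hh
      apply hw0
      funext r
      have h7 := congrArg (fun f => cf f (e (Sum.inl r)).1 (e (Sum.inl r)).2) hh
      simp only [cf_toP, cf_zero] at h7
      rw [dif_pos ⟨(e (Sum.inl r)).1.2, (e (Sum.inl r)).2.2⟩] at h7
      have h8 : e.symm (⟨(e (Sum.inl r)).1, (e (Sum.inl r)).1.2⟩,
          ⟨(e (Sum.inl r)).2, (e (Sum.inl r)).2.2⟩) = Sum.inl r := by
        rw [Equiv.symm_apply_eq]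
      rw [h8] at h7
      exact h7
  · exfalso
    push Not at hQ
    obtain ⟨Q, hQS, hQdet⟩ := hQ
    have hv := val_all p hp e (fun i => mvec n (Q i)) (CurveK n a b g)
      (fun i j => CurveK_orth (by omega) (by omega) hg (Q i) (hgS _ (hQS i)) j)
      (fun q hq => CurveK_indep (by omega) (by omega) hg hq (hred q hq)) n G (by
        intro k hk1 hk2
        rw [Fintype.card_prod, Fintype.card_fin, Fintype.card_fin]
        refine (hG k hk1 hk2).trans (Submodule.finrank_mono ?_)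
        apply LiftG_anti
        rintro _ ⟨i, rfl⟩
        exact ⟨Q i, hQS i, rfl⟩) hQdet
    have hu := abs_det_le_col (Matrix.of fun i j => mvec n (Q i) (e (Sum.inl j)))
      (fun j => (Mx : ℤ) ^ ((e (Sum.inl j)).1 : ℕ) * (My : ℤ) ^ ((e (Sum.inl j)).2 : ℕ)) (by
        intro i j
        rw [Matrix.of_apply]
        unfold mvec
        rw [abs_mul, abs_pow, abs_pow]
        have h1 := hS _ (hQS i)
        have h2 : (M : ℤ) ≤ Mx := by exact_mod_cast hx1
        have h3 : (M : ℤ) ≤ My := by exact_mod_cast hy1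
        exact mul_le_mul (pow_le_pow_left₀ (abs_nonneg _) (h1.1.trans h2) _)
          (pow_le_pow_left₀ (abs_nonneg _) (h1.2.trans h3) _) (by positivity) (by positivity))
    have hcard : Fintype.card ((Set.range inj)ᶜ : Set (Fin n × Fin n)) ≤ n * n := by
      have h1 := Fintype.card_congr e
      rw [Fintype.card_sum, Fintype.card_prod (Fin n), Fintype.card_fin] at h1
      omega
    have hfac : ((Fintype.card ((Set.range inj)ᶜ : Set (Fin n × Fin n))).factorial : ℤ) ≤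
        ((n * n).factorial : ℤ) := by exact_mod_cast Nat.factorial_le hcard
    have hprod : (∏ j : ((Set.range inj)ᶜ : Set (Fin n × Fin n)),
        (Mx : ℤ) ^ ((e (Sum.inl j)).1 : ℕ) * (My : ℤ) ^ ((e (Sum.inl j)).2 : ℕ)) *
        ((∏ j : Fin (n - a) × Fin (n - b), (Mx : ℤ) ^ (j.1 : ℕ) * (My : ℤ) ^ (j.2 : ℕ)) *
          ((Mx : ℤ) ^ s * (My : ℤ) ^ t) ^ ((n - a) * (n - b))) ≤
        (∏ j : Fin (n - a) × Fin (n - b), (Mx : ℤ) ^ (j.1 : ℕ) * (My : ℤ) ^ (j.2 : ℕ)) *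
          ((Λ * M : ℕ) : ℤ) ^ WW n a b := by
      have h1 := Curve_prod n a b (L := Λ * M) hx2 hy2
      have h2 := Equiv.prod_comp e (fun x : Fin n × Fin n =>
        (Mx : ℤ) ^ (x.1 : ℕ) * (My : ℤ) ^ (x.2 : ℕ))
      rw [Fintype.prod_sum_type] at h2
      have h3 : ∏ j : Fin (n - a) × Fin (n - b), ((Mx : ℤ) ^ ((e (Sum.inr j)).1 : ℕ) *
          (My : ℤ) ^ ((e (Sum.inr j)).2 : ℕ)) =
          (∏ j : Fin (n - a) × Fin (n - b), (Mx : ℤ) ^ (j.1 : ℕ) * (My : ℤ) ^ (j.2 : ℕ)) *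
          ((Mx : ℤ) ^ s * (My : ℤ) ^ t) ^ ((n - a) * (n - b)) := by
        have h4 : ((Mx : ℤ) ^ s * (My : ℤ) ^ t) ^ ((n - a) * (n - b)) =
            ∏ _j : Fin (n - a) × Fin (n - b), ((Mx : ℤ) ^ s * (My : ℤ) ^ t) := by
          rw [Finset.prod_const, Finset.card_univ, Fintype.card_prod, Fintype.card_fin,
            Fintype.card_fin]
        rw [h4, ← Finset.prod_mul_distrib]
        refine Finset.prod_congr rfl fun j _ => ?_
        rw [he1]
        simp only [hinj, CurveI]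
        rw [pow_add, pow_add]
        ring
      rw [← h3, h2]
      exact_mod_cast h1
    have hfin := Curve_final (K := (n - a) * (n - b)) (abs_nonneg (cf g s t))
      (pv := (p : ℤ) ^ (∑ k ∈ Finset.Icc 1 n, G k)) (by positivity)
      (Finset.prod_nonneg fun j _ => (hWW0 (e (Sum.inl j))).le)
      (Finset.prod_pos fun (j : Fin (n - a) × Fin (n - b)) _ =>
        (by positivity : (0 : ℤ) < (Mx : ℤ) ^ (j.1 : ℕ) * (My : ℤ) ^ (j.2 : ℕ)))
      (B := (Mx : ℤ) ^ s * (My : ℤ) ^ t) (by positivity) (F' := ((n * n).factorial : ℤ))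
      (by positivity) hdet hv hu hfac hprod
    have htn := Curve_tn (g := g) (by omega) (by omega) hx1 hy1 hdom'
    rw [mul_assoc] at htn
    have htn2 : (tn M g : ℤ) ^ ((n - a) * (n - b)) ≤
        (|cf g s t| * ((Mx : ℤ) ^ s * (My : ℤ) ^ t)) ^ ((n - a) * (n - b)) :=
      pow_le_pow_left₀ (by positivity) htn _
    have h5 : (p : ℤ) ^ (∑ k ∈ Finset.Icc 1 n, G k) * (tn M g : ℤ) ^ ((n - a) * (n - b)) ≤
        2 ^ ((n - a) * (n - b)) * ((n * n).factorial : ℤ) * ((Λ * M : ℕ) : ℤ) ^ WW n a b :=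
      (mul_le_mul_of_nonneg_left htn2 (by positivity)).trans hfin
    have h6 : ((2 ^ ((n - a) * (n - b)) * (n * n).factorial * Λ ^ (WW n a b) *
        M ^ WW n a b : ℕ) : ℤ) <
        ((tn M g ^ ((n - a) * (n - b)) * p ^ (∑ k ∈ Finset.Icc 1 n, G k) : ℕ) : ℤ) := by
      exact_mod_cast hlt
    push_cast at h5 h6
    rw [mul_pow] at h5
    linarith [h5, h6]

end Pool.Agent.Helper20.H3
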