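import Mathlib
import Pool.Agent.Helper20.H3.Degree

set_option autoImplicit false

namespace Pool.Agent.Helper20.H3

open Polynomial

/-- multiplication by a fixed polynomial, in coefficients -/
noncomputable def GainMap {R : Type*} [CommRing R] (G : P2 R) (n1 n2 n : ℕ) :
    (Fin n1 × Fin n2 → R) →ₗ[R] (Fin n × Fin n → R) where
  toFun u := fun e => cf (G * toP n1 n2 u) e.1 e.2
  map_add' u v := by
    funext e
    rw [toP_add, mul_add, cf_add]
    rfl
  map_smul' c u := by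
    funext e
    rw [toP_smul, mul_left_comm, cf_CC_mul]
    rfl

theorem GainMap_apply {R : Type*} [CommRing R] (G : P2 R) (n1 n2 n : ℕ)
    (u : Fin n1 × Fin n2 → R) (e : Fin n × Fin n) :
    GainMap G n1 n2 n u e = cf (G * toP n1 n2 u) e.1 e.2 := rfl

theorem Gain_ext {R : Type*} [CommRing R] {n : ℕ} {f g : P2 R} (hf : SB n n f) (hg : SB n n g)
    (h : ∀ e : Fin n × Fin n, cf f e.1 e.2 = cf g e.1 e.2) : f = g := by
  apply cf_ext
  intro i j
  by_cases hc : i < n ∧ j < n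
  · exact h (⟨i, hc.1⟩, ⟨j, hc.2⟩)
  · rw [hf.zero_of hc, hg.zero_of hc]

theorem GainMap_injective {R : Type*} [CommRing R] [IsDomain R] {G : P2 R} {n1 n2 n : ℕ}
    (hG : G ≠ 0) (hs : ∀ f : P2 R, SB n1 n2 f → SB n n (G * f)) :
    Function.Injective (GainMap G n1 n2 n) := by
  intro u v huv
  have h1 : G * toP n1 n2 u = G * toP n1 n2 v := by
    apply Gain_ext (hs _ (SB_toP _ _ _)) (hs _ (SB_toP _ _ _))
    intro e
    exact congrFun huv e
  exact toP_injective n1 n2 (mul_left_cancel₀ hG h1)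

theorem GainMap_finrank_eq {k : Type*} [Field k] {G : P2 k} {n1 n2 n : ℕ}
    (hG : G ≠ 0) (hs : ∀ f : P2 k, SB n1 n2 f → SB n n (G * f)) :
    Module.finrank k (LinearMap.range (GainMap G n1 n2 n)) = n1 * n2 := by
  rw [LinearMap.finrank_range_of_inj (GainMap_injective hG hs)]
  simp

theorem GainMap_finrank_le {k : Type*} [Field k] (G : P2 k) (n1 n2 n : ℕ) :
    Module.finrank k (LinearMap.range (GainMap G n1 n2 n)) ≤ n1 * n2 := by
  refine (LinearMap.finrank_range_le _).trans ?_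
  simp

theorem Gain_FF_ne {p : ℕ} {A B C' : ℤ} {M : ℕ} {S : Finset (ℤ × ℤ)} (h : Conf p A B C' M S) :
    (A : ZMod p) * (B : ZMod p) - (C' : ZMod p) ≠ 0 := by
  intro h0
  apply h.hlam
  rw [← ZMod.intCast_zmod_eq_zero_iff_dvd]
  push_cast
  exact h0

/-- multiples of the `k`-th power of the hyperbola -/
theorem Gain_phi {p : ℕ} {A B C' : ℤ} {M : ℕ} {S : Finset (ℤ × ℤ)} (h : Conf p A B C' M S)
    (n k : ℕ) (hk : k ≤ n) :
    LinearMap.range (GainMap (FF (A : ZMod p) (B : ZMod p) (C' : ZMod p) ^ k) (n - k) (n - k) n) ≤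
      Lift p S n k := by
  have : NeZero p := ⟨h.hp.ne_zero⟩
  rintro _ ⟨u, rfl⟩
  obtain ⟨h0, hs0, hr0⟩ := exists_lift p (SB_toP (n - k) (n - k) u)
  have h1 : SB n n (FF A B C' ^ k * h0) :=
    ((SB_FF_pow A B C' k).mul hs0).mono (by omega) (by omega)
  have h2 := mem_Lift (q := p) (S := S) (k := k) h1 (by
    intro P hP
    rw [evalEval_mul]
    apply Dvd.dvd.mul_right
    rw [evalEval_pow]
    apply pow_dvd_pow_of_dvd
    rw [ev_FF]
    exact h.hmod P hP)
  convert h2 using 1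
  funext e
  rw [GainMap_apply, map_mul, map_pow, red_FF, hr0]

/-- multiples of the equation of the curve -/
theorem Gain_psi {p : ℕ} {A B C' : ℤ} {M : ℕ} {S : Finset (ℤ × ℤ)} (h : Conf p A B C' M S)
    (n a b : ℕ) (han : a + 1 ≤ n) (hbn : b + 1 ≤ n) (g : P2 ℤ) (hg : SB (a + 1) (b + 1) g)
    (hz : ∀ P ∈ S, evalEval P.1 P.2 g = 0) (k : ℕ) :
    LinearMap.range (GainMap (red p g) (n - a) (n - b) n) ≤ Lift p S n k := by
  have : NeZero p := ⟨h.hp.ne_zero⟩
  rintro _ ⟨u, rfl⟩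
  obtain ⟨h0, hs0, hr0⟩ := exists_lift p (SB_toP (n - a) (n - b) u)
  have h1 : SB n n (g * h0) := (hg.mul hs0).mono (by omega) (by omega)
  have h2 := mem_Lift (q := p) (S := S) (k := k) h1 (by
    intro P hP
    rw [evalEval_mul, hz P hP, zero_mul]
    exact dvd_zero _)
  convert h2 using 1
  funext e
  rw [GainMap_apply, map_mul, hr0]

/-- the intersection of the two spaces -/
theorem Gain_inter {p : ℕ} {A B C' : ℤ} {M : ℕ} {S : Finset (ℤ × ℤ)} (h : Conf p A B C' M S)
    (n a b ν : ℕ) (han : a + 1 ≤ n) (hbn : b + 1 ≤ n) (G u : P2 (ZMod p))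
    (hG : SB (a + 1) (b + 1) G)
    (hGu : G = FF (A : ZMod p) (B : ZMod p) (C' : ZMod p) ^ ν * u)
    (hu : ¬ FF (A : ZMod p) (B : ZMod p) (C' : ZMod p) ∣ u) (k : ℕ) (hk : k ≤ n) :
    Module.finrank (ZMod p) ↥(LinearMap.range
      (GainMap (FF (A : ZMod p) (B : ZMod p) (C' : ZMod p) ^ k) (n - k) (n - k) n) ⊓
      LinearMap.range (GainMap G (n - a) (n - b) n)) ≤
      (n - a - (k - ν)) * (n - b - (k - ν)) := by
  have : Fact p.Prime := ⟨h.hp⟩
  set F := FF (A : ZMod p) (B : ZMod p) (C' : ZMod p) with hF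
  have hFp : Prime F := FF_prime (Gain_FF_ne h)
  have hle : LinearMap.range (GainMap (F ^ k) (n - k) (n - k) n) ⊓
      LinearMap.range (GainMap G (n - a) (n - b) n) ≤
      LinearMap.range (GainMap (G * F ^ (k - ν)) (n - a - (k - ν)) (n - b - (k - ν)) n) := by
    rintro x ⟨⟨v, hv⟩, ⟨w, hw⟩⟩
    have e1 : F ^ k * toP (n - k) (n - k) v = G * toP (n - a) (n - b) w := by
      apply Gain_ext (n := n)
      · exact ((SB_FF_pow _ _ _ k).mul (SB_toP _ _ v)).mono (by omega) (by omega)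
      · exact (hG.mul (SB_toP _ _ w)).mono (by omega) (by omega)
      · intro e
        have := congrFun (hv.trans hw.symm) e
        exact this
    by_cases hkν : k ≤ ν
    · have hk0 : k - ν = 0 := by omega
      rw [hk0, pow_zero, mul_one, Nat.sub_zero, Nat.sub_zero]
      exact ⟨w, hw⟩
    · push Not at hkν
      have e2 : F ^ (k - ν) ∣ toP (n - a) (n - b) w := by
        have e3 : F ^ ν * (F ^ (k - ν) * toP (n - k) (n - k) v) =
            F ^ ν * (u * toP (n - a) (n - b) w) := by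
          rw [← mul_assoc, ← pow_add, ← mul_assoc, ← hGu, ← e1]
          congr 2
          omega
        have e4 := mul_left_cancel₀ (pow_ne_zero ν hFp.ne_zero) e3
        exact hFp.pow_dvd_of_dvd_mul_left _ hu ⟨_, e4.symm⟩
      obtain ⟨f', hf'⟩ := e2
      have e5 : SB (n - a - (k - ν)) (n - b - (k - ν)) f' := by
        apply SB_of_FF_pow_mul (α := (A : ZMod p)) (β := (B : ZMod p)) (γ := (C' : ZMod p))
          (k := k - ν)
        rw [← hF, ← hf']
        exact (SB_toP _ _ w).mono (by omega) (by omega)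
      refine ⟨fun e => cf f' e.1 e.2, ?_⟩
      rw [← hw]
      funext e
      rw [GainMap_apply, GainMap_apply, toP_cf e5, hf', mul_assoc]
  exact (Submodule.finrank_mono hle).trans (GainMap_finrank_le _ _ _ _)

/-- dimension of the space of functions divisible by `p^k` on the points of a curve -/
theorem gain {p : ℕ} {A B C' : ℤ} {M : ℕ} {S : Finset (ℤ × ℤ)} (h : Conf p A B C' M S)
    (n a b ν : ℕ) (han : a + 1 ≤ n) (hbn : b + 1 ≤ n) (g : P2 ℤ) (hg : SB (a + 1) (b + 1) g)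
    (hz : ∀ P ∈ S, evalEval P.1 P.2 g = 0)
    (hν : ∃ u : P2 (ZMod p), red p g = FF (A : ZMod p) (B : ZMod p) (C' : ZMod p) ^ ν * u ∧
      ¬ FF (A : ZMod p) (B : ZMod p) (C' : ZMod p) ∣ u) (k : ℕ) (hk : k ≤ n) :
    (n - a) * (n - b) + gk n a b ν k ≤ Module.finrank (ZMod p) (Lift p S n k) := by
  have : Fact p.Prime := ⟨h.hp⟩
  obtain ⟨u, hu, hu'⟩ := hν
  have hFp : Prime (FF (A : ZMod p) (B : ZMod p) (C' : ZMod p)) := FF_prime (Gain_FF_ne h)
  have hu0 : u ≠ 0 := by
    rintro rfl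
    exact hu' (dvd_zero _)
  have hg0 : red p g ≠ 0 := by
    rw [hu]
    exact mul_ne_zero (pow_ne_zero _ hFp.ne_zero) hu0
  have h1 := GainMap_finrank_eq (n1 := n - k) (n2 := n - k) (n := n)
    (pow_ne_zero k hFp.ne_zero)
    (fun f hf => ((SB_FF_pow _ _ _ k).mul hf).mono (by omega) (by omega))
  have h2 := GainMap_finrank_eq (n1 := n - a) (n2 := n - b) (n := n) hg0
    (fun f hf => ((hg.red p).mul hf).mono (by omega) (by omega))
  have h3 := Gain_inter h n a b ν han hbn (red p g) u (hg.red p) hu hu' k hk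
  have h4 := Submodule.finrank_sup_add_finrank_inf_eq
    (LinearMap.range (GainMap (FF (A : ZMod p) (B : ZMod p) (C' : ZMod p) ^ k) (n - k) (n - k) n))
    (LinearMap.range (GainMap (red p g) (n - a) (n - b) n))
  have h5 : Module.finrank (ZMod p) ↥(LinearMap.range
      (GainMap (FF (A : ZMod p) (B : ZMod p) (C' : ZMod p) ^ k) (n - k) (n - k) n) ⊔
      LinearMap.range (GainMap (red p g) (n - a) (n - b) n)) ≤
      Module.finrank (ZMod p) (Lift p S n k) :=
    Submodule.finrank_mono (sup_le (Gain_phi h n k hk) (Gain_psi h n a b han hbn g hg hz k))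
  have h6 : Module.finrank (ZMod p) ↥(LinearMap.range
      (GainMap (red p g) (n - a) (n - b) n)) ≤ Module.finrank (ZMod p) (Lift p S n k) :=
    Submodule.finrank_mono (Gain_psi h n a b han hbn g hg hz k)
  have h7 : (n - k) * (n - k) = (n - k) ^ 2 := by ring
  unfold gk
  omega

/-- the same without a curve -/
theorem gain_plane {p : ℕ} {A B C' : ℤ} {M : ℕ} {S : Finset (ℤ × ℤ)} (h : Conf p A B C' M S)
    (n k : ℕ) (hk : k ≤ n) : (n - k) ^ 2 ≤ Module.finrank (ZMod p) (Lift p S n k) := by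
  have : Fact p.Prime := ⟨h.hp⟩
  have hFp : Prime (FF (A : ZMod p) (B : ZMod p) (C' : ZMod p)) := FF_prime (Gain_FF_ne h)
  have h1 := GainMap_finrank_eq (n1 := n - k) (n2 := n - k) (n := n)
    (pow_ne_zero k hFp.ne_zero)
    (fun f hf => ((SB_FF_pow _ _ _ k).mul hf).mono (by omega) (by omega))
  have h5 := Submodule.finrank_mono (Gain_phi h n k hk)
  rw [h1] at h5
  rw [sq]
  exact h5

end Pool.Agent.Helper20.H3
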