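import Mathlib
import Pool.Agent.Helper20.H3.Curve
import Pool.Agent.Helper20.H3.Gain
import Pool.Agent.Helper20.H3.Bez

set_option autoImplicit false

namespace Pool.Agent.Helper20.H3

open Polynomial

theorem CurveX_bounds {p : ℕ} {A B C' : ℤ} {M : ℕ} {S : Finset (ℤ × ℤ)} (h : Conf p A B C' M S) :
    ∀ P ∈ S, |P.1| ≤ M ∧ |P.2| ≤ M := by
  intro P hP
  obtain ⟨h1, h2, h3, h4⟩ := h.hbox P hP
  rw [abs_of_nonneg h1, abs_of_nonneg h3]
  exact ⟨h2, h4⟩

/-- the determinant method on a curve, final form -/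
theorem curvex (a b ν : ℕ) (ha : a ≤ 3) (hb : b ≤ 3) :
    ∃ C0 : ℕ, 1 ≤ C0 ∧ ∀ (p : ℕ) (A B C' : ℤ) (M : ℕ) (S : Finset (ℤ × ℤ)),
      Conf p A B C' M S → 1 ≤ M → ∀ g : P2 ℤ, Irreducible g → SB (a + 1) (b + 1) g →
      (∃ j, cf g a j ≠ 0) → (∃ i, cf g i b ≠ 0) → (∀ P ∈ S, evalEval P.1 P.2 g = 0) →
      (∃ u : P2 (ZMod p), red p g = FF (A : ZMod p) (B : ZMod p) (C' : ZMod p) ^ ν * u ∧
        ¬ FF (A : ZMod p) (B : ZMod p) (C' : ZMod p) ∣ u) →
      C0 * M ^ WW 9 a b < tn M g ^ ((9 - a) * (9 - b)) * p ^ gv 9 a b ν →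
      S.card ≤ 200 := by
  obtain ⟨C0, hC0, h⟩ := curve_lemma 9 a b ha hb (by norm_num)
  refine ⟨C0, hC0, ?_⟩
  intro p A B C' M S hc hM g hg hgb hja hib hz hu hlt
  by_cases hS : S = ∅
  · subst hS
    simp
  · obtain ⟨P, hP⟩ := Finset.nonempty_iff_ne_empty.2 hS
    obtain ⟨f, hf1, hf2, hf3⟩ := h p hc.hp M hM S (CurveX_bounds hc) g hgb hja hib
      (fun q hq => red_ne_zero hg ⟨P, hz P hP⟩ q hq) hz (fun k => gk 9 a b ν k)
      (fun k _ hk => gain hc 9 a b ν (by omega) (by omega) g hgb hz hu k hk) hlt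
    exact bez hc g f hg hf3 (hgb.mono (by omega) (by omega)) hf1 hz hf2

/-- the exceptional case of bidegree `(3,3)` -/
theorem curveB : ∃ C0 : ℕ, 1 ≤ C0 ∧ ∀ (p : ℕ) (A B C' : ℤ) (M : ℕ) (S : Finset (ℤ × ℤ)),
      Conf p A B C' M S → 1 ≤ M → ∀ g : P2 ℤ, Irreducible g → SB 4 4 g →
      (∃ j, cf g 3 j ≠ 0) → (∃ i, cf g i 3 ≠ 0) → (∀ P ∈ S, evalEval P.1 P.2 g = 0) →
      9 ≤ Module.finrank (ZMod p) (Lift p S 4 1) → 5 ≤ Module.finrank (ZMod p) (Lift p S 4 2) →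
      (∀ k, 1 ≤ Module.finrank (ZMod p) (Lift p S 4 k)) →
      C0 * M ^ 48 < tn M g * p ^ 12 → S.card ≤ 200 := by
  obtain ⟨C0, hC0, h⟩ := curve_lemma 4 3 3 le_rfl le_rfl le_rfl
  refine ⟨C0, hC0, ?_⟩
  intro p A B C' M S hc hM g hg hgb hja hib hz h1 h2 h3 hlt
  by_cases hS : S = ∅
  · subst hS
    simp
  · obtain ⟨P, hP⟩ := Finset.nonempty_iff_ne_empty.2 hS
    let G : ℕ → ℕ := fun k => if k = 1 then 8 else if k = 2 then 4 else 0
    have hG : ∑ k ∈ Finset.Icc 1 4, G k = 12 := by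
      simp only [G]
      decide
    obtain ⟨f, hf1, hf2, hf3⟩ := h p hc.hp M hM S (CurveX_bounds hc) g hgb hja hib
      (fun q hq => red_ne_zero hg ⟨P, hz P hP⟩ q hq) hz G
      (fun k _ _ => by
        by_cases hk1 : k = 1
        · subst hk1
          exact h1
        · by_cases hk2 : k = 2
          · subst hk2
            exact h2
          · have : G k = 0 := by
              simp only [G]
              rw [if_neg hk1, if_neg hk2]
            rw [this]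
            exact h3 k)
      (by
        rw [hG, WW_val.2.2.2.2]
        simpa using hlt)
    exact bez hc g f hg hf3 (hgb.mono (by omega) (by omega))
      (hf1.mono (by omega) (by omega)) hz hf2

end Pool.Agent.Helper20.H3
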