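import Mathlib
import Pool.Agent.Helper20.H3.Degree

set_option autoImplicit false

namespace Pool.Agent.Helper20.H3

open Polynomial

theorem Lead_natDegree {R : Type*} [CommRing R] {u : P2 R} {m k : ℕ} (h : SB m (k + 1) u) :
    u.natDegree ≤ k := by
  rw [natDegree_le_iff_coeff_eq_zero]
  intro N hN
  ext i
  rw [coeff_zero]
  by_contra hc
  have := (h i N hc).2
  omega

theorem Lead_c0 (a b c d : Polynomial ℤ) :
    (X ^ 3 * a + X ^ 2 * b + X * c + d).coeff 0 = d.coeff 0 := by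
  simp [mul_coeff_zero]

theorem Lead_c1 (a b c d : Polynomial ℤ) :
    (X ^ 3 * a + X ^ 2 * b + X * c + d).coeff 1 = c.coeff 0 + d.coeff 1 := by
  have h : (X * c).coeff 1 = c.coeff 0 := coeff_X_mul c 0
  rw [coeff_add, coeff_add, coeff_add, h, coeff_X_pow_mul', coeff_X_pow_mul',
    if_neg (by decide), if_neg (by decide), zero_add, zero_add]

theorem Lead_c2 (a b c d : Polynomial ℤ) :
    (X ^ 3 * a + X ^ 2 * b + X * c + d).coeff 2 = b.coeff 0 + c.coeff 1 + d.coeff 2 := by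
  have h : (X * c).coeff 2 = c.coeff 1 := coeff_X_mul c 1
  rw [coeff_add, coeff_add, coeff_add, h, coeff_X_pow_mul', coeff_X_pow_mul',
    if_neg (by decide), if_pos (by decide), zero_add]

theorem Lead_taylor_X (B : ℤ) : taylor (-B) (X + C B : Polynomial ℤ) = X := by
  rw [map_add, taylor_X, taylor_C, C_neg]
  ring

/-- leading coefficients: order two -/
theorem lead2 {p : ℕ} {A B C' : ℤ} (g u0 u1 u2 : P2 ℤ) (m b : ℕ)
    (hg : g = FF A B C' ^ 2 * u0 + C (C (p : ℤ)) * FF A B C' * u1 + C (C ((p : ℤ) ^ 2)) * u2)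
    (hb : 2 ≤ b) (h0 : SB m (b - 1) u0) (h1 : SB m b u1) : J 2 p B (g.coeff b) := by
  obtain ⟨k, rfl⟩ : ∃ k, b = k + 2 := ⟨b - 2, by omega⟩
  have e0 := coeff_FF_pow_mul A B C' u0 k 2 (Lead_natDegree (m := m) (by simpa using h0))
  have e1 := coeff_FF_pow_mul A B C' u1 (k + 1) 1 (Lead_natDegree (m := m) h1)
  have hL : g.coeff (k + 2) = (X + C B) ^ 2 * u0.coeff k
      + C (p : ℤ) * ((X + C B) * u1.coeff (k + 1)) + C ((p : ℤ) ^ 2) * u2.coeff (k + 2) := by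
    rw [hg, coeff_add, coeff_add, e0, mul_assoc, coeff_C_mul, coeff_C_mul]
    rw [pow_one, pow_one] at e1
    rw [show k + 2 = k + 1 + 1 from rfl, e1]
  have hT : taylor (-B) (g.coeff (k + 2)) = X ^ 2 * taylor (-B) (u0.coeff k)
      + C (p : ℤ) * (X * taylor (-B) (u1.coeff (k + 1)))
      + C ((p : ℤ) ^ 2) * taylor (-B) (u2.coeff (k + 2)) := by
    rw [hL, map_add, map_add, taylor_mul, taylor_mul, taylor_mul, taylor_mul, taylor_pow,
      Lead_taylor_X, taylor_C, taylor_C]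
  have hT' : taylor (-B) (g.coeff (k + 2)) = X ^ 3 * 0 + X ^ 2 * taylor (-B) (u0.coeff k)
      + X * (C (p : ℤ) * taylor (-B) (u1.coeff (k + 1)))
      + C ((p : ℤ) ^ 2) * taylor (-B) (u2.coeff (k + 2)) := by
    rw [hT]; ring
  intro i hi
  rw [hT']
  interval_cases i
  · rw [Lead_c0, coeff_C_mul]
    exact dvd_mul_right _ _
  · rw [Lead_c1, coeff_C_mul, coeff_C_mul, show (2 - 1 : ℕ) = 1 from rfl, pow_one, pow_two]
    exact dvd_add (dvd_mul_right _ _) ((dvd_mul_right _ _).mul_right _)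

/-- leading coefficients: order three -/
theorem lead3 {p : ℕ} {A B C' : ℤ} (g u1 u2 u3 : P2 ℤ) (c : ℤ)
    (hg : g = C (C c) * FF A B C' ^ 3 + C (C (p : ℤ)) * FF A B C' ^ 2 * u1
        + C (C ((p : ℤ) ^ 2)) * FF A B C' * u2 + C (C ((p : ℤ) ^ 3)) * u3)
    (h1 : SB 2 2 u1) (h2 : SB 3 3 u2) : J 3 p B (g.coeff 3) := by
  have e0 := coeff_FF_pow_mul A B C' (1 : P2 ℤ) 0 3 (by simp)
  have e1 := coeff_FF_pow_mul A B C' u1 1 2 (Lead_natDegree h1)
  have e2 := coeff_FF_pow_mul A B C' u2 2 1 (Lead_natDegree h2)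
  rw [mul_one, zero_add, coeff_one_zero, mul_one] at e0
  rw [pow_one, pow_one] at e2
  have hL : g.coeff 3 = C c * (X + C B) ^ 3 + C (p : ℤ) * ((X + C B) ^ 2 * u1.coeff 1)
      + C ((p : ℤ) ^ 2) * ((X + C B) * u2.coeff 2) + C ((p : ℤ) ^ 3) * u3.coeff 3 := by
    rw [hg, coeff_add, coeff_add, coeff_add, mul_assoc (C (C (p : ℤ))),
      mul_assoc (C (C ((p : ℤ) ^ 2))), coeff_C_mul, coeff_C_mul, coeff_C_mul, coeff_C_mul, e0,
      show (3 : ℕ) = 1 + 2 from rfl, e1, show (1 + 2 : ℕ) = 2 + 1 from rfl, e2]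
  have hT : taylor (-B) (g.coeff 3) = X ^ 3 * C c
      + X ^ 2 * (C (p : ℤ) * taylor (-B) (u1.coeff 1))
      + X * (C ((p : ℤ) ^ 2) * taylor (-B) (u2.coeff 2))
      + C ((p : ℤ) ^ 3) * taylor (-B) (u3.coeff 3) := by
    rw [hL, map_add, map_add, map_add]
    simp only [taylor_mul, taylor_pow, Lead_taylor_X, taylor_C]
    ring
  intro i hi
  rw [hT]
  interval_cases i
  · rw [Lead_c0, coeff_C_mul]
    exact dvd_mul_right _ _
  · rw [Lead_c1, coeff_C_mul, coeff_C_mul, show (3 - 1 : ℕ) = 2 from rfl]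
    exact dvd_add (dvd_mul_right _ _) ((pow_dvd_pow (p : ℤ) (by decide : 2 ≤ 3)).mul_right _)
  · rw [Lead_c2, coeff_C_mul, coeff_C_mul, coeff_C_mul, show (3 - 2 : ℕ) = 1 from rfl, pow_one]
    refine dvd_add (dvd_add (dvd_mul_right _ _) ?_) ?_
    · exact (dvd_pow_self (p : ℤ) (by decide : (2 : ℕ) ≠ 0)).mul_right _
    · exact (dvd_pow_self (p : ℤ) (by decide : (3 : ℕ) ≠ 0)).mul_right _

/-- leading coefficients: the exceptional case -/
theorem leadB {p : ℕ} {A B C' : ℤ} (g u1 u2 : P2 ℤ) (c : ℤ)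
    (hg : g = C (C c) * FF A B C' ^ 3 + C (C (p : ℤ)) * FF A B C' * u1
        + C (C ((p : ℤ) ^ 2)) * u2) (h1 : SB 3 3 u1) :
    (p : ℤ) ^ 2 ∣ (taylor (-B) (g.coeff 3)).coeff 0 ∧
      (p : ℤ) ∣ (taylor (-B) (g.coeff 3)).coeff 1 ∧
      (p : ℤ) ∣ (taylor (-B) (g.coeff 3)).coeff 2 := by
  have e0 := coeff_FF_pow_mul A B C' (1 : P2 ℤ) 0 3 (by simp)
  have e1 := coeff_FF_pow_mul A B C' u1 2 1 (Lead_natDegree h1)
  rw [mul_one, zero_add, coeff_one_zero, mul_one] at e0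
  rw [pow_one, pow_one] at e1
  have hL : g.coeff 3 = C c * (X + C B) ^ 3 + C (p : ℤ) * ((X + C B) * u1.coeff 2)
      + C ((p : ℤ) ^ 2) * u2.coeff 3 := by
    rw [hg, coeff_add, coeff_add, mul_assoc (C (C (p : ℤ))), coeff_C_mul, coeff_C_mul,
      coeff_C_mul, e0, show (3 : ℕ) = 2 + 1 from rfl, e1]
  have hT : taylor (-B) (g.coeff 3) = X ^ 3 * C c
      + X * (C (p : ℤ) * taylor (-B) (u1.coeff 2))
      + C ((p : ℤ) ^ 2) * taylor (-B) (u2.coeff 3) := by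
    rw [hL, map_add, map_add]
    simp only [taylor_mul, taylor_pow, Lead_taylor_X, taylor_C]
    ring
  have hT' : taylor (-B) (g.coeff 3) = X ^ 3 * C c + X ^ 2 * 0
      + X * (C (p : ℤ) * taylor (-B) (u1.coeff 2))
      + C ((p : ℤ) ^ 2) * taylor (-B) (u2.coeff 3) := by
    rw [hT]; ring
  rw [hT']
  refine ⟨?_, ?_, ?_⟩
  · rw [Lead_c0, coeff_C_mul]
    exact dvd_mul_right _ _
  · rw [Lead_c1, coeff_C_mul, coeff_C_mul]
    exact dvd_add (dvd_mul_right _ _)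
      ((dvd_pow_self (p : ℤ) (by decide : (2 : ℕ) ≠ 0)).mul_right _)
  · rw [Lead_c2, coeff_C_mul, coeff_C_mul, coeff_zero, zero_add]
    exact dvd_add (dvd_mul_right _ _)
      ((dvd_pow_self (p : ℤ) (by decide : (2 : ℕ) ≠ 0)).mul_right _)

/-- reduction of the leading coefficient -/
theorem lead_red {p : ℕ} {A B C' : ℤ} (g : P2 ℤ) (a b ν : ℕ) (u : P2 (ZMod p))
    (hgb : SB (a + 1) (b + 1) g) (hνa : ν ≤ a) (hνb : ν ≤ b) [Fact p.Prime]
    (hg : red p g = FF (A : ZMod p) (B : ZMod p) (C' : ZMod p) ^ ν * u) :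
    (g.coeff b).map (Int.castRingHom (ZMod p)) = (X + C (B : ZMod p)) ^ ν * u.coeff (b - ν) ∧
      (u.coeff (b - ν)).natDegree ≤ a - ν := by
  obtain ⟨a', rfl⟩ : ∃ k, a = k + ν := ⟨a - ν, by omega⟩
  obtain ⟨b', rfl⟩ : ∃ k, b = k + ν := ⟨b - ν, by omega⟩
  have h1 : SB ((a' + 1) + ν) ((b' + 1) + ν)
      (FF (A : ZMod p) (B : ZMod p) (C' : ZMod p) ^ ν * u) := by
    rw [← hg]
    exact (hgb.red p).mono (by omega) (by omega)
  have h2 : SB (a' + 1) (b' + 1) u := SB_of_FF_pow_mul h1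
  have e := coeff_FF_pow_mul (A : ZMod p) (B : ZMod p) (C' : ZMod p) u b' ν (Lead_natDegree h2)
  rw [Nat.add_sub_cancel, Nat.add_sub_cancel]
  constructor
  · rw [← e, ← hg]
    simp [red]
  · rw [natDegree_le_iff_coeff_eq_zero]
    intro N hN
    by_contra hc
    have := (h2 N b' hc).1
    omega

end Pool.Agent.Helper20.H3
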