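import Mathlib
import Pool.Agent.Helper20.H3.Degree

set_option autoImplicit false

namespace Pool.Agent.Helper20.H3

open Polynomial

/-- the numerator of `f(x, -(a x + c)/(x + b))` -/
noncomputable def BezMod_r {k : Type*} [CommRing k] (a b c : k) (f : P2 k) : Polynomial k :=
  ∑ j ∈ Finset.range 4, f.coeff j * (-(C a * X + C c)) ^ j * (X + C b) ^ (3 - j)

theorem BezMod_sum {k : Type*} [CommRing k] {f : P2 k} (hf : SB 4 4 f) :
    f = ∑ j ∈ Finset.range 4, C (f.coeff j) * X ^ j := by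
  have h : f.natDegree ≤ 3 := by
    rw [natDegree_le_iff_coeff_eq_zero]
    intro N hN
    ext i
    exact hf.zero_of (by omega)
  exact as_sum_range_C_mul_X_pow' f (by omega)

theorem BezMod_coeff_deg {k : Type*} [CommRing k] {f : P2 k} (hf : SB 4 4 f) (j : ℕ) :
    (f.coeff j).natDegree ≤ 3 := by
  rw [natDegree_le_iff_coeff_eq_zero]
  intro N hN
  exact hf.zero_of (by omega)

theorem BezMod_r_deg {k : Type*} [CommRing k] (a b c : k) {f : P2 k} (hf : SB 4 4 f) :
    (BezMod_r a b c f).natDegree ≤ 6 := by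
  unfold BezMod_r
  refine natDegree_sum_le_of_forall_le _ _ ?_
  intro j hj
  rw [Finset.mem_range] at hj
  have h1 : ((-(C a * X + C c)) ^ j : Polynomial k).natDegree ≤ j := by
    refine natDegree_pow_le.trans ?_
    have : (-(C a * X + C c) : Polynomial k).natDegree ≤ 1 := by compute_degree
    calc j * (-(C a * X + C c) : Polynomial k).natDegree ≤ j * 1 := Nat.mul_le_mul_left _ this
      _ = j := mul_one j
  have h2 : ((X + C b) ^ (3 - j) : Polynomial k).natDegree ≤ 3 - j := by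
    refine natDegree_pow_le.trans ?_
    have : (X + C b : Polynomial k).natDegree ≤ 1 := by compute_degree
    calc (3 - j) * (X + C b : Polynomial k).natDegree ≤ (3 - j) * 1 :=
          Nat.mul_le_mul_left _ this
      _ = 3 - j := mul_one _
  have h3 := BezMod_coeff_deg hf j
  refine natDegree_mul_le.trans ?_
  have h4 : (f.coeff j * (-(C a * X + C c)) ^ j : Polynomial k).natDegree ≤ 3 + j :=
    natDegree_mul_le.trans (add_le_add h3 h1)
  omega

/-- `(x + b)^3 f = r` modulo the hyperbola -/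
theorem BezMod_dvd {k : Type*} [CommRing k] (a b c : k) {f : P2 k} (hf : SB 4 4 f) :
    FF a b c ∣ C ((X + C b) ^ 3) * f - C (BezMod_r a b c f) := by
  have e : C ((X + C b) ^ 3) * f - C (BezMod_r a b c f) =
      ∑ j ∈ Finset.range 4, C (f.coeff j) * C ((X + C b) ^ (3 - j)) *
        ((C (X + C b) * X) ^ j - (-(C (C a * X + C c))) ^ j) := by
    conv_lhs => rw [BezMod_sum hf]
    unfold BezMod_r
    rw [map_sum, Finset.mul_sum, ← Finset.sum_sub_distrib]
    refine Finset.sum_congr rfl fun j hj => ?_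
    rw [Finset.mem_range] at hj
    have h3 : (X + C b : Polynomial k) ^ 3 = (X + C b) ^ (3 - j) * (X + C b) ^ j := by
      rw [← pow_add]
      congr 1
      omega
    have h4 : (∑ i ∈ Finset.range 4, C (f.coeff i) * X ^ i : P2 k).coeff j = f.coeff j := by
      rw [← BezMod_sum hf]
    rw [h4, h3]
    simp only [C_mul, C_pow, C_neg, mul_pow]
    ring
  rw [e]
  refine Finset.dvd_sum fun j _ => ?_
  refine Dvd.dvd.mul_left ?_ _
  have h5 := sub_dvd_pow_sub_pow (C (X + C b) * X : P2 k) (-(C (C a * X + C c))) j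
  have h6 : (C (X + C b) * X : P2 k) - (-(C (C a * X + C c))) = FF a b c := by
    rw [Degree_FF_eq]
    ring
  rwa [h6] at h5

theorem BezMod_not_dvd {k : Type*} [Field k] (a b c : k) :
    ¬ FF a b c ∣ C (X + C b) := by
  intro hd
  have h0 : (C (X + C b) : P2 k) ≠ 0 := by
    rw [Ne, C_eq_zero]
    exact X_add_C_ne_zero b
  have h1 := natDegree_le_of_dvd hd h0
  rw [natDegree_C] at h1
  have h2 : (FF a b c).coeff 1 = X + C b := by
    rw [Degree_FF_eq]
    simp only [coeff_add, coeff_C_mul, coeff_X_one, mul_one, coeff_C_succ, add_zero]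
  have h3 : (FF a b c).coeff 1 = 0 := coeff_eq_zero_of_natDegree_lt (by omega)
  rw [h2] at h3
  exact X_add_C_ne_zero b h3

theorem BezMod_eval {k : Type*} [CommRing k] (a b c : k) {f : P2 k} (hf : SB 4 4 f) {x y : k}
    (hxy : x * y + a * x + b * y + c = 0) :
    (BezMod_r a b c f).eval x = (x + b) ^ 3 * evalEval x y f := by
  obtain ⟨g, hg⟩ := BezMod_dvd a b c hf
  have h := congrArg (evalEval x y) hg
  rw [evalEval_sub, evalEval_mul, evalEval_mul, ev_FF, hxy, zero_mul] at h
  simp only [evalEval, eval_C, eval_pow, eval_add, eval_X] at h ⊢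
  linear_combination -h

/-- Bezout modulo `p` -/
theorem bez_mod {p : ℕ} {A B C' : ℤ} {M : ℕ} {S : Finset (ℤ × ℤ)} (h : Conf p A B C' M S)
    (f : P2 (ZMod p)) (hf : SB 4 4 f)
    (hnd : ¬ FF (A : ZMod p) (B : ZMod p) (C' : ZMod p) ∣ f)
    (hz : ∀ P ∈ S, evalEval (P.1 : ZMod p) (P.2 : ZMod p) f = 0) : S.card ≤ 6 := by
  classical
  have : Fact p.Prime := ⟨h.hp⟩
  have hlam : (A : ZMod p) * (B : ZMod p) - (C' : ZMod p) ≠ 0 := by
    intro h0
    apply h.hlam
    rw [← ZMod.intCast_zmod_eq_zero_iff_dvd]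
    push_cast
    exact h0
  have hpr := FF_prime hlam
  have hr : BezMod_r (A : ZMod p) (B : ZMod p) (C' : ZMod p) f ≠ 0 := by
    intro h0
    have h1 := BezMod_dvd (A : ZMod p) (B : ZMod p) (C' : ZMod p) hf
    rw [h0, C_0, sub_zero, C_pow] at h1
    rcases hpr.dvd_or_dvd h1 with h2 | h2
    · exact BezMod_not_dvd _ _ _ (hpr.dvd_of_dvd_pow h2)
    · exact hnd h2
  have hinj : Set.InjOn (fun P : ℤ × ℤ => (P.1 : ZMod p)) (S : Set (ℤ × ℤ)) := by
    intro P hP Q hQ hPQ
    have hd : (p : ℤ) ∣ P.1 - Q.1 := by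
      rw [← ZMod.intCast_zmod_eq_zero_iff_dvd]
      push_cast
      exact sub_eq_zero.mpr hPQ
    have b1 := h.hbox P hP
    have b2 := h.hbox Q hQ
    exact h.inj1 hP hQ (h.eq_of_dvd_sub b1.1 b1.2.1 b2.1 b2.2.1 hd)
  have hsub : S.image (fun P : ℤ × ℤ => (P.1 : ZMod p)) ⊆
      (BezMod_r (A : ZMod p) (B : ZMod p) (C' : ZMod p) f).roots.toFinset := by
    intro x hx
    obtain ⟨P, hP, rfl⟩ := Finset.mem_image.mp hx
    rw [Multiset.mem_toFinset, mem_roots hr, IsRoot.def]
    have hxy : (P.1 : ZMod p) * (P.2 : ZMod p) + (A : ZMod p) * (P.1 : ZMod p) +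
        (B : ZMod p) * (P.2 : ZMod p) + (C' : ZMod p) = 0 := by
      have := (ZMod.intCast_zmod_eq_zero_iff_dvd _ p).mpr (h.hmod P hP)
      push_cast at this
      exact this
    rw [BezMod_eval _ _ _ hf hxy, hz P hP, mul_zero]
  calc S.card = (S.image (fun P : ℤ × ℤ => (P.1 : ZMod p))).card :=
        (Finset.card_image_of_injOn hinj).symm
    _ ≤ (BezMod_r (A : ZMod p) (B : ZMod p) (C' : ZMod p) f).roots.toFinset.card :=
        Finset.card_le_card hsub
    _ ≤ Multiset.card (BezMod_r (A : ZMod p) (B : ZMod p) (C' : ZMod p) f).roots :=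
        Multiset.toFinset_card_le _
    _ ≤ (BezMod_r (A : ZMod p) (B : ZMod p) (C' : ZMod p) f).natDegree := card_roots' _
    _ ≤ 6 := BezMod_r_deg _ _ _ hf

end Pool.Agent.Helper20.H3
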