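import Mathlib
import Pool.Agent.Helper20.H3.BezMod

set_option autoImplicit false

namespace Pool.Agent.Helper20.H3

open Polynomial

theorem Order_eq_zero {R : Type*} [CommRing R] {u : P2 R} {n1 n2 : ℕ} (h : SB n1 n2 u)
    (h0 : n1 = 0 ∨ n2 = 0) : u = 0 := by
  apply cf_ext
  intro i j
  rw [cf_zero]
  refine h.zero_of fun hij => ?_
  rcases h0 with h0 | h0
  · rw [h0] at hij; exact absurd hij.1 (Nat.not_lt_zero _)
  · rw [h0] at hij; exact absurd hij.2 (Nat.not_lt_zero _)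

theorem Order_SB_pow_mul {R : Type*} [CommRing R] {α β γ : R} {u : P2 R} {m1 m2 k : ℕ}
    (h : SB (m1 - k) (m2 - k) u) : SB m1 m2 (FF α β γ ^ k * u) := by
  by_cases h1 : k < m1 ∧ k < m2
  · have := (SB_FF_pow α β γ k).mul h
    exact this.mono (by omega) (by omega)
  · have h2 : u = 0 := Order_eq_zero h (by omega)
    rw [h2, mul_zero]
    exact SB_zero _ _

theorem Order_prime {p : ℕ} {A B C' : ℤ} {M : ℕ} {S : Finset (ℤ × ℤ)} (h : Conf p A B C' M S) :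
    Prime (FF (A : ZMod p) (B : ZMod p) (C' : ZMod p)) := by
  have : Fact p.Prime := ⟨h.hp⟩
  apply FF_prime
  intro h0
  apply h.hlam
  rw [← ZMod.intCast_zmod_eq_zero_iff_dvd]
  push_cast
  exact h0

theorem Order_zero_of_dvd {p : ℕ} {w : P2 ℤ} {P : ℤ × ℤ} (hd : (p : ℤ) ∣ evalEval P.1 P.2 w) :
    evalEval (P.1 : ZMod p) (P.2 : ZMod p) (red p w) = 0 := by
  rw [ev_red]
  exact (ZMod.intCast_zmod_eq_zero_iff_dvd _ _).2 hd

theorem Order_dvd_red {p : ℕ} {A B C' : ℤ} {M : ℕ} {S : Finset (ℤ × ℤ)} (h : Conf p A B C' M S)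
    {w : P2 ℤ} (hw : SB 4 4 w) (hd : ∀ P ∈ S, (p : ℤ) ∣ evalEval P.1 P.2 w) (hc : 6 < S.card) :
    FF (A : ZMod p) (B : ZMod p) (C' : ZMod p) ∣ red p w := by
  by_contra hnd
  have := bez_mod h (red p w) (hw.red p) hnd (fun P hP => Order_zero_of_dvd (hd P hP))
  omega

/-- lifting of a multiple of `FF ^ k` modulo `p` -/
theorem Order_lift {p : ℕ} {A B C' : ℤ} {M : ℕ} {S : Finset (ℤ × ℤ)} (h : Conf p A B C' M S)
    {w : P2 ℤ} {m1 m2 : ℕ} (k : ℕ) (hw : SB m1 m2 w)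
    (hd : FF (A : ZMod p) (B : ZMod p) (C' : ZMod p) ^ k ∣ red p w) :
    ∃ u v : P2 ℤ, w = FF A B C' ^ k * u + C (C (p : ℤ)) * v ∧ SB (m1 - k) (m2 - k) u ∧
      SB m1 m2 v := by
  have : Fact p.Prime := ⟨h.hp⟩
  have : NeZero p := ⟨h.hp.ne_zero⟩
  obtain ⟨ub, hub⟩ := hd
  have h1 : SB (m1 - k) (m2 - k) ub := by
    have h2 : SB (m1 - k + k) (m2 - k + k)
        (FF (A : ZMod p) (B : ZMod p) (C' : ZMod p) ^ k * ub) := by
      rw [← hub]
      exact (hw.red p).mono (by omega) (by omega)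
    exact SB_of_FF_pow_mul h2
  obtain ⟨u, hu, hur⟩ := exists_lift p h1
  have h3 : red p (w - FF A B C' ^ k * u) = 0 := by
    rw [map_sub, map_mul, map_pow, red_FF, hur, hub, sub_self]
  obtain ⟨v, hv, hve⟩ := red_eq_zero p (hw.sub (Order_SB_pow_mul hu)) h3
  exact ⟨u, v, by rw [← hve]; ring, hu, hv⟩

theorem Order_ev_CC (c : ℤ) (f : P2 ℤ) (x y : ℤ) :
    evalEval x y (C (C c) * f) = c * evalEval x y f := by
  rw [evalEval_mul, evalEval_C, eval_C]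

/-- the exact power of the hyperbola dividing `g` modulo `p` -/
theorem exists_nu {p : ℕ} {A B C' : ℤ} {M : ℕ} {S : Finset (ℤ × ℤ)} (h : Conf p A B C' M S)
    (g : P2 ℤ) (a b : ℕ) (ha : a ≤ 3) (hb : b ≤ 3) (hgb : SB (a + 1) (b + 1) g)
    (h0 : red p g ≠ 0) (hz : ∀ P ∈ S, evalEval P.1 P.2 g = 0) (hc : 6 < S.card) :
    ∃ (ν : ℕ) (u : P2 (ZMod p)), 1 ≤ ν ∧ ν ≤ a ∧ ν ≤ b ∧
      red p g = FF (A : ZMod p) (B : ZMod p) (C' : ZMod p) ^ ν * u ∧
      ¬ FF (A : ZMod p) (B : ZMod p) (C' : ZMod p) ∣ u := by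
  have : Fact p.Prime := ⟨h.hp⟩
  obtain ⟨ν, u, hnd, he⟩ := WfDvdMonoid.max_power_factor h0 (Order_prime h).irreducible
  have hd := Order_dvd_red h (hgb.mono (by omega) (by omega))
    (fun P hP => by rw [hz P hP]; exact dvd_zero _) hc
  have hu0 : u ≠ 0 := by
    rintro rfl
    exact h0 (by rw [he, mul_zero])
  refine ⟨ν, u, ?_, ?_, ?_, he, hnd⟩
  · by_contra hν
    have : ν = 0 := by omega
    subst this
    rw [pow_zero, one_mul] at he
    exact hnd (he ▸ hd)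
  · by_contra hν
    apply hu0
    have h2 : SB (0 + ν) (b + 1 + ν) (FF (A : ZMod p) (B : ZMod p) (C' : ZMod p) ^ ν * u) := by
      rw [← he]
      exact (hgb.red p).mono (by omega) (by omega)
    exact Order_eq_zero (SB_of_FF_pow_mul h2) (Or.inl rfl)
  · by_contra hν
    apply hu0
    have h2 : SB (a + 1 + ν) (0 + ν) (FF (A : ZMod p) (B : ZMod p) (C' : ZMod p) ^ ν * u) := by
      rw [← he]
      exact (hgb.red p).mono (by omega) (by omega)
    exact Order_eq_zero (SB_of_FF_pow_mul h2) (Or.inr rfl)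

theorem Order_dvd_FF {p : ℕ} {A B C' : ℤ} {M : ℕ} {S : Finset (ℤ × ℤ)} (h : Conf p A B C' M S)
    {P : ℤ × ℤ} (hP : P ∈ S) : (p : ℤ) ∣ evalEval P.1 P.2 (FF A B C') := by
  rw [ev_FF]
  exact h.hmod P hP

/-- second order expansion -/
theorem ord2 {p : ℕ} {A B C' : ℤ} {M : ℕ} {S : Finset (ℤ × ℤ)} (h : Conf p A B C' M S)
    (g : P2 ℤ) (m1 m2 : ℕ) (h1 : m1 ≤ 4) (h2 : m2 ≤ 4) (hgb : SB m1 m2 g)
    (hz : ∀ P ∈ S, evalEval P.1 P.2 g = 0) (hc : 6 < S.card)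
    (hd : FF (A : ZMod p) (B : ZMod p) (C' : ZMod p) ^ 2 ∣ red p g) :
    ∃ u0 u1 u2 : P2 ℤ, g = FF A B C' ^ 2 * u0 + C (C (p : ℤ)) * FF A B C' * u1
        + C (C ((p : ℤ) ^ 2)) * u2 ∧
      SB (m1 - 2) (m2 - 2) u0 ∧ SB (m1 - 1) (m2 - 1) u1 ∧ SB m1 m2 u2 := by
  have hp0 : (p : ℤ) ≠ 0 := by exact_mod_cast h.hp.ne_zero
  obtain ⟨u0, w, he, hu0, hw⟩ := Order_lift h 2 hgb hd
  have hwd : ∀ P ∈ S, (p : ℤ) ∣ evalEval P.1 P.2 w := by
    intro P hP
    have h3 := congrArg (evalEval P.1 P.2) he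
    rw [hz P hP, evalEval_add, evalEval_mul, evalEval_pow, Order_ev_CC] at h3
    obtain ⟨f, hf⟩ := Order_dvd_FF h hP
    rw [hf] at h3
    have h4 : (p : ℤ) * evalEval P.1 P.2 w = p * (p * (-(f ^ 2 * evalEval P.1 P.2 u0))) := by
      linear_combination -h3
    have h5 := mul_left_cancel₀ hp0 h4
    exact ⟨_, h5⟩
  obtain ⟨u1, u2, he1, hu1, hu2⟩ := Order_lift h 1 hw (by
    rw [pow_one]
    exact Order_dvd_red h (hw.mono h1 h2) hwd hc)
  refine ⟨u0, u1, u2, ?_, hu0, hu1, hu2⟩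
  rw [he, he1]
  simp only [C_pow]
  ring

/-- third order expansion, with the exceptional case -/
theorem ord3 {p : ℕ} {A B C' : ℤ} {M : ℕ} {S : Finset (ℤ × ℤ)} (h : Conf p A B C' M S)
    (g : P2 ℤ) (hgb : SB 4 4 g) (h0 : red p g ≠ 0)
    (hz : ∀ P ∈ S, evalEval P.1 P.2 g = 0) (hc : 6 < S.card)
    (hd : FF (A : ZMod p) (B : ZMod p) (C' : ZMod p) ^ 3 ∣ red p g) :
    ∃ c : ℤ, ¬ (p : ℤ) ∣ c ∧
    ((∃ u1 u2 : P2 ℤ, g = C (C c) * FF A B C' ^ 3 + C (C (p : ℤ)) * FF A B C' * u1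
        + C (C ((p : ℤ) ^ 2)) * u2 ∧ SB 3 3 u1 ∧ SB 4 4 u2 ∧
        ¬ FF (A : ZMod p) (B : ZMod p) (C' : ZMod p) ∣ red p u1) ∨
     (∃ u1 u2 u3 : P2 ℤ, g = C (C c) * FF A B C' ^ 3 + C (C (p : ℤ)) * FF A B C' ^ 2 * u1
        + C (C ((p : ℤ) ^ 2)) * FF A B C' * u2 + C (C ((p : ℤ) ^ 3)) * u3 ∧
        SB 2 2 u1 ∧ SB 3 3 u2 ∧ SB 4 4 u3)) := by
  have hp0 : (p : ℤ) ≠ 0 := by exact_mod_cast h.hp.ne_zero
  obtain ⟨u0, w, he, hu0, hw⟩ := Order_lift h 3 hgb hd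
  have hu0c : u0 = C (C (cf u0 0 0)) := by
    apply cf_ext
    intro i j
    by_cases hij : i = 0 ∧ j = 0
    · rw [hij.1, hij.2]; simp [cf]
    · rw [hu0.zero_of (by omega)]
      unfold cf
      rw [coeff_C]
      split_ifs with hj
      · rw [coeff_C, if_neg (fun hi => hij ⟨hi, hj⟩)]
      · simp
  set c := cf u0 0 0 with hcd
  have hev0 : ∀ P : ℤ × ℤ, evalEval P.1 P.2 u0 = c := by
    intro P
    rw [hu0c, evalEval_C, eval_C]
  have hpw : ∀ P ∈ S, ∃ t : ℤ, evalEval P.1 P.2 w = (p : ℤ) ^ 2 * t := by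
    intro P hP
    have h3 := congrArg (evalEval P.1 P.2) he
    rw [hz P hP, evalEval_add, evalEval_mul, evalEval_pow, Order_ev_CC, hev0] at h3
    obtain ⟨f, hf⟩ := Order_dvd_FF h hP
    rw [hf] at h3
    have h4 : (p : ℤ) * evalEval P.1 P.2 w = p * (p ^ 2 * (-(f ^ 3 * c))) := by
      linear_combination -h3
    exact ⟨_, mul_left_cancel₀ hp0 h4⟩
  refine ⟨c, ?_, ?_⟩
  · intro hpc
    apply h0
    have hFc : red p u0 = 0 := by
      rw [hu0c, red_CC, (ZMod.intCast_zmod_eq_zero_iff_dvd c p).2 hpc]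
      simp
    have hCp : red p (C (C (p : ℤ))) = 0 := by
      rw [red_CC]; simp
    rw [he, map_add, map_mul, map_mul, hFc, hCp, mul_zero, zero_mul, add_zero]
  · obtain ⟨u1, u2, he1, hu1, hu2⟩ := Order_lift h 1 hw (by
      rw [pow_one]
      refine Order_dvd_red h hw (fun P hP => ?_) hc
      obtain ⟨t, ht⟩ := hpw P hP
      exact ⟨p * t, by rw [ht]; ring⟩)
    by_cases hF : FF (A : ZMod p) (B : ZMod p) (C' : ZMod p) ∣ red p u1
    · right
      obtain ⟨v1, v2, he2, hv1, hv2⟩ := Order_lift h 1 hu1 (by rw [pow_one]; exact hF)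
      set y := FF A B C' * v2 + u2 with hy
      have hyb : SB 4 4 y := by
        have hv2' : SB (4 - 1) (4 - 1) v2 := hv2
        have h5 : SB 4 4 (FF A B C' ^ 1 * v2) := Order_SB_pow_mul hv2'
        rw [pow_one] at h5
        exact h5.add hu2
      have hyd : ∀ P ∈ S, (p : ℤ) ∣ evalEval P.1 P.2 y := by
        intro P hP
        obtain ⟨t, ht⟩ := hpw P hP
        obtain ⟨f, hf⟩ := Order_dvd_FF h hP
        have h3 := congrArg (evalEval P.1 P.2) he1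
        rw [he2, pow_one] at h3
        rw [ht, evalEval_add, evalEval_mul, evalEval_add, evalEval_mul, Order_ev_CC, Order_ev_CC,
          hf] at h3
        rw [hy, evalEval_add, evalEval_mul, hf]
        have h4 : (p : ℤ) * (p * f * evalEval P.1 P.2 v2 + evalEval P.1 P.2 u2) =
            p * (p * (t - f ^ 2 * evalEval P.1 P.2 v1)) := by
          linear_combination -h3
        exact ⟨_, mul_left_cancel₀ hp0 h4⟩
      obtain ⟨y1, y2, he3, hy1, hy2⟩ := Order_lift h 1 hyb (by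
        rw [pow_one]
        exact Order_dvd_red h hyb hyd hc)
      refine ⟨v1, y1, y2, ?_, hv1, hy1, hy2⟩
      have h6 : w = FF A B C' ^ 2 * v1 + C (C (p : ℤ)) * y := by
        rw [he1, he2, hy]; ring
      rw [he, h6, he3, hu0c]
      simp only [C_pow]
      ring
    · left
      refine ⟨u1, u2, ?_, hu1, hu2, hF⟩
      rw [he, he1, hu0c]
      simp only [C_pow]
      ring

end Pool.Agent.Helper20.H3
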