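import Mathlib
import Pool.Agent.Helper20.H3.Basic

set_option autoImplicit false

namespace Pool.Agent.Helper20.H3

open Polynomial

/-- comparison of powers -/
theorem powcmp (c a b : ℕ) (hab : 7 * b ≤ 24 * a) (ha : 1 ≤ a) :
    ∃ C0 : ℕ, 1 ≤ C0 ∧ ∀ p M : ℕ, 1 ≤ M → C0 * M ^ 24 ≤ p ^ 7 → c * M ^ b < p ^ a := by
  refine ⟨(c + 1) ^ 7, Nat.one_le_pow _ _ (Nat.succ_pos c), fun p M hM h => ?_⟩
  apply lt_of_pow_lt_pow_left₀ 7 (Nat.zero_le _)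
  have hM0 : 0 < M := hM
  calc (c * M ^ b) ^ 7 = c ^ 7 * M ^ (7 * b) := by rw [mul_pow, ← pow_mul, mul_comm b 7]
    _ ≤ c ^ 7 * M ^ (24 * a) :=
        Nat.mul_le_mul_left _ (Nat.pow_le_pow_right hM0 hab)
    _ < (c + 1) ^ 7 * M ^ (24 * a) := by
        apply Nat.mul_lt_mul_of_pos_right _ (pow_pos hM0 _)
        exact Nat.pow_lt_pow_left (Nat.lt_succ_self c) (by norm_num)
    _ ≤ ((c + 1) ^ 7) ^ a * M ^ (24 * a) := by
        apply Nat.mul_le_mul_right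
        calc (c + 1) ^ 7 = ((c + 1) ^ 7) ^ 1 := (pow_one _).symm
          _ ≤ ((c + 1) ^ 7) ^ a := Nat.pow_le_pow_right (Nat.pos_of_ne_zero (by positivity)) ha
    _ = ((c + 1) ^ 7 * M ^ 24) ^ a := by rw [mul_pow, ← pow_mul M 24 a]
    _ ≤ (p ^ 7) ^ a := Nat.pow_le_pow_left h a
    _ = (p ^ a) ^ 7 := by rw [← pow_mul, ← pow_mul, mul_comm]

end Pool.Agent.Helper20.H3
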