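import Mathlib
import Pool.Agent.Helper20.H3.Basic

set_option autoImplicit false

namespace Pool.Agent.Helper20.H3

open Polynomial

theorem Norm1_le {M N : ℕ} {L : Polynomial ℤ}
    (h : ∀ i : ℕ, i < 4 → (L.coeff i).natAbs * M ^ i ≤ N) : n1 M L ≤ N := by
  obtain ⟨i, hi, he⟩ := exists_n1 M L
  rw [he]
  exact h i hi

theorem Norm1_lin_zero (v u : ℤ) : (lin v u).coeff 0 = -u := by
  rw [lin, coeff_sub, coeff_C_mul, coeff_X_zero, coeff_C_zero]
  ring

theorem Norm1_lin_one (v u : ℤ) : (lin v u).coeff 1 = v := by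
  rw [lin, coeff_sub, coeff_C_mul, coeff_X_one, coeff_C_ne_zero one_ne_zero]
  ring

theorem Norm1_lin_succ (v u : ℤ) (i : ℕ) : (lin v u).coeff (i + 2) = 0 := by
  rw [lin, coeff_sub, coeff_C_mul, coeff_X, if_neg (by omega), coeff_C_ne_zero (by omega)]
  ring

/-- the size of a linear polynomial -/
theorem n1_lin (M : ℕ) (v u : ℤ) : n1 M (lin v u) = max (v.natAbs * M) u.natAbs := by
  apply le_antisymm
  · apply Norm1_le
    intro i _
    rcases i with _ | _ | i
    · rw [Norm1_lin_zero, Int.natAbs_neg, pow_zero, mul_one]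
      exact le_max_right _ _
    · rw [zero_add, Norm1_lin_one, pow_one]
      exact le_max_left _ _
    · rw [Norm1_lin_succ]
      simp
  · apply max_le
    · have := le_n1 M (lin v u) (i := 1) (by norm_num)
      rwa [Norm1_lin_one, pow_one] at this
    · have := le_n1 M (lin v u) (i := 0) (by norm_num)
      rwa [Norm1_lin_zero, Int.natAbs_neg, pow_zero, mul_one] at this

theorem Norm1_lin_mul_zero (v u : ℤ) (r : Polynomial ℤ) :
    (lin v u * r).coeff 0 = - (u * r.coeff 0) := by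
  unfold lin
  rw [sub_mul, coeff_sub, mul_assoc, coeff_C_mul, coeff_C_mul, coeff_X_mul_zero]
  ring

theorem Norm1_lin_mul_succ (v u : ℤ) (r : Polynomial ℤ) (k : ℕ) :
    (lin v u * r).coeff (k + 1) = v * r.coeff k - u * r.coeff (k + 1) := by
  unfold lin
  rw [sub_mul, coeff_sub, mul_assoc, coeff_C_mul, coeff_C_mul, coeff_X_mul]

theorem Norm1_abs (a b c : ℤ) (h : a = b - c) : c.natAbs ≤ a.natAbs + b.natAbs ∧
    b.natAbs ≤ a.natAbs + c.natAbs := by
  omega

/-- the size is almost multiplicative -/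
theorem n1_lin_mul (M : ℕ) (v u : ℤ) (r : Polynomial ℤ) (hr : r.natDegree ≤ 2) :
    n1 M (lin v u) * n1 M r ≤ 3 * n1 M (lin v u * r) := by
  obtain ⟨i, hi, he⟩ := exists_n1 M r
  rw [he, n1_lin]
  set N := n1 M (lin v u * r) with hN
  have h3 : r.coeff 3 = 0 := coeff_eq_zero_of_natDegree_lt (by omega)
  have f0 := le_n1 M (lin v u * r) (i := 0) (by norm_num)
  have f1 := le_n1 M (lin v u * r) (i := 1) (by norm_num)
  have f2 := le_n1 M (lin v u * r) (i := 2) (by norm_num)
  have f3 := le_n1 M (lin v u * r) (i := 3) (by norm_num)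
  rw [← hN] at f0 f1 f2 f3
  have e0 := Norm1_lin_mul_zero v u r
  have e1 := Norm1_lin_mul_succ v u r 0
  have e2 := Norm1_lin_mul_succ v u r 1
  have e3 := Norm1_lin_mul_succ v u r 2
  norm_num at e1 e2 e3
  rw [h3, mul_zero, sub_zero] at e3
  have g1 := Norm1_abs _ _ _ e1
  have g2 := Norm1_abs _ _ _ e2
  rw [Int.natAbs_mul, Int.natAbs_mul] at g1 g2
  have a0 : ((lin v u * r).coeff 0).natAbs = u.natAbs * (r.coeff 0).natAbs := by
    rw [e0, Int.natAbs_neg, Int.natAbs_mul]
  have a3 : ((lin v u * r).coeff 3).natAbs = v.natAbs * (r.coeff 2).natAbs := by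
    rw [e3, Int.natAbs_mul]
  rw [a0] at f0
  rw [a3] at f3
  generalize ((lin v u * r).coeff 1).natAbs = F1 at *
  generalize ((lin v u * r).coeff 2).natAbs = F2 at *
  generalize hR0 : (r.coeff 0).natAbs = R0 at *
  generalize hR1 : (r.coeff 1).natAbs = R1 at *
  generalize hR2 : (r.coeff 2).natAbs = R2 at *
  generalize v.natAbs = V at *
  generalize u.natAbs = U at *
  rcases le_total (V * M) U with hc | hc
  · rw [max_eq_right hc]
    have b0 : U * R0 ≤ N := by simpa using f0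
    have b1 : U * (R1 * M) ≤ 2 * N := by
      calc U * (R1 * M) = U * R1 * M := by ring
        _ ≤ (F1 + V * R0) * M := Nat.mul_le_mul_right _ g1.1
        _ = F1 * M ^ 1 + V * M * R0 := by ring
        _ ≤ N + U * R0 := add_le_add f1 (Nat.mul_le_mul_right _ hc)
        _ ≤ 2 * N := by omega
    have b2 : U * (R2 * M ^ 2) ≤ 3 * N := by
      calc U * (R2 * M ^ 2) = U * R2 * M ^ 2 := by ring
        _ ≤ (F2 + V * R1) * M ^ 2 := Nat.mul_le_mul_right _ g2.1
        _ = F2 * M ^ 2 + V * M * (R1 * M) := by ring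
        _ ≤ N + U * (R1 * M) := add_le_add f2 (Nat.mul_le_mul_right _ hc)
        _ ≤ 3 * N := by omega
    interval_cases i
    · rw [hR0, pow_zero, mul_one]
      omega
    · rw [hR1, pow_one]
      omega
    · rw [hR2]
      exact b2
    · rw [h3]
      simp
  · rw [max_eq_left hc]
    have c2 : V * M * (R2 * M ^ 2) ≤ N := by
      calc V * M * (R2 * M ^ 2) = V * R2 * M ^ 3 := by ring
        _ ≤ N := f3
    have c1 : V * M * (R1 * M) ≤ 2 * N := by
      calc V * M * (R1 * M) = V * R1 * M ^ 2 := by ring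
        _ ≤ (F2 + U * R2) * M ^ 2 := Nat.mul_le_mul_right _ g2.2
        _ = F2 * M ^ 2 + U * (R2 * M ^ 2) := by ring
        _ ≤ N + V * M * (R2 * M ^ 2) := add_le_add f2 (Nat.mul_le_mul_right _ hc)
        _ ≤ 2 * N := by omega
    have c0 : V * M * R0 ≤ 3 * N := by
      calc V * M * R0 = V * R0 * M := by ring
        _ ≤ (F1 + U * R1) * M := Nat.mul_le_mul_right _ g1.2
        _ = F1 * M ^ 1 + U * (R1 * M) := by ring
        _ ≤ N + V * M * (R1 * M) := add_le_add f1 (Nat.mul_le_mul_right _ hc)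
        _ ≤ 3 * N := by omega
    interval_cases i
    · rw [hR0, pow_zero, mul_one]
      exact c0
    · rw [hR1, pow_one]
      omega
    · rw [hR2]
      omega
    · rw [h3]
      simp

/-- size of a constant multiple -/
theorem n1_C_mul (M : ℕ) (c : ℤ) (r : Polynomial ℤ) : n1 M (C c * r) = c.natAbs * n1 M r := by
  apply le_antisymm
  · apply Norm1_le
    intro i hi
    rw [coeff_C_mul, Int.natAbs_mul, mul_assoc]
    exact Nat.mul_le_mul_left _ (le_n1 M r hi)
  · obtain ⟨i, hi, he⟩ := exists_n1 M r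
    rw [he, ← mul_assoc, ← Int.natAbs_mul, ← coeff_C_mul]
    exact le_n1 M _ hi

/-- the size of a nonzero polynomial -/
theorem n1_pos (M : ℕ) (hM : 1 ≤ M) (r : Polynomial ℤ) (hr : r ≠ 0) (hd : r.natDegree ≤ 3) :
    M ^ r.natDegree ≤ n1 M r := by
  refine le_trans ?_ (le_n1 M r (i := r.natDegree) (by omega))
  have h : 1 ≤ (r.coeff r.natDegree).natAbs :=
    Int.natAbs_pos.2 (by rw [coeff_natDegree]; exact leadingCoeff_ne_zero.2 hr)
  exact Nat.le_mul_of_pos_left _ h

/-- a nonzero polynomial which is divisible by `(x+B)^m` modulo `p` is large -/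
theorem n1_of_red (p M m : ℕ) (hp : p.Prime) (hM : 1 ≤ M) (B : ℤ) (L : Polynomial ℤ) (hL : L ≠ 0)
    (hd : L.natDegree ≤ 3)
    (h : (X + C (B : ZMod p)) ^ m ∣ L.map (Int.castRingHom (ZMod p))) :
    (p ≤ n1 M L ∧ L.map (Int.castRingHom (ZMod p)) = 0) ∨
      (M ^ m ≤ n1 M L ∧ m ≤ L.natDegree ∧ L.map (Int.castRingHom (ZMod p)) ≠ 0) := by
  have : Fact p.Prime := ⟨hp⟩
  by_cases h0 : L.map (Int.castRingHom (ZMod p)) = 0
  · left
    refine ⟨?_, h0⟩
    have h1 : ((L.coeff L.natDegree : ℤ) : ZMod p) = 0 := by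
      have := congrArg (fun q => q.coeff L.natDegree) h0
      simpa using this
    have h2 : (p : ℤ) ∣ L.coeff L.natDegree := (ZMod.intCast_zmod_eq_zero_iff_dvd _ _).1 h1
    have h3 : p ∣ (L.coeff L.natDegree).natAbs := Int.natCast_dvd.1 h2
    have h4 : 0 < (L.coeff L.natDegree).natAbs :=
      Int.natAbs_pos.2 (by rw [coeff_natDegree]; exact leadingCoeff_ne_zero.2 hL)
    have h5 := Nat.le_of_dvd h4 h3
    calc p ≤ (L.coeff L.natDegree).natAbs * 1 := by omega
      _ ≤ (L.coeff L.natDegree).natAbs * M ^ L.natDegree :=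
        Nat.mul_le_mul_left _ (Nat.one_le_pow _ _ hM)
      _ ≤ n1 M L := le_n1 M L (by omega)
  · right
    set Lp := L.map (Int.castRingHom (ZMod p)) with hLp
    have h1 : m ≤ Lp.natDegree := by
      have := natDegree_le_of_dvd h h0
      rwa [natDegree_pow, natDegree_X_add_C, mul_one] at this
    have h2 : Lp.natDegree ≤ L.natDegree := natDegree_map_le
    have h3 : Lp.coeff Lp.natDegree ≠ 0 := by
      rw [coeff_natDegree]
      exact leadingCoeff_ne_zero.2 h0
    have h4 : L.coeff Lp.natDegree ≠ 0 := by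
      intro hc
      apply h3
      rw [hLp, coeff_map, ← hLp, hc, map_zero]
    refine ⟨?_, h1.trans h2, h0⟩
    have h5 : 1 ≤ (L.coeff Lp.natDegree).natAbs := Int.natAbs_pos.2 h4
    calc M ^ m ≤ M ^ Lp.natDegree := Nat.pow_le_pow_right hM h1
      _ ≤ (L.coeff Lp.natDegree).natAbs * M ^ Lp.natDegree := Nat.le_mul_of_pos_left _ h5
      _ ≤ n1 M L := le_n1 M L (by omega)

end Pool.Agent.Helper20.H3
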