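import Mathlib
import Pool.Agent.Helper20.H3.Norm1

set_option autoImplicit false

namespace Pool.Agent.Helper20.H3

open Polynomial

theorem Quad_eq (L : Polynomial ℤ) (hd : L.natDegree = 2) :
    L = C (L.coeff 2) * X ^ 2 + C (L.coeff 1) * X + C (L.coeff 0) :=
  eq_quadratic_of_degree_le_two (natDegree_le_iff_degree_le.1 hd.le)

/-- arithmetic core -/
theorem Quad_arith (a b c : ℤ) (ha : a ≠ 0) (h : b ^ 2 = 4 * a * c) :
    ∃ k v u : ℤ, k ≠ 0 ∧ v ≠ 0 ∧ IsCoprime v u ∧ a = k * v ^ 2 ∧ b = -(2 * k * v * u) ∧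
      c = k * u ^ 2 := by
  have hg0 : Int.gcd (2 * a) b ≠ 0 := by
    intro h0
    rw [Int.gcd_eq_zero_iff] at h0
    omega
  obtain ⟨v, w, hcop, hv, hw⟩ : ∃ v w : ℤ, IsCoprime v w ∧ 2 * a = v * (Int.gcd (2 * a) b : ℤ) ∧
      b = w * (Int.gcd (2 * a) b : ℤ) := by
    obtain ⟨v, w, h1, h2, h3⟩ := Int.exists_gcd_one (m := 2 * a) (n := b) (Nat.pos_of_ne_zero hg0)
    exact ⟨v, w, Int.isCoprime_iff_gcd_eq_one.2 h1, h2, h3⟩
  set g : ℤ := (Int.gcd (2 * a) b : ℤ) with hg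
  have hgz : g ≠ 0 := by
    rw [hg]
    exact_mod_cast hg0
  have hv0 : v ≠ 0 := by
    rintro rfl
    apply ha
    have : 2 * a = 0 := by rw [hv]; ring
    omega
  -- 2 v c = g w^2
  have h1 : 2 * v * c = g * w ^ 2 := by
    have h2 : g * (2 * v * c) = g * (g * w ^ 2) := by
      have h3 : b ^ 2 = 2 * (2 * a) * c := by rw [h]; ring
      rw [hv, hw] at h3
      linear_combination -h3
    exact mul_left_cancel₀ hgz h2
  have h2 : v ∣ g := by
    have h3 : v ∣ g * w ^ 2 := ⟨2 * c, by rw [← h1]; ring⟩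
    exact (hcop.pow_right (n := 2)).dvd_of_dvd_mul_right h3
  obtain ⟨g', hg'⟩ := h2
  have h3 : 2 * c = g' * w ^ 2 := by
    have : v * (2 * c) = v * (g' * w ^ 2) := by rw [hg'] at h1; linear_combination h1
    exact mul_left_cancel₀ hv0 this
  have h4 : 2 * a = g' * v ^ 2 := by rw [hv, hg']; ring
  have h5 : Even g' := by
    by_contra hodd
    rw [Int.not_even_iff_odd] at hodd
    have h6 : Even (g' * w ^ 2) := ⟨c, by rw [← h3]; ring⟩
    have h7 : Even (g' * v ^ 2) := ⟨a, by rw [← h4]; ring⟩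
    have h8 : Even w := by
      rcases Int.even_mul.1 h6 with h | h
      · exact absurd h (Int.not_even_iff_odd.2 hodd)
      · exact (Int.even_pow.1 h).1
    have h9 : Even v := by
      rcases Int.even_mul.1 h7 with h | h
      · exact absurd h (Int.not_even_iff_odd.2 hodd)
      · exact (Int.even_pow.1 h).1
    have h10 : (2 : ℤ) ∣ 1 := by
      obtain ⟨r, s, hrs⟩ := hcop
      rw [← hrs]
      exact dvd_add (Dvd.dvd.mul_left h9.two_dvd _) (Dvd.dvd.mul_left h8.two_dvd _)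
    omega
  obtain ⟨k, hk⟩ := h5
  refine ⟨k, v, -w, ?_, hv0, hcop.neg_right, ?_, ?_, ?_⟩
  · rintro rfl
    apply ha
    have : g' = 0 := by rw [hk]; ring
    rw [this] at h4
    omega
  · have : 2 * a = 2 * (k * v ^ 2) := by rw [h4, hk]; ring
    linarith
  · rw [hw, hg', hk]; ring
  · have : 2 * c = 2 * (k * (-w) ^ 2) := by rw [h3, hk]; ring
    linarith

/-- quadratic polynomials with zero discriminant -/
theorem quad_sq_or (L : Polynomial ℤ) (hd : L.natDegree = 2) :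
    (L.coeff 1 ^ 2 - 4 * L.coeff 2 * L.coeff 0 ≠ 0) ∨
    (∃ c v u : ℤ, c ≠ 0 ∧ v ≠ 0 ∧ IsCoprime v u ∧ L = C c * lin v u ^ 2) := by
  by_cases h : L.coeff 1 ^ 2 - 4 * L.coeff 2 * L.coeff 0 = 0
  · right
    have h2 : L.coeff 2 ≠ 0 := by
      rw [← hd]
      intro h0
      have h3 := leadingCoeff_eq_zero.1 h0
      rw [h3] at hd
      simp at hd
    obtain ⟨k, v, u, hk, hv, hc, e2, e1, e0⟩ := Quad_arith (L.coeff 2) (L.coeff 1) (L.coeff 0) h2
      (by linarith)
    refine ⟨k, v, u, hk, hv, hc, ?_⟩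
    rw [Quad_eq L hd, e2, e1, e0]
    unfold lin
    simp only [map_mul, map_pow, map_neg, map_ofNat]
    ring
  · exact Or.inl h

/-- quadratic dichotomy -/
theorem quad_dich (p M : ℕ) (hp : p.Prime) (hM : 1 ≤ M) (B : ℤ) (L : Polynomial ℤ)
    (hd : L.natDegree = 2) (hJ : J 2 p B L) (hl : ¬ (p : ℤ) ∣ L.leadingCoeff) :
    (p * M) ^ 2 ≤ 5 * n1 M L ^ 2 ∨
    (∃ c v u : ℤ, c ≠ 0 ∧ v ≠ 0 ∧ IsCoprime v u ∧ (p : ℤ) ∣ v * B + u ∧ L = C c * lin v u ^ 2) := by
  have hJ0 := hJ 0 (by norm_num)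
  have hJ1 := hJ 1 (by norm_num)
  rw [taylor_coeff_zero] at hJ0
  rw [taylor_coeff_one] at hJ1
  simp only [Nat.sub_zero] at hJ0
  have e21 : 2 - 1 = 1 := rfl
  rw [e21, pow_one] at hJ1
  rcases quad_sq_or L hd with h | ⟨c, v, u, hc, hv, hcop, hL⟩
  · left
    have hdvd : (p : ℤ) ^ 2 ∣ L.coeff 1 ^ 2 - 4 * L.coeff 2 * L.coeff 0 := by
      have e0 : L.eval (-B) = L.coeff 2 * B ^ 2 - L.coeff 1 * B + L.coeff 0 := by
        conv_lhs => rw [Quad_eq L hd]
        simp only [eval_add, eval_mul, eval_C, eval_pow, eval_X]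
        ring
      have e1 : (derivative L).eval (-B) = -2 * L.coeff 2 * B + L.coeff 1 := by
        conv_lhs => rw [Quad_eq L hd]
        simp only [derivative_add, derivative_mul, derivative_C, derivative_X_pow, derivative_X,
          eval_add, eval_mul, eval_C, eval_pow, eval_X, eval_zero, eval_one]
        simp
        ring
      obtain ⟨r, hr⟩ := hJ0
      obtain ⟨s, hs⟩ := hJ1
      refine ⟨s ^ 2 - 4 * L.coeff 2 * r, ?_⟩
      have : L.coeff 1 ^ 2 - 4 * L.coeff 2 * L.coeff 0 =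
          (derivative L).eval (-B) ^ 2 - 4 * L.coeff 2 * L.eval (-B) := by
        rw [e0, e1]; ring
      rw [this, hr, hs]
      ring
    have h1 : p ^ 2 ≤ (L.coeff 1 ^ 2 - 4 * L.coeff 2 * L.coeff 0).natAbs := by
      have h2 := Int.natAbs_dvd_natAbs.2 hdvd
      rw [Int.natAbs_pow, Int.natAbs_natCast] at h2
      exact Nat.le_of_dvd (Int.natAbs_pos.2 h) h2
    have a0 := le_n1 M L (i := 0) (by norm_num)
    have a1 := le_n1 M L (i := 1) (by norm_num)
    have a2 := le_n1 M L (i := 2) (by norm_num)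
    rw [pow_zero, mul_one] at a0
    rw [pow_one] at a1
    have h3 : (L.coeff 1 ^ 2 - 4 * L.coeff 2 * L.coeff 0).natAbs ≤
        (L.coeff 1).natAbs ^ 2 + 4 * (L.coeff 2).natAbs * (L.coeff 0).natAbs := by
      refine (Int.natAbs_sub_le _ _).trans ?_
      rw [Int.natAbs_pow, Int.natAbs_mul, Int.natAbs_mul]
      exact le_rfl
    calc (p * M) ^ 2 = p ^ 2 * M ^ 2 := by ring
      _ ≤ ((L.coeff 1).natAbs ^ 2 + 4 * (L.coeff 2).natAbs * (L.coeff 0).natAbs) * M ^ 2 :=
          Nat.mul_le_mul_right _ (h1.trans h3)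
      _ = ((L.coeff 1).natAbs * M) ^ 2 + 4 * ((L.coeff 2).natAbs * M ^ 2) * (L.coeff 0).natAbs := by
          ring
      _ ≤ (n1 M L) ^ 2 + 4 * (n1 M L) * (n1 M L) := by gcongr
      _ = 5 * n1 M L ^ 2 := by ring
  · right
    refine ⟨c, v, u, hc, hv, hcop, ?_, hL⟩
    have hpz : Prime (p : ℤ) := Nat.prime_iff_prime_int.1 hp
    have hlc : L.leadingCoeff = c * v ^ 2 := by
      rw [leadingCoeff, hd, hL]
      unfold lin
      have : C c * (C v * X - C u) ^ 2 = C (c * v ^ 2) * X ^ 2 + C (-(2 * c * v * u)) * X +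
          C (c * u ^ 2) := by
        simp only [map_mul, map_pow, map_neg, map_ofNat]
        ring
      rw [this, coeff_add, coeff_add, coeff_C_mul, coeff_C_mul, coeff_X_pow, coeff_X, coeff_C]
      norm_num
    have hpc : ¬ (p : ℤ) ∣ c := by
      intro h
      apply hl
      rw [hlc]
      exact Dvd.dvd.mul_right h _
    have hev : L.eval (-B) = c * (v * B + u) ^ 2 := by
      rw [hL]
      unfold lin
      simp only [eval_mul, eval_C, eval_pow, eval_sub, eval_X]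
      ring
    have h1 : (p : ℤ) ∣ c * (v * B + u) ^ 2 := by
      rw [← hev]
      exact (Dvd.intro _ (pow_two (p : ℤ)).symm).trans hJ0
    rcases hpz.dvd_or_dvd h1 with h2 | h2
    · exact absurd h2 hpc
    · exact hpz.dvd_of_dvd_pow h2

end Pool.Agent.Helper20.H3
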