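import Mathlib
import Pool.Agent.Helper20.H3.Basic
import Pool.Agent.Helper20.H3.Norm1

set_option autoImplicit false

namespace Pool.Agent.Helper20.H3

open Polynomial

theorem Two_abs_le (M : ℕ) (v u x : ℤ) (hx : 0 ≤ x) (hx' : x ≤ M) :
    |v * x - u| ≤ 2 * (n1 M (lin v u) : ℤ) := by
  have h1 : (|v| * M : ℤ) ≤ n1 M (lin v u) := by
    rw [n1_lin]
    push_cast
    exact le_max_left _ _
  have h2 : (|u| : ℤ) ≤ n1 M (lin v u) := by
    rw [n1_lin]
    push_cast
    exact le_max_right _ _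
  have h3 : |v * x| ≤ |v| * M := by
    rw [abs_mul, abs_of_nonneg hx]
    exact mul_le_mul_of_nonneg_left hx' (abs_nonneg v)
  have h4 : |v * x - u| ≤ |v * x| + |u| := abs_sub _ _
  linarith

/-- two-sided rational centre -/
theorem two_sided {p : ℕ} {A B C' : ℤ} {M : ℕ} {S : Finset (ℤ × ℤ)} (h : Conf p A B C' M S)
    (hM : 1 ≤ M) (v u v' u' d : ℤ) (hv : v ≠ 0) (hv' : v' ≠ 0) (hvu : IsCoprime v u)
    (hr : (p : ℤ) ∣ v * B + u) (hr' : (p : ℤ) ∣ v' * A + u') (hd : 0 < d) (hdv : d ∣ v)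
    (hdv' : d ∣ v')
    (hs : 4 * (M : ℤ) * (|v| * n1 M (lin v' u') + |v'| * n1 M (lin v u)) < p * d) : Good S := by
  rcases S.eq_empty_or_nonempty with rfl | ⟨P0, hP0⟩
  · left; simp
  right
  have hpp := h.prime_int
  have hpv : ¬ (p : ℤ) ∣ v := by
    intro hpv
    have hpu : (p : ℤ) ∣ u := by
      have h1 : u = (v * B + u) - v * B := by ring
      rw [h1]
      exact dvd_sub hr (Dvd.dvd.mul_right hpv _)
    exact hpp.not_isUnit (hvu.isUnit_of_dvd' hpv hpu)
  have hpd : ¬ (p : ℤ) ∣ d := fun h1 => hpv (h1.trans hdv)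
  have hcop : IsCoprime (p : ℤ) d := (hpp.irreducible.coprime_iff_not_dvd).2 hpd
  -- divisibility by p
  have key1 : ∀ P ∈ S, (p : ℤ) ∣ (v * P.1 - u) * (v' * P.2 - u') - v * v' * (A * B - C') := by
    intro P hP
    have h1 := h.hmod P hP
    have h2 : (v * P.1 - u) * (v' * P.2 - u') - v * v' * (A * B - C') =
        v * v' * (P.1 * P.2 + A * P.1 + B * P.2 + C') - (v * B + u) * (v' * (P.2 + A))
          - (v' * A + u') * (v * (P.1 + B)) + (v * B + u) * (v' * A + u') := by ring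
    rw [h2]
    exact dvd_add (dvd_sub (dvd_sub (Dvd.dvd.mul_left h1 _) (Dvd.dvd.mul_right hr _))
      (Dvd.dvd.mul_right hr' _)) (Dvd.dvd.mul_right hr _)
  have key2 : ∀ P : ℤ × ℤ, d ∣ (v * P.1 - u) * (v' * P.2 - u') - u * u' := by
    intro P
    have h2 : (v * P.1 - u) * (v' * P.2 - u') - u * u' =
        v * (P.1 * (v' * P.2 - u')) - v' * (u * P.2) := by ring
    rw [h2]
    exact dvd_sub (Dvd.dvd.mul_right hdv _) (Dvd.dvd.mul_right hdv' _)
  have key3 : ∀ P ∈ S, (v * P.1 - u) * (v' * P.2 - u') = (v * P0.1 - u) * (v' * P0.2 - u') := by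
    intro P hP
    have bP := h.hbox P hP
    have b0 := h.hbox P0 hP0
    have e1 : (p : ℤ) ∣ (v * P.1 - u) * (v' * P.2 - u') - (v * P0.1 - u) * (v' * P0.2 - u') := by
      have := dvd_sub (key1 P hP) (key1 P0 hP0)
      rwa [sub_sub_sub_cancel_right] at this
    have e2 : d ∣ (v * P.1 - u) * (v' * P.2 - u') - (v * P0.1 - u) * (v' * P0.2 - u') := by
      have := dvd_sub (key2 P) (key2 P0)
      rwa [sub_sub_sub_cancel_right] at this
    have e3 := hcop.mul_dvd e1 e2
    have a1 := Two_abs_le M v' u' P.2 bP.2.2.1 bP.2.2.2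
    have a2 := Two_abs_le M v u P0.1 b0.1 b0.2.1
    have hx : |P.1 - P0.1| ≤ (M : ℤ) := by
      rw [abs_le]; constructor <;> linarith [bP.1, bP.2.1, b0.1, b0.2.1]
    have hy : |P.2 - P0.2| ≤ (M : ℤ) := by
      rw [abs_le]
      constructor <;> linarith [bP.2.2.1, bP.2.2.2, b0.2.2.1, b0.2.2.2]
    have e4 : |(v * P.1 - u) * (v' * P.2 - u') - (v * P0.1 - u) * (v' * P0.2 - u')| ≤
        2 * (M : ℤ) * (|v| * n1 M (lin v' u') + |v'| * n1 M (lin v u)) := by
      have h2 : (v * P.1 - u) * (v' * P.2 - u') - (v * P0.1 - u) * (v' * P0.2 - u') =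
          v * (P.1 - P0.1) * (v' * P.2 - u') + (v * P0.1 - u) * (v' * (P.2 - P0.2)) := by ring
      rw [h2]
      refine (abs_add_le _ _).trans ?_
      rw [abs_mul, abs_mul, abs_mul, abs_mul]
      have c1 : |v| * |P.1 - P0.1| * |v' * P.2 - u'| ≤
          |v| * M * (2 * (n1 M (lin v' u') : ℤ)) := by
        refine mul_le_mul ?_ a1 (abs_nonneg _) (by positivity)
        exact mul_le_mul_of_nonneg_left hx (abs_nonneg v)
      have c2 : |v * P0.1 - u| * (|v'| * |P.2 - P0.2|) ≤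
          2 * (n1 M (lin v u) : ℤ) * (|v'| * M) := by
        refine mul_le_mul a2 ?_ (by positivity) (by positivity)
        exact mul_le_mul_of_nonneg_left hy (abs_nonneg v')
      nlinarith
    have e5 : 0 ≤ 2 * (M : ℤ) * (|v| * n1 M (lin v' u') + |v'| * n1 M (lin v u)) := by positivity
    have e6 : |(v * P.1 - u) * (v' * P.2 - u') - (v * P0.1 - u) * (v' * P0.2 - u')| < p * d := by
      linarith
    have := Int.eq_zero_of_abs_lt_dvd e3 e6
    linarith
  refine ⟨v * v', -(v * u'), -(u * v'), u * u' - (v * P0.1 - u) * (v' * P0.2 - u'), ?_, ?_⟩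
  · rintro ⟨h1, _⟩
    exact (mul_ne_zero hv hv') h1
  · intro P hP
    have := key3 P hP
    linear_combination this

end Pool.Agent.Helper20.H3
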