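import Mathlib
import Pool.Agent.Helper20.H3.CurveX
import Pool.Agent.Helper20.H3.Order
import Pool.Agent.Helper20.H3.Lead
import Pool.Agent.Helper20.H3.Quad
import Pool.Agent.Helper20.H3.Two
import Pool.Agent.Helper20.H3.Corner
import Pool.Agent.Helper20.H3.Pow

set_option autoImplicit false

namespace Pool.Agent.Helper20.H3

open Polynomial

/-- the degree of the top coefficient in `y` -/
theorem Case22_deg {g : P2 ℤ} (hgb : SB 3 3 g) : (g.coeff 2).natDegree ≤ 2 := by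
  rw [natDegree_le_iff_coeff_eq_zero]
  intro i hi
  exact hgb.zero_of (i := i) (j := 2) (by omega)

/-- the dichotomy for the top coefficient when the square of the hyperbola divides `g` mod `p` -/
theorem Case22_half {p : ℕ} {A B C' : ℤ} {M : ℕ} {S : Finset (ℤ × ℤ)} (h : Conf p A B C' M S)
    (hM : 1 ≤ M) (g : P2 ℤ) (hgb : SB 3 3 g)
    (hz : ∀ P ∈ S, evalEval P.1 P.2 g = 0) (hc : 6 < S.card) (u : P2 (ZMod p))
    (hu : red p g = FF (A : ZMod p) (B : ZMod p) (C' : ZMod p) ^ 2 * u) (h0 : red p g ≠ 0) :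
    (p * M) ^ 2 ≤ 5 * n1 M (g.coeff 2) ^ 2 ∨
    (∃ c v w : ℤ, c ≠ 0 ∧ v ≠ 0 ∧ IsCoprime v w ∧ (p : ℤ) ∣ v * B + w ∧
      g.coeff 2 = C c * lin v w ^ 2) := by
  have : Fact p.Prime := ⟨h.hp⟩
  have hub : SB 1 1 u := by
    apply SB_of_FF_pow_mul (α := (A : ZMod p)) (β := (B : ZMod p)) (γ := (C' : ZMod p)) (k := 2)
    rw [← hu]
    exact hgb.red p
  have hk : (u.coeff 0).coeff 0 ≠ 0 := by
    intro hk
    apply h0
    have : u = 0 := by
      apply cf_ext
      intro i j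
      rw [cf_zero]
      by_cases hij : i < 1 ∧ j < 1
      · have hi : i = 0 := by omega
        have hj : j = 0 := by omega
        subst hi hj
        exact hk
      · exact hub.zero_of hij
    rw [hu, this, mul_zero]
  obtain ⟨hmap, hdeg⟩ := lead_red (A := A) (B := B) (C' := C') g 2 2 2 u hgb le_rfl le_rfl hu
  have hmap' : (g.coeff 2).map (Int.castRingHom (ZMod p)) =
      (X + C (B : ZMod p)) ^ 2 * u.coeff 0 := hmap
  have hdeg' : (u.coeff 0).natDegree ≤ 0 := hdeg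
  have hl : ((g.coeff 2).coeff 2 : ZMod p) = (u.coeff 0).coeff 0 := by
    have e1 := congrArg (fun q => q.coeff 2) hmap'
    simp only [coeff_map, eq_intCast] at e1
    rw [e1]
    conv_lhs => rw [eq_C_of_natDegree_le_zero hdeg']
    rw [coeff_mul_C, coeff_X_add_C_pow]
    simp
  have hl2 : ¬ (p : ℤ) ∣ (g.coeff 2).coeff 2 := by
    intro hd
    apply hk
    rw [← hl]
    exact (ZMod.intCast_zmod_eq_zero_iff_dvd _ _).mpr hd
  have hne : (g.coeff 2).coeff 2 ≠ 0 := by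
    intro h1
    rw [h1] at hl2
    exact hl2 (dvd_zero _)
  have hd2 : (g.coeff 2).natDegree = 2 :=
    le_antisymm (Case22_deg hgb) (le_natDegree_of_ne_zero hne)
  obtain ⟨u0, u1, u2, e, s0, s1, _⟩ := ord2 h g 3 3 (by norm_num) (by norm_num) hgb hz hc
    ⟨u, hu⟩
  have hJ : J 2 p B (g.coeff 2) :=
    lead2 (A := A) (B := B) (C' := C') g u0 u1 u2 3 2 e le_rfl (s0.mono (by norm_num) (by norm_num))
      (s1.mono (by norm_num) (by norm_num))
  refine quad_dich p M h.hp hM B (g.coeff 2) hd2 hJ ?_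
  unfold leadingCoeff
  rw [hd2]
  exact hl2

/-- size of one of the two rational centres -/
theorem Case22_size (M : ℕ) (g : P2 ℤ) (c v w a : ℤ)
    (hL : g.coeff 2 = C c * lin v w ^ 2) (ha : |a| ^ 2 ≤ |c|) :
    (a.natAbs * M * n1 M (lin v w)) ^ 2 ≤ 3 * tn M g := by
  have hlin : (lin v w).natDegree ≤ 2 := by
    unfold lin
    refine (natDegree_sub_le _ _).trans ?_
    rw [natDegree_C]
    refine max_le ?_ (by norm_num)
    exact (natDegree_C_mul_le _ _).trans (natDegree_X_le.trans (by norm_num))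
  have h1 : n1 M (lin v w) * n1 M (lin v w) ≤ 3 * n1 M (lin v w * lin v w) :=
    n1_lin_mul M v w _ hlin
  have h2 : n1 M (g.coeff 2) = c.natAbs * n1 M (lin v w * lin v w) := by
    rw [hL, n1_C_mul, pow_two]
  have h3 := n1_le_tn M g (b := 2) (by norm_num)
  have h4 : a.natAbs ^ 2 ≤ c.natAbs := by
    zify
    exact ha
  calc (a.natAbs * M * n1 M (lin v w)) ^ 2
      = a.natAbs ^ 2 * (M ^ 2 * (n1 M (lin v w) * n1 M (lin v w))) := by ring
    _ ≤ c.natAbs * (M ^ 2 * (3 * n1 M (lin v w * lin v w))) :=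
        Nat.mul_le_mul h4 (Nat.mul_le_mul_left _ h1)
    _ = 3 * (M ^ 2 * n1 M (g.coeff 2)) := by rw [h2]; ring
    _ ≤ 3 * tn M g := Nat.mul_le_mul_left _ h3

/-- comparison in the case of a large discriminant -/
theorem Case22_pow (C2 p M t : ℕ) (hM : 1 ≤ M) (h1 : M ^ 6 * p ^ 2 ≤ 5 * t ^ 2)
    (h2 : 5 ^ 49 * C2 ^ 2 * M ^ 414 < p ^ 128) : C2 * M ^ 354 < t ^ 49 * p ^ 15 := by
  by_contra hc
  push Not at hc
  have h3 : (t ^ 49 * p ^ 15) ^ 2 ≤ (C2 * M ^ 354) ^ 2 := Nat.pow_le_pow_left hc 2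
  have h4 : (M ^ 6 * p ^ 2) ^ 49 ≤ (5 * t ^ 2) ^ 49 := Nat.pow_le_pow_left h1 49
  have h5 : M ^ 294 * p ^ 128 ≤ M ^ 294 * (5 ^ 49 * C2 ^ 2 * M ^ 414) := by
    calc M ^ 294 * p ^ 128 = (M ^ 6 * p ^ 2) ^ 49 * p ^ 30 := by ring
      _ ≤ (5 * t ^ 2) ^ 49 * p ^ 30 := Nat.mul_le_mul_right _ h4
      _ = 5 ^ 49 * (t ^ 49 * p ^ 15) ^ 2 := by ring
      _ ≤ 5 ^ 49 * (C2 * M ^ 354) ^ 2 := Nat.mul_le_mul_left _ h3
      _ = M ^ 294 * (5 ^ 49 * C2 ^ 2 * M ^ 414) := by ring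
  have h6 : p ^ 128 ≤ 5 ^ 49 * C2 ^ 2 * M ^ 414 :=
    Nat.le_of_mul_le_mul_left h5 (by positivity)
  omega

/-- irreducible curves of bidegree `(2,2)` -/
theorem case22 : ∃ C0 : ℕ, 1 ≤ C0 ∧ ∀ (p : ℕ) (A B C' : ℤ) (M : ℕ) (S : Finset (ℤ × ℤ)),
      Conf p A B C' M S → 1 ≤ M → C0 * M ^ 24 ≤ p ^ 7 → ∀ g : P2 ℤ, Irreducible g → SB 3 3 g →
      (∃ j, cf g 2 j ≠ 0) → (∃ i, cf g i 2 ≠ 0) → (∀ P ∈ S, evalEval P.1 P.2 g = 0) →
      Good S := by
  obtain ⟨C1, hC1, curve1⟩ := curvex 2 2 1 (by norm_num) (by norm_num)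
  obtain ⟨C2, hC2, curve2⟩ := curvex 2 2 2 (by norm_num) (by norm_num)
  obtain ⟨K1, hK1, pow1⟩ := powcmp C1 64 207 (by norm_num) (by norm_num)
  obtain ⟨K2, hK2, pow2⟩ := powcmp (5 ^ 49 * C2 ^ 2) 128 414 (by norm_num) (by norm_num)
  obtain ⟨K3, hK3, pow3⟩ := powcmp (192 ^ 49 * C2) 113 354 (by norm_num) (by norm_num)
  refine ⟨K1 + K2 + K3, by omega, ?_⟩
  intro p A B C' M S h hM hbig g hg hgb ha hb hz
  by_cases hcard : S.card ≤ 200
  · exact Or.inl hcard
  have hc6 : 6 < S.card := by omega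
  have hb1 : K1 * M ^ 24 ≤ p ^ 7 := (Nat.mul_le_mul_right _ (by omega)).trans hbig
  have hb2 : K2 * M ^ 24 ≤ p ^ 7 := (Nat.mul_le_mul_right _ (by omega)).trans hbig
  have hb3 : K3 * M ^ 24 ≤ p ^ 7 := (Nat.mul_le_mul_right _ (by omega)).trans hbig
  have hpw1 := pow1 p M hM hb1
  have hpw2 := pow2 p M hM hb2
  have hpw3 := pow3 p M hM hb3
  have : Fact p.Prime := ⟨h.hp⟩
  have hS : S.Nonempty := by
    rw [← Finset.card_pos]; omega
  obtain ⟨P0, hP0⟩ := hS
  have h0 : red p g ≠ 0 := red_ne_zero hg ⟨P0, hz P0 hP0⟩ p h.hp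
  obtain ⟨ν, u, hν1, hνa, hνb, hu, hnd⟩ := exists_nu h g 2 2 (by norm_num) (by norm_num) hgb h0
    hz hc6
  have htn := n1_le_tn M g (b := 2) (by norm_num)
  have hν : ν = 1 ∨ ν = 2 := by omega
  rcases hν with rfl | rfl
  · -- first order
    left
    apply curve1 p A B C' M S h hM g hg hgb ha hb hz ⟨u, hu, hnd⟩
    rw [WW_val.1, gv_val.1]
    show C1 * M ^ 354 < tn M g ^ 49 * p ^ 64
    have hL0 : g.coeff 2 ≠ 0 := by
      obtain ⟨i, hi⟩ := hb
      intro hL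
      apply hi
      unfold cf
      rw [hL, coeff_zero]
    obtain ⟨hmap, _⟩ := lead_red (A := A) (B := B) (C' := C') g 2 2 1 u hgb (by norm_num)
      (by norm_num) hu
    have hn : M ≤ n1 M (g.coeff 2) := by
      rcases n1_of_red p M 1 h.hp hM B (g.coeff 2) hL0 ((Case22_deg hgb).trans (by norm_num))
        ⟨_, hmap⟩ with h1 | h1
      · exact h.hMp.le.trans h1.1
      · simpa using h1.1
    have ht3 : M ^ 3 ≤ tn M g := by
      calc M ^ 3 = M ^ 2 * M := by ring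
        _ ≤ M ^ 2 * n1 M (g.coeff 2) := Nat.mul_le_mul_left _ hn
        _ ≤ _ := htn
    calc C1 * M ^ 354 = (C1 * M ^ 207) * (M ^ 3) ^ 49 := by ring
      _ < p ^ 64 * (M ^ 3) ^ 49 := Nat.mul_lt_mul_of_pos_right hpw1 (by positivity)
      _ ≤ p ^ 64 * tn M g ^ 49 := Nat.mul_le_mul_left _ (Nat.pow_le_pow_left ht3 49)
      _ = tn M g ^ 49 * p ^ 64 := by ring
  · -- second order
    have curve : C2 * M ^ 354 < tn M g ^ 49 * p ^ 15 → Good S := by
      intro hlt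
      left
      apply curve2 p A B C' M S h hM g hg hgb ha hb hz ⟨u, hu, hnd⟩
      rw [WW_val.1, gv_val.2.1]
      exact hlt
    rcases Case22_half h hM g hgb hz hc6 u hu h0 with hbigd | ⟨c, v, w, hc, hv, hvw, hr, hL⟩
    · apply curve
      apply Case22_pow C2 p M _ hM _ hpw2
      calc M ^ 6 * p ^ 2 = (M ^ 2) ^ 2 * (p * M) ^ 2 := by ring
        _ ≤ (M ^ 2) ^ 2 * (5 * n1 M (g.coeff 2) ^ 2) := Nat.mul_le_mul_left _ hbigd
        _ = 5 * (M ^ 2 * n1 M (g.coeff 2)) ^ 2 := by ring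
        _ ≤ 5 * tn M g ^ 2 := Nat.mul_le_mul_left _ (Nat.pow_le_pow_left htn 2)
    have h' := h.swap
    have hgb' : SB 3 3 (sw g) := hgb.sw
    have hz' : ∀ P ∈ S.image Prod.swap, evalEval P.1 P.2 (sw g) = 0 := by
      intro P hP
      obtain ⟨Q, hQ, rfl⟩ := Finset.mem_image.mp hP
      rw [ev_sw]
      exact hz Q hQ
    have hc6' : 6 < (S.image Prod.swap).card := by
      rw [Conf.card_swap]; exact hc6
    have hu' : red p (sw g) = FF (B : ZMod p) (A : ZMod p) (C' : ZMod p) ^ 2 * sw u := by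
      rw [red_sw, hu, sw_mul, sw_pow, sw_FF]
    have h0' : red p (sw g) ≠ 0 := by
      intro h1
      apply h0
      rw [red_sw] at h1
      rw [← sw_sw (red p g), h1, sw_zero]
    have htn' := n1_le_tn M (sw g) (b := 2) (by norm_num)
    rw [tn_sw] at htn'
    rcases Case22_half h' hM (sw g) hgb' hz' hc6' (sw u) hu' h0' with
      hbigd | ⟨c', v', w', hc', hv', hvw', hr', hL'⟩
    · apply curve
      apply Case22_pow C2 p M _ hM _ hpw2
      calc M ^ 6 * p ^ 2 = (M ^ 2) ^ 2 * (p * M) ^ 2 := by ring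
        _ ≤ (M ^ 2) ^ 2 * (5 * n1 M ((sw g).coeff 2) ^ 2) := Nat.mul_le_mul_left _ hbigd
        _ = 5 * (M ^ 2 * n1 M ((sw g).coeff 2)) ^ 2 := by ring
        _ ≤ 5 * tn M g ^ 2 := Nat.mul_le_mul_left _ (Nat.pow_le_pow_left htn' 2)
    -- both top coefficients are squares
    have hlc : ∀ c v w : ℤ, (C c * lin v w ^ 2).coeff 2 = c * v ^ 2 := by
      intro c v w
      have e : C c * lin v w ^ 2 = C (c * v ^ 2) * X ^ 2 + C (-(2 * c * v * w)) * X
          + C (c * w ^ 2) := by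
        unfold lin
        simp only [C_mul, C_pow, C_neg, C_ofNat]
        ring
      rw [e, coeff_add, coeff_add, coeff_C_mul, coeff_C_mul, coeff_C_of_ne_zero (by norm_num),
        coeff_X_pow_self, coeff_X_of_ne_one (by norm_num)]
      ring
    have heq : c * v ^ 2 = c' * v' ^ 2 := by
      rw [← hlc c v w, ← hlc c' v' w', ← hL, ← hL']
      have := cf_sw g 2 2
      unfold cf at this
      exact this.symm
    obtain ⟨d, v1, v1', hd, hvd, hvd', hb1', hb1''⟩ := corner22 c v c' v' hc hv hc' hv' heq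
    have s1 : (v1'.natAbs * M * n1 M (lin v w)) ^ 2 ≤ 3 * tn M g :=
      Case22_size M g c v w v1' hL hb1'
    have s2 : (v1.natAbs * M * n1 M (lin v' w')) ^ 2 ≤ 3 * tn M g := by
      have := Case22_size M (sw g) c' v' w' v1 hL' hb1''
      rwa [tn_sw] at this
    by_cases hsm : 192 * tn M g < p ^ 2
    · have key : ∀ q : ℕ, q ^ 2 ≤ 3 * tn M g → 8 * q < p := by
        intro q hq
        by_contra hcon
        push Not at hcon
        have : p ^ 2 ≤ (8 * q) ^ 2 := Nat.pow_le_pow_left hcon 2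
        have e : (8 * q) ^ 2 = 64 * q ^ 2 := by ring
        omega
      have k1 := key _ s1
      have k2 := key _ s2
      apply two_sided h hM v w v' w' d hv hv' hvw hr hr' hd ⟨v1, hvd⟩ ⟨v1', hvd'⟩
      have a1 : |v| = d * (v1.natAbs : ℤ) := by
        rw [hvd, abs_mul, abs_of_pos hd, Int.abs_eq_natAbs]
      have a2 : |v'| = d * (v1'.natAbs : ℤ) := by
        rw [hvd', abs_mul, abs_of_pos hd, Int.abs_eq_natAbs]
      rw [a1, a2]
      have k3 : 4 * (v1.natAbs * M * n1 M (lin v' w')) + 4 * (v1'.natAbs * M * n1 M (lin v w))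
          < p := by omega
      have k4 : (4 * ((v1.natAbs : ℤ) * M * n1 M (lin v' w')) +
          4 * ((v1'.natAbs : ℤ) * M * n1 M (lin v w))) < p := by exact_mod_cast k3
      calc 4 * (M : ℤ) * (d * (v1.natAbs : ℤ) * n1 M (lin v' w') +
            d * (v1'.natAbs : ℤ) * n1 M (lin v w))
          = (4 * ((v1.natAbs : ℤ) * M * n1 M (lin v' w')) +
            4 * ((v1'.natAbs : ℤ) * M * n1 M (lin v w))) * d := by ring
        _ < p * d := mul_lt_mul_of_pos_right k4 hd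
    · push Not at hsm
      apply curve
      have h7 : (p ^ 2) ^ 49 ≤ (192 * tn M g) ^ 49 := Nat.pow_le_pow_left hsm 49
      have h8 : 192 ^ 49 * (C2 * M ^ 354) < 192 ^ 49 * (tn M g ^ 49 * p ^ 15) := by
        calc 192 ^ 49 * (C2 * M ^ 354) = 192 ^ 49 * C2 * M ^ 354 := by ring
          _ < p ^ 113 := hpw3
          _ = (p ^ 2) ^ 49 * p ^ 15 := by ring
          _ ≤ (192 * tn M g) ^ 49 * p ^ 15 := Nat.mul_le_mul_right _ h7
          _ = 192 ^ 49 * (tn M g ^ 49 * p ^ 15) := by ring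
      exact Nat.lt_of_mul_lt_mul_left h8

end Pool.Agent.Helper20.H3
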