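import Mathlib
import Pool.Agent.Helper20.H3.Basic
import Pool.Agent.Helper20.H3.Norm1
import Pool.Agent.Helper20.H3.Rank

set_option autoImplicit false

namespace Pool.Agent.Helper20.H3

open Polynomial

/-- the coordinate `z = (v x - u) y` is small -/
theorem osl_bound {M : ℕ} {v u x y : ℤ} (hx : 0 ≤ x) (hx' : x ≤ M) (hy : 0 ≤ y) (hy' : y ≤ M) :
    |(v * x - u) * y| ≤ 2 * n1 M (lin v u) * M := by
  have h1 : n1 M (lin v u) = max (v.natAbs * M) u.natAbs := n1_lin M v u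
  have h2 : (v.natAbs * M : ℤ) ≤ n1 M (lin v u) := by rw [h1]; exact_mod_cast le_max_left _ _
  have h3 : (u.natAbs : ℤ) ≤ n1 M (lin v u) := by rw [h1]; exact_mod_cast le_max_right _ _
  rw [Int.natCast_natAbs] at h2 h3
  have h4 : |v * x| ≤ |v| * M := by
    rw [abs_mul, abs_of_nonneg hx]
    exact mul_le_mul_of_nonneg_left hx' (abs_nonneg v)
  have h5 : |v * x - u| ≤ 2 * n1 M (lin v u) := by
    have := abs_sub (v * x) u
    linarith
  rw [abs_mul, abs_of_nonneg hy]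
  exact mul_le_mul h5 hy' hy (by positivity)

/-- one-sided rational centre: all points lie on one bilinear curve -/
theorem osl {p : ℕ} {A B C' : ℤ} {M : ℕ} {S : Finset (ℤ × ℤ)} (h : Conf p A B C' M S)
    (hM : 1 ≤ M) (v u : ℤ) (hv : v ≠ 0) (hr : (p : ℤ) ∣ v * B + u)
    (hs : 12 * M ^ 2 * n1 M (lin v u) < p) : Good S := by
  right
  -- the congruence
  have hcong : ∀ P ∈ S, (p : ℤ) ∣ (v * P.1 - u) * P.2 + A * v * P.1 -
      (v * (A * B - C') + A * u) := by
    intro P hP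
    have h1 := h.hmod P hP
    have h2 : (v * P.1 - u) * P.2 + A * v * P.1 - (v * (A * B - C') + A * u) =
        v * (P.1 * P.2 + A * P.1 + B * P.2 + C') - (v * B + u) * (P.2 + A) := by ring
    rw [h2]
    exact dvd_sub (Dvd.dvd.mul_left h1 _) (Dvd.dvd.mul_right hr _)
  obtain ⟨w, hw, hw'⟩ := rank_rel (ρ := Fin 3) (S : Set (ℤ × ℤ))
    (fun P => ![1, P.1, (v * P.1 - u) * P.2]) (by
    intro Q hQ
    have hd : (Matrix.of fun i j => (![1, (Q i).1, (v * (Q i).1 - u) * (Q i).2] :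
        Fin 3 → ℤ) j).det =
        ((Q 1).1 * ((v * (Q 2).1 - u) * (Q 2).2) - (Q 2).1 * ((v * (Q 1).1 - u) * (Q 1).2)) -
        ((Q 0).1 * ((v * (Q 2).1 - u) * (Q 2).2) - (Q 2).1 * ((v * (Q 0).1 - u) * (Q 0).2)) +
        ((Q 0).1 * ((v * (Q 1).1 - u) * (Q 1).2) - (Q 1).1 * ((v * (Q 0).1 - u) * (Q 0).2)) := by
      rw [Matrix.det_fin_three]
      simp only [Matrix.of_apply, Matrix.cons_val_zero, Matrix.cons_val_one, Matrix.cons_val]
      ring
    rw [hd]
    apply Int.eq_zero_of_abs_lt_dvd (m := (p : ℤ))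
    · have c0 := hcong _ (hQ 0)
      have c1 := hcong _ (hQ 1)
      have c2 := hcong _ (hQ 2)
      have e : ((Q 1).1 * ((v * (Q 2).1 - u) * (Q 2).2) -
            (Q 2).1 * ((v * (Q 1).1 - u) * (Q 1).2)) -
          ((Q 0).1 * ((v * (Q 2).1 - u) * (Q 2).2) -
            (Q 2).1 * ((v * (Q 0).1 - u) * (Q 0).2)) +
          ((Q 0).1 * ((v * (Q 1).1 - u) * (Q 1).2) -
            (Q 1).1 * ((v * (Q 0).1 - u) * (Q 0).2)) =
          ((Q 1).1 - (Q 0).1) * ((v * (Q 2).1 - u) * (Q 2).2 + A * v * (Q 2).1 -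
            (v * (A * B - C') + A * u)) -
          ((Q 2).1 - (Q 0).1) * ((v * (Q 1).1 - u) * (Q 1).2 + A * v * (Q 1).1 -
            (v * (A * B - C') + A * u)) +
          ((Q 2).1 - (Q 1).1) * ((v * (Q 0).1 - u) * (Q 0).2 + A * v * (Q 0).1 -
            (v * (A * B - C') + A * u)) := by ring
      rw [e]
      exact dvd_add (dvd_sub (Dvd.dvd.mul_left c2 _) (Dvd.dvd.mul_left c1 _))
        (Dvd.dvd.mul_left c0 _)
    · have hb : ∀ i j : Fin 3, |(Q i).1 * ((v * (Q j).1 - u) * (Q j).2)| ≤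
          2 * M ^ 2 * n1 M (lin v u) := by
        intro i j
        have bi := h.hbox _ (hQ i)
        have bj := h.hbox _ (hQ j)
        have h6 := osl_bound (v := v) (u := u) bj.1 bj.2.1 bj.2.2.1 bj.2.2.2
        rw [abs_mul, abs_of_nonneg bi.1]
        calc (Q i).1 * |(v * (Q j).1 - u) * (Q j).2|
            ≤ M * (2 * n1 M (lin v u) * M) := mul_le_mul bi.2.1 h6 (abs_nonneg _) (by positivity)
          _ = 2 * M ^ 2 * n1 M (lin v u) := by ring
      have hs' : (12 * M ^ 2 * n1 M (lin v u) : ℤ) < p := by exact_mod_cast hs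
      have b1 := abs_le.mp (hb 1 2)
      have b2 := abs_le.mp (hb 2 1)
      have b3 := abs_le.mp (hb 0 2)
      have b4 := abs_le.mp (hb 2 0)
      have b5 := abs_le.mp (hb 0 1)
      have b6 := abs_le.mp (hb 1 0)
      rw [abs_lt]
      constructor <;> linarith [b1.1, b1.2, b2.1, b2.2, b3.1, b3.2, b4.1, b4.2, b5.1, b5.2,
        b6.1, b6.2])
  refine ⟨w 2 * v, w 1, -(w 2 * u), w 0, ?_, ?_⟩
  · rintro ⟨h1, h2, -, h4⟩
    apply hw
    have h3 : w 2 = 0 := (mul_eq_zero.mp h1).resolve_right hv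
    ext i
    fin_cases i
    · exact h4
    · exact h2
    · exact h3
  · intro P hP
    have := hw' P hP
    rw [Fin.sum_univ_three] at this
    simp only [Matrix.cons_val_zero, Matrix.cons_val_one, Matrix.cons_val] at this
    linarith

end Pool.Agent.Helper20.H3
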