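import Mathlib
import Pool.Agent.Helper20.H3.Norm1

set_option autoImplicit false

namespace Pool.Agent.Helper20.H3

open Polynomial

theorem Root_map_lin (p : ℕ) (v u : ℤ) : (lin v u).map (Int.castRingHom (ZMod p)) =
    C (v : ZMod p) * X - C (u : ZMod p) := by
  simp [lin]

theorem Root_X_add_C_eq {R : Type*} [CommRing R] (b : R) : X + C b = X - C (-b) := by
  rw [C_neg, sub_neg_eq_add]

/-- a linear form divisible by `x + B` modulo `p` -/
theorem Root_of_dvd (p : ℕ) (B v u : ℤ)
    (h : (X + C (B : ZMod p)) ∣ (lin v u).map (Int.castRingHom (ZMod p))) :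
    (p : ℤ) ∣ v * B + u := by
  rw [Root_map_lin, Root_X_add_C_eq, dvd_iff_isRoot, IsRoot.def, eval_sub, eval_mul, eval_C,
    eval_X, eval_C] at h
  rw [← ZMod.intCast_zmod_eq_zero_iff_dvd]
  push_cast
  linear_combination -h

theorem Root_natDegree_lin_le (p : ℕ) (v u : ℤ) :
    ((lin v u).map (Int.castRingHom (ZMod p))).natDegree ≤ 1 := by
  rw [Root_map_lin]
  exact (natDegree_sub_C (p := C (v : ZMod p) * X)).le.trans ((natDegree_C_mul_le _ _).trans natDegree_X_le)

/-- the repeated factor of the leading coefficient vanishes at `-B` modulo `p` -/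
theorem root_of_sq (p : ℕ) (hp : p.Prime) (B v u : ℤ) (hvu : IsCoprime v u) (r L : Polynomial ℤ)
    (hL : L = lin v u ^ 2 * r) (hr : r.natDegree ≤ 1)
    (h0 : L.map (Int.castRingHom (ZMod p)) ≠ 0)
    (h : (X + C (B : ZMod p)) ^ 2 ∣ L.map (Int.castRingHom (ZMod p))) :
    (p : ℤ) ∣ v * B + u := by
  have : Fact p.Prime := ⟨hp⟩
  rw [hL, Polynomial.map_mul, Polynomial.map_pow] at h0 h
  have hirr : Irreducible (X + C (B : ZMod p)) := by
    rw [Root_X_add_C_eq]; exact irreducible_X_sub_C _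
  by_cases hd : (X + C (B : ZMod p)) ∣ (lin v u).map (Int.castRingHom (ZMod p))
  · exact Root_of_dvd p B v u hd
  · exfalso
    have hco : IsCoprime ((X + C (B : ZMod p)) ^ 2)
        ((lin v u).map (Int.castRingHom (ZMod p)) ^ 2) :=
      ((hirr.coprime_iff_not_dvd).2 hd).pow
    have h2 := hco.dvd_of_dvd_mul_left h
    have hr0 : r.map (Int.castRingHom (ZMod p)) ≠ 0 := right_ne_zero_of_mul h0
    have h3 := natDegree_le_of_dvd h2 hr0
    have h4 : (r.map (Int.castRingHom (ZMod p))).natDegree ≤ 1 := natDegree_map_le.trans hr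
    have h5 : ((X + C (B : ZMod p)) ^ 2).natDegree = 2 := by
      rw [natDegree_pow, natDegree_X_add_C]
    omega

/-- the case of a triple root modulo `p` -/
theorem root_of_cube (p : ℕ) (hp : p.Prime) (B v u w z c : ℤ) (hvu : IsCoprime v u)
    (L : Polynomial ℤ) (hL : L = lin v u ^ 2 * lin w z) (hc : ¬ (p : ℤ) ∣ c)
    (h : L.map (Int.castRingHom (ZMod p)) = C (c : ZMod p) * (X + C (B : ZMod p)) ^ 3) :
    (p : ℤ) ∣ v * B + u ∧ (p : ℤ) ∣ w * B + z := by
  have : Fact p.Prime := ⟨hp⟩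
  have hc0 : (c : ZMod p) ≠ 0 := fun h0 => hc ((ZMod.intCast_zmod_eq_zero_iff_dvd _ _).1 h0)
  have hirr : Irreducible (X + C (B : ZMod p)) := by
    rw [Root_X_add_C_eq]; exact irreducible_X_sub_C _
  rw [hL, Polynomial.map_mul, Polynomial.map_pow] at h
  have hne : C (c : ZMod p) * (X + C (B : ZMod p)) ^ 3 ≠ 0 :=
    mul_ne_zero (C_ne_zero.2 hc0) (pow_ne_zero _ hirr.ne_zero)
  have hdeg : (C (c : ZMod p) * (X + C (B : ZMod p)) ^ 3).natDegree = 3 := by
    rw [natDegree_C_mul hc0, natDegree_pow, natDegree_X_add_C]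
  set q := (lin v u).map (Int.castRingHom (ZMod p)) with hq
  set s := (lin w z).map (Int.castRingHom (ZMod p)) with hs
  have hq0 : q ≠ 0 := by
    rintro h0
    rw [h0] at h
    apply hne
    rw [← h]
    simp
  have hs0 : s ≠ 0 := by
    rintro h0
    rw [h0] at h
    apply hne
    rw [← h]
    simp
  have hq1 : q.natDegree ≤ 1 := Root_natDegree_lin_le p v u
  have hs1 : s.natDegree ≤ 1 := Root_natDegree_lin_le p w z
  have hsum : 2 * q.natDegree + s.natDegree = 3 := by
    rw [← hdeg, ← h, natDegree_mul (pow_ne_zero _ hq0) hs0, natDegree_pow]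
  have key : ∀ t : Polynomial (ZMod p), t ∣ C (c : ZMod p) * (X + C (B : ZMod p)) ^ 3 →
      t.natDegree = 1 → (X + C (B : ZMod p)) ∣ t := by
    intro t ht h1
    by_contra hnd
    have hco : IsCoprime t ((X + C (B : ZMod p)) ^ 3) :=
      (((hirr.coprime_iff_not_dvd).2 hnd).pow_left).symm
    have h2 : t ∣ C (c : ZMod p) := hco.dvd_of_dvd_mul_right ht
    have h3 := natDegree_le_of_dvd h2 (C_ne_zero.2 hc0)
    rw [natDegree_C] at h3
    omega
  constructor
  · refine Root_of_dvd p B v u (key q ?_ (by omega))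
    rw [← h]
    exact (dvd_pow_self q two_ne_zero).mul_right s
  · refine Root_of_dvd p B w z (key s ?_ (by omega))
    rw [← h]
    exact Dvd.intro_left _ rfl

/-- two linear forms vanishing at the same point modulo `p` -/
theorem res_lin (p M : ℕ) (hp : p.Prime) (B v u w z : ℤ) (hv : v ≠ 0) (hvu : IsCoprime v u)
    (h1 : (p : ℤ) ∣ v * B + u) (h2 : (p : ℤ) ∣ w * B + z) :
    p * M ≤ 2 * n1 M (lin v u) * n1 M (lin w z) ∨ ∃ c : ℤ, w = c * v ∧ z = c * u := by
  have hd : (p : ℤ) ∣ u * w - v * z := by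
    have e : u * w - v * z = w * (v * B + u) - v * (w * B + z) := by ring
    rw [e]
    exact dvd_sub (h1.mul_left w) (h2.mul_left v)
  by_cases h0 : u * w - v * z = 0
  · right
    have h3 : v ∣ u * w := ⟨z, by linarith⟩
    obtain ⟨c, hc⟩ := hvu.dvd_of_dvd_mul_left h3
    refine ⟨c, by rw [hc, mul_comm], ?_⟩
    apply mul_left_cancel₀ hv
    rw [hc] at h0
    linarith
  · left
    have hle : p ≤ (u * w - v * z).natAbs := by
      have := Int.natAbs_dvd_natAbs.2 hd
      rw [Int.natAbs_natCast] at this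
      exact Nat.le_of_dvd (Int.natAbs_pos.2 h0) this
    have h4 : (u * w - v * z).natAbs ≤ u.natAbs * w.natAbs + v.natAbs * z.natAbs := by
      rw [← Int.natAbs_mul, ← Int.natAbs_mul]
      exact Int.natAbs_sub_le _ _
    have a1 : v.natAbs * M ≤ n1 M (lin v u) := by rw [n1_lin]; exact le_max_left _ _
    have a2 : u.natAbs ≤ n1 M (lin v u) := by rw [n1_lin]; exact le_max_right _ _
    have b1 : w.natAbs * M ≤ n1 M (lin w z) := by rw [n1_lin]; exact le_max_left _ _
    have b2 : z.natAbs ≤ n1 M (lin w z) := by rw [n1_lin]; exact le_max_right _ _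
    calc p * M ≤ (u.natAbs * w.natAbs + v.natAbs * z.natAbs) * M :=
          Nat.mul_le_mul_right _ (hle.trans h4)
      _ = u.natAbs * (w.natAbs * M) + (v.natAbs * M) * z.natAbs := by ring
      _ ≤ n1 M (lin v u) * n1 M (lin w z) + n1 M (lin v u) * n1 M (lin w z) :=
          add_le_add (Nat.mul_le_mul a2 b1) (Nat.mul_le_mul a1 b2)
      _ = 2 * n1 M (lin v u) * n1 M (lin w z) := by ring

end Pool.Agent.Helper20.H3
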