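import Mathlib
import Pool.Agent.Helper20.H3.CurveX
import Pool.Agent.Helper20.H3.Order
import Pool.Agent.Helper20.H3.Lead
import Pool.Agent.Helper20.H3.Quad
import Pool.Agent.Helper20.H3.OSL
import Pool.Agent.Helper20.H3.Root
import Pool.Agent.Helper20.H3.Pow

set_option autoImplicit false

namespace Pool.Agent.Helper20.H3

open Polynomial

/-- the degree of the coefficients in `y` -/
private theorem Case23_natDegree {R : Type*} [CommRing R] {a b : ℕ} {g : P2 R} (h : SB (a + 1) b g) (j : ℕ) :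
    (g.coeff j).natDegree ≤ a := by
  rw [natDegree_le_iff_coeff_eq_zero]
  intro N hN
  by_contra hc
  have := h N j hc
  omega

private theorem Case23_fin1 {C1 M p t : ℕ} (hM : 1 ≤ M) (h : C1 * M ^ 249 < p ^ 92)
    (ht : M ^ 4 ≤ t) : C1 * M ^ 417 < t ^ 42 * p ^ 92 := by
  calc C1 * M ^ 417 = (C1 * M ^ 249) * M ^ 168 := by ring
    _ < p ^ 92 * M ^ 168 := Nat.mul_lt_mul_of_pos_right h (by positivity)
    _ = (M ^ 4) ^ 42 * p ^ 92 := by ring
    _ ≤ t ^ 42 * p ^ 92 := Nat.mul_le_mul_right _ (Nat.pow_le_pow_left ht 42)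

private theorem Case23_fin2 {C1 M p t : ℕ} (hM : 1 ≤ M) (h : C1 * M ^ 291 < p ^ 92)
    (ht : M ^ 3 * p ≤ t) : C1 * M ^ 417 < t ^ 42 * p ^ 50 := by
  calc C1 * M ^ 417 = (C1 * M ^ 291) * M ^ 126 := by ring
    _ < p ^ 92 * M ^ 126 := Nat.mul_lt_mul_of_pos_right h (by positivity)
    _ = (M ^ 3 * p) ^ 42 * p ^ 50 := by ring
    _ ≤ t ^ 42 * p ^ 50 := Nat.mul_le_mul_right _ (Nat.pow_le_pow_left ht 42)

private theorem Case23_fin3 {C1 M p t : ℕ} (hM : 1 ≤ M) (h : (5 ^ 21 * C1) * M ^ 249 < p ^ 92)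
    (ht : M ^ 8 * p ^ 2 ≤ 5 * t ^ 2) : C1 * M ^ 417 < t ^ 42 * p ^ 50 := by
  have h1 : 5 ^ 21 * (C1 * M ^ 417) < 5 ^ 21 * (t ^ 42 * p ^ 50) := by
    calc 5 ^ 21 * (C1 * M ^ 417) = ((5 ^ 21 * C1) * M ^ 249) * M ^ 168 := by ring
      _ < p ^ 92 * M ^ 168 := Nat.mul_lt_mul_of_pos_right h (by positivity)
      _ = (M ^ 8 * p ^ 2) ^ 21 * p ^ 50 := by ring
      _ ≤ (5 * t ^ 2) ^ 21 * p ^ 50 := Nat.mul_le_mul_right _ (Nat.pow_le_pow_left ht 21)
      _ = 5 ^ 21 * (t ^ 42 * p ^ 50) := by ring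
  exact Nat.lt_of_mul_lt_mul_left h1

private theorem Case23_fin4 {C1 M p t : ℕ} (h : (432 ^ 42 * C1) * M ^ 459 < p ^ 134)
    (ht : p ^ 2 ≤ 432 * M * t) : C1 * M ^ 417 < t ^ 42 * p ^ 50 := by
  have h1 : (432 * M) ^ 42 * (C1 * M ^ 417) < (432 * M) ^ 42 * (t ^ 42 * p ^ 50) := by
    calc (432 * M) ^ 42 * (C1 * M ^ 417) = (432 ^ 42 * C1) * M ^ 459 := by ring
      _ < p ^ 134 := h
      _ = (p ^ 2) ^ 42 * p ^ 50 := by ring
      _ ≤ (432 * M * t) ^ 42 * p ^ 50 := Nat.mul_le_mul_right _ (Nat.pow_le_pow_left ht 42)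
      _ = (432 * M) ^ 42 * (t ^ 42 * p ^ 50) := by ring
  exact Nat.lt_of_mul_lt_mul_left h1

/-- irreducible curves of degree two in `x` and degree three in `y` -/
theorem case23 : ∃ C0 : ℕ, 1 ≤ C0 ∧ ∀ (p : ℕ) (A B C' : ℤ) (M : ℕ) (S : Finset (ℤ × ℤ)),
      Conf p A B C' M S → 1 ≤ M → C0 * M ^ 24 ≤ p ^ 7 → ∀ g : P2 ℤ, Irreducible g → SB 3 4 g →
      (∃ j, cf g 2 j ≠ 0) → (∃ i, cf g i 3 ≠ 0) → (∀ P ∈ S, evalEval P.1 P.2 g = 0) →
      Good S := by
  obtain ⟨C1, hC1, H1⟩ := curvex 2 3 1 (by norm_num) (by norm_num)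
  obtain ⟨C2, hC2, H2⟩ := curvex 2 3 2 (by norm_num) (by norm_num)
  obtain ⟨D1, hD1, E1⟩ := powcmp C1 92 249 (by norm_num) (by norm_num)
  obtain ⟨D2, hD2, E2⟩ := powcmp C2 92 291 (by norm_num) (by norm_num)
  obtain ⟨D3, hD3, E3⟩ := powcmp (5 ^ 21 * C2) 92 249 (by norm_num) (by norm_num)
  obtain ⟨D4, hD4, E4⟩ := powcmp (432 ^ 42 * C2) 134 459 (by norm_num) (by norm_num)
  refine ⟨D1 + D2 + D3 + D4, by omega, ?_⟩
  intro p A B C' M S hconf hM hp g hg hgb ha hb hz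
  by_cases hcard : S.card ≤ 200
  · exact Or.inl hcard
  push Not at hcard
  have hpp := hconf.hp
  have : Fact p.Prime := ⟨hpp⟩
  have hMp := hconf.hMp
  have hne : S.Nonempty := by
    rw [← Finset.card_pos]; omega
  have hle : ∀ D : ℕ, D ≤ D1 + D2 + D3 + D4 → D * M ^ 24 ≤ p ^ 7 := fun D hD =>
    (Nat.mul_le_mul_right _ hD).trans hp
  have F1 := E1 p M hM (hle D1 (by omega))
  have F2 := E2 p M hM (hle D2 (by omega))
  have F3 := E3 p M hM (hle D3 (by omega))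
  have F4 := E4 p M hM (hle D4 (by omega))
  have hr0 : red p g ≠ 0 := by
    obtain ⟨P, hP⟩ := hne
    exact red_ne_zero hg ⟨P, hz P hP⟩ p hpp
  obtain ⟨ν, u, hν1, hν2, hν3, hu, hnd⟩ :=
    exists_nu hconf g 2 3 (by norm_num) (by norm_num) hgb hr0 hz (by omega)
  obtain ⟨hW, hV1, hV2⟩ : WW 9 2 3 = 417 ∧ gv 9 2 3 1 = 92 ∧ gv 9 2 3 2 = 50 :=
    ⟨WW_val.2.1, gv_val.2.2.1, gv_val.2.2.2.1⟩
  -- the leading coefficient
  set L : Polynomial ℤ := g.coeff 3 with hL
  have hL0 : L ≠ 0 := by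
    obtain ⟨i, hi⟩ := hb
    intro h
    apply hi
    unfold cf
    rw [← hL, h, coeff_zero]
  have hLd : L.natDegree ≤ 2 := Case23_natDegree hgb 3
  have hlead := (lead_red g 2 3 ν u hgb hν2 hν3 hu).1
  rw [← hL] at hlead
  have hn1 := n1_of_red p M ν hpp hM B L hL0 (by omega) (hlead ▸ dvd_mul_right _ _)
  have htn : M ^ 3 * n1 M L ≤ tn M g := n1_le_tn M g (by norm_num)
  have hcases : ν = 1 ∨ ν = 2 := by omega
  rcases hcases with rfl | rfl
  · exfalso
    have h1 : M ≤ n1 M L := by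
      rcases hn1 with h | h
      · omega
      · simpa using h.1
    have h2 : M ^ 4 ≤ tn M g := by
      calc M ^ 4 = M ^ 3 * M := by ring
        _ ≤ M ^ 3 * n1 M L := Nat.mul_le_mul_left _ h1
        _ ≤ _ := htn
    have h3 := H1 p A B C' M S hconf hM g hg hgb ha hb hz ⟨u, hu, hnd⟩ (by
      rw [hW, hV1]; exact Case23_fin1 hM F1 h2)
    omega
  · by_cases hgood : C2 * M ^ 417 < tn M g ^ 42 * p ^ 50
    · exfalso
      have h3 := H2 p A B C' M S hconf hM g hg hgb ha hb hz ⟨u, hu, hnd⟩ (by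
        rw [hW, hV2]; exact hgood)
      omega
    rcases hn1 with h | h
    · exfalso
      apply hgood
      apply Case23_fin2 hM F2
      exact (Nat.mul_le_mul_left _ h.1).trans htn
    · obtain ⟨h1, h2, h3⟩ := h
      have hd2 : L.natDegree = 2 := le_antisymm hLd h2
      have hlc : ¬ (p : ℤ) ∣ L.leadingCoeff := by
        intro hdvd
        have e1 : (L.map (Int.castRingHom (ZMod p))).natDegree < 2 := by
          rw [← hd2]
          apply natDegree_map_lt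
          · rw [eq_intCast, ZMod.intCast_zmod_eq_zero_iff_dvd]; exact hdvd
          · exact h3
        have e2 : ((X + C (B : ZMod p)) ^ 2).natDegree ≤
            (L.map (Int.castRingHom (ZMod p))).natDegree :=
          natDegree_le_of_dvd (hlead ▸ dvd_mul_right _ _) h3
        rw [natDegree_pow, natDegree_X_add_C] at e2
        omega
      obtain ⟨u0, u1, u2, hexp, hu0, hu1, hu2⟩ :=
        ord2 hconf g 3 4 (by norm_num) (by norm_num) hgb hz (by omega) (hu ▸ dvd_mul_right _ _)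
      have hJ : J 2 p B L := lead2 g u0 u1 u2 2 3 hexp (by norm_num)
        (hu0.mono (by norm_num) (by norm_num)) (hu1.mono (by norm_num) (by norm_num))
      rcases quad_dich p M hpp hM B L hd2 hJ hlc with hq | hq
      · exfalso
        apply hgood
        apply Case23_fin3 hM F3
        calc M ^ 8 * p ^ 2 = M ^ 6 * (p * M) ^ 2 := by ring
          _ ≤ M ^ 6 * (5 * n1 M L ^ 2) := Nat.mul_le_mul_left _ hq
          _ = 5 * (M ^ 3 * n1 M L) ^ 2 := by ring
          _ ≤ 5 * tn M g ^ 2 := Nat.mul_le_mul_left _ (Nat.pow_le_pow_left htn 2)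
      · obtain ⟨c, v, w, hc, hv, hvw, hdv, hLc⟩ := hq
        by_cases hsmall : 12 * M ^ 2 * n1 M (lin v w) < p
        · exact osl hconf hM v w hv hdv hsmall
        · exfalso
          apply hgood
          apply Case23_fin4 F4
          push Not at hsmall
          have hlind : (lin v w).natDegree ≤ 2 := by
            unfold lin
            compute_degree!
          have e1 : n1 M (lin v w) * n1 M (lin v w) ≤ 3 * n1 M (lin v w * lin v w) :=
            n1_lin_mul M v w (lin v w) hlind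
          have e2 : n1 M (lin v w * lin v w) ≤ n1 M L := by
            rw [hLc, sq, n1_C_mul]
            exact Nat.le_mul_of_pos_left _ (Int.natAbs_pos.2 hc)
          calc p ^ 2 ≤ (12 * M ^ 2 * n1 M (lin v w)) ^ 2 := Nat.pow_le_pow_left hsmall 2
            _ = 144 * M ^ 4 * (n1 M (lin v w) * n1 M (lin v w)) := by ring
            _ ≤ 144 * M ^ 4 * (3 * n1 M L) := Nat.mul_le_mul_left _ (e1.trans (by omega))
            _ = 432 * M * (M ^ 3 * n1 M L) := by ring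
            _ ≤ 432 * M * tn M g := Nat.mul_le_mul_left _ htn

end Pool.Agent.Helper20.H3
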