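import Mathlib
import Pool.Agent.Helper20.H3.Norm1

set_option autoImplicit false

namespace Pool.Agent.Helper20.H3

open Polynomial

/-- discriminant of a cubic polynomial -/
noncomputable def disc3 (L : Polynomial ℤ) : ℤ :=
  L.coeff 2 ^ 2 * L.coeff 1 ^ 2 - 4 * L.coeff 3 * L.coeff 1 ^ 3 - 4 * L.coeff 2 ^ 3 * L.coeff 0
    - 27 * L.coeff 3 ^ 2 * L.coeff 0 ^ 2
    + 18 * L.coeff 3 * L.coeff 2 * L.coeff 1 * L.coeff 0

theorem Cubic_eq (L : Polynomial ℤ) (hd : L.natDegree ≤ 3) :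
    L = C (L.coeff 3) * X ^ 3 + C (L.coeff 2) * X ^ 2 + C (L.coeff 1) * X + C (L.coeff 0) := by
  conv_lhs => rw [L.as_sum_range_C_mul_X_pow' (n := 4) (by omega)]
  rw [Finset.sum_range_succ, Finset.sum_range_succ, Finset.sum_range_succ, Finset.sum_range_one,
    pow_zero, mul_one, pow_one]
  ring

theorem Cubic_coeffs (a b c d : ℤ) :
    (C a * X ^ 3 + C b * X ^ 2 + C c * X + C d : Polynomial ℤ).coeff 3 = a ∧
    (C a * X ^ 3 + C b * X ^ 2 + C c * X + C d : Polynomial ℤ).coeff 2 = b ∧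
    (C a * X ^ 3 + C b * X ^ 2 + C c * X + C d : Polynomial ℤ).coeff 1 = c ∧
    (C a * X ^ 3 + C b * X ^ 2 + C c * X + C d : Polynomial ℤ).coeff 0 = d := by
  refine ⟨?_, ?_, ?_, ?_⟩ <;>
    simp [coeff_X, coeff_C, coeff_X_pow, -eq_intCast]

theorem Cubic_taylor (a b c d B : ℤ) :
    taylor (-B) (C a * X ^ 3 + C b * X ^ 2 + C c * X + C d : Polynomial ℤ) =
      C a * X ^ 3 + C (b - 3 * a * B) * X ^ 2 + C (c - 2 * b * B + 3 * a * B ^ 2) * X
        + C (d - c * B + b * B ^ 2 - a * B ^ 3) := by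
  simp only [map_add, taylor_mul, taylor_pow, taylor_X, taylor_C, map_neg, map_sub, map_mul,
    map_pow, map_ofNat]
  ring

/-- the discriminant is invariant under translation -/
theorem disc3_taylor (L : Polynomial ℤ) (hd : L.natDegree = 3) (B : ℤ) :
    disc3 (taylor (-B) L) = disc3 L := by
  have h := Cubic_eq L hd.le
  generalize L.coeff 3 = a at h
  generalize L.coeff 2 = b at h
  generalize L.coeff 1 = c at h
  generalize L.coeff 0 = d at h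
  subst h
  rw [Cubic_taylor]
  unfold disc3
  obtain ⟨h3, h2, h1, h0⟩ := Cubic_coeffs a b c d
  obtain ⟨g3, g2, g1, g0⟩ := Cubic_coeffs a (b - 3 * a * B) (c - 2 * b * B + 3 * a * B ^ 2)
    (d - c * B + b * B ^ 2 - a * B ^ 3)
  rw [h3, h2, h1, h0, g3, g2, g1, g0]
  ring

theorem disc3_J2 (p : ℕ) (B : ℤ) (L : Polynomial ℤ) (hd : L.natDegree = 3) (h : J 2 p B L) :
    (p : ℤ) ^ 2 ∣ disc3 L := by
  rw [← disc3_taylor L hd B]
  obtain ⟨x, hx⟩ := h 0 (by norm_num)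
  obtain ⟨y, hy⟩ := h 1 (by norm_num)
  unfold disc3
  rw [hx, hy]
  generalize (taylor (-B) L).coeff 2 = t2
  generalize (taylor (-B) L).coeff 3 = t3
  refine ⟨t2 ^ 2 * y ^ 2 - 4 * t3 * p * y ^ 3 - 4 * t2 ^ 3 * x - 27 * t3 ^ 2 * p ^ 2 * x ^ 2
    + 18 * t3 * t2 * p * y * x, ?_⟩
  norm_num
  ring

theorem disc3_J3 (p : ℕ) (B : ℤ) (L : Polynomial ℤ) (hd : L.natDegree = 3) (h : J 3 p B L) :
    (p : ℤ) ^ 6 ∣ disc3 L := by
  rw [← disc3_taylor L hd B]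
  obtain ⟨x, hx⟩ := h 0 (by norm_num)
  obtain ⟨y, hy⟩ := h 1 (by norm_num)
  obtain ⟨z, hz⟩ := h 2 (by norm_num)
  unfold disc3
  rw [hx, hy, hz]
  generalize (taylor (-B) L).coeff 3 = t3
  refine ⟨z ^ 2 * y ^ 2 - 4 * t3 * y ^ 3 - 4 * z ^ 3 * x - 27 * t3 ^ 2 * x ^ 2
    + 18 * t3 * z * y * x, ?_⟩
  norm_num
  ring

theorem disc3_JB (p : ℕ) (B : ℤ) (L : Polynomial ℤ) (hd : L.natDegree = 3)
    (h0 : (p : ℤ) ^ 2 ∣ (taylor (-B) L).coeff 0) (h1 : (p : ℤ) ∣ (taylor (-B) L).coeff 1)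
    (h2 : (p : ℤ) ∣ (taylor (-B) L).coeff 2) : (p : ℤ) ^ 3 ∣ disc3 L := by
  rw [← disc3_taylor L hd B]
  obtain ⟨x, hx⟩ := h0
  obtain ⟨y, hy⟩ := h1
  obtain ⟨z, hz⟩ := h2
  unfold disc3
  rw [hx, hy, hz]
  generalize (taylor (-B) L).coeff 3 = t3
  refine ⟨p * z ^ 2 * y ^ 2 - 4 * t3 * y ^ 3 - 4 * p ^ 2 * z ^ 3 * x - 27 * t3 ^ 2 * p * x ^ 2
    + 18 * t3 * z * y * p * x, ?_⟩
  ring

theorem Cubic_abs5 (a b c d e : ℤ) : (a - b - c - d + e).natAbs ≤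
    a.natAbs + b.natAbs + c.natAbs + d.natAbs + e.natAbs := by
  omega

theorem disc3_le (M : ℕ) (L : Polynomial ℤ) :
    (disc3 L).natAbs * M ^ 6 ≤ 54 * n1 M L ^ 4 := by
  have f0 := le_n1 M L (i := 0) (by norm_num)
  have f1 := le_n1 M L (i := 1) (by norm_num)
  have f2 := le_n1 M L (i := 2) (by norm_num)
  have f3 := le_n1 M L (i := 3) (by norm_num)
  rw [pow_zero, mul_one] at f0
  rw [pow_one] at f1
  unfold disc3
  have h := Cubic_abs5 (L.coeff 2 ^ 2 * L.coeff 1 ^ 2) (4 * L.coeff 3 * L.coeff 1 ^ 3)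
    (4 * L.coeff 2 ^ 3 * L.coeff 0) (27 * L.coeff 3 ^ 2 * L.coeff 0 ^ 2)
    (18 * L.coeff 3 * L.coeff 2 * L.coeff 1 * L.coeff 0)
  have n4 : Int.natAbs 4 = 4 := rfl
  have n27 : Int.natAbs 27 = 27 := rfl
  have n18 : Int.natAbs 18 = 18 := rfl
  simp only [Int.natAbs_mul, Int.natAbs_pow, n4, n27, n18] at h
  generalize (L.coeff 0).natAbs = a0 at *
  generalize (L.coeff 1).natAbs = a1 at *
  generalize (L.coeff 2).natAbs = a2 at *
  generalize (L.coeff 3).natAbs = a3 at *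
  generalize n1 M L = N at *
  refine (Nat.mul_le_mul_right (M ^ 6) h).trans ?_
  have e1 : (a2 * M ^ 2) ^ 2 * (a1 * M) ^ 2 ≤ N ^ 2 * N ^ 2 :=
    Nat.mul_le_mul (Nat.pow_le_pow_left f2 2) (Nat.pow_le_pow_left f1 2)
  have e2 : (a3 * M ^ 3) * (a1 * M) ^ 3 ≤ N * N ^ 3 :=
    Nat.mul_le_mul f3 (Nat.pow_le_pow_left f1 3)
  have e3 : (a2 * M ^ 2) ^ 3 * a0 ≤ N ^ 3 * N :=
    Nat.mul_le_mul (Nat.pow_le_pow_left f2 3) f0
  have e4 : (a3 * M ^ 3) ^ 2 * a0 ^ 2 ≤ N ^ 2 * N ^ 2 :=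
    Nat.mul_le_mul (Nat.pow_le_pow_left f3 2) (Nat.pow_le_pow_left f0 2)
  have e5 : (a3 * M ^ 3) * (a2 * M ^ 2) * (a1 * M) * a0 ≤ N * N * N * N :=
    Nat.mul_le_mul (Nat.mul_le_mul (Nat.mul_le_mul f3 f2) f1) f0
  have e6 : (a2 ^ 2 * a1 ^ 2 + 4 * a3 * a1 ^ 3 + 4 * a2 ^ 3 * a0 + 27 * a3 ^ 2 * a0 ^ 2 +
      18 * a3 * a2 * a1 * a0) * M ^ 6 = (a2 * M ^ 2) ^ 2 * (a1 * M) ^ 2
        + 4 * ((a3 * M ^ 3) * (a1 * M) ^ 3) + 4 * ((a2 * M ^ 2) ^ 3 * a0)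
        + 27 * ((a3 * M ^ 3) ^ 2 * a0 ^ 2) + 18 * ((a3 * M ^ 3) * (a2 * M ^ 2) * (a1 * M) * a0) := by
    ring
  rw [e6]
  have e7 : N ^ 2 * N ^ 2 = N ^ 4 := by ring
  have e8 : N * N ^ 3 = N ^ 4 := by ring
  have e9 : N ^ 3 * N = N ^ 4 := by ring
  have e10 : N * N * N * N = N ^ 4 := by ring
  rw [e7] at e1 e4
  rw [e8] at e2
  rw [e9] at e3
  rw [e10] at e5
  omega

/-- rational roots of a cubic -/
theorem Cubic_root (a b c d v u : ℤ) (hv : v ≠ 0) (hvu : IsCoprime v u)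
    (h : a * u ^ 3 + b * u ^ 2 * v + c * u * v ^ 2 + d * v ^ 3 = 0)
    (h' : 3 * a * u ^ 2 + 2 * b * u * v + c * v ^ 2 = 0) :
    ∃ w z : ℤ, a = v ^ 2 * w ∧ b = -(v ^ 2 * z) - 2 * v * u * w ∧
      c = 2 * v * u * z + u ^ 2 * w ∧ d = -(u ^ 2 * z) := by
  have h1 : v ∣ a := by
    have : v ∣ a * u ^ 3 := ⟨-(b * u ^ 2 + c * u * v + d * v ^ 2), by linear_combination h⟩
    exact (hvu.pow_right (n := 3)).dvd_of_dvd_mul_right this
  obtain ⟨α, rfl⟩ := h1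
  have h2 : α * u ^ 3 + b * u ^ 2 + c * u * v + d * v ^ 2 = 0 := by
    apply mul_left_cancel₀ hv
    linear_combination h
  have h3 : v ∣ α * u + b := by
    have : v ∣ (α * u + b) * u ^ 2 := ⟨-(c * u + d * v), by linear_combination h2⟩
    exact (hvu.pow_right (n := 2)).dvd_of_dvd_mul_right this
  obtain ⟨β, hβ⟩ := h3
  obtain rfl : b = v * β - α * u := by linear_combination hβ
  have h4 : u ^ 2 * β + c * u + d * v = 0 := by
    apply mul_left_cancel₀ hv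
    linear_combination h2
  have h5 : v ∣ u * β + c := by
    have : v ∣ (u * β + c) * u := ⟨-d, by linear_combination h4⟩
    exact hvu.dvd_of_dvd_mul_right this
  obtain ⟨γ, hγ⟩ := h5
  obtain rfl : c = v * γ - u * β := by linear_combination hγ
  have h6 : u * γ + d = 0 := by
    apply mul_left_cancel₀ hv
    linear_combination h4
  obtain rfl : d = -(u * γ) := by linear_combination h6
  have h7 : α * u ^ 2 + β * u * v + γ * v ^ 2 = 0 := by
    apply mul_left_cancel₀ hv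
    linear_combination h'
  have h8 : v ∣ α := by
    have : v ∣ α * u ^ 2 := ⟨-(β * u + γ * v), by linear_combination h7⟩
    exact (hvu.pow_right (n := 2)).dvd_of_dvd_mul_right this
  obtain ⟨w, rfl⟩ := h8
  have h9 : w * u ^ 2 + β * u + γ * v = 0 := by
    apply mul_left_cancel₀ hv
    linear_combination h7
  have h10 : v ∣ w * u + β := by
    have : v ∣ (w * u + β) * u := ⟨-γ, by linear_combination h9⟩
    exact hvu.dvd_of_dvd_mul_right this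
  obtain ⟨ζ, hζ⟩ := h10
  obtain rfl : β = v * ζ - w * u := by linear_combination hζ
  have h11 : u * ζ + γ = 0 := by
    apply mul_left_cancel₀ hv
    linear_combination h9
  obtain rfl : γ = -(u * ζ) := by linear_combination h11
  exact ⟨w, -ζ, by ring, by ring, by ring, by ring⟩

theorem Cubic_lin (v u w z : ℤ) : lin v u ^ 2 * lin w z =
    C (v ^ 2 * w) * X ^ 3 + C (-(v ^ 2 * z) - 2 * v * u * w) * X ^ 2
      + C (2 * v * u * z + u ^ 2 * w) * X + C (-(u ^ 2 * z)) := by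
  unfold lin
  simp only [map_sub, map_add, map_neg, map_mul, map_pow, map_ofNat]
  ring

theorem Cubic_reduce (N D : ℤ) (hD : D ≠ 0) : ∃ g u v : ℤ, g ≠ 0 ∧ v ≠ 0 ∧ N = g * u ∧
    D = g * v ∧ IsCoprime v u := by
  have hg : (0 : ℤ) < (Int.gcd D N : ℤ) := by
    have : 0 < Int.gcd D N := Int.gcd_pos_of_ne_zero_left _ hD
    exact_mod_cast this
  obtain ⟨v, hv⟩ := Int.gcd_dvd_left (a := D) (b := N)
  obtain ⟨u, hu⟩ := Int.gcd_dvd_right (a := D) (b := N)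
  refine ⟨(Int.gcd D N : ℤ), u, v, hg.ne', ?_, hu, hv, ?_⟩
  · rintro rfl
    rw [mul_zero] at hv
    exact hD hv
  · refine ⟨Int.gcdA D N, Int.gcdB D N, ?_⟩
    have h := Int.gcd_eq_gcd_ab D N
    apply mul_left_cancel₀ hg.ne'
    calc (Int.gcd D N : ℤ) * (Int.gcdA D N * v + Int.gcdB D N * u)
        = ((Int.gcd D N : ℤ) * v) * Int.gcdA D N + ((Int.gcd D N : ℤ) * u) * Int.gcdB D N := by
          ring
      _ = D * Int.gcdA D N + N * Int.gcdB D N := by rw [← hv, ← hu]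
      _ = (Int.gcd D N : ℤ) * 1 := by rw [mul_one]; exact h.symm

/-- cubic polynomials with zero discriminant -/
theorem cubic_sq_or (L : Polynomial ℤ) (hd : L.natDegree = 3) : disc3 L ≠ 0 ∨
    ∃ v u w z : ℤ, v ≠ 0 ∧ w ≠ 0 ∧ IsCoprime v u ∧ L = lin v u ^ 2 * lin w z := by
  by_cases hdisc : disc3 L = 0
  swap
  · exact Or.inl hdisc
  right
  have ha : L.coeff 3 ≠ 0 := by
    have h0 : L ≠ 0 := by
      rintro rfl
      simp at hd
    have := leadingCoeff_ne_zero.2 h0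
    rwa [leadingCoeff, hd] at this
  have hL := Cubic_eq L hd.le
  unfold disc3 at hdisc
  generalize L.coeff 3 = a at *
  generalize L.coeff 2 = b at *
  generalize L.coeff 1 = c at *
  generalize L.coeff 0 = d at *
  have key : ∃ N D : ℤ, D ≠ 0 ∧ a * N ^ 3 + b * N ^ 2 * D + c * N * D ^ 2 + d * D ^ 3 = 0 ∧
      3 * a * N ^ 2 + 2 * b * N * D + c * D ^ 2 = 0 := by
    by_cases h0 : b ^ 2 - 3 * a * c = 0
    · refine ⟨-b, 3 * a, mul_ne_zero (by norm_num) ha, ?_, ?_⟩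
      · have h1 : (2 * b ^ 3 - 9 * a * b * c + 27 * a ^ 2 * d) ^ 2 = 0 := by
          linear_combination 4 * (b ^ 2 - 3 * a * c) ^ 2 * h0 - 27 * a ^ 2 * hdisc
        have h2 : 2 * b ^ 3 - 9 * a * b * c + 27 * a ^ 2 * d = 0 := by
          exact pow_eq_zero_iff (two_ne_zero) |>.1 h1
        linear_combination a * h2
      · linear_combination (-3) * a * h0
    · refine ⟨9 * a * d - b * c, 2 * (b ^ 2 - 3 * a * c), mul_ne_zero (by norm_num) h0, ?_, ?_⟩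
      · linear_combination (-27 * a ^ 2 * d + 9 * a * b * c - 2 * b ^ 3) * hdisc
      · linear_combination (-9) * a * hdisc
  obtain ⟨N, D, hD, h1, h2⟩ := key
  obtain ⟨g, u, v, hg, hv, rfl, rfl, hco⟩ := Cubic_reduce N D hD
  have h3 : a * u ^ 3 + b * u ^ 2 * v + c * u * v ^ 2 + d * v ^ 3 = 0 := by
    apply mul_left_cancel₀ (pow_ne_zero 3 hg)
    linear_combination h1
  have h4 : 3 * a * u ^ 2 + 2 * b * u * v + c * v ^ 2 = 0 := by
    apply mul_left_cancel₀ (pow_ne_zero 2 hg)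
    linear_combination h2
  obtain ⟨w, z, e1, e2, e3, e4⟩ := Cubic_root a b c d v u hv hco h3 h4
  refine ⟨v, u, w, z, hv, ?_, hco, ?_⟩
  · rintro rfl
    rw [mul_zero] at e1
    exact ha e1
  · rw [Cubic_lin, ← e1, ← e2, ← e3, ← e4]
    exact hL

end Pool.Agent.Helper20.H3
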