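import Mathlib
import Pool.Agent.Helper20.H3.CurveX
import Pool.Agent.Helper20.H3.Order
import Pool.Agent.Helper20.H3.Lead
import Pool.Agent.Helper20.H3.Quad
import Pool.Agent.Helper20.H3.Cubic
import Pool.Agent.Helper20.H3.OSL
import Pool.Agent.Helper20.H3.Root
import Pool.Agent.Helper20.H3.Pow

set_option autoImplicit false

namespace Pool.Agent.Helper20.H3

open Polynomial

theorem Case33a_L_ne {g : P2 ℤ} (h : ∃ i, cf g i 3 ≠ 0) : g.coeff 3 ≠ 0 := by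
  obtain ⟨i, hi⟩ := h
  intro h0
  apply hi
  unfold cf
  rw [h0, coeff_zero]

theorem Case33a_deg {g : P2 ℤ} (h : SB 4 4 g) : (g.coeff 3).natDegree ≤ 3 := by
  rw [natDegree_le_iff_coeff_eq_zero]
  intro N hN
  by_contra hc
  have := h N 3 hc
  omega

/-- bidegree `(3,3)`, divisible exactly once by the hyperbola modulo `p` -/
theorem case33_one : ∃ C0 : ℕ, 1 ≤ C0 ∧ ∀ (p : ℕ) (A B C' : ℤ) (M : ℕ) (S : Finset (ℤ × ℤ)),
      Conf p A B C' M S → 1 ≤ M → C0 * M ^ 24 ≤ p ^ 7 → ∀ g : P2 ℤ, Irreducible g → SB 4 4 g →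
      (∃ j, cf g 3 j ≠ 0) → (∃ i, cf g i 3 ≠ 0) → (∀ P ∈ S, evalEval P.1 P.2 g = 0) →
      (∃ u : P2 (ZMod p), red p g = FF (A : ZMod p) (B : ZMod p) (C' : ZMod p) ^ 1 * u ∧
        ¬ FF (A : ZMod p) (B : ZMod p) (C' : ZMod p) ∣ u) → Good S := by
  obtain ⟨C1, -, hC1⟩ := curvex 3 3 1 le_rfl le_rfl
  obtain ⟨C0, hC0, hpow⟩ := powcmp C1 113 324 (by norm_num) (by norm_num)
  refine ⟨C0, hC0, ?_⟩
  intro p A B C' M S hconf hM hpM g hirr hSB h3j hi3 hz hu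
  left
  apply hC1 p A B C' M S hconf hM g hirr hSB h3j hi3 hz hu
  obtain ⟨u, hu1, -⟩ := hu
  have hpp : Fact p.Prime := ⟨hconf.hp⟩
  have hlead := (lead_red g 3 3 1 u hSB (by norm_num) (by norm_num) hu1).1
  have hn1 : M ≤ n1 M (g.coeff 3) := by
    rcases n1_of_red p M 1 hconf.hp hM B (g.coeff 3) (Case33a_L_ne hi3) (Case33a_deg hSB)
      ⟨_, hlead⟩ with ⟨h1, -⟩ | ⟨h1, -⟩
    · exact le_trans hconf.hMp.le h1
    · rwa [pow_one] at h1
  have htn := n1_le_tn M g (b := 3) (by norm_num)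
  have htn4 : M ^ 4 ≤ tn M g := by
    calc M ^ 4 = M ^ 3 * M := by ring
      _ ≤ M ^ 3 * n1 M (g.coeff 3) := Nat.mul_le_mul_left _ hn1
      _ ≤ _ := htn
  have hc := hpow p M hM hpM
  obtain ⟨-, -, -, hW, -⟩ := WW_val
  obtain ⟨-, -, -, -, hG, -⟩ := gv_val
  rw [hW, hG]
  have h144 : M ^ 144 ≤ tn M g ^ ((9 - 3) * (9 - 3)) := by
    calc M ^ 144 = (M ^ 4) ^ 36 := by rw [← pow_mul]
      _ ≤ tn M g ^ 36 := Nat.pow_le_pow_left htn4 36
      _ = _ := by norm_num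
  have hMpos : 0 < M ^ 144 := pow_pos (by omega) _
  calc C1 * M ^ 468 = (C1 * M ^ 324) * M ^ 144 := by rw [mul_assoc, ← pow_add]
    _ < p ^ 113 * M ^ 144 := Nat.mul_lt_mul_of_pos_right hc hMpos
    _ ≤ p ^ 113 * tn M g ^ ((9 - 3) * (9 - 3)) := Nat.mul_le_mul_left _ h144
    _ = _ := mul_comm _ _

theorem Case33a_altA (C2 M p t : ℕ) (hM : 1 ≤ M) (h : C2 * M ^ 360 < p ^ 113)
    (ht : M ^ 3 * p ≤ t) : C2 * M ^ 468 < t ^ 36 * p ^ 77 := by
  have h1 : (M ^ 3 * p) ^ 36 ≤ t ^ 36 := Nat.pow_le_pow_left ht 36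
  have hMpos : 0 < M ^ 108 := pow_pos (by omega) _
  calc C2 * M ^ 468 = (C2 * M ^ 360) * M ^ 108 := by rw [mul_assoc, ← pow_add]
    _ < p ^ 113 * M ^ 108 := Nat.mul_lt_mul_of_pos_right h hMpos
    _ = (M ^ 3 * p) ^ 36 * p ^ 77 := by ring
    _ ≤ _ := Nat.mul_le_mul_right _ h1

theorem Case33a_altB (C2 M p t : ℕ) (hM : 1 ≤ M) (h : C2 * 54 ^ 9 * M ^ 306 < p ^ 95)
    (ht : M ^ 18 * p ^ 2 ≤ 54 * t ^ 4) : C2 * M ^ 468 < t ^ 36 * p ^ 77 := by
  have h1 : (M ^ 18 * p ^ 2) ^ 9 ≤ (54 * t ^ 4) ^ 9 := Nat.pow_le_pow_left ht 9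
  have hMpos : 0 < M ^ 162 := pow_pos (by omega) _
  have h2 : 54 ^ 9 * (C2 * M ^ 468) < 54 ^ 9 * (t ^ 36 * p ^ 77) := by
    calc 54 ^ 9 * (C2 * M ^ 468) = (C2 * 54 ^ 9 * M ^ 306) * M ^ 162 := by
          rw [show (468 : ℕ) = 306 + 162 from rfl, pow_add]; ring
      _ < p ^ 95 * M ^ 162 := Nat.mul_lt_mul_of_pos_right h hMpos
      _ = (M ^ 18 * p ^ 2) ^ 9 * p ^ 77 := by ring
      _ ≤ (54 * t ^ 4) ^ 9 * p ^ 77 := Nat.mul_le_mul_right _ h1
      _ = _ := by ring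
  exact lt_of_mul_lt_mul_left h2 (Nat.zero_le _)

theorem Case33a_altC (C2 M p t : ℕ) (h : C2 * 1296 ^ 36 * M ^ 504 < p ^ 149)
    (ht : p ^ 2 ≤ 1296 * M * t) : C2 * M ^ 468 < t ^ 36 * p ^ 77 := by
  have h1 : (p ^ 2) ^ 36 ≤ (1296 * M * t) ^ 36 := Nat.pow_le_pow_left ht 36
  have h2 : (1296 * M) ^ 36 * (C2 * M ^ 468) < (1296 * M) ^ 36 * (t ^ 36 * p ^ 77) := by
    calc (1296 * M) ^ 36 * (C2 * M ^ 468) = C2 * 1296 ^ 36 * M ^ 504 := by
          rw [mul_pow, show (504 : ℕ) = 36 + 468 from rfl, pow_add]; ring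
      _ < p ^ 149 := h
      _ = (p ^ 2) ^ 36 * p ^ 77 := by rw [← pow_mul, ← pow_add]
      _ ≤ (1296 * M * t) ^ 36 * p ^ 77 := Nat.mul_le_mul_right _ h1
      _ = _ := by rw [mul_pow (1296 * M) t 36]; ring
  exact lt_of_mul_lt_mul_left h2 (Nat.zero_le _)

theorem Case33a_altD (C2 M p t : ℕ) (hM : 1 ≤ M) (h : C2 * 5 ^ 18 * M ^ 324 < p ^ 113)
    (ht : M ^ 8 * p ^ 2 ≤ 5 * t ^ 2) : C2 * M ^ 468 < t ^ 36 * p ^ 77 := by
  have h1 : (M ^ 8 * p ^ 2) ^ 18 ≤ (5 * t ^ 2) ^ 18 := Nat.pow_le_pow_left ht 18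
  have hMpos : 0 < M ^ 144 := pow_pos (by omega) _
  have h2 : 5 ^ 18 * (C2 * M ^ 468) < 5 ^ 18 * (t ^ 36 * p ^ 77) := by
    calc 5 ^ 18 * (C2 * M ^ 468) = (C2 * 5 ^ 18 * M ^ 324) * M ^ 144 := by
          rw [show (468 : ℕ) = 324 + 144 from rfl, pow_add]; ring
      _ < p ^ 113 * M ^ 144 := Nat.mul_lt_mul_of_pos_right h hMpos
      _ = (M ^ 8 * p ^ 2) ^ 18 * p ^ 77 := by ring
      _ ≤ (5 * t ^ 2) ^ 18 * p ^ 77 := Nat.mul_le_mul_right _ h1
      _ = _ := by ring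
  exact lt_of_mul_lt_mul_left h2 (Nat.zero_le _)

theorem Case33a_lin_deg (v u : ℤ) : (lin v u).natDegree ≤ 1 := by
  unfold lin
  refine (natDegree_sub_le _ _).trans ?_
  rw [natDegree_C, max_eq_left (Nat.zero_le _)]
  exact (natDegree_C_mul_le v X).trans natDegree_X_le

theorem Case33a_lin_pos (M : ℕ) (hM : 1 ≤ M) (v u : ℤ) (hv : v ≠ 0) : 1 ≤ n1 M (lin v u) := by
  rw [n1_lin]
  refine le_trans ?_ (le_max_left _ _)
  have h1 : 1 ≤ v.natAbs := Int.natAbs_pos.2 hv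
  exact Nat.mul_le_mul h1 hM

/-- the alternatives in the case of a repeated root -/
theorem Case33a_sq {p M : ℕ} (L : Polynomial ℤ) (t Q : ℕ) (hL : M ^ 3 * n1 M L ≤ t)
    (hQ : Q ^ 2 ≤ 9 * n1 M L) (hp : p ≤ 12 * M ^ 2 * Q) : p ^ 2 ≤ 1296 * M * t := by
  calc p ^ 2 ≤ (12 * M ^ 2 * Q) ^ 2 := Nat.pow_le_pow_left hp 2
    _ = 144 * M ^ 4 * Q ^ 2 := by ring
    _ ≤ 144 * M ^ 4 * (9 * n1 M L) := Nat.mul_le_mul_left _ hQ
    _ = 1296 * M * (M ^ 3 * n1 M L) := by ring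
    _ ≤ _ := Nat.mul_le_mul_left _ hL

/-- bidegree `(3,3)`, divisible exactly twice by the hyperbola modulo `p` -/
theorem case33_two : ∃ C0 : ℕ, 1 ≤ C0 ∧ ∀ (p : ℕ) (A B C' : ℤ) (M : ℕ) (S : Finset (ℤ × ℤ)),
      Conf p A B C' M S → 1 ≤ M → C0 * M ^ 24 ≤ p ^ 7 → ∀ g : P2 ℤ, Irreducible g → SB 4 4 g →
      (∃ j, cf g 3 j ≠ 0) → (∃ i, cf g i 3 ≠ 0) → (∀ P ∈ S, evalEval P.1 P.2 g = 0) →
      (∃ u : P2 (ZMod p), red p g = FF (A : ZMod p) (B : ZMod p) (C' : ZMod p) ^ 2 * u ∧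
        ¬ FF (A : ZMod p) (B : ZMod p) (C' : ZMod p) ∣ u) → Good S := by
  obtain ⟨C2, -, hC2⟩ := curvex 3 3 2 le_rfl le_rfl
  obtain ⟨KA, hKA, powA⟩ := powcmp C2 113 360 (by norm_num) (by norm_num)
  obtain ⟨KB, -, powB⟩ := powcmp (C2 * 54 ^ 9) 95 306 (by norm_num) (by norm_num)
  obtain ⟨KC, -, powC⟩ := powcmp (C2 * 1296 ^ 36) 149 504 (by norm_num) (by norm_num)
  obtain ⟨KD, -, powD⟩ := powcmp (C2 * 5 ^ 18) 113 324 (by norm_num) (by norm_num)
  refine ⟨KA + KB + KC + KD, by omega, ?_⟩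
  intro p A B C' M S hconf hM hpM g hirr hSB h3j hi3 hz hu
  have hpp : Fact p.Prime := ⟨hconf.hp⟩
  have hle : ∀ K : ℕ, K ≤ KA + KB + KC + KD → K * M ^ 24 ≤ p ^ 7 := fun K hK =>
    (Nat.mul_le_mul_right _ hK).trans hpM
  have cA := powA p M hM (hle KA (by omega))
  have cB := powB p M hM (hle KB (by omega))
  have cC := powC p M hM (hle KC (by omega))
  have cD := powD p M hM (hle KD (by omega))
  have fin : C2 * M ^ 468 < tn M g ^ 36 * p ^ 77 → Good S := by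
    intro h
    left
    apply hC2 p A B C' M S hconf hM g hirr hSB h3j hi3 hz hu
    obtain ⟨-, -, -, hW, -⟩ := WW_val
    obtain ⟨-, -, -, -, -, hG, -⟩ := gv_val
    rw [hW, hG]
    exact h
  have finA := fun h => fin (Case33a_altA C2 M p (tn M g) hM cA h)
  have finB := fun h => fin (Case33a_altB C2 M p (tn M g) hM cB h)
  have finC := fun h => fin (Case33a_altC C2 M p (tn M g) cC h)
  have finD := fun h => fin (Case33a_altD C2 M p (tn M g) hM cD h)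
  by_cases hcard : S.card ≤ 6
  · left; omega
  obtain ⟨u, hu1, -⟩ := hu
  have hlead := (lead_red g 3 3 2 u hSB (by norm_num) (by norm_num) hu1).1
  have hdvd : (X + C (B : ZMod p)) ^ 2 ∣ (g.coeff 3).map (Int.castRingHom (ZMod p)) :=
    ⟨_, hlead⟩
  have htn := n1_le_tn M g (b := 3) (by norm_num)
  have hLne := Case33a_L_ne hi3
  have hLdeg := Case33a_deg hSB
  obtain ⟨u0, u1, u2, hg, hs0, hs1, -⟩ := ord2 hconf g 4 4 le_rfl le_rfl hSB hz (by omega)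
    ⟨u, hu1⟩
  have hJ : J 2 p B (g.coeff 3) := lead2 g u0 u1 u2 3 3 hg (by norm_num)
    (hs0.mono (by norm_num) (by norm_num)) (hs1.mono (by norm_num) (by norm_num))
  rcases n1_of_red p M 2 hconf.hp hM B (g.coeff 3) hLne hLdeg hdvd with ⟨h1, -⟩ | ⟨-, hdeg2, hmap⟩
  · apply finA
    exact (Nat.mul_le_mul_left _ h1).trans htn
  rcases Nat.lt_or_ge (g.coeff 3).natDegree 3 with hlt | hge
  · -- degree two
    have hd : (g.coeff 3).natDegree = 2 := by omega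
    have hl : ¬ (p : ℤ) ∣ (g.coeff 3).leadingCoeff := by
      intro hdv
      have h0 : ((g.coeff 3).map (Int.castRingHom (ZMod p))).natDegree < 2 := by
        have h1 : ((g.coeff 3).map (Int.castRingHom (ZMod p))).coeff 2 = 0 := by
          rw [coeff_map]
          rw [leadingCoeff, hd] at hdv
          exact (ZMod.intCast_zmod_eq_zero_iff_dvd _ _).mpr hdv
        have h2 : ((g.coeff 3).map (Int.castRingHom (ZMod p))).natDegree ≤ 2 := by
          rw [← hd]; exact natDegree_map_le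
        rcases Nat.lt_or_ge ((g.coeff 3).map (Int.castRingHom (ZMod p))).natDegree 2 with h3 | h3
        · exact h3
        · exfalso
          have h4 : ((g.coeff 3).map (Int.castRingHom (ZMod p))).natDegree = 2 := by omega
          apply hmap
          rw [← leadingCoeff_eq_zero, leadingCoeff, h4]
          exact h1
      have h5 := natDegree_le_of_dvd hdvd hmap
      rw [natDegree_pow, natDegree_X_add_C] at h5
      omega
    rcases quad_dich p M hconf.hp hM B (g.coeff 3) hd hJ hl with h1 | ⟨c, v, w, hc, hv, hvw, hr, hL⟩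
    · apply finD
      calc M ^ 8 * p ^ 2 = M ^ 6 * (p * M) ^ 2 := by ring
        _ ≤ M ^ 6 * (5 * n1 M (g.coeff 3) ^ 2) := Nat.mul_le_mul_left _ h1
        _ = 5 * (M ^ 3 * n1 M (g.coeff 3)) ^ 2 := by ring
        _ ≤ 5 * tn M g ^ 2 := Nat.mul_le_mul_left _ (Nat.pow_le_pow_left htn 2)
    · rcases Nat.lt_or_ge (12 * M ^ 2 * n1 M (lin v w)) p with h1 | h1
      · exact osl hconf hM v w hv hr h1
      · apply finC
        refine Case33a_sq (g.coeff 3) (tn M g) (n1 M (lin v w)) htn ?_ h1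
        have h2 := n1_lin_mul M v w (lin v w) ((Case33a_lin_deg v w).trans (by norm_num))
        have h3 : n1 M (lin v w * lin v w) ≤ n1 M (g.coeff 3) := by
          rw [hL, n1_C_mul, pow_two]
          exact Nat.le_mul_of_pos_left _ (Int.natAbs_pos.2 hc)
        calc n1 M (lin v w) ^ 2 = n1 M (lin v w) * n1 M (lin v w) := pow_two _
          _ ≤ 3 * n1 M (lin v w * lin v w) := h2
          _ ≤ 9 * n1 M (g.coeff 3) := by omega
  · -- degree three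
    have hd : (g.coeff 3).natDegree = 3 := by omega
    rcases cubic_sq_or (g.coeff 3) hd with h1 | ⟨v, w, a, z, hv, ha, hvw, hL⟩
    · apply finB
      have h2 := disc3_J2 p B (g.coeff 3) hd hJ
      have h3 : p ^ 2 ≤ (disc3 (g.coeff 3)).natAbs := by
        have h4 := Int.natAbs_dvd_natAbs.2 h2
        rw [Int.natAbs_pow, Int.natAbs_natCast] at h4
        exact Nat.le_of_dvd (Int.natAbs_pos.2 h1) h4
      have h5 := disc3_le M (g.coeff 3)
      calc M ^ 18 * p ^ 2 = M ^ 12 * (p ^ 2 * M ^ 6) := by ring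
        _ ≤ M ^ 12 * ((disc3 (g.coeff 3)).natAbs * M ^ 6) :=
            Nat.mul_le_mul_left _ (Nat.mul_le_mul_right _ h3)
        _ ≤ M ^ 12 * (54 * n1 M (g.coeff 3) ^ 4) := Nat.mul_le_mul_left _ h5
        _ = 54 * (M ^ 3 * n1 M (g.coeff 3)) ^ 4 := by ring
        _ ≤ 54 * tn M g ^ 4 := Nat.mul_le_mul_left _ (Nat.pow_le_pow_left htn 4)
    · have hr : (p : ℤ) ∣ v * B + w := root_of_sq p hconf.hp B v w hvw (lin a z) (g.coeff 3) hL
        (Case33a_lin_deg a z) hmap hdvd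
      rcases Nat.lt_or_ge (12 * M ^ 2 * n1 M (lin v w)) p with h1 | h1
      · exact osl hconf hM v w hv hr h1
      · apply finC
        refine Case33a_sq (g.coeff 3) (tn M g) (n1 M (lin v w)) htn ?_ h1
        have hdd : (lin v w * lin a z).natDegree ≤ 2 :=
          natDegree_mul_le.trans (Nat.add_le_add (Case33a_lin_deg v w) (Case33a_lin_deg a z))
        have h2 := n1_lin_mul M v w (lin v w * lin a z) hdd
        have h3 := n1_lin_mul M v w (lin a z) ((Case33a_lin_deg a z).trans (by norm_num))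
        have h4 := Case33a_lin_pos M hM a z ha
        have h5 : lin v w * (lin v w * lin a z) = g.coeff 3 := by rw [hL]; ring
        rw [h5] at h2
        have h6 : n1 M (lin v w) ≤ 3 * n1 M (lin v w * lin a z) :=
          (Nat.le_mul_of_pos_right _ h4).trans h3
        calc n1 M (lin v w) ^ 2 = n1 M (lin v w) * n1 M (lin v w) := pow_two _
          _ ≤ n1 M (lin v w) * (3 * n1 M (lin v w * lin a z)) := Nat.mul_le_mul_left _ h6
          _ = 3 * (n1 M (lin v w) * n1 M (lin v w * lin a z)) := by ring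
          _ ≤ 3 * (3 * n1 M (g.coeff 3)) := Nat.mul_le_mul_left _ h2
          _ = 9 * n1 M (g.coeff 3) := by ring

end Pool.Agent.Helper20.H3
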