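import Mathlib
import Pool.Agent.Helper20.H3.Degree

set_option autoImplicit false

namespace Pool.Agent.Helper20.H3

open Polynomial

/-- the vector of coefficients of a multiple of `G` -/
noncomputable def GainB_map {q : ℕ} (G : P2 (ZMod q)) (n1 n2 : ℕ) :
    (Fin n1 × Fin n2 → ZMod q) →ₗ[ZMod q] (Fin 4 × Fin 4 → ZMod q) where
  toFun u := fun e => cf (G * toP n1 n2 u) e.1 e.2
  map_add' u v := by
    ext e
    simp only [Pi.add_apply]
    rw [toP_add, mul_add, cf_add]
  map_smul' c u := by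
    ext e
    simp only [Pi.smul_apply, smul_eq_mul, RingHom.id_apply]
    rw [toP_smul, ← cf_CC_mul]
    congr 1
    ring

theorem GainB_cf_inj {R : Type*} [CommRing R] {f g : P2 R} (hf : SB 4 4 f) (hg : SB 4 4 g)
    (h : (fun e : Fin 4 × Fin 4 => cf f e.1 e.2) = fun e : Fin 4 × Fin 4 => cf g e.1 e.2) :
    f = g := by
  rw [← toP_cf hf, ← toP_cf hg, h]

theorem GainB_map_inj {q : ℕ} [Fact q.Prime] {G : P2 (ZMod q)} (hG : G ≠ 0) {n1 n2 : ℕ}
    (hs : ∀ u : Fin n1 × Fin n2 → ZMod q, SB 4 4 (G * toP n1 n2 u)) :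
    Function.Injective (GainB_map G n1 n2) := by
  intro u v h
  have h1 : G * toP n1 n2 u = G * toP n1 n2 v := GainB_cf_inj (hs u) (hs v) h
  exact toP_injective n1 n2 (mul_left_cancel₀ hG h1)

theorem GainB_finrank_range {q : ℕ} [Fact q.Prime] {G : P2 (ZMod q)} (hG : G ≠ 0) {n1 n2 : ℕ}
    (hs : ∀ u : Fin n1 × Fin n2 → ZMod q, SB 4 4 (G * toP n1 n2 u)) :
    Module.finrank (ZMod q) (LinearMap.range (GainB_map G n1 n2)) = n1 * n2 := by
  rw [LinearMap.finrank_range_of_inj (GainB_map_inj hG hs)]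
  simp

/-- multiples of powers of the hyperbola are in `Lift` -/
theorem GainB_range_le {p : ℕ} {A B C' : ℤ} {M : ℕ} {S : Finset (ℤ × ℤ)}
    (h : Conf p A B C' M S) (k n : ℕ) (hn : n + k = 4) :
    LinearMap.range (GainB_map (FF (A : ZMod p) (B : ZMod p) (C' : ZMod p) ^ k) n n) ≤
      Lift p S 4 k := by
  have : NeZero p := ⟨h.hp.ne_zero⟩
  rintro _ ⟨u, rfl⟩
  obtain ⟨h0, hs, hr⟩ := exists_lift p (SB_toP n n u)
  have hS : SB 4 4 (FF A B C' ^ k * h0) := by
    by_cases hn0 : n = 0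
    · subst hn0
      intro i j hc
      exfalso
      apply hc
      have : h0 = 0 := by
        apply cf_ext
        intro i j
        rw [hs.zero_of (by omega), cf_zero]
      rw [this, mul_zero, cf_zero]
    · exact ((SB_FF_pow A B C' k).mul hs).mono (by omega) (by omega)
  have key := mem_Lift (q := p) (S := S) (n := 4) (k := k) hS (by
    intro P hP
    rw [evalEval_mul, evalEval_pow, ev_FF]
    exact Dvd.dvd.mul_right (pow_dvd_pow_of_dvd (h.hmod P hP) k) _)
  have e : (fun e : Fin 4 × Fin 4 => cf (red p (FF A B C' ^ k * h0)) e.1 e.2) =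
      GainB_map (FF (A : ZMod p) (B : ZMod p) (C' : ZMod p) ^ k) n n u := by
    funext e
    show _ = cf (FF (A : ZMod p) (B : ZMod p) (C' : ZMod p) ^ k * toP n n u) e.1 e.2
    rw [map_mul, map_pow, red_FF, hr]
  rw [← e]
  exact key

/-- the gain in the exceptional case of bidegree `(3,3)` -/
theorem gainB {p : ℕ} {A B C' : ℤ} {M : ℕ} {S : Finset (ℤ × ℤ)} (h : Conf p A B C' M S)
    (g u1 u2 : P2 ℤ) (c : ℤ)
    (hg : g = C (C c) * FF A B C' ^ 3 + C (C (p : ℤ)) * FF A B C' * u1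
      + C (C ((p : ℤ) ^ 2)) * u2) (hc : ¬ (p : ℤ) ∣ c) (h1 : SB 3 3 u1) (h2 : SB 4 4 u2)
    (hnd : ¬ FF (A : ZMod p) (B : ZMod p) (C' : ZMod p) ∣ red p u1)
    (hz : ∀ P ∈ S, evalEval P.1 P.2 g = 0) :
    9 ≤ Module.finrank (ZMod p) (Lift p S 4 1) ∧ 5 ≤ Module.finrank (ZMod p) (Lift p S 4 2) ∧
      ∀ k, 1 ≤ Module.finrank (ZMod p) (Lift p S 4 k) := by
  have : Fact p.Prime := ⟨h.hp⟩
  have : NeZero p := ⟨h.hp.ne_zero⟩
  have hp0 : (p : ℤ) ≠ 0 := by exact_mod_cast h.hp.ne_zero
  have hF : Prime (FF (A : ZMod p) (B : ZMod p) (C' : ZMod p)) := by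
    apply FF_prime
    intro h0
    apply h.hlam
    rw [← ZMod.intCast_zmod_eq_zero_iff_dvd]
    push_cast
    exact h0
  have hF0 := hF.ne_zero
  refine ⟨?_, ?_, ?_⟩
  · -- level 1
    have hs : ∀ u : Fin 3 × Fin 3 → ZMod p,
        SB 4 4 (FF (A : ZMod p) (B : ZMod p) (C' : ZMod p) ^ 1 * toP 3 3 u) := fun u =>
      ((SB_FF_pow _ _ _ 1).mul (SB_toP 3 3 u)).mono (by omega) (by omega)
    have e := GainB_finrank_range (pow_ne_zero 1 hF0) hs
    have := Submodule.finrank_mono (GainB_range_le h 1 3 rfl)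
    omega
  · -- level 2
    have hs : ∀ u : Fin 2 × Fin 2 → ZMod p,
        SB 4 4 (FF (A : ZMod p) (B : ZMod p) (C' : ZMod p) ^ 2 * toP 2 2 u) := fun u =>
      ((SB_FF_pow _ _ _ 2).mul (SB_toP 2 2 u)).mono (by omega) (by omega)
    have e := GainB_finrank_range (pow_ne_zero 2 hF0) hs
    set W := LinearMap.range (GainB_map (FF (A : ZMod p) (B : ZMod p) (C' : ZMod p) ^ 2) 2 2)
      with hW
    have hS1 : SB 4 4 (FF A B C' * u1 + C (C (p : ℤ)) * u2) :=
      (((SB_FF A B C').mul h1).mono (by omega) (by omega)).add (h2.CC_mul _)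
    have hmem := mem_Lift (q := p) (S := S) (n := 4) (k := 2) hS1 (by
      intro P hP
      have h3 := hz P hP
      obtain ⟨t, ht⟩ := h.hmod P hP
      rw [hg] at h3
      simp only [evalEval_add, evalEval_mul, evalEval_pow, ev_FF, ht, evalEval_C, eval_C] at h3 ⊢
      refine ⟨-(c * t ^ 3), ?_⟩
      apply mul_left_cancel₀ hp0
      linear_combination h3)
    set v : Fin 4 × Fin 4 → ZMod p :=
      fun e => cf (red p (FF A B C' * u1 + C (C (p : ℤ)) * u2)) e.1 e.2 with hv
    have hred : red p (FF A B C' * u1 + C (C (p : ℤ)) * u2) =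
        FF (A : ZMod p) (B : ZMod p) (C' : ZMod p) * red p u1 := by
      rw [map_add, map_mul, map_mul, red_FF, red_CC]
      simp
    have hvW : v ∉ W := by
      rintro ⟨u, hu⟩
      apply hnd
      have h4 : FF (A : ZMod p) (B : ZMod p) (C' : ZMod p) ^ 2 * toP 2 2 u =
          red p (FF A B C' * u1 + C (C (p : ℤ)) * u2) :=
        GainB_cf_inj (hs u) (hS1.red p) hu
      rw [hred, pow_two, mul_assoc] at h4
      exact ⟨toP 2 2 u, (mul_left_cancel₀ hF0 h4).symm⟩
    have hlt : W < W ⊔ Submodule.span (ZMod p) {v} := by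
      rw [left_lt_sup]
      intro hle
      exact hvW (hle (Submodule.mem_span_singleton_self v))
    have hle : W ⊔ Submodule.span (ZMod p) {v} ≤ Lift p S 4 2 := by
      refine sup_le (GainB_range_le h 2 2 rfl) ?_
      rw [Submodule.span_singleton_le_iff_mem]
      exact hmem
    have h5 := Submodule.finrank_lt_finrank_of_lt hlt
    have h6 := Submodule.finrank_mono hle
    omega
  · -- all levels
    intro k
    have hSg : SB 4 4 g := by
      rw [hg, mul_assoc]
      refine ((SB.CC_mul _ (SB_FF_pow A B C' 3)).add (SB.CC_mul _ ?_)).add (h2.CC_mul _)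
      exact ((SB_FF A B C').mul h1).mono (by omega) (by omega)
    have hmem := mem_Lift (q := p) (S := S) (n := 4) (k := k) hSg (by
      intro P hP
      rw [hz P hP]
      exact dvd_zero _)
    have hred : red p g = C (C (c : ZMod p)) *
        FF (A : ZMod p) (B : ZMod p) (C' : ZMod p) ^ 3 := by
      rw [hg]
      simp only [map_add, map_mul, map_pow, red_FF, red_CC]
      simp
    have hc0 : (c : ZMod p) ≠ 0 := by
      intro h0
      exact hc ((ZMod.intCast_zmod_eq_zero_iff_dvd _ _).mp h0)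
    have hne : red p g ≠ 0 := by
      rw [hred]
      refine mul_ne_zero ?_ (pow_ne_zero 3 hF0)
      rw [Ne, C_eq_zero, C_eq_zero]
      exact hc0
    have hne' : (fun e : Fin 4 × Fin 4 => cf (red p g) e.1 e.2) ≠ 0 := by
      intro h0
      apply hne
      apply GainB_cf_inj (hSg.red p) (SB_zero 4 4)
      rw [h0]
      funext e
      simp
    rw [Nat.one_le_iff_ne_zero, Ne, Submodule.finrank_eq_zero]
    intro hbot
    rw [hbot, Submodule.mem_bot] at hmem
    exact hne' hmem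

end Pool.Agent.Helper20.H3
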