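import Mathlib
import Pool.Agent.Helper20.H3.CurveX
import Pool.Agent.Helper20.H3.GainB
import Pool.Agent.Helper20.H3.Order
import Pool.Agent.Helper20.H3.Lead
import Pool.Agent.Helper20.H3.Cubic
import Pool.Agent.Helper20.H3.OSL
import Pool.Agent.Helper20.H3.Root
import Pool.Agent.Helper20.H3.Pow

set_option autoImplicit false

namespace Pool.Agent.Helper20.H3

open Polynomial

theorem Case33b_red {p : ℕ} {A B C' c : ℤ} {g u1 u2 : P2 ℤ}
    (hg : g = C (C c) * FF A B C' ^ 3 + C (C (p : ℤ)) * FF A B C' * u1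
      + C (C ((p : ℤ) ^ 2)) * u2) :
    red p g = FF (A : ZMod p) (B : ZMod p) (C' : ZMod p) ^ 3 * C (C (c : ZMod p)) := by
  have h1 : red p (C (C (p : ℤ))) = 0 := by
    rw [red_CC]
    simp
  have h2 : red p (C (C ((p : ℤ) ^ 2))) = 0 := by
    rw [red_CC]
    simp
  rw [hg, map_add, map_add, map_mul, map_mul, map_mul, map_mul, map_pow, red_FF, red_CC, h1, h2]
  ring

theorem Case33b_deg {p : ℕ} [Fact p.Prime] {B c : ℤ} {g : P2 ℤ} (hgb : SB 4 4 g)
    (hpc : ¬ (p : ℤ) ∣ c)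
    (h : (g.coeff 3).map (Int.castRingHom (ZMod p)) = C (c : ZMod p) * (X + C (B : ZMod p)) ^ 3) :
    (g.coeff 3).natDegree = 3 := by
  apply le_antisymm
  · rw [natDegree_le_iff_coeff_eq_zero]
    intro i hi
    exact hgb.zero_of (i := i) (j := 3) (by omega)
  · apply le_natDegree_of_ne_zero
    intro h0
    apply hpc
    have h1 := congrArg (fun q => q.coeff 3) h
    simp only [coeff_map, coeff_C_mul] at h1
    rw [h0, coeff_X_add_C_pow] at h1
    rw [← ZMod.intCast_zmod_eq_zero_iff_dvd]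
    simpa using h1.symm

/-- size of a product of three linear forms -/
theorem Case33b_prod (M : ℕ) (v u w z : ℤ) (hw : w ≠ 0) :
    n1 M (lin v u) ^ 2 * M ≤ 9 * n1 M (lin v u ^ 2 * lin w z) := by
  have hdeg : ∀ a b : ℤ, (lin a b).natDegree ≤ 1 := by
    intro a b
    unfold lin
    refine (natDegree_sub_le _ _).trans ?_
    rw [natDegree_C, max_eq_left (Nat.zero_le _)]
    exact (natDegree_C_mul_le _ _).trans natDegree_X_le
  have hR : M ≤ n1 M (lin w z) := by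
    rw [n1_lin]
    refine le_trans ?_ (le_max_left _ _)
    have : 1 ≤ w.natAbs := Int.natAbs_pos.mpr hw
    nlinarith
  have h1 := n1_lin_mul M v u (lin w z) ((hdeg w z).trans (by norm_num))
  have h2 := n1_lin_mul M v u (lin v u * lin w z)
    (natDegree_mul_le.trans ((add_le_add (hdeg v u) (hdeg w z)).trans (by norm_num)))
  have h3 : lin v u ^ 2 * lin w z = lin v u * (lin v u * lin w z) := by ring
  rw [h3]
  calc n1 M (lin v u) ^ 2 * M ≤ n1 M (lin v u) ^ 2 * n1 M (lin w z) :=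
        Nat.mul_le_mul_left _ hR
    _ = n1 M (lin v u) * (n1 M (lin v u) * n1 M (lin w z)) := by ring
    _ ≤ n1 M (lin v u) * (3 * n1 M (lin v u * lin w z)) := Nat.mul_le_mul_left _ h1
    _ = 3 * (n1 M (lin v u) * n1 M (lin v u * lin w z)) := by ring
    _ ≤ 3 * (3 * n1 M (lin v u * (lin v u * lin w z))) := Nat.mul_le_mul_left _ h2
    _ = 9 * n1 M (lin v u * (lin v u * lin w z)) := by ring

/-- bidegree `(3,3)`, the exceptional third order case -/
theorem case33_B : ∃ C0 : ℕ, 1 ≤ C0 ∧ ∀ (p : ℕ) (A B C' : ℤ) (M : ℕ) (S : Finset (ℤ × ℤ)),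
      Conf p A B C' M S → 1 ≤ M → C0 * M ^ 24 ≤ p ^ 7 → ∀ g : P2 ℤ, Irreducible g → SB 4 4 g →
      (∃ j, cf g 3 j ≠ 0) → (∃ i, cf g i 3 ≠ 0) → (∀ P ∈ S, evalEval P.1 P.2 g = 0) →
      ∀ (c : ℤ) (u1 u2 : P2 ℤ), ¬ (p : ℤ) ∣ c →
      g = C (C c) * FF A B C' ^ 3 + C (C (p : ℤ)) * FF A B C' * u1 + C (C ((p : ℤ) ^ 2)) * u2 →
      SB 3 3 u1 → SB 4 4 u2 → ¬ FF (A : ZMod p) (B : ZMod p) (C' : ZMod p) ∣ red p u1 →
      Good S := by
  obtain ⟨C1, hC1, hB⟩ := curveB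
  obtain ⟨D1, hD1, h1⟩ := powcmp (54 * C1 ^ 4) 51 174 (by norm_num) (by norm_num)
  obtain ⟨D2, hD2, h2⟩ := powcmp (1296 * C1) 14 48 (by norm_num) (by norm_num)
  refine ⟨D1 + D2, by omega, ?_⟩
  intro p A B C' M S hc hM hpM g hg hgb hja hib hz c u1 u2 hpc hge hu1 hu2 hnd
  have hp := hc.hp
  have : Fact p.Prime := ⟨hp⟩
  have hpM1 : D1 * M ^ 24 ≤ p ^ 7 :=
    (Nat.mul_le_mul_right _ (Nat.le_add_right D1 D2)).trans hpM
  have hpM2 : D2 * M ^ 24 ≤ p ^ 7 :=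
    (Nat.mul_le_mul_right _ (Nat.le_add_left D2 D1)).trans hpM
  have k1 := h1 p M hM hpM1
  have k2 := h2 p M hM hpM2
  obtain ⟨g1, g2, g3⟩ := gainB hc g u1 u2 c hge hpc hu1 hu2 hnd hz
  have key : C1 * M ^ 48 < tn M g * p ^ 12 → Good S := fun h =>
    Or.inl (hB p A B C' M S hc hM g hg hgb hja hib hz g1 g2 g3 h)
  have hL := (lead_red g 3 3 3 (C (C (c : ZMod p))) hgb le_rfl le_rfl (Case33b_red hge)).1
  rw [Nat.sub_self, coeff_C_zero, mul_comm] at hL
  have hdeg := Case33b_deg hgb hpc hL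
  have htn := n1_le_tn M g (b := 3) (by norm_num)
  obtain ⟨t0, t1, t2⟩ := leadB g u1 u2 c hge hu1
  rcases cubic_sq_or (g.coeff 3) hdeg with hd | ⟨v, u, w, z, hv, hw, hvu, hLe⟩
  · -- nonzero discriminant
    have h3 := disc3_JB p B (g.coeff 3) hdeg t0 t1 t2
    have h4 : p ^ 3 ≤ (disc3 (g.coeff 3)).natAbs := by
      apply Nat.le_of_dvd (Int.natAbs_pos.mpr hd)
      have := Int.natAbs_dvd_natAbs.mpr h3
      rwa [Int.natAbs_pow, Int.natAbs_natCast] at this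
    have h5 := disc3_le M (g.coeff 3)
    apply key
    set N := n1 M (g.coeff 3) with hN
    have h6 : p ^ 3 * M ^ 6 ≤ 54 * N ^ 4 := (Nat.mul_le_mul_right _ h4).trans h5
    have h7 : p ^ 3 * M ^ 18 ≤ 54 * tn M g ^ 4 := by
      calc p ^ 3 * M ^ 18 = M ^ 12 * (p ^ 3 * M ^ 6) := by ring
        _ ≤ M ^ 12 * (54 * N ^ 4) := Nat.mul_le_mul_left _ h6
        _ = 54 * (M ^ 3 * N) ^ 4 := by ring
        _ ≤ 54 * tn M g ^ 4 := Nat.mul_le_mul_left _ (Nat.pow_le_pow_left htn 4)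
    have h8 : 54 * (C1 * M ^ 48) ^ 4 < 54 * (tn M g * p ^ 12) ^ 4 := by
      calc 54 * (C1 * M ^ 48) ^ 4 = M ^ 18 * (54 * C1 ^ 4 * M ^ 174) := by ring
        _ < M ^ 18 * p ^ 51 := Nat.mul_lt_mul_of_pos_left k1 (by positivity)
        _ = p ^ 48 * (p ^ 3 * M ^ 18) := by ring
        _ ≤ p ^ 48 * (54 * tn M g ^ 4) := Nat.mul_le_mul_left _ h7
        _ = 54 * (tn M g * p ^ 12) ^ 4 := by ring
    exact lt_of_pow_lt_pow_left₀ 4 (Nat.zero_le _) (Nat.lt_of_mul_lt_mul_left h8)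
  · -- a double factor
    obtain ⟨hr1, -⟩ := root_of_cube p hp B v u w z c hvu (g.coeff 3) hLe hpc hL
    by_cases hs : 12 * M ^ 2 * n1 M (lin v u) < p
    · exact osl hc hM v u hv hr1 hs
    · rw [not_lt] at hs
      apply key
      have h3 := Case33b_prod M v u w z hw
      rw [← hLe] at h3
      set N := n1 M (g.coeff 3) with hN
      set Q := n1 M (lin v u) with hQ
      have h4 : M * p ^ 2 ≤ M * (1296 * tn M g) := by
        calc M * p ^ 2 ≤ M * (12 * M ^ 2 * Q) ^ 2 :=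
              Nat.mul_le_mul_left _ (Nat.pow_le_pow_left hs 2)
          _ = 144 * M ^ 4 * (Q ^ 2 * M) := by ring
          _ ≤ 144 * M ^ 4 * (9 * N) := Nat.mul_le_mul_left _ h3
          _ = M * (1296 * (M ^ 3 * N)) := by ring
          _ ≤ M * (1296 * tn M g) := Nat.mul_le_mul_left _ (Nat.mul_le_mul_left _ htn)
      have h5 : p ^ 2 ≤ 1296 * tn M g := Nat.le_of_mul_le_mul_left h4 (by omega)
      have h6 : 1296 * (C1 * M ^ 48) < 1296 * (tn M g * p ^ 12) := by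
        calc 1296 * (C1 * M ^ 48) = 1296 * C1 * M ^ 48 := by ring
          _ < p ^ 14 := k2
          _ = p ^ 2 * p ^ 12 := by ring
          _ ≤ 1296 * tn M g * p ^ 12 := Nat.mul_le_mul_right _ h5
          _ = 1296 * (tn M g * p ^ 12) := by ring
      exact Nat.lt_of_mul_lt_mul_left h6

end Pool.Agent.Helper20.H3
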