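import Mathlib
import Pool.Agent.Helper20.H3.CurveX
import Pool.Agent.Helper20.H3.Order
import Pool.Agent.Helper20.H3.Lead
import Pool.Agent.Helper20.H3.Cubic
import Pool.Agent.Helper20.H3.Two
import Pool.Agent.Helper20.H3.Root
import Pool.Agent.Helper20.H3.Corner
import Pool.Agent.Helper20.H3.Pow

set_option autoImplicit false

namespace Pool.Agent.Helper20.H3

open Polynomial

theorem Case33c_natDegree_lin (v u : ℤ) : (lin v u).natDegree ≤ 1 := by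
  unfold lin
  refine (natDegree_sub_le _ _).trans ?_
  rw [natDegree_C]
  exact max_le ((natDegree_C_mul_le _ _).trans natDegree_X_le) (by omega)

theorem Case33c_sq (M : ℕ) (v u w z : ℤ) :
    n1 M (lin v u) ^ 2 * n1 M (lin w z) ≤ 9 * n1 M (lin v u ^ 2 * lin w z) := by
  have h1 := n1_lin_mul M v u (lin w z) ((Case33c_natDegree_lin w z).trans (by norm_num))
  have h2 := n1_lin_mul M v u (lin v u * lin w z) (natDegree_mul_le.trans
    (Nat.add_le_add (Case33c_natDegree_lin v u) (Case33c_natDegree_lin w z)))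
  have e : lin v u ^ 2 * lin w z = lin v u * (lin v u * lin w z) := by ring
  rw [e]
  calc n1 M (lin v u) ^ 2 * n1 M (lin w z)
      = n1 M (lin v u) * (n1 M (lin v u) * n1 M (lin w z)) := by ring
    _ ≤ n1 M (lin v u) * (3 * n1 M (lin v u * lin w z)) := Nat.mul_le_mul_left _ h1
    _ = 3 * (n1 M (lin v u) * n1 M (lin v u * lin w z)) := by ring
    _ ≤ 3 * (3 * n1 M (lin v u * (lin v u * lin w z))) := Nat.mul_le_mul_left _ h2
    _ = _ := by ring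

theorem Case33c_cube (M : ℕ) (c v u : ℤ) :
    c.natAbs * n1 M (lin v u) ^ 3 ≤ 9 * n1 M (C c * lin v u ^ 3) := by
  rw [n1_C_mul]
  have h := Case33c_sq M v u v u
  have e : lin v u ^ 3 = lin v u ^ 2 * lin v u := by ring
  rw [e]
  calc c.natAbs * n1 M (lin v u) ^ 3
      = c.natAbs * (n1 M (lin v u) ^ 2 * n1 M (lin v u)) := by ring
    _ ≤ c.natAbs * (9 * n1 M (lin v u ^ 2 * lin v u)) := Nat.mul_le_mul_left _ h
    _ = _ := by ring

theorem Case33c_vM (M : ℕ) (v u : ℤ) : v.natAbs * M ≤ n1 M (lin v u) := by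
  rw [n1_lin]
  exact le_max_left _ _

theorem Case33c_tn (M : ℕ) (g : P2 ℤ) : M ^ 3 * n1 M (g.coeff 3) ≤ tn M g :=
  n1_le_tn M g (by norm_num)

theorem Case33c_tn' (M : ℕ) (g : P2 ℤ) : M ^ 3 * n1 M ((sw g).coeff 3) ≤ tn M g := by
  rw [← tn_sw]
  exact n1_le_tn M (sw g) (by norm_num)

/-- the lead of a square times a linear form -/
theorem Case33c_high {M p : ℕ} {g : P2 ℤ} {v u w z : ℤ}
    (hg : g.coeff 3 = lin v u ^ 2 * lin w z)
    (h : p * M ≤ 2 * n1 M (lin v u) * n1 M (lin w z)) :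
    M ^ 4 * p * n1 M (lin v u) ≤ 18 * tn M g := by
  have h1 := Case33c_sq M v u w z
  rw [← hg] at h1
  have h2 := Case33c_tn M g
  calc M ^ 4 * p * n1 M (lin v u) = M ^ 3 * n1 M (lin v u) * (p * M) := by ring
    _ ≤ M ^ 3 * n1 M (lin v u) * (2 * n1 M (lin v u) * n1 M (lin w z)) :=
        Nat.mul_le_mul_left _ h
    _ = 2 * M ^ 3 * (n1 M (lin v u) ^ 2 * n1 M (lin w z)) := by ring
    _ ≤ 2 * M ^ 3 * (9 * n1 M (g.coeff 3)) := Nat.mul_le_mul_left _ h1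
    _ = 18 * (M ^ 3 * n1 M (g.coeff 3)) := by ring
    _ ≤ 18 * tn M g := Nat.mul_le_mul_left _ h2

/-- if the two sided argument does not apply -/
theorem Case33c_sided {p : ℕ} {A B C' : ℤ} {M : ℕ} {S : Finset (ℤ × ℤ)} (h : Conf p A B C' M S)
    (hM : 1 ≤ M) (v u v' u' d v1 v1' : ℤ) (hv : v ≠ 0) (hv' : v' ≠ 0) (hvu : IsCoprime v u)
    (hr : (p : ℤ) ∣ v * B + u) (hr' : (p : ℤ) ∣ v' * A + u') (hd : 0 < d) (h1 : v = d * v1)
    (h1' : v' = d * v1') (hG : ¬ Good S) :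
    p ≤ 4 * (v1.natAbs * M * n1 M (lin v' u') + v1'.natAbs * M * n1 M (lin v u)) := by
  by_contra hc
  apply hG
  refine two_sided h hM v u v' u' d hv hv' hvu hr hr' hd ⟨v1, h1⟩ ⟨v1', h1'⟩ ?_
  rw [not_le] at hc
  have hc' : 4 * ((v1.natAbs : ℤ) * M * n1 M (lin v' u') + (v1'.natAbs : ℤ) * M *
      n1 M (lin v u)) < p := by exact_mod_cast hc
  have a1 : |v| = d * (v1.natAbs : ℤ) := by
    rw [h1, abs_mul, abs_of_pos hd, Int.natCast_natAbs]
  have a2 : |v'| = d * (v1'.natAbs : ℤ) := by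
    rw [h1', abs_mul, abs_of_pos hd, Int.natCast_natAbs]
  rw [a1, a2]
  calc 4 * (M : ℤ) * (d * (v1.natAbs : ℤ) * n1 M (lin v' u')
        + d * (v1'.natAbs : ℤ) * n1 M (lin v u))
      = 4 * ((v1.natAbs : ℤ) * M * n1 M (lin v' u') + (v1'.natAbs : ℤ) * M *
        n1 M (lin v u)) * d := by ring
    _ < p * d := mul_lt_mul_of_pos_right hc' hd

theorem Case33c_max {p a b k : ℕ} (h : p ≤ 4 * (a + b)) (ha : a ^ 3 ≤ k) (hb : b ^ 3 ≤ k) :
    p ^ 3 ≤ 512 * k := by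
  rcases le_total a b with hab | hab
  · calc p ^ 3 ≤ (8 * b) ^ 3 := Nat.pow_le_pow_left (by omega) 3
      _ = 512 * b ^ 3 := by ring
      _ ≤ 512 * k := Nat.mul_le_mul_left _ hb
  · calc p ^ 3 ≤ (8 * a) ^ 3 := Nat.pow_le_pow_left (by omega) 3
      _ = 512 * a ^ 3 := by ring
      _ ≤ 512 * k := Nat.mul_le_mul_left _ ha

theorem Case33c_coeff (v u w z : ℤ) : (lin v u ^ 2 * lin w z).coeff 3 = v ^ 2 * w := by
  rw [Cubic_lin]
  exact (Cubic_coeffs _ _ _ _).1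

theorem Case33c_coeffC (c v u : ℤ) : (C c * lin v u ^ 3).coeff 3 = c * v ^ 3 := by
  rw [coeff_C_mul, show lin v u ^ 3 = lin v u ^ 2 * lin v u by ring, Case33c_coeff]
  ring

theorem Case33c_corner (g : P2 ℤ) : (g.coeff 3).coeff 3 = ((sw g).coeff 3).coeff 3 :=
  (cf_sw g 3 3).symm

/-- the leading coefficient in the third order case: either the curve is high, or it has a
repeated rational root -/
theorem lead_three : ∃ C0 : ℕ, 1 ≤ C0 ∧ ∀ (p : ℕ) (A B C' : ℤ) (M : ℕ) (S : Finset (ℤ × ℤ)),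
      Conf p A B C' M S → 1 ≤ M → C0 * M ^ 24 ≤ p ^ 7 → ∀ g : P2 ℤ, Irreducible g → SB 4 4 g →
      (∃ j, cf g 3 j ≠ 0) → (∃ i, cf g i 3 ≠ 0) → (∀ P ∈ S, evalEval P.1 P.2 g = 0) →
      ∀ (c : ℤ) (u1 u2 u3 : P2 ℤ), ¬ (p : ℤ) ∣ c →
      g = C (C c) * FF A B C' ^ 3 + C (C (p : ℤ)) * FF A B C' ^ 2 * u1
        + C (C ((p : ℤ) ^ 2)) * FF A B C' * u2 + C (C ((p : ℤ) ^ 3)) * u3 →
      SB 2 2 u1 → SB 3 3 u2 → SB 4 4 u3 →
      Good S ∨ ∃ v u w z : ℤ, v ≠ 0 ∧ w ≠ 0 ∧ IsCoprime v u ∧ (p : ℤ) ∣ v * B + u ∧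
        g.coeff 3 = lin v u ^ 2 * lin w z ∧
        (p * M ≤ 2 * n1 M (lin v u) * n1 M (lin w z) ∨ ∃ e : ℤ, w = e * v ∧ z = e * u) := by
  obtain ⟨C1, hC1, hcurve⟩ := curvex 3 3 3 le_rfl le_rfl
  obtain ⟨C0, hC0, hpow⟩ := powcmp (54 ^ 9 * C1) 95 306 (by norm_num) (by norm_num)
  refine ⟨C0, hC0, ?_⟩
  intro p A B C' M S h hM hp7 g hg hgb hj hi hz c u1 u2 u3 hc hgeq h1 h2 h3
  have : Fact p.Prime := ⟨h.hp⟩
  have hc0 : (c : ZMod p) ≠ 0 := fun h0 => hc ((ZMod.intCast_zmod_eq_zero_iff_dvd _ _).1 h0)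
  have hpp0 : (p : ZMod p) = 0 := ZMod.natCast_self p
  have hred : red p g = FF (A : ZMod p) (B : ZMod p) (C' : ZMod p) ^ 3 * C (C (c : ZMod p)) := by
    rw [hgeq]
    simp only [map_add, map_mul, map_pow, red_FF, red_CC]
    have e1 : ((p : ℤ) : ZMod p) = 0 := by simp
    simp only [e1, map_zero]
    ring
  have hunit : IsUnit (C (C (c : ZMod p)) : P2 (ZMod p)) :=
    (isUnit_C.2 (isUnit_C.2 (isUnit_iff_ne_zero.2 hc0)))
  have hndvd : ¬ FF (A : ZMod p) (B : ZMod p) (C' : ZMod p) ∣ C (C (c : ZMod p)) :=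
    fun hd => (Order_prime h).not_isUnit (isUnit_of_dvd_unit hd hunit)
  have hlead := lead_red g 3 3 3 (C (C (c : ZMod p))) hgb le_rfl le_rfl hred
  have hmap : (g.coeff 3).map (Int.castRingHom (ZMod p)) =
      C (c : ZMod p) * (X + C (B : ZMod p)) ^ 3 := by
    rw [hlead.1, Nat.sub_self, coeff_C_zero, mul_comm]
  have hdeg : (g.coeff 3).natDegree = 3 := by
    apply le_antisymm
    · rw [natDegree_le_iff_coeff_eq_zero]
      intro N hN
      by_contra hne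
      have := (hgb N 3 hne).1
      omega
    · have e1 : (C (c : ZMod p) * (X + C (B : ZMod p)) ^ 3).natDegree = 3 := by
        rw [natDegree_C_mul hc0, natDegree_pow, natDegree_X_add_C]
      have e2 : ((g.coeff 3).map (Int.castRingHom (ZMod p))).natDegree ≤ (g.coeff 3).natDegree :=
        natDegree_map_le
      rw [hmap, e1] at e2
      exact e2
  by_cases hdisc : disc3 (g.coeff 3) = 0
  · right
    rcases cubic_sq_or (g.coeff 3) hdeg with hne | ⟨v, u, w, z, hv, hw, hvu, hL⟩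
    · exact absurd hdisc hne
    · obtain ⟨r1, r2⟩ := root_of_cube p h.hp B v u w z c hvu (g.coeff 3) hL hc hmap
      refine ⟨v, u, w, z, hv, hw, hvu, r1, hL, ?_⟩
      exact res_lin p M h.hp B v u w z hv hvu r1 r2
  · left
    left
    have hJ := lead3 g u1 u2 u3 c hgeq h1 h2
    have hdvd := disc3_J3 p B (g.coeff 3) hdeg hJ
    have hle : p ^ 6 ≤ (disc3 (g.coeff 3)).natAbs := by
      have h4 : ((p ^ 6 : ℕ) : ℤ) ∣ disc3 (g.coeff 3) := by
        push_cast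
        exact hdvd
      exact Nat.le_of_dvd (Int.natAbs_pos.2 hdisc) (Int.natCast_dvd.1 h4)
    have h5 : p ^ 6 * M ^ 6 ≤ 54 * n1 M (g.coeff 3) ^ 4 :=
      (Nat.mul_le_mul_right _ hle).trans (disc3_le M (g.coeff 3))
    have h6 : M ^ 18 * p ^ 6 ≤ 54 * tn M g ^ 4 := by
      calc M ^ 18 * p ^ 6 = M ^ 12 * (p ^ 6 * M ^ 6) := by ring
        _ ≤ M ^ 12 * (54 * n1 M (g.coeff 3) ^ 4) := Nat.mul_le_mul_left _ h5
        _ = 54 * (M ^ 3 * n1 M (g.coeff 3)) ^ 4 := by ring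
        _ ≤ 54 * tn M g ^ 4 :=
          Nat.mul_le_mul_left _ (Nat.pow_le_pow_left (Case33c_tn M g) 4)
    refine hcurve p A B C' M S h hM g hg hgb hj hi hz ⟨_, hred, hndvd⟩ ?_
    rw [WW_val.2.2.2.1, gv_val.2.2.2.2.2.2]
    have h7 := hpow p M hM hp7
    have hM0 : 0 < M := hM
    have h8 : 54 ^ 9 * (C1 * M ^ 468) < 54 ^ 9 * (tn M g ^ 36 * p ^ 41) := by
      calc 54 ^ 9 * (C1 * M ^ 468) = 54 ^ 9 * C1 * M ^ 306 * M ^ 162 := by ring
        _ < p ^ 95 * M ^ 162 := Nat.mul_lt_mul_of_pos_right h7 (pow_pos hM0 _)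
        _ = (M ^ 18 * p ^ 6) ^ 9 * p ^ 41 := by ring
        _ ≤ (54 * tn M g ^ 4) ^ 9 * p ^ 41 :=
          Nat.mul_le_mul_right _ (Nat.pow_le_pow_left h6 9)
        _ = 54 ^ 9 * (tn M g ^ 36 * p ^ 41) := by ring
    exact lt_of_mul_lt_mul_left h8 (Nat.zero_le _)

/-- both leading coefficients are of the form `q^2 r` with `q`, `r` not proportional -/
theorem two_RR : ∃ C0 : ℕ, 1 ≤ C0 ∧ ∀ (p : ℕ) (A B C' : ℤ) (M : ℕ) (S : Finset (ℤ × ℤ)),
      Conf p A B C' M S → 1 ≤ M → C0 * M ^ 24 ≤ p ^ 7 → ∀ g : P2 ℤ, ∀ v u w z v' u' w' z' : ℤ,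
      v ≠ 0 → v' ≠ 0 → IsCoprime v u → (p : ℤ) ∣ v * B + u → (p : ℤ) ∣ v' * A + u' →
      g.coeff 3 = lin v u ^ 2 * lin w z → (sw g).coeff 3 = lin v' u' ^ 2 * lin w' z' →
      p * M ≤ 2 * n1 M (lin v u) * n1 M (lin w z) →
      p * M ≤ 2 * n1 M (lin v' u') * n1 M (lin w' z') →
      Good S ∨ p ^ 3 * M ^ 8 ≤ C0 * tn M g ^ 2 := by
  refine ⟨2592, by norm_num, ?_⟩
  intro p A B C' M S h hM _ g v u w z v' u' w' z' hv hv' hvu hr hr' hg hg' hR hR'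
  by_cases hG : Good S
  · exact Or.inl hG
  right
  have h1 := Case33c_high hg hR
  have h1' := Case33c_high hg' hR'
  rw [tn_sw] at h1'
  have h2 := Case33c_sided h hM v u v' u' 1 v v' hv hv' hvu hr hr' one_pos (by ring) (by ring) hG
  have a1 := Case33c_vM M v u
  have a2 := Case33c_vM M v' u'
  generalize n1 M (lin v u) = Q at *
  generalize n1 M (lin v' u') = Q' at *
  generalize tn M g = T at *
  have h3 : p ≤ 8 * (Q * Q') := by
    have b1 : v.natAbs * M * Q' ≤ Q * Q' := Nat.mul_le_mul_right _ a1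
    have b2 : v'.natAbs * M * Q ≤ Q' * Q := Nat.mul_le_mul_right _ a2
    rw [mul_comm Q' Q] at b2
    omega
  calc p ^ 3 * M ^ 8 = p * (M ^ 8 * p ^ 2) := by ring
    _ ≤ 8 * (Q * Q') * (M ^ 8 * p ^ 2) := Nat.mul_le_mul_right _ h3
    _ = 8 * ((M ^ 4 * p * Q) * (M ^ 4 * p * Q')) := by ring
    _ ≤ 8 * ((18 * T) * (18 * T)) := Nat.mul_le_mul_left _ (Nat.mul_le_mul h1 h1')
    _ = 2592 * T ^ 2 := by ring

/-- one leading coefficient `q^2 r`, the other one `c q'^3` -/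
theorem two_RC : ∃ C0 : ℕ, 1 ≤ C0 ∧ ∀ (p : ℕ) (A B C' : ℤ) (M : ℕ) (S : Finset (ℤ × ℤ)),
      Conf p A B C' M S → 1 ≤ M → C0 * M ^ 24 ≤ p ^ 7 → ∀ g : P2 ℤ, ∀ v u w z c' v' u' : ℤ,
      v ≠ 0 → w ≠ 0 → v' ≠ 0 → c' ≠ 0 → IsCoprime v u → (p : ℤ) ∣ v * B + u →
      (p : ℤ) ∣ v' * A + u' →
      g.coeff 3 = lin v u ^ 2 * lin w z → (sw g).coeff 3 = C c' * lin v' u' ^ 3 →
      p * M ≤ 2 * n1 M (lin v u) * n1 M (lin w z) →
      Good S ∨ p ^ 4 * M ^ 5 ≤ C0 * tn M g ^ 2 := by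
  refine ⟨82944, by norm_num, ?_⟩
  intro p A B C' M S h hM _ g v u w z c' v' u' hv hw hv' hc' hvu hr hr' hg hg' hR
  by_cases hG : Good S
  · exact Or.inl hG
  right
  have hcor : v ^ 2 * w = c' * v' ^ 3 := by
    rw [← Case33c_coeff v u w z, ← Case33c_coeffC c' v' u', ← hg, ← hg']
    exact Case33c_corner g
  obtain ⟨d, v1, v1', hd, e1, e1', k1, k2⟩ := corner23 v w c' v' hv hw hc' hv' hcor
  have h1 := Case33c_high hg hR
  have h2 := Case33c_sided h hM v u v' u' d v1 v1' hv hv' hvu hr hr' hd e1 e1' hG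
  have a1 := Case33c_vM M v u
  have aw := Case33c_vM M w z
  have hN := Case33c_sq M v u w z
  rw [← hg] at hN
  have hN' := Case33c_cube M c' v' u'
  rw [← hg'] at hN'
  have hT := Case33c_tn M g
  have hT' := Case33c_tn' M g
  have k1n : v1'.natAbs ^ 3 ≤ w.natAbs := by
    have : ((v1'.natAbs ^ 3 : ℕ) : ℤ) ≤ (w.natAbs : ℤ) := by
      push_cast
      exact k1
    exact_mod_cast this
  have k2n : v1.natAbs ^ 3 ≤ c'.natAbs * v.natAbs := by
    have : ((v1.natAbs ^ 3 : ℕ) : ℤ) ≤ ((c'.natAbs * v.natAbs : ℕ) : ℤ) := by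
      push_cast
      calc |v1| ^ 3 = |v1| ^ 2 * |v1| := by ring
        _ ≤ |c'| * d * |v1| := mul_le_mul_of_nonneg_right k2 (abs_nonneg _)
        _ = |c'| * |v| := by rw [e1, abs_mul, abs_of_pos hd]; ring
    exact_mod_cast this
  generalize n1 M (lin v u) = Q at *
  generalize n1 M (lin v' u') = Q' at *
  generalize n1 M (lin w z) = R at *
  generalize n1 M (g.coeff 3) = N at *
  generalize n1 M ((sw g).coeff 3) = N' at *
  generalize tn M g = T at *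
  generalize v1.natAbs = V1 at *
  generalize v1'.natAbs = V1' at *
  generalize v.natAbs = V at *
  generalize w.natAbs = W at *
  generalize c'.natAbs = c1 at *
  have hM0 : 0 < M := hM
  have b2 : M * (V1' * M * Q) ^ 3 ≤ 9 * Q * T := by
    calc M * (V1' * M * Q) ^ 3 = V1' ^ 3 * (M ^ 4 * Q ^ 3) := by ring
      _ ≤ W * (M ^ 4 * Q ^ 3) := Nat.mul_le_mul_right _ k1n
      _ = W * M * (M ^ 3 * Q ^ 3) := by ring
      _ ≤ R * (M ^ 3 * Q ^ 3) := Nat.mul_le_mul_right _ aw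
      _ = M ^ 3 * Q * (Q ^ 2 * R) := by ring
      _ ≤ M ^ 3 * Q * (9 * N) := Nat.mul_le_mul_left _ hN
      _ = 9 * Q * (M ^ 3 * N) := by ring
      _ ≤ 9 * Q * T := Nat.mul_le_mul_left _ hT
  have b1 : M * (V1 * M * Q') ^ 3 ≤ 9 * Q * T := by
    calc M * (V1 * M * Q') ^ 3 = V1 ^ 3 * (M ^ 4 * Q' ^ 3) := by ring
      _ ≤ c1 * V * (M ^ 4 * Q' ^ 3) := Nat.mul_le_mul_right _ k2n
      _ = V * M * (M ^ 3 * (c1 * Q' ^ 3)) := by ring
      _ ≤ Q * (M ^ 3 * (c1 * Q' ^ 3)) := Nat.mul_le_mul_right _ a1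
      _ ≤ Q * (M ^ 3 * (9 * N')) := Nat.mul_le_mul_left _ (Nat.mul_le_mul_left _ hN')
      _ = 9 * Q * (M ^ 3 * N') := by ring
      _ ≤ 9 * Q * T := Nat.mul_le_mul_left _ hT'
  have h3 : M * p ^ 3 ≤ 4608 * Q * T := by
    rcases le_total (V1 * M * Q') (V1' * M * Q) with hab | hab
    · calc M * p ^ 3 ≤ M * (8 * (V1' * M * Q)) ^ 3 :=
            Nat.mul_le_mul_left _ (Nat.pow_le_pow_left (by omega) 3)
        _ = 512 * (M * (V1' * M * Q) ^ 3) := by ring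
        _ ≤ 512 * (9 * Q * T) := Nat.mul_le_mul_left _ b2
        _ = 4608 * Q * T := by ring
    · calc M * p ^ 3 ≤ M * (8 * (V1 * M * Q')) ^ 3 :=
            Nat.mul_le_mul_left _ (Nat.pow_le_pow_left (by omega) 3)
        _ = 512 * (M * (V1 * M * Q') ^ 3) := by ring
        _ ≤ 512 * (9 * Q * T) := Nat.mul_le_mul_left _ b1
        _ = 4608 * Q * T := by ring
  calc p ^ 4 * M ^ 5 = (M * p ^ 3) * (M ^ 4 * p) := by ring
    _ ≤ 4608 * Q * T * (M ^ 4 * p) := Nat.mul_le_mul_right _ h3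
    _ = 4608 * T * (M ^ 4 * p * Q) := by ring
    _ ≤ 4608 * T * (18 * T) := Nat.mul_le_mul_left _ h1
    _ = 82944 * T ^ 2 := by ring

/-- both leading coefficients are cubes -/
theorem two_CC : ∃ C0 : ℕ, 1 ≤ C0 ∧ ∀ (p : ℕ) (A B C' : ℤ) (M : ℕ) (S : Finset (ℤ × ℤ)),
      Conf p A B C' M S → 1 ≤ M → C0 * M ^ 24 ≤ p ^ 7 → ∀ g : P2 ℤ, ∀ c v u c' v' u' : ℤ,
      v ≠ 0 → c ≠ 0 → v' ≠ 0 → c' ≠ 0 → IsCoprime v u → (p : ℤ) ∣ v * B + u →
      (p : ℤ) ∣ v' * A + u' →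
      g.coeff 3 = C c * lin v u ^ 3 → (sw g).coeff 3 = C c' * lin v' u' ^ 3 →
      Good S ∨ p ^ 3 ≤ C0 * tn M g := by
  refine ⟨4608, by norm_num, ?_⟩
  intro p A B C' M S h hM _ g c v u c' v' u' hv hc hv' hc' hvu hr hr' hg hg'
  by_cases hG : Good S
  · exact Or.inl hG
  right
  have hcor : c * v ^ 3 = c' * v' ^ 3 := by
    rw [← Case33c_coeffC c v u, ← Case33c_coeffC c' v' u', ← hg, ← hg']
    exact Case33c_corner g
  obtain ⟨d, v1, v1', hd, e1, e1', k1, k2⟩ := corner33 c v c' v' hc hv hc' hv' hcor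
  have h2 := Case33c_sided h hM v u v' u' d v1 v1' hv hv' hvu hr hr' hd e1 e1' hG
  have hN := Case33c_cube M c v u
  rw [← hg] at hN
  have hN' := Case33c_cube M c' v' u'
  rw [← hg'] at hN'
  have hT := Case33c_tn M g
  have hT' := Case33c_tn' M g
  have k1n : v1'.natAbs ^ 3 ≤ c.natAbs := by
    have : ((v1'.natAbs ^ 3 : ℕ) : ℤ) ≤ (c.natAbs : ℤ) := by
      push_cast
      exact k1
    exact_mod_cast this
  have k2n : v1.natAbs ^ 3 ≤ c'.natAbs := by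
    have : ((v1.natAbs ^ 3 : ℕ) : ℤ) ≤ (c'.natAbs : ℤ) := by
      push_cast
      exact k2
    exact_mod_cast this
  generalize n1 M (lin v u) = Q at *
  generalize n1 M (lin v' u') = Q' at *
  generalize n1 M (g.coeff 3) = N at *
  generalize n1 M ((sw g).coeff 3) = N' at *
  generalize tn M g = T at *
  generalize v1.natAbs = V1 at *
  generalize v1'.natAbs = V1' at *
  generalize c.natAbs = c0 at *
  generalize c'.natAbs = c1 at *
  have b2 : (V1' * M * Q) ^ 3 ≤ 9 * T := by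
    calc (V1' * M * Q) ^ 3 = V1' ^ 3 * (M ^ 3 * Q ^ 3) := by ring
      _ ≤ c0 * (M ^ 3 * Q ^ 3) := Nat.mul_le_mul_right _ k1n
      _ = M ^ 3 * (c0 * Q ^ 3) := by ring
      _ ≤ M ^ 3 * (9 * N) := Nat.mul_le_mul_left _ hN
      _ = 9 * (M ^ 3 * N) := by ring
      _ ≤ 9 * T := Nat.mul_le_mul_left _ hT
  have b1 : (V1 * M * Q') ^ 3 ≤ 9 * T := by
    calc (V1 * M * Q') ^ 3 = V1 ^ 3 * (M ^ 3 * Q' ^ 3) := by ring
      _ ≤ c1 * (M ^ 3 * Q' ^ 3) := Nat.mul_le_mul_right _ k2n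
      _ = M ^ 3 * (c1 * Q' ^ 3) := by ring
      _ ≤ M ^ 3 * (9 * N') := Nat.mul_le_mul_left _ hN'
      _ = 9 * (M ^ 3 * N') := by ring
      _ ≤ 9 * T := Nat.mul_le_mul_left _ hT'
  have := Case33c_max h2 b1 b2
  omega

end Pool.Agent.Helper20.H3
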