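import Mathlib
import Pool.Agent.Helper20.H3.Case33c

set_option autoImplicit false

namespace Pool.Agent.Helper20.H3

open Polynomial

theorem Case33d_irr_sw {g : P2 ℤ} (hg : Irreducible g) : Irreducible (sw g) := by
  have : Irreducible (Bivariate.swap (R := ℤ) g) := (MulEquiv.irreducible_iff
    (Bivariate.swap (R := ℤ))).mpr hg
  exact this

theorem Case33d_good_swap {S : Finset (ℤ × ℤ)} (h : Good (S.image Prod.swap)) : Good S := by
  rcases h with h | ⟨a, b, c, d, hne, hrel⟩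
  · left
    rwa [Conf.card_swap] at h
  · right
    refine ⟨a, c, b, d, by tauto, ?_⟩
    intro P hP
    have := hrel P.swap (Finset.mem_image_of_mem _ hP)
    simp only [Prod.fst_swap, Prod.snd_swap] at this
    linear_combination this

theorem Case33d_swap_zero {S : Finset (ℤ × ℤ)} {g : P2 ℤ}
    (hz : ∀ P ∈ S, evalEval P.1 P.2 g = 0) :
    ∀ P ∈ S.image Prod.swap, evalEval P.1 P.2 (sw g) = 0 := by
  intro P hP
  obtain ⟨Q, hQ, rfl⟩ := Finset.mem_image.mp hP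
  rw [ev_sw]
  exact hz Q hQ

/-- the condition on the order modulo `p` -/
theorem Case33d_nu {p : ℕ} {A B C' : ℤ} {M : ℕ} {S : Finset (ℤ × ℤ)} (h : Conf p A B C' M S)
    (g : P2 ℤ) (c : ℤ) (u1 u2 u3 : P2 ℤ) (hc : ¬ (p : ℤ) ∣ c)
    (he : g = C (C c) * FF A B C' ^ 3 + C (C (p : ℤ)) * FF A B C' ^ 2 * u1
        + C (C ((p : ℤ) ^ 2)) * FF A B C' * u2 + C (C ((p : ℤ) ^ 3)) * u3) :
    ∃ u : P2 (ZMod p), red p g = FF (A : ZMod p) (B : ZMod p) (C' : ZMod p) ^ 3 * u ∧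
      ¬ FF (A : ZMod p) (B : ZMod p) (C' : ZMod p) ∣ u := by
  have : Fact p.Prime := ⟨h.hp⟩
  have hlam : (A : ZMod p) * (B : ZMod p) - (C' : ZMod p) ≠ 0 := by
    intro h0
    apply h.hlam
    have : ((A * B - C' : ℤ) : ZMod p) = 0 := by push_cast; exact h0
    exact (ZMod.intCast_zmod_eq_zero_iff_dvd _ _).1 this
  have hprime := FF_prime hlam
  have hc0 : (c : ZMod p) ≠ 0 := fun h0 => hc ((ZMod.intCast_zmod_eq_zero_iff_dvd _ _).1 h0)
  refine ⟨C (C (c : ZMod p)), ?_, ?_⟩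
  · rw [he]
    simp only [map_add, map_mul, map_pow, red_CC, red_FF]
    simp only [Int.cast_natCast, CharP.cast_eq_zero, map_zero, zero_mul, add_zero,
      ne_eq, OfNat.ofNat_ne_zero, not_false_eq_true, zero_pow]
    ring
  · intro hd
    have hu : IsUnit (C (C (c : ZMod p)) : P2 (ZMod p)) :=
      (isUnit_iff_ne_zero.2 hc0).map (Polynomial.C.comp Polynomial.C)
    exact hprime.not_isUnit (isUnit_of_dvd_unit hd hu)

/-- a repeated root with a proportional third one gives a cube -/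
theorem Case33d_cube (v u w z e : ℤ) (hw : w = e * v) (hz : z = e * u) :
    lin v u ^ 2 * lin w z = C e * lin v u ^ 3 := by
  subst hw hz
  unfold lin
  simp only [C_mul]
  ring

/-- comparison of powers -/
theorem Case33d_pow (Cx C2 p M t a b k m q r : ℕ)
    (h : p ^ a * M ^ b ≤ C2 * t ^ k) (hm : k * m = 36)
    (hq : q = a * m + 41) (hr : r + b * m = 468) (hM : 1 ≤ M)
    (hc : (Cx * C2 ^ m) * M ^ r < p ^ q) : Cx * M ^ 468 < t ^ 36 * p ^ 41 := by
  by_contra hcon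
  push Not at hcon
  have h1 : (p ^ a * M ^ b) ^ m ≤ (C2 * t ^ k) ^ m := Nat.pow_le_pow_left h m
  have h2 : (C2 * t ^ k) ^ m = C2 ^ m * t ^ 36 := by
    rw [mul_pow, ← pow_mul, hm]
  have h3 : (p ^ a * M ^ b) ^ m = p ^ (a * m) * M ^ (b * m) := by
    rw [mul_pow, ← pow_mul, ← pow_mul]
  rw [h2, h3] at h1
  have h4 : p ^ q * M ^ (b * m) ≤ (Cx * C2 ^ m) * M ^ r * M ^ (b * m) := by
    calc p ^ q * M ^ (b * m) = p ^ 41 * (p ^ (a * m) * M ^ (b * m)) := by
          rw [hq, pow_add]; ring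
      _ ≤ p ^ 41 * (C2 ^ m * t ^ 36) := Nat.mul_le_mul_left _ h1
      _ = C2 ^ m * (t ^ 36 * p ^ 41) := by ring
      _ ≤ C2 ^ m * (Cx * M ^ 468) := Nat.mul_le_mul_left _ hcon
      _ = (Cx * C2 ^ m) * M ^ r * M ^ (b * m) := by
          rw [← hr, pow_add]; ring
  have h5 : 0 < M ^ (b * m) := pow_pos (by omega) _
  have h6 := Nat.le_of_mul_le_mul_right h4 h5
  omega

/-- bidegree `(3,3)`, the regular third order case -/
theorem case33_A : ∃ C0 : ℕ, 1 ≤ C0 ∧ ∀ (p : ℕ) (A B C' : ℤ) (M : ℕ) (S : Finset (ℤ × ℤ)),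
      Conf p A B C' M S → 1 ≤ M → C0 * M ^ 24 ≤ p ^ 7 → ∀ g : P2 ℤ, Irreducible g → SB 4 4 g →
      (∃ j, cf g 3 j ≠ 0) → (∃ i, cf g i 3 ≠ 0) → (∀ P ∈ S, evalEval P.1 P.2 g = 0) →
      ∀ (c : ℤ) (u1 u2 u3 : P2 ℤ), ¬ (p : ℤ) ∣ c →
      g = C (C c) * FF A B C' ^ 3 + C (C (p : ℤ)) * FF A B C' ^ 2 * u1
        + C (C ((p : ℤ) ^ 2)) * FF A B C' * u2 + C (C ((p : ℤ) ^ 3)) * u3 →
      SB 2 2 u1 → SB 3 3 u2 → SB 4 4 u3 → Good S := by
  obtain ⟨C1, hC1, lead⟩ := lead_three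
  obtain ⟨C2, hC2, rr⟩ := two_RR
  obtain ⟨C3, hC3, rc⟩ := two_RC
  obtain ⟨C4, hC4, cc⟩ := two_CC
  obtain ⟨Cx, hCx, crv⟩ := curvex 3 3 3 le_rfl le_rfl
  obtain ⟨D2, hD2, pw2⟩ := powcmp (Cx * C2 ^ 18) 95 324 (by norm_num) (by norm_num)
  obtain ⟨D3, hD3, pw3⟩ := powcmp (Cx * C3 ^ 18) 113 378 (by norm_num) (by norm_num)
  obtain ⟨D4, hD4, pw4⟩ := powcmp (Cx * C4 ^ 36) 149 468 (by norm_num) (by norm_num)
  refine ⟨C1 + C2 + C3 + C4 + D2 + D3 + D4, by omega, ?_⟩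
  intro p A B C' M S h hM hle g hg hgb ha hb hz c u1 u2 u3 hc he h1 h2 h3
  have hlex : ∀ D : ℕ, D ≤ C1 + C2 + C3 + C4 + D2 + D3 + D4 → D * M ^ 24 ≤ p ^ 7 :=
    fun D hD => (Nat.mul_le_mul_right _ hD).trans hle
  have hcurve : Cx * M ^ 468 < tn M g ^ 36 * p ^ 41 → Good S := by
    intro hlt
    left
    apply crv p A B C' M S h hM g hg hgb ha hb hz (Case33d_nu h g c u1 u2 u3 hc he)
    rw [WW_val.2.2.2.1, gv_val.2.2.2.2.2.2]
    exact hlt
  have hRR : p ^ 3 * M ^ 8 ≤ C2 * tn M g ^ 2 → Good S := fun hh =>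
    hcurve (Case33d_pow Cx C2 p M _ 3 8 2 18 95 324 hh (by norm_num) (by norm_num) (by norm_num)
      hM (pw2 p M hM (hlex _ (by omega))))
  have hRC : p ^ 4 * M ^ 5 ≤ C3 * tn M g ^ 2 → Good S := fun hh =>
    hcurve (Case33d_pow Cx C3 p M _ 4 5 2 18 113 378 hh (by norm_num) (by norm_num) (by norm_num)
      hM (pw3 p M hM (hlex _ (by omega))))
  have hCC : p ^ 3 ≤ C4 * tn M g → Good S := fun hh =>
    hcurve (Case33d_pow Cx C4 p M _ 3 0 1 36 149 468 (by simpa using hh) (by norm_num)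
      (by norm_num) (by norm_num) hM (pw4 p M hM (hlex _ (by omega))))
  have h' := h.swap
  have hg' := Case33d_irr_sw hg
  have hgb' : SB 4 4 (sw g) := hgb.sw
  have ha' : ∃ j, cf (sw g) 3 j ≠ 0 := by
    obtain ⟨i, hi⟩ := hb
    exact ⟨i, by rwa [cf_sw]⟩
  have hb' : ∃ i, cf (sw g) i 3 ≠ 0 := by
    obtain ⟨j, hj⟩ := ha
    exact ⟨j, by rwa [cf_sw]⟩
  have hz' := Case33d_swap_zero hz
  have he' : sw g = C (C c) * FF B A C' ^ 3 + C (C (p : ℤ)) * FF B A C' ^ 2 * sw u1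
        + C (C ((p : ℤ) ^ 2)) * FF B A C' * sw u2 + C (C ((p : ℤ) ^ 3)) * sw u3 := by
    rw [he]
    simp only [sw_add, sw_mul, sw_pow, sw_CC, sw_FF]
  rcases lead p A B C' M S h hM (hlex _ (by omega)) g hg hgb ha hb hz c u1 u2 u3 hc he h1 h2 h3
    with hgood | ⟨v, u, w, z, hv, hw, hvu, hr, hL, hcase⟩
  · exact hgood
  rcases lead p B A C' M _ h' hM (hlex _ (by omega)) (sw g) hg' hgb' ha' hb' hz' c (sw u1) (sw u2)
    (sw u3) hc he' h1.sw h2.sw h3.sw
    with hgood | ⟨v', u', w', z', hv', hw', hvu', hr', hL', hcase'⟩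
  · exact Case33d_good_swap hgood
  rcases hcase with hR | ⟨e, hwe, hze⟩
  · rcases hcase' with hR' | ⟨e', hwe', hze'⟩
    · rcases rr p A B C' M S h hM (hlex _ (by omega)) g v u w z v' u' w' z' hv hv' hvu hr hr' hL
        hL' hR hR' with hh | hh
      · exact hh
      · exact hRR hh
    · have he0 : e' ≠ 0 := by
        rintro rfl
        exact hw' (by rw [hwe', zero_mul])
      rcases rc p A B C' M S h hM (hlex _ (by omega)) g v u w z e' v' u' hv hw hv' he0 hvu hr hr'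
        hL (by rw [hL', Case33d_cube v' u' w' z' e' hwe' hze']) hR with hh | hh
      · exact hh
      · exact hRC hh
  · have he0 : e ≠ 0 := by
      rintro rfl
      exact hw (by rw [hwe, zero_mul])
    have hL2 : g.coeff 3 = C e * lin v u ^ 3 := by
      rw [hL, Case33d_cube v u w z e hwe hze]
    rcases hcase' with hR' | ⟨e', hwe', hze'⟩
    · rcases rc p B A C' M _ h' hM (hlex _ (by omega)) (sw g) v' u' w' z' e v u hv' hw' hv he0
        hvu' hr' hr hL' (by rw [sw_sw]; exact hL2) hR' with hh | hh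
      · exact Case33d_good_swap hh
      · rw [tn_sw] at hh
        exact hRC hh
    · have he0' : e' ≠ 0 := by
        rintro rfl
        exact hw' (by rw [hwe', zero_mul])
      rcases cc p A B C' M S h hM (hlex _ (by omega)) g e v u e' v' u' hv he0 hv' he0' hvu hr hr'
        hL2 (by rw [hL', Case33d_cube v' u' w' z' e' hwe' hze']) with hh | hh
      · exact hh
      · exact hCC hh

end Pool.Agent.Helper20.H3
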