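import Mathlib
import Pool.Agent.Helper20.H3.Bez
import Pool.Agent.Helper20.H3.Degree

set_option autoImplicit false

namespace Pool.Agent.Helper20.H3

open Polynomial

theorem SmallC_exists_deg {R : Type*} [CommRing R] {g : P2 R} (hg : g ≠ 0) (hb : SB 4 4 g) :
    ∃ a b : ℕ, a ≤ 3 ∧ b ≤ 3 ∧ (∃ j, cf g a j ≠ 0) ∧ (∃ i, cf g i b ≠ 0) ∧
      SB (a + 1) (b + 1) g := by
  classical
  obtain ⟨i0, j0, h0⟩ : ∃ i j, cf g i j ≠ 0 := by
    by_contra hc
    push Not at hc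
    apply hg
    apply cf_ext
    intro i j
    rw [hc i j, cf_zero]
  have hi0 : i0 ≤ 3 := by have := (hb i0 j0 h0).1; omega
  have hj0 : j0 ≤ 3 := by have := (hb i0 j0 h0).2; omega
  refine ⟨Nat.findGreatest (fun i => ∃ j, cf g i j ≠ 0) 3,
    Nat.findGreatest (fun j => ∃ i, cf g i j ≠ 0) 3, Nat.findGreatest_le 3,
    Nat.findGreatest_le 3, ?_, ?_, ?_⟩
  · exact Nat.findGreatest_spec (P := fun i => ∃ j, cf g i j ≠ 0) hi0 ⟨j0, h0⟩
  · exact Nat.findGreatest_spec (P := fun j => ∃ i, cf g i j ≠ 0) hj0 ⟨i0, h0⟩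
  · intro i j h
    have h1 := hb i j h
    have h2 : i ≤ Nat.findGreatest (fun i => ∃ j, cf g i j ≠ 0) 3 :=
      Nat.le_findGreatest (by omega) ⟨j, h⟩
    have h3 : j ≤ Nat.findGreatest (fun j => ∃ i, cf g i j ≠ 0) 3 :=
      Nat.le_findGreatest (by omega) ⟨i, h⟩
    omega

theorem SmallC_const {R : Type*} [CommRing R] {q : P2 R} (h : SB 1 1 q) :
    q = C (C (cf q 0 0)) := by
  apply cf_ext
  intro i j
  by_cases hij : i < 1 ∧ j < 1
  · obtain ⟨h1, h2⟩ := hij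
    have hi : i = 0 := by omega
    have hj : j = 0 := by omega
    subst hi hj
    simp [cf]
  · rw [h.zero_of hij]
    unfold cf
    rcases Nat.eq_zero_or_pos j with hj | hj
    · subst hj
      have hi : i ≠ 0 := by omega
      simp [coeff_C, hi]
    · simp [coeff_C, hj.ne']

/-- an irreducible curve through many points has small coefficients -/
theorem small_coeff {p : ℕ} {A B C' : ℤ} {M : ℕ} {S : Finset (ℤ × ℤ)} (h : Conf p A B C' M S)
    (hM : 1 ≤ M) (g : P2 ℤ) (hg : Irreducible g) (hgb : SB 4 4 g)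
    (hz : ∀ P ∈ S, evalEval P.1 P.2 g = 0) (hc : 200 < S.card) :
    ∀ i j, |cf g i j| ≤ (16 * (M : ℤ) ^ 6) ^ 16 := by
  classical
  obtain ⟨a, b, ha3, hb3, haj, hbi, hSB⟩ := SmallC_exists_deg hg.ne_zero hgb
  set e : Fin (a + 1) × Fin (b + 1) ≃ Fin ((a + 1) * (b + 1)) := finProdFinEquiv with he
  have hM' : (1 : ℤ) ≤ (M : ℤ) := by exact_mod_cast hM
  have hX : 1 ≤ M ^ 6 := Nat.one_le_pow _ _ hM
  let v : ℤ × ℤ → Fin ((a + 1) * (b + 1)) → ℤ := fun P k =>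
    P.1 ^ ((e.symm k).1 : ℕ) * P.2 ^ ((e.symm k).2 : ℕ)
  have hv : ∀ P ∈ S, ∀ j, |v P j| ≤ ((M ^ 6 : ℕ) : ℤ) := by
    intro P hP k
    obtain ⟨h1, h2, h3, h4⟩ := h.hbox P hP
    have hi := (e.symm k).1.2
    have hj := (e.symm k).2.2
    have e1 : P.1 ^ ((e.symm k).1 : ℕ) ≤ (M : ℤ) ^ 3 :=
      (pow_le_pow_left₀ h1 h2 _).trans (pow_le_pow_right₀ hM' (by omega))
    have e2 : P.2 ^ ((e.symm k).2 : ℕ) ≤ (M : ℤ) ^ 3 :=
      (pow_le_pow_left₀ h3 h4 _).trans (pow_le_pow_right₀ hM' (by omega))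
    rw [abs_of_nonneg (mul_nonneg (pow_nonneg h1 _) (pow_nonneg h3 _))]
    push_cast
    calc P.1 ^ ((e.symm k).1 : ℕ) * P.2 ^ ((e.symm k).2 : ℕ) ≤ (M : ℤ) ^ 3 * (M : ℤ) ^ 3 :=
          mul_le_mul e1 e2 (pow_nonneg h3 _) (by positivity)
      _ = (M : ℤ) ^ 6 := by ring
  -- a general evaluation formula
  have hev : ∀ (u : Fin (a + 1) × Fin (b + 1) → ℤ) (P : ℤ × ℤ),
      evalEval P.1 P.2 (toP (a + 1) (b + 1) u) = ∑ k, u (e.symm k) * v P k := by
    intro u P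
    rw [ev_toP]
    exact (Equiv.sum_comp e.symm
      (fun q => u q * (P.1 ^ (q.1 : ℕ) * P.2 ^ (q.2 : ℕ)))).symm
  let w : Fin ((a + 1) * (b + 1)) → ℚ := fun k => ((cf g (e.symm k).1 (e.symm k).2 : ℤ) : ℚ)
  have hw : w ≠ 0 := by
    intro hw0
    obtain ⟨j, hj⟩ := haj
    have hjb := (hSB a j hj).2
    have h1 := congrFun hw0 (e (⟨a, by omega⟩, ⟨j, hjb⟩))
    simp only [w, Equiv.symm_apply_apply, Pi.zero_apply, Int.cast_eq_zero] at h1
    exact hj h1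
  have hk : ∀ P ∈ S, ∑ j, w j * (v P j : ℚ) = 0 := by
    intro P hP
    have h1 := hev (fun q => cf g q.1 q.2) P
    rw [toP_cf hSB, hz P hP] at h1
    have h2 := congrArg (fun t : ℤ => (t : ℚ)) h1
    simp only [Int.cast_zero, Int.cast_sum, Int.cast_mul] at h2
    exact h2.symm
  obtain ⟨t, htp, htb, htk⟩ := small_kernel_prim (M ^ 6) hX S v hv w hw hk
  set u : Fin (a + 1) × Fin (b + 1) → ℤ := fun q => t (e q) with hu
  set f : P2 ℤ := toP (a + 1) (b + 1) u with hf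
  have hfSB : SB (a + 1) (b + 1) f := SB_toP _ _ _
  have hfz : ∀ P ∈ S, evalEval P.1 P.2 f = 0 := by
    intro P hP
    rw [hf, hev]
    simp only [hu, Equiv.apply_symm_apply]
    exact htk P hP
  have hdvd : g ∣ f := by
    by_contra hnd
    have := bez h g f hg hnd (hgb.mono (by omega) (by omega)) (hfSB.mono (by omega) (by omega))
      hz hfz
    omega
  obtain ⟨q, hq⟩ := hdvd
  have hqSB : SB 1 1 q := by
    refine SB_of_mul (g := g) (a := a) (b := b) haj hbi ?_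
    rw [← hq]
    exact hfSB.mono (by omega) (by omega)
  have hqc := SmallC_const hqSB
  set c : ℤ := cf q 0 0 with hcdef
  have hcf : ∀ i j, cf f i j = c * cf g i j := by
    intro i j
    rw [hq, hqc, mul_comm, cf_CC_mul]
  have htc : ∀ k, t k = c * cf g (e.symm k).1 (e.symm k).2 := by
    intro k
    rw [← hcf, hf, cf_toP, dif_pos ⟨(e.symm k).1.2, (e.symm k).2.2⟩]
    simp [hu]
  have hcu : IsUnit c := by
    by_contra hnu
    by_cases hc0 : c = 0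
    · obtain ⟨j, hj⟩ := htp 2 Int.prime_two
      apply hj
      rw [htc j, hc0, zero_mul]
      exact dvd_zero _
    · obtain ⟨r, hr, hrc⟩ := WfDvdMonoid.exists_irreducible_factor hnu hc0
      obtain ⟨j, hj⟩ := htp r hr.prime
      apply hj
      rw [htc j]
      exact Dvd.dvd.mul_right hrc _
  have habs : |c| = 1 := Int.isUnit_iff_abs_eq.mp hcu
  intro i j
  by_cases hij : i < a + 1 ∧ j < b + 1
  · have h1 := htc (e (⟨i, hij.1⟩, ⟨j, hij.2⟩))
    rw [Equiv.symm_apply_apply] at h1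
    have h2 : |cf g i j| = |t (e (⟨i, hij.1⟩, ⟨j, hij.2⟩))| := by
      rw [h1, abs_mul, habs, one_mul]
    rw [h2]
    refine (htb _).trans ?_
    push_cast
    have hn : ((a : ℤ) + 1) * ((b : ℤ) + 1) ≤ 16 := by
      have h3 : ((a : ℤ) + 1) ≤ 4 := by exact_mod_cast (by omega : a + 1 ≤ 4)
      have h4 : ((b : ℤ) + 1) ≤ 4 := by exact_mod_cast (by omega : b + 1 ≤ 4)
      nlinarith [Int.natCast_nonneg a, Int.natCast_nonneg b]
    have hn' : (a + 1) * (b + 1) ≤ 16 := by exact_mod_cast hn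
    have h5 : ((a : ℤ) + 1) * ((b : ℤ) + 1) * (M : ℤ) ^ 6 ≤ 16 * (M : ℤ) ^ 6 :=
      mul_le_mul_of_nonneg_right hn (by positivity)
    have h6 : (1 : ℤ) ≤ 16 * (M : ℤ) ^ 6 := by
      have : (1 : ℤ) ≤ (M : ℤ) ^ 6 := one_le_pow₀ hM'
      linarith
    calc (((a : ℤ) + 1) * ((b : ℤ) + 1) * (M : ℤ) ^ 6) ^ ((a + 1) * (b + 1))
        ≤ (16 * (M : ℤ) ^ 6) ^ ((a + 1) * (b + 1)) := pow_le_pow_left₀ (by positivity) h5 _
      _ ≤ (16 * (M : ℤ) ^ 6) ^ 16 := pow_le_pow_right₀ h6 hn'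
  · rw [hSB.zero_of hij, abs_zero]
    positivity

end Pool.Agent.Helper20.H3
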