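import Mathlib
import Pool.Agent.Helper20.H3.SmallC
import Pool.Agent.Helper20.H3.BezMod

set_option autoImplicit false

namespace Pool.Agent.Helper20.H3

open Polynomial

/-- relatively prime integer polynomials are coprime over the rationals -/
theorem LinCase_coprime {a b : Polynomial ℤ} (ha : a ≠ 0) (h : IsRelPrime a b) :
    IsCoprime (a.map (algebraMap ℤ ℚ)) (b.map (algebraMap ℤ ℚ)) := by
  rw [← isRelPrime_iff_isCoprime]
  intro d hda hdb
  have ha' : a.map (algebraMap ℤ ℚ) ≠ 0 := by
    rwa [Ne, Polynomial.map_eq_zero_iff (FaithfulSMul.algebraMap_injective ℤ ℚ)]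
  have hd0 : d ≠ 0 := by
    rintro rfl
    exact ha' (zero_dvd_iff.mp hda)
  refine isUnit_or_eq_zero_of_isUnit_integerNormalization_primPart (R := ℤ) hd0 ?_
  set N : Polynomial ℤ := IsLocalization.integerNormalization (nonZeroDivisors ℤ) d with hN
  obtain ⟨c, hc0, hc⟩ := IsLocalization.integerNormalization_spec (nonZeroDivisors ℤ) d
  have hc0' : (algebraMap ℤ ℚ c) ≠ 0 := by
    rw [Ne, map_eq_zero_iff _ (FaithfulSMul.algebraMap_injective ℤ ℚ)]
    exact nonZeroDivisors.ne_zero hc0
  have h1 : N.primPart.map (algebraMap ℤ ℚ) ∣ d := by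
    have h2 : N.primPart.map (algebraMap ℤ ℚ) ∣ N.map (algebraMap ℤ ℚ) := by
      obtain ⟨r, hr⟩ := N.primPart_dvd
      exact ⟨r.map (algebraMap ℤ ℚ), by rw [← Polynomial.map_mul, ← hr]⟩
    have h3 : N.map (algebraMap ℤ ℚ) ∣ d := by
      rw [hc]
      refine ⟨C ((algebraMap ℤ ℚ c)⁻¹), ?_⟩
      rw [Algebra.smul_def, Polynomial.algebraMap_apply, mul_comm, ← mul_assoc, ← C_mul,
        inv_mul_cancel₀ hc0', C_1, one_mul]
    exact h2.trans h3
  have hp : N.primPart.IsPrimitive := N.isPrimitive_primPart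
  have e1 : N.primPart ∣ a := hp.dvd_of_fraction_map_dvd_fraction_map (K := ℚ) (h1.trans hda)
  have e2 : N.primPart ∣ b := hp.dvd_of_fraction_map_dvd_fraction_map (K := ℚ) (h1.trans hdb)
  exact h e1 e2

/-- bound for the resultant -/
theorem LinCase_res_le {a b : Polynomial ℤ} {T : ℤ} (hT : 1 ≤ T) (ha : ∀ i, |a.coeff i| ≤ T)
    (hb : ∀ i, |b.coeff i| ≤ T) (hda : a.natDegree ≤ 3) (hdb : b.natDegree ≤ 3) :
    |resultant a b| ≤ 720 * T ^ 6 := by
  have hT0 : (0 : ℤ) ≤ T := by linarith
  unfold resultant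
  have h1 := abs_det_le_col (sylvester a b a.natDegree b.natDegree) (fun _ => T) (by
    intro i j
    unfold sylvester
    rw [Matrix.of_apply]
    refine Fin.addCases (fun j1 => ?_) (fun j1 => ?_) j
    · rw [Fin.addCases_left]
      split_ifs
      · exact hb _
      · rw [abs_zero]; exact hT0
    · rw [Fin.addCases_right]
      split_ifs
      · exact ha _
      · rw [abs_zero]; exact hT0)
  rw [Finset.prod_const, Finset.card_univ, Fintype.card_fin] at h1
  refine h1.trans ?_
  have hmn : a.natDegree + b.natDegree ≤ 6 := by omega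
  have hf : (a.natDegree + b.natDegree).factorial ≤ 720 :=
    (Nat.factorial_le hmn).trans (by decide)
  have hf' : (((a.natDegree + b.natDegree).factorial : ℕ) : ℤ) ≤ 720 := by exact_mod_cast hf
  exact mul_le_mul hf' (pow_le_pow_right₀ hT hmn) (by positivity) (by norm_num)

/-- a nonzero polynomial of degree at most `k` in `y` vanishing on the configuration -/
theorem LinCase_roots {p : ℕ} {A B C' : ℤ} {M : ℕ} {S : Finset (ℤ × ℤ)} (h : Conf p A B C' M S)
    {r : Polynomial ℤ} (hr : r ≠ 0) {k : ℕ} (hk : r.natDegree ≤ k)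
    (hz : ∀ P ∈ S, r.eval P.2 = 0) : S.card ≤ k := by
  classical
  have hinj : Set.InjOn (fun P : ℤ × ℤ => P.2) (S : Set (ℤ × ℤ)) := by
    intro P hP Q hQ he
    exact h.inj2 hP hQ he
  rw [← Finset.card_image_of_injOn hinj]
  have hsub : S.image (fun P : ℤ × ℤ => P.2) ⊆ r.roots.toFinset := by
    intro y hy
    obtain ⟨P, hP, rfl⟩ := Finset.mem_image.mp hy
    rw [Multiset.mem_toFinset, mem_roots hr]
    exact hz P hP
  calc (S.image (fun P : ℤ × ℤ => P.2)).card ≤ r.roots.toFinset.card := Finset.card_le_card hsub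
    _ ≤ r.roots.card := Multiset.toFinset_card_le _
    _ ≤ r.natDegree := card_roots' r
    _ ≤ k := hk

/-- curves of degree at most one in `x` -/
theorem lin_case {p : ℕ} {A B C' : ℤ} {M : ℕ} {S : Finset (ℤ × ℤ)} (h : Conf p A B C' M S)
    (hM : 1 ≤ M) (g : P2 ℤ) (hg : Irreducible g) (hgb : SB 2 4 g)
    (hz : ∀ P ∈ S, evalEval P.1 P.2 g = 0) :
    ∃ D : ℤ, D ≠ 0 ∧ |D| ≤ 720 * (16 * (M : ℤ) ^ 6) ^ 96 ∧ S.card ≤ 6 * dv D + 200 := by
  classical
  have hM' : (1 : ℤ) ≤ (M : ℤ) := by exact_mod_cast hM
  have hM6 : (1 : ℤ) ≤ (M : ℤ) ^ 6 := one_le_pow₀ hM'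
  have hb1 : (1 : ℤ) ≤ 16 * (M : ℤ) ^ 6 := by linarith
  have hbig : (1 : ℤ) ≤ (16 * (M : ℤ) ^ 6) ^ 96 := one_le_pow₀ hb1
  by_cases hc : S.card ≤ 200
  · exact ⟨1, one_ne_zero, by rw [abs_one]; linarith, by omega⟩
  push Not at hc
  have hsm := small_coeff h hM g hg (hgb.mono (by norm_num) le_rfl) hz hc
  set T : ℤ := (16 * (M : ℤ) ^ 6) ^ 16 with hT
  have hT1 : 1 ≤ T := one_le_pow₀ hb1
  set al : Polynomial ℤ := (sw g).coeff 1 with hal
  set be : Polynomial ℤ := (sw g).coeff 0 with hbe
  have cal : ∀ j, al.coeff j = cf g 1 j := fun j => by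
    rw [← cf_sw g j 1]; rfl
  have cbe : ∀ j, be.coeff j = cf g 0 j := fun j => by
    rw [← cf_sw g j 0]; rfl
  have dal : al.natDegree ≤ 3 := by
    rw [natDegree_le_iff_coeff_eq_zero]
    intro j hj
    rw [cal]
    exact hgb.zero_of (by omega)
  have dbe : be.natDegree ≤ 3 := by
    rw [natDegree_le_iff_coeff_eq_zero]
    intro j hj
    rw [cbe]
    exact hgb.zero_of (by omega)
  have hG : sw g = C al * X + C be := by
    apply Polynomial.ext
    intro n
    rcases n with _ | _ | n
    · rw [coeff_add, coeff_C_mul_X, coeff_C_zero, if_neg (by norm_num), zero_add]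
    · rw [coeff_add, coeff_C_mul_X, if_pos rfl, coeff_C_ne_zero (by norm_num), add_zero]
    · rw [coeff_add, coeff_C_mul_X, if_neg (by omega), coeff_C_ne_zero (by omega), add_zero]
      ext j
      have := hgb.sw.zero_of (i := j) (j := n + 1 + 1) (by omega)
      rw [coeff_zero]
      exact this
  have hev : ∀ P ∈ S, al.eval P.2 * P.1 + be.eval P.2 = 0 := by
    intro P hP
    have h1 := hz P hP
    rw [← ev_sw g P.2 P.1, hG] at h1
    simpa [evalEval] using h1
  have hGirr : Irreducible (sw g) := by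
    have : Irreducible ((Bivariate.swap (R := ℤ)) g) ↔ Irreducible g :=
      MulEquiv.irreducible_iff (Bivariate.swap (R := ℤ)).toMulEquiv
    exact this.mpr hg
  -- `al = 0` is impossible
  have hal0 : al ≠ 0 := by
    intro h0
    have hbe0 : be ≠ 0 := by
      intro h1
      apply hGirr.ne_zero
      rw [hG, h0, h1]
      simp
    have := LinCase_roots h hbe0 dbe (fun P hP => by
      have h1 := hev P hP
      rw [h0] at h1
      simpa using h1)
    omega
  have hrel : IsRelPrime al be := by
    intro d hd1 hd2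
    obtain ⟨r, hr⟩ := hd1
    obtain ⟨s, hs⟩ := hd2
    have hfac : sw g = C d * (C r * X + C s) := by
      rw [hG, hr, hs]
      simp only [C_mul]
      ring
    rcases hGirr.isUnit_or_isUnit hfac with hu | hu
    · rwa [isUnit_C] at hu
    · exfalso
      obtain ⟨c, _, hcc⟩ := isUnit_iff.mp hu
      have h1 := congrArg (fun q => q.coeff 1) hcc
      simp only [coeff_C_ne_zero (one_ne_zero), coeff_add, coeff_C_mul_X, if_true, add_zero] at h1
      apply hal0
      rw [hr, ← h1, mul_zero]
  by_cases hconst : al.natDegree = 0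
  · -- constant leading coefficient
    exfalso
    have hpr := h.hp
    have : Fact p.Prime := ⟨hpr⟩
    have hne : S.Nonempty := by
      rw [← Finset.card_pos]; omega
    obtain ⟨P0, hP0⟩ := hne
    have hred := red_ne_zero hg ⟨P0, hz P0 hP0⟩ p hpr
    by_cases hdv : FF (A : ZMod p) (B : ZMod p) (C' : ZMod p) ∣ red p g
    · obtain ⟨u, hu⟩ := hdv
      have hu0 : u ≠ 0 := by
        rintro rfl
        apply hred
        rw [hu, mul_zero]
      have hcFF : cf (FF (A : ZMod p) (B : ZMod p) (C' : ZMod p)) 1 1 ≠ 0 := by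
        rw [cf_FF]; simp
      have hSBu : SB 1 3 u := by
        refine SB_of_mul (a := 1) (b := 1) ⟨1, hcFF⟩ ⟨1, hcFF⟩ ?_
        rw [← hu]
        exact hgb.red p
      have h1 := coeff_FF_pow_mul (A : ZMod p) (B : ZMod p) (C' : ZMod p) u u.natDegree 1 le_rfl
      rw [pow_one, pow_one, ← hu] at h1
      have h2 : u.coeff u.natDegree ≠ 0 := by
        rw [coeff_natDegree]; exact leadingCoeff_ne_zero.mpr hu0
      have h3 : u.coeff u.natDegree = C (cf u 0 u.natDegree) := by
        ext i
        rcases i with _ | i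
        · rw [coeff_C_zero]; rfl
        · rw [coeff_C_ne_zero (Nat.succ_ne_zero i)]
          exact hSBu.zero_of (i := i + 1) (by omega)
      have h4 : cf u 0 u.natDegree ≠ 0 := by
        intro h5
        apply h2
        rw [h3, h5, C_0]
      have h5 := congrArg (fun q => q.coeff 1) h1
      rw [h3, coeff_mul_C, coeff_add, coeff_X_one, coeff_C_ne_zero one_ne_zero, add_zero,
        one_mul] at h5
      have h6 : ((red p g).coeff (u.natDegree + 1)).coeff 1 =
          ((cf g 1 (u.natDegree + 1) : ℤ) : ZMod p) := cf_red p g 1 (u.natDegree + 1)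
      rw [h6, ← cal, coeff_eq_zero_of_natDegree_lt (by omega), Int.cast_zero] at h5
      exact h4 h5.symm
    · have := bez_mod h (red p g) ((hgb.mono (by norm_num) le_rfl).red p) hdv (fun P hP => by
        rw [ev_red, hz P hP, Int.cast_zero])
      omega
  · -- the resultant
    set D : ℤ := resultant al be with hD
    have hD0 : D ≠ 0 := by
      intro h0
      have h1 : resultant (al.map (algebraMap ℤ ℚ)) (be.map (algebraMap ℤ ℚ))
          al.natDegree be.natDegree = 0 := by
        rw [resultant_map_map, ← hD, h0, map_zero]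
      have hinj := FaithfulSMul.algebraMap_injective ℤ ℚ
      have d1 : (al.map (algebraMap ℤ ℚ)).natDegree = al.natDegree :=
        natDegree_map_eq_of_injective hinj al
      have d2 : (be.map (algebraMap ℤ ℚ)).natDegree = be.natDegree :=
        natDegree_map_eq_of_injective hinj be
      have h2 : resultant (al.map (algebraMap ℤ ℚ)) (be.map (algebraMap ℤ ℚ)) = 0 := by
        rw [d1, d2]; exact h1
      exact (resultant_eq_zero_iff.mp h2).2 (LinCase_coprime hal0 hrel)
    obtain ⟨u, v, _, _, huv⟩ := exists_mul_add_mul_eq_C_resultant al be le_rfl le_rfl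
      (Or.inl hconst)
    refine ⟨D, hD0, ?_, ?_⟩
    · have h1 := LinCase_res_le (a := al) (b := be) hT1 (fun i => by rw [cal]; exact hsm 1 i)
        (fun i => by rw [cbe]; exact hsm 0 i) dal dbe
      have h2 : T ^ 6 = (16 * (M : ℤ) ^ 6) ^ 96 := by
        rw [hT, ← pow_mul]
      rwa [h2] at h1
    · have h1 : S.card ≤ 3 * (2 * dv D) := by
        refine card_le_of_dvd S (fun P => al.eval P.2) 3 D hD0 ?_ ?_
        · intro P hP
          have h2 := congrArg (fun q => q.eval P.2) huv
          simp only [eval_add, eval_mul, eval_C] at h2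
          have h3 := hev P hP
          have h4 : be.eval P.2 = - (al.eval P.2 * P.1) := by linarith
          refine ⟨u.eval P.2 - P.1 * v.eval P.2, ?_⟩
          rw [hD, ← h2, h4]
          ring
        · intro y
          have hne : al - C y ≠ 0 := by
            intro h0
            apply hconst
            have : al = C y := sub_eq_zero.mp h0
            rw [this, natDegree_C]
          have hdeg : (al - C y).natDegree ≤ 3 := by
            refine (natDegree_sub_C (a := y)).le.trans dal
          refine LinCase_roots (h.subset (Finset.filter_subset _ S)) hne hdeg (fun P hP => ?_)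
          rw [Finset.mem_filter] at hP
          rw [eval_sub, eval_C, hP.2, sub_self]
      omega

end Pool.Agent.Helper20.H3
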