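import Mathlib
import Pool.Agent.Helper20.H3.Case22
import Pool.Agent.Helper20.H3.Case23
import Pool.Agent.Helper20.H3.Case33a
import Pool.Agent.Helper20.H3.Case33b
import Pool.Agent.Helper20.H3.Case33d
import Pool.Agent.Helper20.H3.LinCase

set_option autoImplicit false

namespace Pool.Agent.Helper20.H3

open Polynomial

theorem All_irr_sw {g : P2 ℤ} (hg : Irreducible g) : Irreducible (sw g) := by
  have : Irreducible (Bivariate.swap (R := ℤ) g) := (MulEquiv.irreducible_iff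
    (Bivariate.swap (R := ℤ))).mpr hg
  exact this

theorem All_split_x {g : P2 ℤ} {n m : ℕ} (h : SB (n + 1) m g) :
    (∃ j, cf g n j ≠ 0) ∨ SB n m g := by
  by_cases hc : ∃ j, cf g n j ≠ 0
  · exact Or.inl hc
  · right
    intro i j hij
    obtain ⟨h1, h2⟩ := h i j hij
    refine ⟨?_, h2⟩
    rcases Nat.lt_or_ge i n with h3 | h3
    · exact h3
    · have : i = n := by omega
      subst this
      exact absurd ⟨j, hij⟩ hc

theorem All_split_y {g : P2 ℤ} {n m : ℕ} (h : SB n (m + 1) g) :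
    (∃ i, cf g i m ≠ 0) ∨ SB n m g := by
  by_cases hc : ∃ i, cf g i m ≠ 0
  · exact Or.inl hc
  · right
    intro i j hij
    obtain ⟨h1, h2⟩ := h i j hij
    refine ⟨h1, ?_⟩
    rcases Nat.lt_or_ge j m with h3 | h3
    · exact h3
    · have : j = m := by omega
      subst this
      exact absurd ⟨i, hij⟩ hc

theorem All_good_swap {S : Finset (ℤ × ℤ)} (h : Good (S.image Prod.swap)) : Good S := by
  rcases h with h | ⟨a, b, c, d, hne, hrel⟩
  · left
    rwa [Conf.card_swap] at h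
  · right
    refine ⟨a, c, b, d, by tauto, ?_⟩
    intro P hP
    have := hrel P.swap (Finset.mem_image_of_mem _ hP)
    simp only [Prod.fst_swap, Prod.snd_swap] at this
    linear_combination this

theorem All_swap_zero {S : Finset (ℤ × ℤ)} {g : P2 ℤ}
    (hz : ∀ P ∈ S, evalEval P.1 P.2 g = 0) :
    ∀ P ∈ S.image Prod.swap, evalEval P.1 P.2 (sw g) = 0 := by
  intro P hP
  obtain ⟨Q, hQ, rfl⟩ := Finset.mem_image.mp hP
  rw [ev_sw]
  exact hz Q hQ

theorem All_bound (M : ℕ) (hM : 1 ≤ M) : (1 : ℤ) ≤ 720 * (16 * (M : ℤ) ^ 6) ^ 96 := by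
  have hM' : (1 : ℤ) ≤ M := by exact_mod_cast hM
  have h1 : (1 : ℤ) ≤ (M : ℤ) ^ 6 := one_le_pow₀ hM'
  have h2 : (1 : ℤ) ≤ (16 * (M : ℤ) ^ 6) ^ 96 := one_le_pow₀ (by linarith)
  linarith

/-- irreducible curves -/
theorem irr_case : ∃ C0 : ℕ, 1 ≤ C0 ∧ ∀ (p : ℕ) (A B C' : ℤ) (M : ℕ) (S : Finset (ℤ × ℤ)),
      Conf p A B C' M S → 1 ≤ M → C0 * M ^ 24 ≤ p ^ 7 → ∀ g : P2 ℤ, Irreducible g → SB 4 4 g →
      (∀ P ∈ S, evalEval P.1 P.2 g = 0) →
      ∃ D : ℤ, D ≠ 0 ∧ |D| ≤ 720 * (16 * (M : ℤ) ^ 6) ^ 96 ∧ S.card ≤ 6 * dv D + 200 := by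
  obtain ⟨K1, hK1, c22⟩ := case22
  obtain ⟨K2, hK2, c23⟩ := case23
  obtain ⟨K3, hK3, c331⟩ := case33_one
  obtain ⟨K4, hK4, c332⟩ := case33_two
  obtain ⟨K5, hK5, c33B⟩ := case33_B
  obtain ⟨K6, hK6, c33A⟩ := case33_A
  refine ⟨K1 + K2 + K3 + K4 + K5 + K6, by omega, ?_⟩
  intro p A B C' M S h hM hsz g hg hgb hz
  have hle : ∀ K, K ≤ K1 + K2 + K3 + K4 + K5 + K6 → K * M ^ 24 ≤ p ^ 7 := fun K hK =>
    (Nat.mul_le_mul_right _ hK).trans hsz
  -- from `Good` to the conclusion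
  have hgood : Good S → ∃ D : ℤ, D ≠ 0 ∧ |D| ≤ 720 * (16 * (M : ℤ) ^ 6) ^ 96 ∧
      S.card ≤ 6 * dv D + 200 := by
    rintro (hG | ⟨a, b, c, d, hne, hrel⟩)
    · exact ⟨1, one_ne_zero, by rw [abs_one]; exact All_bound M hM, by omega⟩
    · obtain ⟨D, hD0, hD, hc⟩ := h.card_bilinear hM hne hrel
      refine ⟨D, hD0, hD.trans ?_, by omega⟩
      have hM' : (1 : ℤ) ≤ M := by exact_mod_cast hM
      have h1 : (1 : ℤ) ≤ (M : ℤ) ^ 6 := one_le_pow₀ hM'
      have h2 : 16 * (M : ℤ) ^ 6 ≤ (16 * (M : ℤ) ^ 6) ^ 96 :=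
        le_self_pow₀ (by linarith) (by norm_num)
      linarith
  have hlin : SB 2 4 g → ∃ D : ℤ, D ≠ 0 ∧ |D| ≤ 720 * (16 * (M : ℤ) ^ 6) ^ 96 ∧
      S.card ≤ 6 * dv D + 200 := fun hb => lin_case h hM g hg hb hz
  have hlin' : SB 4 2 g → ∃ D : ℤ, D ≠ 0 ∧ |D| ≤ 720 * (16 * (M : ℤ) ^ 6) ^ 96 ∧
      S.card ≤ 6 * dv D + 200 := by
    intro hb
    have := lin_case h.swap hM (sw g) (All_irr_sw hg) hb.sw (All_swap_zero hz)
    rwa [Conf.card_swap] at this
  rcases All_split_x hgb with hx | hx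
  · -- degree 3 in x
    rcases All_split_y hgb with hy | hy
    · -- (3,3)
      apply hgood
      by_cases hc : S.card ≤ 200
      · exact Or.inl hc
      push Not at hc
      have hne : S.Nonempty := Finset.card_pos.mp (by omega)
      obtain ⟨P0, hP0⟩ := hne
      have hred : red p g ≠ 0 := red_ne_zero hg ⟨P0, hz P0 hP0⟩ p h.hp
      obtain ⟨ν, u, h1, h2, h3, hu, hnd⟩ := exists_nu h g 3 3 le_rfl le_rfl hgb hred hz (by omega)
      interval_cases ν
      · exact c331 p A B C' M S h hM (hle _ (by omega)) g hg hgb hx hy hz ⟨u, hu, hnd⟩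
      · exact c332 p A B C' M S h hM (hle _ (by omega)) g hg hgb hx hy hz ⟨u, hu, hnd⟩
      · obtain ⟨c, hc0, hcase⟩ := ord3 h g hgb hred hz (by omega) ⟨u, hu⟩
        rcases hcase with ⟨u1, u2, e, s1, s2, s3⟩ | ⟨u1, u2, u3, e, s1, s2, s3⟩
        · exact c33B p A B C' M S h hM (hle _ (by omega)) g hg hgb hx hy hz c u1 u2 hc0 e s1 s2 s3
        · exact c33A p A B C' M S h hM (hle _ (by omega)) g hg hgb hx hy hz c u1 u2 u3 hc0 e
            s1 s2 s3
    · rcases All_split_y hy with hy2 | hy2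
      · -- (3,2)
        apply hgood
        apply All_good_swap
        refine c23 p B A C' M _ h.swap hM (hle _ (by omega)) (sw g) (All_irr_sw hg) hy.sw ?_ ?_
          (All_swap_zero hz)
        · obtain ⟨i, hi⟩ := hy2
          exact ⟨i, by rw [cf_sw]; exact hi⟩
        · obtain ⟨j, hj⟩ := hx
          exact ⟨j, by rw [cf_sw]; exact hj⟩
      · exact hlin' hy2
  · rcases All_split_x hx with hx2 | hx2
    · -- degree 2 in x
      rcases All_split_y hx with hy | hy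
      · -- (2,3)
        apply hgood
        exact c23 p A B C' M S h hM (hle _ (by omega)) g hg hx hx2 hy hz
      · rcases All_split_y hy with hy2 | hy2
        · apply hgood
          exact c22 p A B C' M S h hM (hle _ (by omega)) g hg hy hx2 hy2 hz
        · exact hlin' (hy2.mono (by omega) le_rfl)
    · exact hlin hx2

end Pool.Agent.Helper20.H3
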