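import Mathlib
import Pool.Agent.Helper20.H3.Degree

set_option autoImplicit false

namespace Pool.Agent.Helper20.H3

open Polynomial

/-- exact degrees `a` in `x` and `b` in `y` -/
def CompDg {R : Type*} [CommRing R] (g : P2 R) (a b : ℕ) : Prop :=
  (∃ j, cf g a j ≠ 0) ∧ (∃ i, cf g i b ≠ 0) ∧ SB (a + 1) (b + 1) g

theorem Comp_exists_SB {R : Type*} [CommRing R] (g : P2 R) : ∃ N, SB N N g := by
  classical
  refine ⟨(g.natDegree + 1) + ∑ j ∈ Finset.range (g.natDegree + 1), ((g.coeff j).natDegree + 1),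
    fun i j h => ?_⟩
  have hj : j ≤ g.natDegree := by
    by_contra hc
    apply h
    unfold cf
    have h0 : g.coeff j = 0 := coeff_eq_zero_of_natDegree_lt (by omega)
    rw [h0, coeff_zero]
  have hi : i ≤ (g.coeff j).natDegree := by
    by_contra hc
    apply h
    unfold cf
    rw [coeff_eq_zero_of_natDegree_lt (by omega)]
  have h1 : (g.coeff j).natDegree + 1 ≤
      ∑ j ∈ Finset.range (g.natDegree + 1), ((g.coeff j).natDegree + 1) :=
    Finset.single_le_sum (f := fun j => (g.coeff j).natDegree + 1) (fun _ _ => Nat.zero_le _)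
      (Finset.mem_range.mpr (by omega))
  omega

theorem Comp_exists_deg {R : Type*} [CommRing R] {g : P2 R} (hg : g ≠ 0) :
    ∃ a b : ℕ, CompDg g a b := by
  classical
  obtain ⟨N, hb⟩ := Comp_exists_SB g
  obtain ⟨i0, j0, h0⟩ : ∃ i j, cf g i j ≠ 0 := by
    by_contra hc
    push Not at hc
    apply hg
    apply cf_ext
    intro i j
    rw [hc i j, cf_zero]
  have hi0 : i0 ≤ N := (hb i0 j0 h0).1.le
  have hj0 : j0 ≤ N := (hb i0 j0 h0).2.le
  refine ⟨Nat.findGreatest (fun i => ∃ j, cf g i j ≠ 0) N,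
    Nat.findGreatest (fun j => ∃ i, cf g i j ≠ 0) N, ?_, ?_, ?_⟩
  · exact Nat.findGreatest_spec (P := fun i => ∃ j, cf g i j ≠ 0) hi0 ⟨j0, h0⟩
  · exact Nat.findGreatest_spec (P := fun j => ∃ i, cf g i j ≠ 0) hj0 ⟨i0, h0⟩
  · intro i j h
    have h1 := hb i j h
    have h2 : i ≤ Nat.findGreatest (fun i => ∃ j, cf g i j ≠ 0) N :=
      Nat.le_findGreatest h1.1.le ⟨j, h⟩
    have h3 : j ≤ Nat.findGreatest (fun j => ∃ i, cf g i j ≠ 0) N :=
      Nat.le_findGreatest h1.2.le ⟨i, h⟩
    omega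

theorem Comp_const {R : Type*} [CommRing R] {q : P2 R} (h : SB 1 1 q) :
    q = C (C (cf q 0 0)) := by
  apply cf_ext
  intro i j
  by_cases hij : i < 1 ∧ j < 1
  · obtain ⟨h1, h2⟩ := hij
    have hi : i = 0 := by omega
    have hj : j = 0 := by omega
    subst hi hj
    simp [cf]
  · rw [h.zero_of hij]
    unfold cf
    rcases Nat.eq_zero_or_pos j with hj | hj
    · subst hj
      have hi : i ≠ 0 := by omega
      simp [coeff_C, hi]
    · simp [coeff_C, hj.ne']

/-- degrees of factors -/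
theorem Comp_deg_mul {R : Type*} [CommRing R] [IsDomain R] {u v : P2 R} {a b au bu av bv : ℕ}
    (hu : CompDg u au bu) (hv : CompDg v av bv) (h : SB (a + 1) (b + 1) (u * v)) :
    au + av ≤ a ∧ bu + bv ≤ b := by
  have hau : au ≤ a := by
    by_contra hc
    have h1 : SB 0 (b + 1) v := SB_of_mul hu.1 hu.2.1 (h.mono (by omega) (by omega))
    obtain ⟨j, hj⟩ := hv.1
    have := (h1 _ _ hj).1
    omega
  have hbu : bu ≤ b := by
    by_contra hc
    have h1 : SB (a + 1) 0 v := SB_of_mul hu.1 hu.2.1 (h.mono (by omega) (by omega))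
    obtain ⟨j, hj⟩ := hv.1
    have := (h1 _ _ hj).2
    omega
  have h2 : SB (a + 1 - au) (b + 1 - bu) v :=
    SB_of_mul hu.1 hu.2.1 (h.mono (by omega) (by omega))
  obtain ⟨j, hj⟩ := hv.1
  obtain ⟨i, hi⟩ := hv.2.1
  have h3 := (h2 _ _ hj).1
  have h4 := (h2 _ _ hi).2
  omega

/-- the primitive part -/
theorem Comp_prim {G : P2 ℤ} (hG0 : G ≠ 0) (hGb : SB 4 4 G) :
    ∃ (c : ℤ) (G1 : P2 ℤ), c ≠ 0 ∧ G = C (C c) * G1 ∧ SB 4 4 G1 ∧
      ∀ q : ℤ, Prime q → ∃ i j, ¬ (q ∣ cf G1 i j) := by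
  classical
  set e : Fin 4 × Fin 4 ≃ Fin (4 * 4) := finProdFinEquiv with he
  obtain ⟨c, s, hc, hs, hprim⟩ := exists_prim (n := 4 * 4)
    (fun k => cf G (e.symm k).1 (e.symm k).2) (by
      intro h0
      apply hG0
      apply cf_ext
      intro i j
      rw [cf_zero]
      by_cases hij : i < 4 ∧ j < 4
      · have h1 := congrFun h0 (e (⟨i, hij.1⟩, ⟨j, hij.2⟩))
        simpa using h1
      · exact hGb.zero_of hij)
  refine ⟨c, toP 4 4 (fun q => s (e q)), hc.ne', ?_, SB_toP _ _ _, ?_⟩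
  · apply cf_ext
    intro i j
    rw [cf_CC_mul, cf_toP]
    by_cases hij : i < 4 ∧ j < 4
    · rw [dif_pos hij]
      have h1 := hs (e (⟨i, hij.1⟩, ⟨j, hij.2⟩))
      simpa using h1
    · rw [dif_neg hij, hGb.zero_of hij, mul_zero]
  · intro q hq
    obtain ⟨k, hk⟩ := hprim q hq
    refine ⟨(e.symm k).1, (e.symm k).2, ?_⟩
    rw [cf_toP, dif_pos ⟨(e.symm k).1.2, (e.symm k).2.2⟩]
    simpa using hk

theorem Comp_deg_pos {u v : P2 ℤ} {a b : ℕ} (hu : CompDg u a b) (hnu : ¬ IsUnit u)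
    (hprim : ∀ q : ℤ, Prime q → ∃ i j, ¬ (q ∣ cf (u * v) i j)) : 1 ≤ a + b := by
  by_contra hc
  have ha : a = 0 := by omega
  have hb : b = 0 := by omega
  subst ha hb
  have h1 := Comp_const hu.2.2
  set c : ℤ := cf u 0 0 with hcdef
  apply hnu
  rw [h1]
  have hcu : IsUnit c := by
    by_contra hcn
    by_cases hc0 : c = 0
    · obtain ⟨i, j, hij⟩ := hprim 2 Int.prime_two
      apply hij
      rw [h1, cf_CC_mul, hc0, zero_mul]
      exact dvd_zero _
    · obtain ⟨r, hr, hrc⟩ := WfDvdMonoid.exists_irreducible_factor hcn hc0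
      obtain ⟨i, j, hij⟩ := hprim r hr.prime
      apply hij
      rw [h1, cf_CC_mul]
      exact Dvd.dvd.mul_right hrc _
  exact (hcu.map C).map C

theorem Comp_claim (d : ℕ) : ∀ G : P2 ℤ, G ≠ 0 → SB 4 4 G → ∀ a b : ℕ, CompDg G a b →
    a + b ≤ d → ∀ S : Finset (ℤ × ℤ), S.Nonempty → (∀ P ∈ S, evalEval P.1 P.2 G = 0) →
    ∃ g : P2 ℤ, ∃ S' ⊆ S, Irreducible g ∧ SB 4 4 g ∧ (∀ P ∈ S', evalEval P.1 P.2 g = 0) ∧
      S.card ≤ 2 ^ d * S'.card := by
  classical
  induction d with
  | zero =>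
    intro G hG0 hGb a b hD hab S hS hz
    exfalso
    have ha : a = 0 := by omega
    have hb : b = 0 := by omega
    subst ha hb
    have h1 := Comp_const hD.2.2
    obtain ⟨P, hP⟩ := hS
    have h2 := hz P hP
    rw [h1] at h2
    simp only [evalEval, eval_C] at h2
    apply hG0
    rw [h1, h2]
    simp
  | succ d ih =>
    intro G hG0 hGb a b hD hab S hS hz
    obtain ⟨c, G1, hc0, hGc, hG1b, hprim⟩ := Comp_prim hG0 hGb
    have hz1 : ∀ P ∈ S, evalEval P.1 P.2 G1 = 0 := by
      intro P hP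
      have h1 := hz P hP
      rw [hGc, evalEval_mul] at h1
      rcases mul_eq_zero.mp h1 with h2 | h2
      · exfalso
        simp only [evalEval, eval_C] at h2
        exact hc0 h2
      · exact h2
    have hcf : ∀ i j, cf G i j = c * cf G1 i j := by
      intro i j
      rw [hGc, cf_CC_mul]
    have hG1ab : SB (a + 1) (b + 1) G1 := by
      intro i j hij
      apply hD.2.2
      rw [hcf]
      exact mul_ne_zero hc0 hij
    have hG10 : G1 ≠ 0 := by
      rintro rfl
      apply hG0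
      rw [hGc, mul_zero]
    have hnu : ¬ IsUnit G1 := by
      intro hU
      obtain ⟨P, hP⟩ := hS
      have h1 := hU.map (evalEvalRingHom P.1 P.2)
      rw [show evalEvalRingHom P.1 P.2 G1 = evalEval P.1 P.2 G1 from rfl, hz1 P hP] at h1
      exact not_isUnit_zero h1
    by_cases hirr : Irreducible G1
    · refine ⟨G1, S, Finset.Subset.refl S, hirr, hG1b, hz1, ?_⟩
      have : 1 ≤ 2 ^ (d + 1) := Nat.one_le_two_pow
      nlinarith
    · rw [irreducible_iff] at hirr
      push Not at hirr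
      obtain ⟨u, v, huv, hun, hvn⟩ := hirr hnu
      have hu0 : u ≠ 0 := by
        rintro rfl
        apply hG10
        rw [huv, zero_mul]
      have hv0 : v ≠ 0 := by
        rintro rfl
        apply hG10
        rw [huv, mul_zero]
      obtain ⟨au, bu, hDu⟩ := Comp_exists_deg hu0
      obtain ⟨av, bv, hDv⟩ := Comp_exists_deg hv0
      rw [huv] at hG1ab
      have hG1b' := hG1b
      rw [huv] at hG1b'
      have hdeg := Comp_deg_mul hDu hDv hG1ab
      have hdeg4 := Comp_deg_mul (a := 3) (b := 3) hDu hDv hG1b'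
      have hpu : 1 ≤ au + bu := Comp_deg_pos (v := v) hDu hun (by rw [← huv]; exact hprim)
      have hpv : 1 ≤ av + bv := Comp_deg_pos (v := u) hDv hvn (by rw [mul_comm, ← huv]; exact hprim)
      have hub : SB 4 4 u := hDu.2.2.mono (by omega) (by omega)
      have hvb : SB 4 4 v := hDv.2.2.mono (by omega) (by omega)
      set Su : Finset (ℤ × ℤ) := S.filter (fun P => evalEval P.1 P.2 u = 0) with hSu
      set Sv : Finset (ℤ × ℤ) := S.filter (fun P => evalEval P.1 P.2 v = 0) with hSv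
      have hcover : S ⊆ Su ∪ Sv := by
        intro P hP
        have h1 := hz1 P hP
        rw [huv, evalEval_mul] at h1
        rw [Finset.mem_union, hSu, hSv, Finset.mem_filter, Finset.mem_filter]
        rcases mul_eq_zero.mp h1 with h2 | h2
        · exact Or.inl ⟨hP, h2⟩
        · exact Or.inr ⟨hP, h2⟩
      have hcard : S.card ≤ Su.card + Sv.card :=
        (Finset.card_le_card hcover).trans (Finset.card_union_le _ _)
      have hSpos : 0 < S.card := Finset.card_pos.mpr hS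
      rcases le_total Sv.card Su.card with hle | hle
      · have hne : Su.Nonempty := Finset.card_pos.mp (by omega)
        obtain ⟨g, S', hS', hg1, hg2, hg3, hg4⟩ := ih u hu0 hub au bu hDu (by omega) Su hne
          (fun P hP => (Finset.mem_filter.mp hP).2)
        refine ⟨g, S', hS'.trans (Finset.filter_subset _ _), hg1, hg2, hg3, ?_⟩
        rw [pow_succ]
        calc S.card ≤ 2 * Su.card := by omega
          _ ≤ 2 * (2 ^ d * S'.card) := by omega
          _ = 2 ^ d * 2 * S'.card := by ring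
      · have hne : Sv.Nonempty := Finset.card_pos.mp (by omega)
        obtain ⟨g, S', hS', hg1, hg2, hg3, hg4⟩ := ih v hv0 hvb av bv hDv (by omega) Sv hne
          (fun P hP => (Finset.mem_filter.mp hP).2)
        refine ⟨g, S', hS'.trans (Finset.filter_subset _ _), hg1, hg2, hg3, ?_⟩
        rw [pow_succ]
        calc S.card ≤ 2 * Sv.card := by omega
          _ ≤ 2 * (2 ^ d * S'.card) := by omega
          _ = 2 ^ d * 2 * S'.card := by ring

/-- an irreducible component containing many points -/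
theorem comp (G : P2 ℤ) (hG0 : G ≠ 0) (hGb : SB 4 4 G) (S : Finset (ℤ × ℤ)) (hS : S.Nonempty)
    (hz : ∀ P ∈ S, evalEval P.1 P.2 G = 0) :
    ∃ g : P2 ℤ, ∃ S' ⊆ S, Irreducible g ∧ SB 4 4 g ∧ (∀ P ∈ S', evalEval P.1 P.2 g = 0) ∧
      S.card ≤ 64 * S'.card := by
  obtain ⟨a, b, hD⟩ := Comp_exists_deg hG0
  have ha : a < 4 := by
    obtain ⟨j, hj⟩ := hD.1
    exact (hGb _ _ hj).1
  have hb : b < 4 := by
    obtain ⟨i, hi⟩ := hD.2.1
    exact (hGb _ _ hi).2
  exact Comp_claim 6 G hG0 hGb a b hD (by omega) S hS hz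

end Pool.Agent.Helper20.H3
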