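import Mathlib
import Pool.Agent.Helper20.H3.ValAll
import Pool.Agent.Helper20.H3.Rank
import Pool.Agent.Helper20.H3.Gain

set_option autoImplicit false

namespace Pool.Agent.Helper20.H3

open Polynomial

/-- `∏ M ^ (i + j)` over the box of side four -/
theorem Plane_prod (M : ℕ) :
    (∏ j : Fin 4 × Fin 4, ((M : ℤ) ^ ((j.1 : ℕ) + (j.2 : ℕ)))) = (M : ℤ) ^ 48 := by
  rw [Finset.prod_pow_eq_pow_sum]
  congr 1

/-- all maximal minors vanish -/
theorem Plane_det {p : ℕ} {A B C' : ℤ} {M : ℕ} {S : Finset (ℤ × ℤ)} (h : Conf p A B C' M S)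
    (hlt : (16).factorial * M ^ 48 < p ^ 14) (Q : Fin 4 × Fin 4 → ℤ × ℤ) (hQ : ∀ i, Q i ∈ S) :
    (Matrix.of fun i j => mvec 4 (Q i) j).det = 0 := by
  by_contra hne
  have : Fact p.Prime := ⟨h.hp⟩
  have hva := val_all (ρ := Fin 4 × Fin 4) (κ := Fin 0) (τ := Fin 4 × Fin 4) p h.hp
    (Equiv.sumEmpty _ _) (fun i => mvec 4 (Q i)) (fun j => Fin.elim0 j)
    (fun i j => Fin.elim0 j) (fun q _ => linearIndependent_empty_type) 4
    (fun k => (4 - k) ^ 2) (fun k _ h2 => by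
      rw [Fintype.card_fin, zero_add]
      refine (gain_plane h 4 k h2).trans (Submodule.finrank_mono ?_)
      apply LiftG_anti
      rintro _ ⟨i, rfl⟩
      exact ⟨Q i, hQ i, rfl⟩) hne
  rw [Matrix.det_isEmpty, abs_one, mul_one] at hva
  have hs : (∑ k ∈ Finset.Icc 1 4, (4 - k) ^ 2) = 14 := by decide
  rw [hs] at hva
  have hb := abs_det_le_col (Matrix.of fun i j => mvec 4 (Q i) j)
    (fun j : Fin 4 × Fin 4 => (M : ℤ) ^ ((j.1 : ℕ) + (j.2 : ℕ))) (by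
      intro i j
      obtain ⟨h1, h2, h3, h4⟩ := h.hbox _ (hQ i)
      rw [Matrix.of_apply]
      unfold mvec
      rw [abs_mul, abs_pow, abs_pow, pow_add, abs_of_nonneg h1, abs_of_nonneg h3]
      exact mul_le_mul (pow_le_pow_left₀ h1 h2 _) (pow_le_pow_left₀ h3 h4 _)
        (pow_nonneg h3 _) (by positivity))
  rw [Plane_prod] at hb
  have hcard : Fintype.card (Fin 4 × Fin 4) = 16 := by simp
  rw [hcard] at hb
  have h3 : ((p : ℤ)) ^ 14 ≤ ((16).factorial : ℤ) * (M : ℤ) ^ 48 := hva.trans hb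
  have h4 : p ^ 14 ≤ (16).factorial * M ^ 48 := by exact_mod_cast h3
  omega

/-- all points lie on one curve of bidegree at most `(3,3)` -/
theorem plane : ∃ C0 : ℕ, 1 ≤ C0 ∧ ∀ (p : ℕ) (A B C' : ℤ) (M : ℕ) (S : Finset (ℤ × ℤ)),
    Conf p A B C' M S → 1 ≤ M → C0 * M ^ 48 < p ^ 14 →
    ∃ G : P2 ℤ, G ≠ 0 ∧ SB 4 4 G ∧ ∀ P ∈ S, evalEval P.1 P.2 G = 0 := by
  refine ⟨(16).factorial, Nat.factorial_pos _, ?_⟩
  intro p A B C' M S h _ hlt
  obtain ⟨W, hW, hWS⟩ := rank_rel (S : Set (ℤ × ℤ)) (fun P => mvec 4 P)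
    (fun Q hQ => Plane_det h hlt Q hQ)
  refine ⟨toP 4 4 W, ?_, SB_toP _ _ _, ?_⟩
  · intro h0
    apply hW
    apply toP_injective 4 4
    rw [h0]
    apply cf_ext
    intro i j
    rw [cf_toP]
    simp
  · intro P hP
    rw [ev_toP]
    exact hWS P hP

end Pool.Agent.Helper20.H3
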