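import Mathlib
import Pool.Agent.Helper20.H3.All
import Pool.Agent.Helper20.H3.Plane
import Pool.Agent.Helper20.H3.Comp

set_option autoImplicit false

namespace Pool.Agent.Helper20.H3

open Polynomial

/-- the main bound for a small box -/
theorem card_bound3 : ∃ C0 : ℕ, 1 ≤ C0 ∧ ∀ (p : ℕ) (A B C' : ℤ) (M : ℕ) (S : Finset (ℤ × ℤ)),
      Conf p A B C' M S → 1 ≤ M → C0 * M ^ 24 ≤ p ^ 7 →
      ∃ D : ℤ, D ≠ 0 ∧ |D| ≤ 720 * (16 * (M : ℤ) ^ 6) ^ 96 ∧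
        S.card ≤ 64 * (6 * dv D + 200) := by
  obtain ⟨K1, hK1, hirr⟩ := irr_case
  obtain ⟨K2, hK2, hplane⟩ := plane
  obtain ⟨K3, hK3, hpow⟩ := powcmp K2 14 48 (by norm_num) (by norm_num)
  refine ⟨K1 + K3, by omega, ?_⟩
  intro p A B C' M S h hM hsz
  have h1 : K1 * M ^ 24 ≤ p ^ 7 := (Nat.mul_le_mul_right _ (by omega)).trans hsz
  have h3 : K3 * M ^ 24 ≤ p ^ 7 := (Nat.mul_le_mul_right _ (by omega)).trans hsz
  rcases S.eq_empty_or_nonempty with hS | hS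
  · refine ⟨1, one_ne_zero, by rw [abs_one]; exact All_bound M hM, ?_⟩
    rw [hS]; simp
  obtain ⟨G, hG0, hGb, hGz⟩ := hplane p A B C' M S h hM (hpow p M hM h3)
  obtain ⟨g, S', hS', hg, hgb, hgz, hcard⟩ := comp G hG0 hGb S hS hGz
  obtain ⟨D, hD0, hD, hc⟩ := hirr p A B C' M S' (h.subset hS') hM h1 g hg hgb hgz
  exact ⟨D, hD0, hD, hcard.trans (Nat.mul_le_mul_left _ hc)⟩

end Pool.Agent.Helper20.H3
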