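import Mathlib
import Pool.Agent.Helper20.H3.Flag
import Pool.Agent.Helper20.H3.Val
import Pool.Agent.Helper20.H3.ValAll
import Pool.Agent.Helper20.H3.DetDom
import Pool.Agent.Helper20.H3.Domi
import Pool.Agent.Helper20.H3.Rank
import Pool.Agent.Helper20.H3.Degree
import Pool.Agent.Helper20.H3.BezMod
import Pool.Agent.Helper20.H3.Bez
import Pool.Agent.Helper20.H3.Gain
import Pool.Agent.Helper20.H3.GainB
import Pool.Agent.Helper20.H3.Curve
import Pool.Agent.Helper20.H3.CurveX
import Pool.Agent.Helper20.H3.Plane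
import Pool.Agent.Helper20.H3.Comp
import Pool.Agent.Helper20.H3.SmallC
import Pool.Agent.Helper20.H3.LinCase
import Pool.Agent.Helper20.H3.Order
import Pool.Agent.Helper20.H3.Lead
import Pool.Agent.Helper20.H3.Norm1
import Pool.Agent.Helper20.H3.Quad
import Pool.Agent.Helper20.H3.Cubic
import Pool.Agent.Helper20.H3.Root
import Pool.Agent.Helper20.H3.OSL
import Pool.Agent.Helper20.H3.Two
import Pool.Agent.Helper20.H3.Corner
import Pool.Agent.Helper20.H3.Pow
import Pool.Agent.Helper20.H3.Case22
import Pool.Agent.Helper20.H3.Case23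
import Pool.Agent.Helper20.H3.Case33a
import Pool.Agent.Helper20.H3.Case33b
import Pool.Agent.Helper20.H3.Case33c
import Pool.Agent.Helper20.H3.Case33d
import Pool.Agent.Helper20.H3.All
import Pool.Agent.Helper20.H3.Main
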